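import Pool.Agent.Work.MP_5cb0a4_pr.Z.Basic

open MeasureTheory Finset MvPolynomial Filter Topology

namespace Pool.Agent.Work.MP_5cb0a4_pr.Z

theorem pk_nonneg (n : ℕ) (x : V) : 0 ≤ pk n x := by
  induction n generalizing x with
  | zero => rw [pk]; split_ifs <;> norm_num
  | succ n ih => rw [pk]; exact div_nonneg (sum_nonneg fun d _ => ih _) (by norm_num)

theorem pk_eq_zero {n : ℕ} {x : V} (h : x ∉ box n) : pk n x = 0 := by
  induction n generalizing x with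
  | zero =>
    rw [pk, if_neg]
    rintro rfl
    exact h (mem_box.2 fun i => by simp)
  | succ n ih =>
    rw [pk, sum_eq_zero fun d _ => ih fun hd => h ?_, zero_div]
    have := add_dv_mem_box hd (d.1, !d.2)
    rwa [dv_not, add_neg_cancel_right] at this

lemma Watson_pair {m v W : ℝ} (hm : 0 < m) (hW : 4 * v ^ 2 = W * m ^ 2) (h4 : W ≤ 1 / 4) :
    1 / √(m + 2 * v) + 1 / √(m - 2 * v) ≤ 2 * (1 + 3 / 8 * W + 3 / 8 * W ^ 2) / √m := by
  have hm2 : 0 < m ^ 2 := by positivity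
  have W0 : 0 ≤ W := by
    by_contra h
    linarith only [hW, h, hm2, mul_pos (neg_pos.2 (not_le.1 h)) hm2, sq_nonneg v, sq_nonneg v]
  have hv : (4 * v) ^ 2 ≤ m ^ 2 := by linarith only [hW, h4, mul_nonneg_of_nonpos_of_nonpos (Mathlib.Tactic.Linarith.sub_nonpos_of_le (sq_nonneg m)) (Mathlib.Tactic.Linarith.sub_nonpos_of_le h4)]
  obtain ⟨v1, v2⟩ := abs_le.1 (abs_le_of_sq_le_sq' hv hm.le |> abs_le.2)
  have a1 : 0 < m + 2 * v := by linarith only [hm, v1]
  have a2 : 0 < m - 2 * v := by linarith only [hm, v2]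
  have p0 := Real.sqrt_pos.2 a1
  have q0 := Real.sqrt_pos.2 a2
  have k0 := Real.sqrt_pos.2 hm
  have p2 := Real.sq_sqrt a1.le
  have q2 := Real.sq_sqrt a2.le
  have k2 := Real.sq_sqrt hm.le
  generalize √(m + 2 * v) = p at p0 p2
  generalize √(m - 2 * v) = q at q0 q2
  generalize √m = k at k0 k2
  have e1 : (p * q) ^ 2 = m ^ 2 * (1 - W) := by rw [mul_pow, p2, q2]; linarith only [hW]
  have e2 : p * q ≤ m * (1 - W / 2 - W ^ 2 / 8) := by
    refine (abs_le_of_sq_le_sq' ?_ (mul_nonneg hm.le (by (refine le_of_not_gt fun h_nl => ?_; linarith only [h_nl, hW, hm2, hv, h4, mul_nonneg_of_nonpos_of_nonpos (Mathlib.Tactic.Linarith.sub_nonpos_of_le (sq_nonneg m)) (le_of_lt (Mathlib.Tactic.Linarith.sub_neg_of_lt h_nl)), mul_nonneg_of_nonpos_of_nonpos (Mathlib.Tactic.Linarith.sub_nonpos_of_le (sq_nonneg v)) (Mathlib.Tactic.Linarith.sub_nonpos_of_le h4), Mathlib.Tactic.Linarith.zero_mul_eq (sub_eq_zero_of_eq hW) (Mathlib.Tactic.Linarith.sub_nonpos_of_le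 h4)])))).2
    rw [e1, mul_pow]
    refine mul_le_mul_of_nonneg_left ?_ hm2.le
    have : 0 ≤ W ^ 3 / 8 + W ^ 4 / 64 := by positivity
    linarith only [this]
  have e3 : 4 - W - W ^ 2 / 4 ≤ (2 * (1 + 3 / 8 * W + 3 / 8 * W ^ 2)) ^ 2 * (1 - W) := by
    have b1 : W ^ 3 ≤ W ^ 2 / 4 := by linarith only [h4, sq_nonneg W, mul_nonneg_of_nonpos_of_nonpos (Mathlib.Tactic.Linarith.sub_nonpos_of_le (sq_nonneg W)) (Mathlib.Tactic.Linarith.sub_nonpos_of_le h4)]
    have b2 : W ^ 4 ≤ W ^ 2 / 16 := by linarith only [b1, h4, W0, sq_nonneg W, pow_nonneg W0 3, mul_nonneg_of_nonpos_of_nonpos (Mathlib.Tactic.Linarith.sub_nonpos_of_le h4) (Mathlib.Tactic.Linarith.sub_nonpos_of_le (pow_nonneg W0 (3 : ℕ)))]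
    have b3 : W ^ 5 ≤ W ^ 2 / 64 := by linarith only [b2, b1, sq_nonneg W, pow_nonneg W0 4, mul_nonneg_of_nonpos_of_nonpos (Mathlib.Tactic.Linarith.sub_nonpos_of_le (sq_nonneg W)) (Mathlib.Tactic.Linarith.sub_nonpos_of_le b1)]
    linarith only [b1, b2, b3, sq_nonneg W, sq_nonneg W]
  rw [div_add_div _ _ p0.ne' q0.ne', div_le_div_iff₀ (mul_pos p0 q0) k0]
  refine (abs_le_of_sq_le_sq' ?_ (by positivity)).2
  have e4 : ((1 * q + p * 1) * k) ^ 2 ≤ m ^ 2 * (4 - W - W ^ 2 / 4) := by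
    have : (1 * q + p * 1) ^ 2 ≤ m * (4 - W - W ^ 2 / 4) := by linarith only [p2, q2, e2]
    rw [mul_pow, k2]
    linarith only [this, hm, mul_le_mul_of_nonneg_right this hm.le]
  have e5 := mul_le_mul_of_nonneg_left e3 hm2.le
  rw [mul_pow _ (p * q), e1]
  linarith only [e4, e5]

lemma Watson_harm (a b c : ℝ) :
    1 / √((a + 1) ^ 2 + b ^ 2 + c ^ 2 + 3) + 1 / √((a - 1) ^ 2 + b ^ 2 + c ^ 2 + 3) +
      (1 / √(a ^ 2 + (b + 1) ^ 2 + c ^ 2 + 3) + 1 / √(a ^ 2 + (b - 1) ^ 2 + c ^ 2 + 3)) +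
      (1 / √(a ^ 2 + b ^ 2 + (c + 1) ^ 2 + 3) + 1 / √(a ^ 2 + b ^ 2 + (c - 1) ^ 2 + 3)) ≤
      6 * (1 / √(a ^ 2 + b ^ 2 + c ^ 2 + 3)) := by
  obtain ⟨m, hm⟩ : ∃ m, m = a ^ 2 + b ^ 2 + c ^ 2 + 4 := ⟨_, rfl⟩
  have m4 : 4 ≤ m := by rw [hm]; linarith only [sq_nonneg a, sq_nonneg b, sq_nonneg c, sq_nonneg c, sq_nonneg b, sq_nonneg a]
  have m0 : 0 < m := by linarith only [m4]
  have key : ∀ v : ℝ, v ^ 2 ≤ m - 4 → 1 / √(m + 2 * v) + 1 / √(m - 2 * v) ≤
      2 * (1 + 3 / 8 * (4 * v ^ 2 / m ^ 2) + 3 / 8 * (4 * v ^ 2 / m ^ 2) ^ 2) / √m := fun v hv =>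
    Watson_pair m0 (by field_simp) (by
      rw [div_le_iff₀ (by positivity)]; linarith only [hv, sq_nonneg (m - 8), sq_nonneg (m - (8 : ℝ))])
  have ha := key a (by rw [hm]; linarith only [sq_nonneg b, sq_nonneg c, sq_nonneg c, sq_nonneg b])
  have hb := key b (by rw [hm]; linarith only [sq_nonneg a, sq_nonneg c, sq_nonneg c, sq_nonneg a])
  have hc := key c (by rw [hm]; linarith only [sq_nonneg a, sq_nonneg b, sq_nonneg b, sq_nonneg a])
  have e1 : (a + 1) ^ 2 + b ^ 2 + c ^ 2 + 3 = m + 2 * a := by rw [hm]; ring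
  have e2 : (a - 1) ^ 2 + b ^ 2 + c ^ 2 + 3 = m - 2 * a := by rw [hm]; ring
  have e3 : a ^ 2 + (b + 1) ^ 2 + c ^ 2 + 3 = m + 2 * b := by rw [hm]; ring
  have e4 : a ^ 2 + (b - 1) ^ 2 + c ^ 2 + 3 = m - 2 * b := by rw [hm]; ring
  have e5 : a ^ 2 + b ^ 2 + (c + 1) ^ 2 + 3 = m + 2 * c := by rw [hm]; ring
  have e6 : a ^ 2 + b ^ 2 + (c - 1) ^ 2 + 3 = m - 2 * c := by rw [hm]; ring
  have e7 : a ^ 2 + b ^ 2 + c ^ 2 + 3 = m - 1 := by rw [hm]; ring
  rw [e1, e2, e3, e4, e5, e6, e7]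
  refine (add_le_add (add_le_add ha hb) hc).trans ?_
  have s1 : 4 * a ^ 2 / m ^ 2 + 4 * b ^ 2 / m ^ 2 + 4 * c ^ 2 / m ^ 2 =
      4 * (1 / m) - 16 * (1 / m) ^ 2 := by
    have : a ^ 2 + b ^ 2 + c ^ 2 = m - 4 := by rw [hm]; ring
    rw [← add_div, ← add_div, ← mul_add, ← mul_add, this]
    field_simp
    ring
  have A0 : 0 ≤ 4 * a ^ 2 / m ^ 2 := by positivity
  have B0 : 0 ≤ 4 * b ^ 2 / m ^ 2 := by positivity
  have C0 : 0 ≤ 4 * c ^ 2 / m ^ 2 := by positivity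
  have y0 : 0 < 1 / m := by positivity
  have y1 : m - 1 = m * (1 - 1 / m) := by field_simp
  generalize 4 * a ^ 2 / m ^ 2 = A at *
  generalize 4 * b ^ 2 / m ^ 2 = B at *
  generalize 4 * c ^ 2 / m ^ 2 = C at *
  generalize 1 / m = y at *
  have s2 : A ^ 2 + B ^ 2 + C ^ 2 ≤ 16 * y ^ 2 := by
    have t1 : A + B + C ≤ 4 * y := by linarith only [s1, sq_nonneg y, sq_nonneg y]
    have t2 := pow_le_pow_left₀ (by positivity) t1 2
    linarith only [t2, A0, B0, C0, mul_nonneg A0 B0, mul_nonneg A0 C0, mul_nonneg B0 C0]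
  have k0 := Real.sqrt_pos.2 m0
  have k1 := Real.sqrt_pos.2 (by linarith only [m4] : 0 < m - 1)
  rw [← add_div, ← add_div, mul_one_div]
  refine (div_le_div_of_nonneg_right (b := 6 * (1 + y / 2)) (by linarith only [s1, s2]) k0.le).trans ?_
  rw [div_le_div_iff₀ k0 k1, mul_assoc]
  refine mul_le_mul_of_nonneg_left ?_ (by norm_num)
  refine Real.le_sqrt_of_sq_le ?_
  rw [mul_pow, Real.sq_sqrt (by linarith only [m4]), y1]
  have : (1 + y / 2) ^ 2 * (1 - y) ≤ 1 := by linarith only [y0, sq_nonneg y, pow_pos y0 3, sq_nonneg y]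
  linarith only [this, m0, mul_le_mul_of_nonneg_left this m0.le]

/-- Values on the box of radius five. -/
def Watson_L : List ℕ :=
  [15424, 5424, 2833, 1912, 1478, 1229, 5424, 3571, 2415, 1790, 1431, 1208,
    2833, 2415, 1941, 1581, 1327, 1150, 1912, 1790, 1581, 1376, 1204, 1069,
    1478, 1431, 1327, 1204, 1085, 980, 1229, 1208, 1150, 1069, 980, 893,
    5424, 3571, 2415, 1790, 1431, 1208, 3571, 2874, 2177, 1700, 1391, 1187,
    2415, 2177, 1827, 1525, 1297, 1132, 1790, 1700, 1525, 1342, 1183, 1055,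
    1431, 1391, 1297, 1183, 1070, 969, 1208, 1187, 1132, 1055, 969, 885,
    2833, 2415, 1941, 1581, 1327, 1150, 2415, 2177, 1827, 1525, 1297, 1132,
    1941, 1827, 1614, 1401, 1223, 1084, 1581, 1525, 1401, 1259, 1127, 1016,
    1327, 1297, 1223, 1127, 1029, 939, 1150, 1132, 1084, 1016, 939, 861,
    1912, 1790, 1581, 1376, 1204, 1069, 1790, 1700, 1525, 1342, 1183, 1055,
    1581, 1525, 1401, 1259, 1127, 1016, 1376, 1342, 1259, 1156, 1052, 959,
    1204, 1183, 1127, 1052, 971, 893, 1069, 1055, 1016, 959, 893, 826,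
    1478, 1431, 1327, 1204, 1085, 980, 1431, 1391, 1297, 1183, 1070, 969,
    1327, 1297, 1223, 1127, 1029, 939, 1204, 1183, 1127, 1052, 971, 893,
    1085, 1070, 1029, 971, 906, 840, 980, 969, 939, 893, 840, 783,
    1229, 1208, 1150, 1069, 980, 893, 1208, 1187, 1132, 1055, 969, 885,
    1150, 1132, 1084, 1016, 939, 861, 1069, 1055, 1016, 959, 893, 826,
    980, 969, 939, 893, 840, 783, 893, 885, 861, 826, 783, 736]

/-- The table. -/
def Watson_tab (a b c : ℤ) : ℤ := Watson_L.getD (36 * a.natAbs + 6 * b.natAbs + c.natAbs) 0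

/-- Membership in a box. -/
def Watson_In (t a b c : ℤ) : Prop := (-t ≤ a ∧ a ≤ t) ∧ (-t ≤ b ∧ b ≤ t) ∧ -t ≤ c ∧ c ≤ t

instance (t a b c : ℤ) : Decidable (Watson_In t a b c) := by unfold Watson_In; infer_instance

lemma Watson_c1 : ∀ a ∈ Finset.Icc (-4 : ℤ) 4, ∀ b ∈ Finset.Icc (-4 : ℤ) 4,
    ∀ c ∈ Finset.Icc (-4 : ℤ) 4, (if Watson_In 0 a b c then 60000 else 0) +
      (Watson_tab (a + 1) b c + Watson_tab (a - 1) b c +
        (Watson_tab a (b + 1) c + Watson_tab a (b - 1) c) +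
        (Watson_tab a b (c + 1) + Watson_tab a b (c - 1))) ≤ 6 * Watson_tab a b c := by
  decide +kernel

lemma Watson_c2 : ∀ a ∈ Finset.Icc (-4 : ℤ) 4, ∀ b ∈ Finset.Icc (-4 : ℤ) 4,
    ∀ c ∈ Finset.Icc (-4 : ℤ) 4, ¬Watson_In 3 a b c →
      Watson_tab a b c ^ 2 * (a ^ 2 + b ^ 2 + c ^ 2 + 3) ≤ 6500 ^ 2 := by
  decide +kernel

lemma Watson_c3 : ∀ a ∈ Finset.Icc (-5 : ℤ) 5, ∀ b ∈ Finset.Icc (-5 : ℤ) 5,
    ∀ c ∈ Finset.Icc (-5 : ℤ) 5, ¬Watson_In 4 a b c →
      6500 ^ 2 ≤ Watson_tab a b c ^ 2 * (a ^ 2 + b ^ 2 + c ^ 2 + 3) := by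
  decide +kernel

lemma Watson_tab_nonneg (a b c : ℤ) : (0 : ℝ) ≤ Watson_tab a b c := by
  have : 0 ≤ Watson_tab a b c := Int.natCast_nonneg _
  exact_mod_cast this

/-- The far field. -/
noncomputable def Watson_F (a b c : ℤ) : ℝ := 6500 * (1 / √((a : ℝ) ^ 2 + b ^ 2 + c ^ 2 + 3))

/-- The supersolution, times ten thousand. -/
noncomputable def Watson_U (a b c : ℤ) : ℝ :=
  if Watson_In 4 a b c then Watson_tab a b c else Watson_F a b c

lemma Watson_U_nonneg (a b c : ℤ) : 0 ≤ Watson_U a b c := by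
  unfold Watson_U Watson_F
  split_ifs
  · exact Watson_tab_nonneg a b c
  · positivity

lemma Watson_le_tab {a b c : ℤ} (h : Watson_In 5 a b c) : Watson_U a b c ≤ Watson_tab a b c := by
  unfold Watson_U
  split_ifs with h4
  · exact le_rfl
  have h1 := Watson_c3 a (Finset.mem_Icc.2 h.1) b (Finset.mem_Icc.2 h.2.1) c
    (Finset.mem_Icc.2 h.2.2) h4
  have h2 : (6500 : ℝ) ^ 2 ≤ (Watson_tab a b c : ℝ) ^ 2 * ((a : ℝ) ^ 2 + b ^ 2 + c ^ 2 + 3) := by
    exact_mod_cast h1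
  have h3 : (0 : ℝ) < (a : ℝ) ^ 2 + b ^ 2 + c ^ 2 + 3 := by positivity
  rw [Watson_F, mul_one_div, div_le_iff₀ (Real.sqrt_pos.2 h3)]
  refine (abs_le_of_sq_le_sq' ?_ (mul_nonneg (Watson_tab_nonneg a b c) (Real.sqrt_nonneg _))).2
  rwa [mul_pow, Real.sq_sqrt h3.le]

lemma Watson_le_F {a b c : ℤ} (h : ¬Watson_In 3 a b c) : Watson_U a b c ≤ Watson_F a b c := by
  unfold Watson_U
  split_ifs with h4
  swap
  · exact le_rfl
  have h1 := Watson_c2 a (Finset.mem_Icc.2 h4.1) b (Finset.mem_Icc.2 h4.2.1) c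
    (Finset.mem_Icc.2 h4.2.2) h
  have h2 : (Watson_tab a b c : ℝ) ^ 2 * ((a : ℝ) ^ 2 + b ^ 2 + c ^ 2 + 3) ≤ (6500 : ℝ) ^ 2 := by
    exact_mod_cast h1
  have h3 : (0 : ℝ) < (a : ℝ) ^ 2 + b ^ 2 + c ^ 2 + 3 := by positivity
  rw [Watson_F, mul_one_div, le_div_iff₀ (Real.sqrt_pos.2 h3)]
  refine (abs_le_of_sq_le_sq' ?_ (by norm_num)).2
  rwa [mul_pow, Real.sq_sqrt h3.le]

lemma Watson_super (a b c : ℤ) : (if Watson_In 0 a b c then 60000 else 0) +
    (Watson_U (a + 1) b c + Watson_U (a - 1) b c +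
      (Watson_U a (b + 1) c + Watson_U a (b - 1) c) +
      (Watson_U a b (c + 1) + Watson_U a b (c - 1))) ≤ 6 * Watson_U a b c := by
  by_cases h : Watson_In 4 a b c
  · have h1 := Watson_c1 a (Finset.mem_Icc.2 h.1) b (Finset.mem_Icc.2 h.2.1) c
      (Finset.mem_Icc.2 h.2.2)
    have h2 := (Int.cast_le (R := ℝ)).2 h1
    push_cast at h2
    have h3 : Watson_U a b c = Watson_tab a b c := if_pos h
    unfold Watson_In at h
    have a1 := Watson_le_tab (a := a + 1) (b := b) (c := c) (by unfold Watson_In; omega)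
    have a2 := Watson_le_tab (a := a - 1) (b := b) (c := c) (by unfold Watson_In; omega)
    have a3 := Watson_le_tab (a := a) (b := b + 1) (c := c) (by unfold Watson_In; omega)
    have a4 := Watson_le_tab (a := a) (b := b - 1) (c := c) (by unfold Watson_In; omega)
    have a5 := Watson_le_tab (a := a) (b := b) (c := c + 1) (by unfold Watson_In; omega)
    have a6 := Watson_le_tab (a := a) (b := b) (c := c - 1) (by unfold Watson_In; omega)
    linarith only [h2, h3, a1, a2, a3, a4, a5, a6]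
  · have h3 : Watson_U a b c = Watson_F a b c := if_neg h
    rw [if_neg (by unfold Watson_In at h ⊢; omega)]
    unfold Watson_In at h
    have a1 := Watson_le_F (a := a + 1) (b := b) (c := c) (by unfold Watson_In; omega)
    have a2 := Watson_le_F (a := a - 1) (b := b) (c := c) (by unfold Watson_In; omega)
    have a3 := Watson_le_F (a := a) (b := b + 1) (c := c) (by unfold Watson_In; omega)
    have a4 := Watson_le_F (a := a) (b := b - 1) (c := c) (by unfold Watson_In; omega)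
    have a5 := Watson_le_F (a := a) (b := b) (c := c + 1) (by unfold Watson_In; omega)
    have a6 := Watson_le_F (a := a) (b := b) (c := c - 1) (by unfold Watson_In; omega)
    have h4 := Watson_harm a b c
    simp only [Watson_F, Int.cast_add, Int.cast_sub, Int.cast_one] at a1 a2 a3 a4 a5 a6 h3
    linarith only [h3, h4, a1, a2, a3, a4, a5, a6]

lemma Watson_le (N : ℕ) (x : V) :
    ∑ n ∈ range N, pk n x ≤ Watson_U (x 0) (x 1) (x 2) / 10000 := by
  induction N generalizing x with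
  | zero => rw [sum_range_zero]; exact div_nonneg (Watson_U_nonneg _ _ _) (by norm_num)
  | succ N ih =>
    have h1 := sum_le_sum fun d (_ : d ∈ (univ : Finset Dir)) => ih (x + dv d)
    have h2 : ∑ d : Dir, Watson_U ((x + dv d) 0) ((x + dv d) 1) ((x + dv d) 2) =
        Watson_U (x 0 + 1) (x 1) (x 2) + Watson_U (x 0 - 1) (x 1) (x 2) +
        (Watson_U (x 0) (x 1 + 1) (x 2) + Watson_U (x 0) (x 1 - 1) (x 2)) +
        (Watson_U (x 0) (x 1) (x 2 + 1) + Watson_U (x 0) (x 1) (x 2 - 1)) := by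
      simp [Fintype.sum_prod_type, Fin.sum_univ_three, dv, sub_eq_add_neg]
    have h3 := Watson_super (x 0) (x 1) (x 2)
    have h4 : pk 0 x ≤ (if Watson_In 0 (x 0) (x 1) (x 2) then 60000 else 0) / 60000 := by
      rw [pk]
      by_cases h : x = 0
      · rw [if_pos h, if_pos (by simp [h, Watson_In])]; norm_num
      · rw [if_neg h]; split_ifs <;> norm_num
    rw [← sum_div, h2, sum_comm] at h1
    rw [sum_range_succ']
    simp only [pk] at h4 ⊢
    rw [← sum_div]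
    linarith only [h1, h3, h4]

/-- Upper bound for the Green function of the cubic lattice at the origin (true value 1.5164). -/
theorem watson (N : ℕ) : ∑ n ∈ range N, pk n 0 ≤ 31 / 20 := by
  refine (Watson_le N 0).trans ?_
  have : Watson_tab 0 0 0 = 15424 := by decide +kernel
  simp only [Pi.zero_apply, Watson_U]
  rw [if_pos (by unfold Watson_In; omega), this]
  norm_num

end Pool.Agent.Work.MP_5cb0a4_pr.Z
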