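import Pool.Agent.Work.MP_5cb0a4_pr.Z.Basic
import Pool.Agent.Work.MP_5cb0a4_pr.Z.Watson

-- merged part: Pool.Agent.Work.MP_5cb0a4_pr.N.Basic
section
/-!
Definitions for the theorem on a neighbourhood of mean current zero.
Paper proof: team store file h54_dimer_nbhd_writeup.md.
-/

open MeasureTheory Finset Filter Topology
open scoped Classical

namespace Pool.Agent.Work.MP_5cb0a4_pr.Z

noncomputable section

/-! ### Centred fluxes -/

/-- The l1 norm. -/
def n1 (s : Fin 3 → ℝ) : ℝ := ∑ i, |s i|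

/-- The scalar product of `s` with a lattice direction. -/
def sd (s : Fin 3 → ℝ) (d : Dir) : ℝ := if d.2 then s d.1 else -s d.1

/-- Direction weights with mean `s`. -/
def pS (s : Fin 3 → ℝ) (d : Dir) : ℝ := (1 - n1 s) / 6 + max (sd s d) 0

/-- The weight of the edge from `x` in direction `d`. -/
def pe (s : Fin 3 → ℝ) (x : V) (d : Dir) : ℝ := if IsEven x then pS s d else pS s (d.1, !d.2)

/-- The flow centred at `s` along the edge from `x` in direction `d`. -/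
def flp (s : Fin 3 → ℝ) (σ : V → V) (x : V) (d : Dir) : ℝ :=
  sg x * ((if σ x = x + dv d then 1 else 0) - pe s x d)

/-- Centred flux through a square. -/
def FQp (s : Fin 3 → ℝ) (σ : V → V) (d : Dir) (c : V) (l : ℕ) : ℝ :=
  ∑ x ∈ sq d.1 c l, flp s σ x d

/-- Total centred flux out of the box of radius `t`. -/
def Php (s : Fin 3 → ℝ) (σ : V → V) (t : ℕ) : ℝ :=
  ∑ d : Dir, FQp s σ d (corner d t 0 (0, 0)) (2 * t + 1)

/-- Centred flux from the part of `S` in level `t` to level `t + 1`. -/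
def Outp (s : Fin 3 → ℝ) (σ : V → V) (S : Finset V) (t : ℕ) : ℝ :=
  ∑ x ∈ lev t ∩ S, ∑ d : Dir, if x + dv d ∈ box t then 0 else flp s σ x d

/-- Sum over the squares of the levels `lo < t < hi`. -/
def lsum (lo hi l : ℕ) (f : Dir → V → ℝ) : ℝ :=
  ∑ t ∈ Finset.Ioo lo hi, ∑ d : Dir, ∑ p ∈ sqs t l, f d (corner d t l p)

/-- Sum of squared centred fluxes over the squares of the levels `lo < t < hi`. -/
def Psp (s : Fin 3 → ℝ) (lo hi l : ℕ) (σ : V → V) : ℝ :=
  lsum lo hi l fun d c => FQp s σ d c l ^ 2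

/-- Radius of the inner box. -/
def rin (b k : ℕ) : ℕ := b - 4 * (b / k)

/-- Outer levels. -/
def PsO (s : Fin 3 → ℝ) (b k l : ℕ) (σ : V → V) : ℝ := Psp s (b - b / k) b l σ

/-- Inner levels. -/
def PsI (s : Fin 3 → ℝ) (b k l : ℕ) (σ : V → V) : ℝ := Psp s (rin b k) (rin b k + b / k) l σ

/-- The conclusion of the patching lemma with constants `k`, `c`, `C`. -/
def PatchAt (s : Fin 3 → ℝ) (k : ℕ) (c : ℝ) (C : ℕ) : Prop :=
  ∀ l b : ℕ, 1 ≤ l → C * l ^ 3 ≤ b ^ 2 → ∀ σ τ : V → V, IsExt σ → IsExt τ →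
    (∀ x ∈ box (b - 1), τ x ≠ x) → (∀ x ∈ box b, x ∉ box (rin b k) → σ x ≠ x) →
    ∑ x ∈ mon (box (rin b k)) σ, sg x = 0 →
    PsO s b k l σ < c * (b : ℝ) ^ 3 * (l : ℝ) ^ 2 → PsI s b k l τ < c * (b : ℝ) ^ 3 * (l : ℝ) ^ 2 →
    ∃ ρ ∈ perf (box b) σ, ∀ x ∈ box (rin b k), ρ x = τ x

/-! ### Measures -/

/-- Invariant measures with the DLR property. -/
structure IM (ν : Measure Dimer) : Prop where
  prob : IsProbabilityMeasure ν
  inv : ∀ v, IsEven v → MeasurePreserving (shift v) ν ν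
  dlr : ∀ (Λ Λ' : Finset V) (g : (V → V) → ℝ), Local Λ' g →
    ∫ τ, gam Λ g τ.1 ∂ν = ∫ τ, g τ.1 ∂ν

/-- Large partition functions up to `ε`. -/
def LPe (ν : Measure Dimer) (ε : ℝ) : Prop :=
  ∃ L₀ : ℕ, ∀ L ≥ L₀, ∫ τ, Real.log (Zs L / zz (box L) τ.1) ∂ν ≤ ε * (L : ℝ) ^ 3

/-- Invariant DLR measures of maximal entropy. -/
structure KM (ν : Measure Dimer) : Prop where
  im : IM ν
  lp : ∀ ε : ℝ, 0 < ε → LPe ν ε

/-- Almost surely invariant events. -/
def AInv (ν : Measure Dimer) (B : Set Dimer) : Prop :=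
  MeasurableSet B ∧ ∀ v, IsEven v → shift v ⁻¹' B =ᵐ[ν] B

/-- The local current field. -/
structure IsJ (ν : Measure Dimer) (J : Dimer → Fin 3 → ℝ) : Prop where
  meas : Measurable J
  inv : ∀ v, IsEven v → (fun τ => J (shift v τ)) =ᵐ[ν] J
  mem : ∀ i, MemLp (fun τ => J τ i) 2 ν
  flux : ∀ η : ℝ, 0 < η → ∃ l₀ : ℕ, ∀ l ≥ l₀, ∀ (i : Fin 3) (c : V),
    ∫ τ, (FQ τ.1 (i, true) c l - J τ i * (l : ℝ) ^ 2 / 2) ^ 2 ∂ν ≤ η * (l : ℝ) ^ 4

/-- Mesoscopic fluxes concentrate at `s`. -/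
def FluxAt (ν : Measure Dimer) (s : Fin 3 → ℝ) : Prop :=
  ∀ η : ℝ, 0 < η → ∃ l₀ : ℕ, ∀ l ≥ l₀, ∀ (d : Dir) (c : V),
    ∫ τ, FQp s τ.1 d c l ^ 2 ∂ν ≤ η * (l : ℝ) ^ 4

/-! ### Bilayer configurations -/

/-- Half edges: a vertex and a layer. -/
abbrev HE : Type := V × Bool

/-- Bilayer configurations. -/
def BExt (μ : HE → HE) : Prop := ∀ h, (μ h = h ∨ Nbr h.1 (μ h).1) ∧ μ (μ h) = h

lemma cls2_finite (Λ : Finset V) (μ : HE → HE) :
    {μ' : HE → HE | BExt μ' ∧ ∀ h : HE, h.1 ∉ Λ → μ' h = μ h}.Finite := by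
  let N : HE → Finset HE := fun h => insert h ((univ.image fun d : Dir => h.1 + dv d) ×ˢ univ)
  let ext : (∀ h ∈ Λ ×ˢ (univ : Finset Bool), HE) → HE → HE := fun f h =>
    if hh : h ∈ Λ ×ˢ (univ : Finset Bool) then f h hh else μ h
  refine Set.Finite.subset (((Λ ×ˢ (univ : Finset Bool)).pi N).image ext).finite_toSet ?_
  rintro ρ ⟨hρ, hσ⟩
  simp only [coe_image, Set.mem_image, mem_coe, Finset.mem_pi]
  refine ⟨fun x _ => ρ x, fun x _ => ?_, funext fun x => ?_⟩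
  · rcases (hρ x).1 with h | h
    · simp [N, h]
    · obtain ⟨d, hd⟩ := nbr_iff.1 h
      simp only [N, mem_insert, mem_product, mem_image, mem_univ, true_and, and_true]
      exact Or.inr ⟨d, hd.symm⟩
  · by_cases h : x.1 ∈ Λ
    · simp [ext, h]
    · simp [ext, h, hσ x h]

/-- Bilayer configurations that agree with `μ` off `Λ`. -/
def cls2 (Λ : Finset V) (μ : HE → HE) : Finset (HE → HE) := (cls2_finite Λ μ).toFinset

lemma mem_cls2 {Λ : Finset V} {μ μ' : HE → HE} :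
    μ' ∈ cls2 Λ μ ↔ BExt μ' ∧ ∀ h : HE, h.1 ∉ Λ → μ' h = μ h := by
  simp [cls2]

/-- A pair of configurations as a bilayer configuration; the first one is layer `false`. -/
def emb (ρ₁ ρ₂ : V → V) : HE → HE := fun h => (if h.2 then ρ₂ h.1 else ρ₁ h.1, h.2)

/-- The configuration in one layer; the ends of layer changing pairs become monomers. -/
def prj (μ : HE → HE) (i : Bool) : V → V := fun v => if (μ (v, i)).2 = i then (μ (v, i)).1 else v

/-- The uncoloured union of a bilayer configuration. -/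
def un (μ : HE → HE) : V → Sym2 V := fun v => s((μ (v, false)).1, (μ (v, true)).1)

/-- The uncoloured union of a pair. -/
def un2 (ρ₁ ρ₂ : V → V) : V → Sym2 V := fun v => s(ρ₁ v, ρ₂ v)

/-- Translation of a bilayer configuration. -/
def sh2 (v : V) (μ : HE → HE) : HE → HE := fun h =>
  ((μ (h.1 - v, h.2)).1 + v, (μ (h.1 - v, h.2)).2)

/-- Local functions of bilayer configurations. -/
def Loc2 {α : Type} (Λ : Finset V) (g : (HE → HE) → α) : Prop :=
  ∀ μ μ', BExt μ → BExt μ' → (∀ h : HE, h.1 ∈ Λ → μ h = μ' h) → g μ = g μ'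

/-- Functions of the uncoloured union on the set `A`. -/
def LocU {α : Type} (A : Set V) (g : (V → Sym2 V) → α) : Prop :=
  ∀ U U', (∀ v ∈ A, U v = U' v) → g U = g U'

/-- Product of edge matrices, read from the even end. -/
def WE (Λ : Finset V) (E : V → V → Bool → Bool → ℂ) (μ : HE → HE) : ℂ :=
  ∏ h ∈ Λ ×ˢ (univ : Finset Bool),
    if IsEven h.1 ∧ μ h ≠ h then E h.1 (μ h).1 h.2 (μ h).2 else 1

/-- Product of the vectors at the fixed half edges. -/
def Wu (Λ : Finset V) (u : V → Bool → ℂ) (μ : HE → HE) : ℂ :=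
  ∏ h ∈ Λ ×ˢ (univ : Finset Bool), if μ h = h then u h.1 h.2 else 1

/-- Fixed half edges of `Λ` lie over `P`, and pairs that leave `Λ` keep the layer. -/
def okB (Λ P : Finset V) (μ : HE → HE) : Prop :=
  ∀ h : HE, h.1 ∈ Λ → (μ h = h → h.1 ∈ P) ∧ ((μ h).1 ∉ Λ → (μ h).2 = h.2)

/-- Product of edge matrices over the pairs inside `Λ`. -/
def WI (Λ : Finset V) (E : V → V → Bool → Bool → ℂ) (μ : HE → HE) : ℂ :=
  ∏ h ∈ Λ ×ˢ (univ : Finset Bool),
    if IsEven h.1 ∧ μ h ≠ h ∧ (μ h).1 ∈ Λ then E h.1 (μ h).1 h.2 (μ h).2 else 1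

/-- Admissible weights in `Λ`. -/
def wt2 (Λ P : Finset V) (g : (V → Sym2 V) → ℂ) (E : V → V → Bool → Bool → ℂ) (μ : HE → HE) : ℂ :=
  if okB Λ P μ then g (un μ) * WI Λ E μ else 0

/-- Combinations of admissible weights, with a bound for the total weight. -/
inductive Mix2 (Λ P : Finset V) : ((HE → HE) → ℂ) → ℝ → Prop
  | adm (g : (V → Sym2 V) → ℂ) (E : V → V → Bool → Bool → ℂ) : LocU Λ g → (∀ U, ‖g U‖ ≤ 1) →
      (∀ x y, Contr (E x y)) → Mix2 Λ P (wt2 Λ P g E) 1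
  | smul (a : ℂ) {w : (HE → HE) → ℂ} {β : ℝ} : Mix2 Λ P w β →
      Mix2 Λ P (fun μ => a * w μ) (‖a‖ * β)
  | add {w w' : (HE → HE) → ℂ} {β β' : ℝ} : Mix2 Λ P w β → Mix2 Λ P w' β' →
      Mix2 Λ P (fun μ => w μ + w' μ) (β + β')
  | mono {w w' : (HE → HE) → ℂ} {β β' : ℝ} : Mix2 Λ P w β → (∀ μ, BExt μ → w' μ = w μ) → β ≤ β' →
      Mix2 Λ P w' β'

/-- No fixed half edge and no layer change in `U` outside `A`. -/
def offOK (U A : Finset V) (μ : HE → HE) : Prop :=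
  ∀ h : HE, h.1 ∈ U → h.1 ∉ A → μ h ≠ h ∧ (μ h).2 = h.2

/-- Configurations of the box with monomers only on the boundary. -/
def PL (L : ℕ) : Finset (V → V) := (cls (box L) id).filter fun ρ => mon (box L) ρ ⊆ lev L

/-- Weighted number of free pairs. -/
def Z2 (L : ℕ) (H : (V → Sym2 V) → ℝ) : ℝ := ∑ κ₁ ∈ PL L, ∑ κ₂ ∈ PL L, H (un2 κ₁ κ₂)

/-- Edges, given by the even end and the direction; the odd end. -/
def oe (e : V × Dir) : V := e.1 + dv e.2

/-- Layer changes of the first type at even vertices of `Λ`. -/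
def HA (Λ : Finset V) (μ : HE → HE) : Finset (V × Dir) :=
  (Λ ×ˢ (univ : Finset Dir)).filter fun e => IsEven e.1 ∧ μ (e.1, false) = (oe e, true)

/-- Layer changes of the second type at even vertices of `Λ`. -/
def HB (Λ : Finset V) (μ : HE → HE) : Finset (V × Dir) :=
  (Λ ×ˢ (univ : Finset Dir)).filter fun e => IsEven e.1 ∧ μ (e.1, true) = (oe e, false)

/-- The diagonal factor of one configuration. -/
def cD (D : Finset (V × Dir)) (t : V × Dir → ℝ) (θ : ℝ) (ρ : V → V) : ℝ :=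
  ∏ e ∈ D, if ρ e.1 = oe e then 1 - θ ^ 2 * t e ^ 2 else 1

/-- Indicator of the layer changes `A`, `B`. -/
def hop (Λ P : Finset V) (A B : Finset (V × Dir)) (μ : HE → HE) : ℝ :=
  if okB Λ P μ ∧ HA Λ μ = A ∧ HB Λ μ = B then 1 else 0

/-- The second order weight. -/
def bq (Λ P : Finset V) (D : Finset (V × Dir)) (t : V × Dir → ℝ) (θ : ℝ) (μ : HE → HE) : ℝ :=
  cD D t θ (prj μ false) * cD D t θ (prj μ true) *
    (hop Λ P ∅ ∅ μ - θ ^ 2 * ∑ e ∈ D, ∑ f ∈ D, t e * t f * hop Λ P {e} {f} μ)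

/-- Product of diagonal entries over the dimers inside `Λ`. -/
def dg (Λ : Finset V) (φ : V → V → Bool → ℂ) (μ : HE → HE) : ℂ :=
  ∏ h ∈ Λ ×ˢ (univ : Finset Bool),
    if IsEven h.1 ∧ μ h ≠ h ∧ (μ h).1 ∈ Λ ∧ (μ h).2 = h.2 then φ h.1 (μ h).1 h.2 else 1

/-- The soft factor centred at `s` on the outer levels of the box of radius `m`. -/
def softP (s : Fin 3 → ℝ) (m l : ℕ) (θ : ℝ) (ρ : V → V) : ℝ :=
  ∏ t ∈ Finset.Ioo (m - m / 8) m, ∏ d : Dir, ∏ p ∈ sqs t l,
    Real.cos (θ * FQp s ρ d (corner d t l p) l)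

/-! ### The grid and two replica entropy bound -/

/-- Centres of the boxes of radius `m`. -/
def grid (m J : ℕ) : Finset V :=
  (Fintype.piFinset fun _ : Fin 3 => Finset.Icc (-(J : ℤ)) J).image
    fun q i => (2 * (m : ℤ) + 2) * q i

/-- Radius of the big box. -/
def gL (m J : ℕ) : ℕ := (2 * m + 2) * J + m + 1

/-- Sites between the boxes. -/
def Gap (m : ℕ) (x : V) : Prop := ∃ i, (2 * (m : ℤ) + 2) ∣ x i - (m + 1)

/-- Indicator of a property. -/
def ind {α : Type} (H : α → Prop) (a : α) : ℝ := if H a then 1 else 0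

/-- Large partition functions relative to free pairs with a typical union. -/
def LP2 (ν₁ ν₂ : Measure Dimer) : Prop :=
  ∀ (m : ℕ) (ε : ℝ), 0 < ε → ∃ J₀ : ℕ, ∀ J ≥ J₀, ∃ H : (V → Sym2 V) → Prop,
    LocU {v | v ∈ box (gL m J - 1) ∧ Gap m v} H ∧
    (ν₁.prod ν₂).real {p | ¬ H (un2 p.1.1 p.2.1)} ≤ ε ∧
    ∫ p, Real.log (1 + Z2 (gL m J) (ind H) /
      ((zz (box (gL m J)) p.1.1 : ℝ) * zz (box (gL m J)) p.2.1)) ∂(ν₁.prod ν₂) ≤
      ε * (gL m J : ℝ) ^ 3

/-- Uniform average over pairs of perfect fillings. -/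
def gam2 (Λ : Finset V) (g : (V → V) → (V → V) → ℝ) (σ₁ σ₂ : V → V) : ℝ :=
  (∑ ρ₁ ∈ perf Λ σ₁, ∑ ρ₂ ∈ perf Λ σ₂, g ρ₁ ρ₂) / ((zz Λ σ₁ : ℝ) * zz Λ σ₂)

/-- Normalised class sum of a bilayer weight. -/
def W2 (Λ : Finset V) (b : (HE → HE) → ℝ) (ρ₁ ρ₂ : V → V) : ℝ :=
  (∑ μ ∈ cls2 Λ (emb ρ₁ ρ₂), b μ) / ((zz Λ ρ₁ : ℝ) * zz Λ ρ₂)

/-! ### Recolouring -/

/-- The step along the union. -/
def pi2 (ρ₁ ρ₂ : V → V) (x : V) : V := if IsEven x then ρ₁ x else ρ₂ x

/-- Speed over `T` steps. -/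
def aT (ρ₁ ρ₂ : V → V) (T : ℕ) (x : V) : ℝ :=
  (∑ i, |((((pi2 ρ₁ ρ₂)^[T] x) i - x i : ℤ) : ℝ)|) / T

/-- The difference of the two flows. -/
def Jd (ρ₁ ρ₂ : V → V) (x : V) (d : Dir) : ℝ :=
  sg x * ((if ρ₁ x = x + dv d then 1 else 0) - if ρ₂ x = x + dv d then 1 else 0)

/-- Sum over the components of the squared difference flux through a square. -/
def J2 (ρ₁ ρ₂ : V → V) (d : Dir) (c : V) (l : ℕ) : ℝ :=
  ∑ x ∈ sq d.1 c l, ∑ x' ∈ sq d.1 c l,
    if Conn ρ₁ ρ₂ x x' then Jd ρ₁ ρ₂ x d * Jd ρ₁ ρ₂ x' d else 0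

/-- The recolourings of a pair in `Λ`. -/
def cpl (Λ : Finset V) (κ₁ κ₂ : V → V) : Finset ((V → V) × (V → V)) :=
  (cls Λ id ×ˢ cls Λ id).filter fun p => un2 p.1 p.2 = un2 κ₁ κ₂

/-- Mean of the squared fluxes over the recolourings. -/
def Rq (s : Fin 3 → ℝ) (lo hi l : ℕ) (κ₁ κ₂ : V → V) : ℝ :=
  lsum lo hi l fun d c => ((FQp s κ₁ d c l + FQp s κ₂ d c l) ^ 2 + J2 κ₁ κ₂ d c l) / 2

/-- The component of `x` has more than `M` points in `Λ`. -/
def Long (Λ : Finset V) (M : ℕ) (κ₁ κ₂ : V → V) (x : V) : Prop :=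
  M < (Λ.filter fun y => Conn κ₁ κ₂ x y).card

/-- The configuration seen in the cell with centre `c`. -/
def cel (b : ℕ) (c : V) (ρ : V → V) : V → V := res (box b) (sh (-c) ρ)

/-- Loss of speed between the time scales `T` and `r T`. -/
def Dl (ρ₁ ρ₂ : V → V) (T r : ℕ) (D : Finset V) : ℝ :=
  ∑ x ∈ D, ((∑ i ∈ range r, aT ρ₁ ρ₂ T ((pi2 ρ₁ ρ₂)^[i * T] x)) / r - aT ρ₁ ρ₂ (r * T) x)

/-- Number of configurations of a cell with small inner fluxes. -/
def Nn (s : Fin 3 → ℝ) (b k l : ℕ) (c : ℝ) : ℕ :=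
  ((PL b).filter fun κ => PsI s b k l κ < c * (b : ℝ) ^ 3 * (l : ℝ) ^ 2).card

/-- A corner moved down to a plane between the boxes. -/
def pj (m : ℕ) (d : Dir) (c : V) : V :=
  Function.update c d.1 (c d.1 - (c d.1 - (m + 1)) % (2 * (m : ℤ) + 2))

/-- The sum of the two centred fluxes as a function of the union. -/
def SQ (s : Fin 3 → ℝ) (U : V → Sym2 V) (d : Dir) (c : V) (l : ℕ) : ℝ :=
  ∑ x ∈ sq d.1 c l, sg x * ((if U x = s(x + dv d, x + dv d) then 2 else if x + dv d ∈ U x then 1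
    else 0) - 2 * pe s x d)

/-- Size parameter of the grid of cells of radius `b` in the box of radius `L - R`. -/
def nc (b L R : ℕ) : ℕ := (L - R - b) / (2 * b + 2)

/-- The typical event: small centred sum flux at all scales. -/
def HH (s : Fin 3 → ℝ) (m k J : ℕ) (b l : ℕ → ℕ) (R : ℕ) (θ : ℝ) (L : ℕ) (U : V → Sym2 V) : Prop :=
  ∀ j < J, ∑ c ∈ grid (b j) (nc (b j) L R), lsum (rin (b j) k) (rin (b j) k + b j / k) (l j)
    (fun d q => SQ s U d (pj m d (q + c)) (l j) ^ 2) ≤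
      θ * (grid (b j) (nc (b j) L R)).card * (b j : ℝ) ^ 3 * (l j : ℝ) ^ 2

/-! ### Kernels -/

/-- The quadratic form of a pair of two point functions. -/
def Kq (G G' : V → V → ℝ) (D : Finset (V × Dir)) (t : V × Dir → ℝ) : ℝ :=
  ∑ e ∈ D, ∑ f ∈ D, t e * t f * (G e.1 (oe f) * G' f.1 (oe e))

/-- Positivity up to a multiple of the identity. -/
def PSD (G G' : V → V → ℝ) (a : ℝ) : Prop :=
  ∀ D : Finset (V × Dir), (∀ e ∈ D, IsEven e.1) → ∀ t : V × Dir → ℝ,
    0 ≤ Kq G G' D t + a * ∑ e ∈ D, t e ^ 2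

/-- The function `u` on edges is dominated by the form of `H`. -/
def Dom (H : V → V → ℝ) (a : ℝ) (u : V × Dir → ℝ) : Prop :=
  ∀ D : Finset (V × Dir), (∀ e ∈ D, IsEven e.1) → ∀ t : V × Dir → ℝ,
    (∑ e ∈ D, t e * u e) ^ 2 ≤ Kq H H D t + a * ∑ e ∈ D, t e ^ 2

/-- The two point monomer correlation. -/
def M2 (Λ : Finset V) (σ : V → V) (x y : V) : ℝ := Mr Λ σ {x, y}

/-- The annealed two point function. -/
def Gbar (ν : Measure Dimer) (w : V) : ℝ := ⨆ N : ℕ, ∫ τ, M2 (box N) τ.1 0 w ∂ν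

/-- The kernel of a translation invariant function. -/
def TG (G : V → ℝ) (x y : V) : ℝ := G (y - x)

/-- The order parameter at scale `N`. -/
def mN (G : V → ℝ) (N : ℕ) (d : Dir) : ℝ :=
  ∑ z ∈ box (2 * N), pk (2 * N) z * (G (z + dv d) * G (dv d - z))

/-- Long range order. -/
def LRO (G : V → ℝ) : Prop := ∃ m : ℝ, 0 < m ∧ ∃ N₁ : ℕ, ∀ N ≥ N₁, ∀ d, m ≤ mN G N d

/-- Dirichlet energy at most `E` on the neighbours of the vertices of parity `b`. -/
def En (b : Prop) (E : ℝ) (φ : V → ℝ) : Prop :=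
  ∀ Y : Finset V, (∀ y ∈ Y, IsEven y ↔ b) →
    ∑ y ∈ Y, ∑ d : Dir, ∑ d' : Dir, (φ (y + dv d) - φ (y + dv d')) ^ 2 ≤ E

/-- Scalar product with a lattice point. -/
def hd (h : Fin 3 → ℝ) (v : V) : ℝ := ∑ i, h i * (v i : ℝ)

/-- The gauge factor of a monomer set. -/
def gz (h : Fin 3 → ℝ) (X : Finset V) : ℝ := ∏ v ∈ X, Real.exp (sg v * hd h v)

/-- In the gauge `h` the function `G` is bounded above and below and has finite energy. -/
def Gauged (G : V → ℝ) (h : Fin 3 → ℝ) : Prop :=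
  ∃ g₁ g₂ E : ℝ, 0 < g₁ ∧ (∀ w, ¬ IsEven w → g₁ ≤ G w * Real.exp (-hd h w) ∧
    G w * Real.exp (-hd h w) ≤ g₂) ∧ En True E fun w => G w * Real.exp (-hd h w)

/-- Two point function in a background. -/
def Gb (G : Finset V → ℝ) (bg : Finset V) (x y : V) : ℝ :=
  if x ∈ bg ∨ y ∈ bg then 0 else G (insert x (insert y bg))

/-- Truncation at two points. -/
def trunc (G : V → V → ℝ) (x₀ y₀ : V) (x y : V) : ℝ := if x = x₀ ∨ y = y₀ then 0 else G x y

/-- Bounded on pairs of an even and an odd point. -/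
def Bd (C : ℝ) (G : V → V → ℝ) : Prop := ∀ x y, IsEven x → ¬ IsEven y → 0 ≤ G x y ∧ G x y ≤ C

/-- Most rows and columns have bounded energy. -/
def EnM (E : ℝ) (K : ℕ) (G : V → V → ℝ) : Prop :=
  ∃ F : Finset V, F.card ≤ K ∧ (∀ x ∉ F, IsEven x → En True E (G x)) ∧
    ∀ y ∉ F, ¬ IsEven y → En False E fun x => G x y

/-- Most rows and columns have bounded energy and are bounded below at most points. -/
def Nice (c E : ℝ) (K : ℕ) (G : V → V → ℝ) : Prop :=
  ∃ F : Finset V, F.card ≤ K ∧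
    (∀ x ∉ F, IsEven x → En True E (G x) ∧
      ∃ F' : Finset V, F'.card ≤ K ∧ ∀ y ∉ F', ¬ IsEven y → c ≤ G x y) ∧
    ∀ y ∉ F, ¬ IsEven y → En False E (fun x => G x y) ∧
      ∃ F' : Finset V, F'.card ≤ K ∧ ∀ x ∉ F', IsEven x → c ≤ G x y

/-- Families of large sets of even and odd points. -/
def Fam {k : ℕ} (K : ℕ) (U W : Fin k → Finset V) : Prop :=
  ∀ i, (∀ x ∈ U i, IsEven x) ∧ (∀ y ∈ W i, ¬ IsEven y) ∧ K ≤ (U i).card ∧ K ≤ (W i).card

/-- Number of pairs of tuples of a family. -/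
def fsz {k : ℕ} (U W : Fin k → Finset V) : ℝ := (∏ i, ((U i).card : ℝ)) * ∏ i, ((W i).card : ℝ)

/-- Quenched limits of monomer correlations in a gauge. -/
structure QS (C cs : ℕ → ℝ) (a : ℝ) (G₀ : V → V → ℝ) (G : Finset V → ℝ) : Prop where
  one : G ∅ = 1
  nonneg : ∀ X, 0 ≤ G X
  bdd : ∀ X, G X ≤ C X.card
  self : ∀ bg, PSD (Gb G bg) (Gb G bg) (a * G bg ^ 2)
  cross : ∀ bg x₀ y₀, IsEven x₀ → ¬ IsEven y₀ → x₀ ∉ bg → y₀ ∉ bg →
    PSD (trunc (Gb G bg) x₀ y₀) (Gb G (insert x₀ (insert y₀ bg)))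
      (a * (G bg * G (insert x₀ (insert y₀ bg))))
  link : PSD G₀ (Gb G ∅) a
  ref : ∀ j K : ℕ, ∃ U W : Fin j → Finset V, Fam K U W ∧ cs j * fsz U W ≤
    ∑ x ∈ Fintype.piFinset U, ∑ y ∈ Fintype.piFinset W, Gam G x y

/-- What the transfer gives for a pair of measures. -/
structure TR (ν₁ ν₂ : Measure Dimer) : Prop where
  psd : ∀ D : Finset (V × Dir), (∀ e ∈ D, IsEven e.1) → ∀ t : V × Dir → ℝ,
    Tendsto (fun N : ℕ => ∫ τ, max (-Kq (M2 (box N) τ.1) (TG (Gbar ν₂)) D t -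
      2 * ∑ e ∈ D, t e ^ 2) 0 ∂ν₁) atTop (𝓝 0)
  le : ∀ e f : V × Dir, IsEven e.1 → IsEven f.1 →
    Tendsto (fun N : ℕ => ∫ τ, max (M2 (box N) τ.1 e.1 (oe f) * Gbar ν₂ (oe e - f.1) - 1) 0 ∂ν₁)
      atTop (𝓝 0)

/-- The mean two point functions are bounded and positive. -/
structure FinPos (ν : Measure Dimer) : Prop where
  fin : ∀ x y, IsEven x → ¬ IsEven y → ∃ C : ℝ, ∀ N, ∫ τ, M2 (box N) τ.1 x y ∂ν ≤ C
  pos : ∀ x y, IsEven x → ¬ IsEven y → ∃ N, 0 < ∫ τ, M2 (box N) τ.1 x y ∂ν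

end

end Pool.Agent.Work.MP_5cb0a4_pr.Z
end

-- merged part: Pool.Agent.Work.MP_5cb0a4_pr.N.Net
section
open MeasureTheory Finset Filter Topology
open scoped Classical

namespace Pool.Agent.Work.MP_5cb0a4_pr.Z

/-- The colour of a half edge after the flip of the vertices in `b`. -/
def col {α : Type} [DecidableEq α] (b : Finset α) (h : α × Bool) : Bool :=
  xor h.2 (decide (h.1 ∈ b))

theorem NNet_op {M : Bool → Bool → ℂ} (h : Contr M) (v : Bool → ℂ) :
    ∑ i, ‖∑ j, M i j * v j‖ ^ 2 ≤ ∑ j, ‖v j‖ ^ 2 := by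
  have h1 := h (fun i => (starRingEnd ℂ) (∑ j, M i j * v j)) v
  have h2 : ∑ i, ∑ j, (starRingEnd ℂ) (∑ j, M i j * v j) * M i j * v j =
      ((∑ i, ‖∑ j, M i j * v j‖ ^ 2 : ℝ) : ℂ) := by
    rw [Complex.ofReal_sum]
    refine sum_congr rfl fun i _ => ?_
    rw [← Complex.normSq_eq_norm_sq, ← Complex.mul_conj, mul_comm, mul_sum]
    exact sum_congr rfl fun j _ => mul_assoc _ _ _
  have h3 : 0 ≤ ∑ i, ‖∑ j, M i j * v j‖ ^ 2 := by positivity
  have h4 : 0 ≤ ∑ j, ‖v j‖ ^ 2 := by positivity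
  simp only [Complex.norm_conj] at h1
  rw [h2, Complex.norm_real, Real.norm_of_nonneg h3] at h1
  by_contra hc
  linarith only [h1, h4, hc, mul_nonneg_of_nonpos_of_nonpos (Mathlib.Tactic.Linarith.sub_nonpos_of_le h4) (le_of_lt (Mathlib.Tactic.Linarith.sub_neg_of_lt (lt_of_not_ge hc))), mul_pos_of_neg_of_neg (Mathlib.Tactic.Linarith.sub_neg_of_lt (lt_of_not_ge hc)) (Mathlib.Tactic.Linarith.sub_neg_of_lt (lt_of_not_ge hc))]

theorem NNet_tp {A : Bool → Bool → ℂ} (h : Contr A) : Contr fun i j => A j i := fun u v => by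
  have := h v u
  rw [sum_comm, mul_comm] at this
  refine le_trans (le_of_eq ?_) this
  congr 2
  exact sum_congr rfl fun i _ => sum_congr rfl fun j _ => by ring

theorem NNet_vec {M : Bool → Bool → ℂ} (h : Contr M) (u : Bool → ℂ) :
    ∑ x, ‖∑ i, u i * M (!i) x‖ ^ 2 ≤ ∑ i, ‖u i‖ ^ 2 := by
  have e : ∀ x, ∑ i, u i * M (!i) x = ∑ j, M j x * u (!j) := fun x => by
    simp only [Fintype.sum_bool, Bool.not_true, Bool.not_false]
    ring
  simp only [e]
  refine (NNet_op (NNet_tp h) fun j => u (!j)).trans_eq ?_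
  simp only [Fintype.sum_bool, Bool.not_true, Bool.not_false, add_comm]

theorem NNet_mul {P Q : Bool → Bool → ℂ} (hP : Contr P) (hQ : Contr Q) :
    Contr fun x y => ∑ i, P i x * Q (!i) y := fun u v => by
  have h1 := hQ (fun j => ∑ x, P (!j) x * u x) v
  refine le_trans (le_of_eq ?_) (h1.trans (mul_le_mul_of_nonneg_right
    (le_trans (le_of_eq ?_) (NNet_op hP u)) (by positivity)))
  · congr 2
    simp only [Fintype.sum_bool, Bool.not_true, Bool.not_false]
    ring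
  · simp only [Fintype.sum_bool, Bool.not_true, Bool.not_false, add_comm]

theorem NNet_ent {A : Bool → Bool → ℂ} (h : Contr A) (i j : Bool) : ‖A i j‖ ≤ 1 := by
  have := h (Pi.single i 1) (Pi.single j 1)
  refine (sq_le_one_iff₀ (norm_nonneg _)).1 ?_
  cases i <;> cases j <;> simpa using this

theorem NNet_two {u t : Bool → ℂ} (hu : ∑ i, ‖u i‖ ^ 2 ≤ 2) (ht : ∑ i, ‖t i‖ ^ 2 ≤ 2) :
    ‖u true * t false + u false * t true‖ ≤ 2 := by
  simp only [Fintype.sum_bool] at hu ht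
  refine (norm_add_le _ _).trans ?_
  rw [norm_mul, norm_mul]
  linarith only [hu, ht, sq_nonneg (‖u true‖ - ‖t false‖), sq_nonneg (‖u false‖ - ‖t true‖), sq_nonneg (‖u false‖ - ‖t true‖), sq_nonneg (‖u true‖ - ‖t false‖)]

section Net

variable {α : Type} [DecidableEq α]

/-- The factor of a half edge. -/
noncomputable def NNet_w (μ : α × Bool → α × Bool) (o : α × Bool → Prop)
    (A : α × Bool → Bool → Bool → ℂ) (u : α × Bool → Bool → ℂ) (c : α × Bool → Bool)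
    (h : α × Bool) : ℂ :=
  if μ h = h then u h (c h) else if o h then A h (c h) (c (μ h)) else 1

/-- The matrix of a pair, read from `h`. -/
noncomputable def NNet_E (μ : α × Bool → α × Bool) (o : α × Bool → Prop)
    (A : α × Bool → Bool → Bool → ℂ) (h : α × Bool) (x y : Bool) : ℂ :=
  if o h then A h x y else A (μ h) y x

/-- The value of a network. -/
noncomputable def NNet_S (Λ : Finset α) (μ : α × Bool → α × Bool) (o : α × Bool → Prop)
    (A : α × Bool → Bool → Bool → ℂ) (u : α × Bool → Bool → ℂ) : ℂ :=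
  ∑ b ∈ Λ.powerset, ∏ h ∈ Λ ×ˢ (univ : Finset Bool), NNet_w μ o A u (col b) h

/-- Oriented involutions. -/
structure NNet_OK (Λ : Finset α) (μ : α × Bool → α × Bool) (o : α × Bool → Prop) : Prop where
  inv : ∀ h : α × Bool, h.1 ∈ Λ → μ (μ h) = h
  mem : ∀ h : α × Bool, h.1 ∈ Λ → (μ h).1 ∈ Λ
  ori : ∀ h : α × Bool, h.1 ∈ Λ → μ h ≠ h → (o h ↔ ¬ o (μ h))

/-- The parity rule as a matrix. -/
def NNet_r (s t x y : Bool) : ℂ := if xor x y = (s == t) then 1 else 0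

/-- The network that counts. -/
structure NNet_St (par : α → Bool) (Λ : Finset α) (μ : α × Bool → α × Bool)
    (B : α × Bool → Bool → Bool → ℂ) (t : α × Bool → Bool → ℂ) : Prop where
  vec : ∀ h : α × Bool, h.1 ∈ Λ → μ h = h → t h = fun _ => 1
  mat : ∀ h : α × Bool, h.1 ∈ Λ → μ h ≠ h → B h = NNet_r (par h.1) (par (μ h).1)

variable {par : α → Bool} {Λ : Finset α} {v : α} {μ μ' : α × Bool → α × Bool}
  {o o' : α × Bool → Prop} {A A' B : α × Bool → Bool → Bool → ℂ} {u u' t : α × Bool → Bool → ℂ}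
  {c c' : α × Bool → Bool} {a : Bool}

omit [DecidableEq α] in
theorem NNet_cE (hA : ∀ h, Contr (A h)) (h : α × Bool) : Contr (NNet_E μ o A h) := by
  unfold NNet_E
  by_cases k : o h
  · simpa only [k, if_true] using hA h
  · simpa only [k, if_false] using NNet_tp (hA (μ h))

theorem NNet_pair (H : NNet_OK Λ μ o) {h : α × Bool} (h1 : h.1 ∈ Λ) (h2 : μ h ≠ h) :
    NNet_w μ o A u c h * NNet_w μ o A u c (μ h) = NNet_E μ o A h (c h) (c (μ h)) := by
  have h3 := H.ori h h1 h2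
  unfold NNet_w NNet_E
  rw [H.inv h h1, if_neg h2, if_neg h2.symm]
  by_cases k : o h
  · rw [if_pos k, if_neg (h3.1 k), if_pos k, mul_one]
  · rw [if_neg k, if_pos (not_not.1 fun e => k (h3.2 e)), if_neg k, one_mul]

omit [DecidableEq α] in
theorem NNet_rE (H : NNet_OK Λ μ o) (T : NNet_St par Λ μ B t) {h : α × Bool} (h1 : h.1 ∈ Λ)
    (h2 : μ h ≠ h) : NNet_E μ o B h = NNet_r (par h.1) (par (μ h).1) := by
  funext x y
  unfold NNet_E
  rw [T.mat h h1 h2, T.mat _ (H.mem h h1) (by rw [H.inv h h1]; exact h2.symm), H.inv h h1]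
  split_ifs
  · rfl
  · unfold NNet_r
    rw [Bool.xor_comm, Bool.beq_comm]

omit [DecidableEq α] in
theorem NNet_fib (a : Bool) {h : α × Bool} (k : h.1 = v) : h = (v, a) ∨ h = (v, !a) := by
  obtain ⟨x, y⟩ := h
  obtain rfl : x = v := k
  cases a <;> cases y <;> simp

theorem NNet_out (H : NNet_OK (insert v Λ) μ o) (a : Bool) {h : α × Bool} (h1 : h.1 ∈ Λ)
    (h2 : h ≠ μ (v, a)) (h3 : h ≠ μ (v, !a)) : (μ h).1 ∈ Λ := by
  have k := mem_insert_of_mem (b := v) h1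
  refine (mem_insert.1 (H.mem h k)).resolve_left fun e => ?_
  rcases NNet_fib a e with e | e
  · exact h2 (by rw [← e, H.inv h k])
  · exact h3 (by rw [← e, H.inv h k])

theorem NNet_rest (H : NNet_OK (insert v Λ) μ o) (hv : v ∉ Λ) (a : Bool)
    (hc : ∀ h : α × Bool, h.1 ≠ v → c' h = c h)
    (e : ∀ h, h ≠ μ (v, a) → h ≠ μ (v, !a) → μ' h = μ h ∧ (o' h ↔ o h) ∧ A' h = A h ∧ u' h = u h) :
    ∏ h ∈ ((Λ ×ˢ univ).erase (μ (v, a))).erase (μ (v, !a)), NNet_w μ o A u c' h =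
      ∏ h ∈ ((Λ ×ˢ univ).erase (μ (v, a))).erase (μ (v, !a)), NNet_w μ' o' A' u' c h := by
  refine prod_congr rfl fun h k => ?_
  obtain ⟨k1, k2⟩ := mem_erase.1 k
  obtain ⟨k2, k3⟩ := mem_erase.1 k2
  have k4 := (mem_product.1 k3).1
  obtain ⟨e1, e2, e3, e4⟩ := e h k2 k1
  simp only [NNet_w, e1, e2, e3, e4, hc h fun i => hv (i ▸ k4),
    hc (μ h) fun i => hv (i ▸ NNet_out H a k4 k2 k1)]

theorem NNet_sum (hv : v ∉ Λ) (a : Bool) {κ : ℂ}
    (e : ∀ c c' : α × Bool → Bool, (∀ h : α × Bool, h.1 ≠ v → c' h = c h) →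
      (∀ j, c (v, j) = j) → (∀ j, c' (v, j) = !j) →
      NNet_w μ o A u c (v, a) * NNet_w μ o A u c (v, !a) * ∏ h ∈ Λ ×ˢ univ, NNet_w μ o A u c h +
      NNet_w μ o A u c' (v, a) * NNet_w μ o A u c' (v, !a) * ∏ h ∈ Λ ×ˢ univ, NNet_w μ o A u c' h =
        κ * ∏ h ∈ Λ ×ˢ univ, NNet_w μ' o' A' u' c h) :
    NNet_S (insert v Λ) μ o A u = κ * NNet_S Λ μ' o' A' u' := by
  have p : ∀ f : α × Bool → ℂ, ∏ h ∈ insert v Λ ×ˢ univ, f h =
      f (v, a) * f (v, !a) * ∏ h ∈ Λ ×ˢ univ, f h := fun f => by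
    rw [prod_product, prod_product, prod_insert hv, Fintype.prod_bool]
    cases a <;> simp [mul_comm]
  unfold NNet_S
  rw [sum_powerset_insert hv, ← sum_add_distrib, mul_sum]
  refine sum_congr rfl fun b hb => ?_
  have hb' : v ∉ b := fun k => hv (mem_powerset.1 hb k)
  rw [p, p]
  exact e _ _ (fun h k => by simp [col, k]) (fun j => by simp [col, hb']) fun j => by simp [col]

theorem NNet_nm (hv : v ∉ Λ) {h : α × Bool} (k : h.1 = v) (s : Finset (α × Bool))
    (hs : s ⊆ Λ ×ˢ univ) : s.erase h = s :=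
  erase_eq_of_notMem fun e => hv (k ▸ (mem_product.1 (hs e)).1)

theorem NNet_AB (H : NNet_OK (insert v Λ) μ o) (hv : v ∉ Λ) (h1 : (μ (v, a)).1 = v)
    (h2 : (μ (v, !a)).1 = v) (hc : ∀ h : α × Bool, h.1 ≠ v → c' h = c h) :
    ∏ h ∈ Λ ×ˢ univ, NNet_w μ o A u c' h = ∏ h ∈ Λ ×ˢ univ, NNet_w μ o A u c h := by
  have := NNet_rest (A := A) (u := u) H hv a hc fun _ _ _ => ⟨rfl, Iff.rfl, rfl, rfl⟩
  rwa [NNet_nm hv h1 _ subset_rfl, NNet_nm hv h2 _ subset_rfl] at this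

theorem NNet_A (H : NNet_OK (insert v Λ) μ o) (hv : v ∉ Λ) (h1 : μ (v, true) = (v, false)) :
    NNet_S (insert v Λ) μ o A u = (NNet_E μ o A (v, true) true false +
      NNet_E μ o A (v, true) false true) * NNet_S Λ μ o A u := by
  have m := mem_insert_self v Λ
  have h2 : μ (v, false) = (v, true) := by rw [← h1, H.inv _ m]
  have p : ∀ c, NNet_w μ o A u c (v, true) * NNet_w μ o A u c (v, false) =
      NNet_E μ o A (v, true) (c (v, true)) (c (v, false)) := fun c => by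
    have := NNet_pair (A := A) (u := u) (c := c) H (h := (v, true)) m (by simp [h1])
    rwa [h1] at this
  refine NNet_sum hv true fun c c' hc k k' => ?_
  rw [NNet_AB (a := true) H hv (by rw [h1]) (by rw [Bool.not_true, h2]) hc, Bool.not_true, p, p,
    k, k, k', k', add_mul]
  rfl

theorem NNet_B (H : NNet_OK (insert v Λ) μ o) (hv : v ∉ Λ) (h1 : μ (v, true) = (v, true))
    (h2 : μ (v, false) = (v, false)) : NNet_S (insert v Λ) μ o A u =
      (u (v, true) true * u (v, false) false + u (v, true) false * u (v, false) true) *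
        NNet_S Λ μ o A u := by
  refine NNet_sum hv true fun c c' hc k k' => ?_
  rw [NNet_AB (a := true) H hv (by rw [h1]) (by rw [Bool.not_true, h2]) hc, Bool.not_true, add_mul]
  simp only [NNet_w, h1, h2, if_true, k, k', Bool.not_true, Bool.not_false]

theorem NNet_in (H : NNet_OK (insert v Λ) μ o) (h1 : (μ (v, a)).1 ≠ v) : (μ (v, a)).1 ∈ Λ :=
  (mem_insert.1 (H.mem _ (mem_insert_self v Λ))).resolve_left h1

omit [DecidableEq α] in
theorem NNet_ne (h1 : (μ (v, a)).1 ≠ v) : μ (v, a) ≠ (v, a) := fun e => h1 (by rw [e])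

theorem NNet_C (H : NNet_OK (insert v Λ) μ o) (hv : v ∉ Λ) (h1 : (μ (v, a)).1 ≠ v)
    (h2 : μ (v, !a) = (v, !a)) : NNet_S (insert v Λ) μ o A u =
      1 * NNet_S Λ (Function.update μ (μ (v, a)) (μ (v, a))) o A (Function.update u (μ (v, a))
        fun y => ∑ i, u (v, !a) i * NNet_E μ o A (v, a) (!i) y) := by
  have m : μ (v, a) ∈ Λ ×ˢ (univ : Finset Bool) := mem_product.2 ⟨NNet_in H h1, mem_univ _⟩
  have p : ∀ f : α × Bool → ℂ, ∏ h ∈ Λ ×ˢ univ, f h = f (μ (v, a)) *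
      ∏ h ∈ ((Λ ×ˢ univ).erase (μ (v, a))).erase (μ (v, !a)), f h := fun f => by
    rw [NNet_nm hv (by rw [h2]) _ (erase_subset _ _), mul_prod_erase _ _ m]
  have q : ∀ (c : α × Bool → Bool) (z : ℂ), NNet_w μ o A u c (v, a) * NNet_w μ o A u c (v, !a) *
      (NNet_w μ o A u c (μ (v, a)) * z) =
      u (v, !a) (c (v, !a)) * NNet_E μ o A (v, a) (c (v, a)) (c (μ (v, a))) * z := fun c z => by
    rw [← NNet_pair (u := u) H (mem_insert_self v Λ) (NNet_ne h1),
      show NNet_w μ o A u c (v, !a) = u (v, !a) (c (v, !a)) from if_pos h2]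
    ring
  refine NNet_sum hv a fun c c' hc k k' => ?_
  have r := fun (c₁ : α × Bool → Bool) (i : ∀ h : α × Bool, h.1 ≠ v → c₁ h = c h) =>
    NNet_rest (A := A) (u := u) (o' := o)
    (μ' := Function.update μ (μ (v, a)) (μ (v, a))) (A' := A) (u' := Function.update u (μ (v, a))
      fun y => ∑ i, u (v, !a) i * NNet_E μ o A (v, a) (!i) y) H hv a i fun h e _ =>
    ⟨Function.update_of_ne e _ _, Iff.rfl, rfl, Function.update_of_ne e _ _⟩
  rw [p, p, p, q, q, r c fun _ _ => rfl, r c' hc, hc _ h1, k, k, k', k', one_mul, ← add_mul]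
  congr 1
  simp only [NNet_w, Function.update_self, if_true, Fintype.sum_bool]
  cases a <;> simp [add_comm]

theorem NNet_kk (H : NNet_OK (insert v Λ) μ o) (a : Bool) : μ (v, !a) ≠ μ (v, a) := fun e => by
  have := congrArg μ e
  rw [H.inv _ (mem_insert_self v Λ), H.inv _ (mem_insert_self v Λ)] at this
  simp at this

theorem NNet_D (H : NNet_OK (insert v Λ) μ o) (hv : v ∉ Λ) (h1 : (μ (v, a)).1 ≠ v)
    (h2 : (μ (v, !a)).1 ≠ v) : NNet_S (insert v Λ) μ o A u =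
      1 * NNet_S Λ (Function.update (Function.update μ (μ (v, a)) (μ (v, !a))) (μ (v, !a)) (μ (v, a)))
        (fun h => h = μ (v, a) ∨ h ≠ μ (v, !a) ∧ o h) (Function.update A (μ (v, a))
          fun x y => ∑ i, NNet_E μ o A (v, a) i x * NNet_E μ o A (v, !a) (!i) y) u := by
  have n := NNet_kk H a
  have m : μ (v, a) ∈ Λ ×ˢ (univ : Finset Bool) := mem_product.2 ⟨NNet_in H h1, mem_univ _⟩
  have m' : μ (v, !a) ∈ (Λ ×ˢ (univ : Finset Bool)).erase (μ (v, a)) :=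
    mem_erase.2 ⟨n, mem_product.2 ⟨NNet_in H h2, mem_univ _⟩⟩
  have p : ∀ f : α × Bool → ℂ, ∏ h ∈ Λ ×ˢ univ, f h = f (μ (v, a)) * (f (μ (v, !a)) *
      ∏ h ∈ ((Λ ×ˢ univ).erase (μ (v, a))).erase (μ (v, !a)), f h) := fun f => by
    rw [mul_prod_erase _ _ m', mul_prod_erase _ _ m]
  have q : ∀ (c : α × Bool → Bool) (z : ℂ), NNet_w μ o A u c (v, a) * NNet_w μ o A u c (v, !a) *
      (NNet_w μ o A u c (μ (v, a)) * (NNet_w μ o A u c (μ (v, !a)) * z)) =
      NNet_E μ o A (v, a) (c (v, a)) (c (μ (v, a))) *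
        NNet_E μ o A (v, !a) (c (v, !a)) (c (μ (v, !a))) * z := fun c z => by
    rw [← NNet_pair (u := u) H (mem_insert_self v Λ) (NNet_ne h1),
      ← NNet_pair (u := u) H (mem_insert_self v Λ) (NNet_ne h2)]
    ring
  refine NNet_sum hv a fun c c' hc k k' => ?_
  have r := fun (c₁ : α × Bool → Bool) (i : ∀ h : α × Bool, h.1 ≠ v → c₁ h = c h) =>
    NNet_rest (A := A) (u := u)
    (o' := fun h => h = μ (v, a) ∨ h ≠ μ (v, !a) ∧ o h)
    (μ' := Function.update (Function.update μ (μ (v, a)) (μ (v, !a))) (μ (v, !a)) (μ (v, a)))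
    (A' := Function.update A (μ (v, a))
      fun x y => ∑ i, NNet_E μ o A (v, a) i x * NNet_E μ o A (v, !a) (!i) y) (u' := u) H hv a i
    fun h e e' => ⟨by rw [Function.update_of_ne e', Function.update_of_ne e], by simp [e, e'],
      Function.update_of_ne e _ _, rfl⟩
  rw [p, p, p, q, q, r c fun _ _ => rfl, r c' hc, hc _ h1, hc _ h2, k, k, k', k', one_mul, ← add_mul,
    ← mul_assoc]
  congr 1
  simp only [NNet_w, Function.update_self, Function.update_of_ne n.symm, n, n.symm, if_false, true_or,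
    if_true, ne_eq, not_true, false_and, or_self, mul_one, Fintype.sum_bool]
  cases a <;> simp [add_comm]

theorem NNet_okAB (H : NNet_OK (insert v Λ) μ o) (hv : v ∉ Λ) (h1 : (μ (v, a)).1 = v)
    (h2 : (μ (v, !a)).1 = v) : NNet_OK Λ μ o :=
  ⟨fun h k => H.inv h (mem_insert_of_mem k), fun _ k => NNet_out H a k
    (fun e => hv (by rwa [e, h1] at k)) fun e => hv (by rwa [e, h2] at k),
    fun h k => H.ori h (mem_insert_of_mem k)⟩

theorem NNet_mu (H : NNet_OK (insert v Λ) μ o) (hv : v ∉ Λ) (a : Bool) {h : α × Bool}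
    (k : h.1 ∈ Λ) : μ h ≠ μ (v, a) := fun e => by
  have := congrArg μ e
  rw [H.inv (v, a) (mem_insert_self v Λ), H.inv h (mem_insert_of_mem k)] at this
  exact hv (by rwa [this] at k)

theorem NNet_okC (H : NNet_OK (insert v Λ) μ o) (hv : v ∉ Λ) (h2 : μ (v, !a) = (v, !a)) :
    NNet_OK Λ (Function.update μ (μ (v, a)) (μ (v, a))) o := by
  refine ⟨fun h k => ?_, fun h k => ?_, fun h k => ?_⟩ <;> rcases eq_or_ne h (μ (v, a)) with rfl | e
  · rw [Function.update_self, Function.update_self]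
  · rw [Function.update_of_ne e, Function.update_of_ne (NNet_mu H hv a k),
      H.inv h (mem_insert_of_mem k)]
  · rwa [Function.update_self]
  · rw [Function.update_of_ne e]
    exact NNet_out H a k e fun e => hv (by rwa [e, h2] at k)
  · exact fun i => absurd (Function.update_self _ _ _) i
  · rw [Function.update_of_ne e]
    exact H.ori h (mem_insert_of_mem k)

theorem NNet_okD (H : NNet_OK (insert v Λ) μ o) (hv : v ∉ Λ) (h1 : (μ (v, a)).1 ≠ v)
    (h2 : (μ (v, !a)).1 ≠ v) : NNet_OK Λ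
      (Function.update (Function.update μ (μ (v, a)) (μ (v, !a))) (μ (v, !a)) (μ (v, a)))
      fun h => h = μ (v, a) ∨ h ≠ μ (v, !a) ∧ o h := by
  have n := NNet_kk H a
  have key : ∀ h : α × Bool, h.1 ∈ Λ → h = μ (v, a) ∨ h = μ (v, !a) ∨
      h ≠ μ (v, a) ∧ h ≠ μ (v, !a) ∧ μ h ≠ μ (v, a) ∧ μ h ≠ μ (v, !a) := fun h k => by
    have := NNet_mu H hv a k
    have := NNet_mu H hv (!a) k
    tauto
  refine ⟨fun h k => ?_, fun h k => ?_, fun h k => ?_⟩ <;>
    rcases key h k with rfl | rfl | ⟨e1, e2, e3, e4⟩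
  · simp [n.symm]
  · simp [n.symm]
  · simp [e1, e2, e3, e4, H.inv h (mem_insert_of_mem k)]
  · simpa [n.symm] using NNet_in H h2
  · simpa using NNet_in H h1
  · simpa [e1, e2] using NNet_out H a k e1 e2
  · simp [n, n.symm]
  · simp [n]
  · simpa [e1, e2, e3, e4] using H.ori h (mem_insert_of_mem k)

theorem NNet_stAB (T : NNet_St par (insert v Λ) μ B t) : NNet_St par Λ μ B t :=
  ⟨fun h k => T.vec h (mem_insert_of_mem k), fun h k => T.mat h (mem_insert_of_mem k)⟩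

theorem NNet_stC (H : NNet_OK (insert v Λ) μ o) (T : NNet_St par (insert v Λ) μ B t)
    (h1 : (μ (v, a)).1 ≠ v) (h2 : μ (v, !a) = (v, !a)) :
    NNet_St par Λ (Function.update μ (μ (v, a)) (μ (v, a))) B (Function.update t (μ (v, a))
      fun y => ∑ i, t (v, !a) i * NNet_E μ o B (v, a) (!i) y) := by
  refine ⟨fun h k => ?_, fun h k => ?_⟩ <;> rcases eq_or_ne h (μ (v, a)) with rfl | e
  · intro _
    rw [Function.update_self, NNet_rE H T (mem_insert_self v Λ) (NNet_ne h1),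
      T.vec _ (mem_insert_self v Λ) h2]
    funext y
    generalize par (μ (v, a)).1 = s
    cases y <;> cases s <;> cases par v <;> simp [NNet_r]
  · rw [Function.update_of_ne e, Function.update_of_ne e]
    exact T.vec h (mem_insert_of_mem k)
  · exact fun i => absurd (Function.update_self _ _ _) i
  · rw [Function.update_of_ne e]
    exact T.mat h (mem_insert_of_mem k)

theorem NNet_stD (H : NNet_OK (insert v Λ) μ o) (T : NNet_St par (insert v Λ) μ B t) :
    NNet_St par Λ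
      (Function.update (Function.update μ (μ (v, a)) (μ (v, !a))) (μ (v, !a)) (μ (v, a)))
      (Function.update (Function.update B (μ (v, !a))
        (NNet_r (par (μ (v, !a)).1) (par (μ (v, a)).1))) (μ (v, a))
          (NNet_r (par (μ (v, a)).1) (par (μ (v, !a)).1))) t := by
  have n := NNet_kk H a
  have key : ∀ h : α × Bool, h = μ (v, a) ∨ h = μ (v, !a) ∨ h ≠ μ (v, a) ∧ h ≠ μ (v, !a) :=
    fun h => by tauto
  refine ⟨fun h k => ?_, fun h k => ?_⟩ <;> rcases key h with rfl | rfl | ⟨e1, e2⟩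
  · simp [n, n.symm]
  · simp [n.symm]
  · simpa [e1, e2] using T.vec h (mem_insert_of_mem k)
  · simp [n.symm]
  · simp [n]
  · simpa [e1, e2] using T.mat h (mem_insert_of_mem k)

theorem NNet_congr (e : ∀ h, o h → A h = A' h) : NNet_S Λ μ o A u = NNet_S Λ μ o A' u :=
  sum_congr rfl fun b _ => prod_congr rfl fun h _ => by
    unfold NNet_w
    by_cases k : o h
    · rw [e h k]
    · simp only [k, if_false]

theorem NNet_main (Λ : Finset α) : ∀ (μ : α × Bool → α × Bool) (o : α × Bool → Prop)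
    (A B : α × Bool → Bool → Bool → ℂ) (u t : α × Bool → Bool → ℂ), NNet_OK Λ μ o →
    (∀ h, Contr (A h)) → (∀ h, ∑ i, ‖u h i‖ ^ 2 ≤ 2) → NNet_St par Λ μ B t →
    ‖NNet_S Λ μ o A u‖ ≤ ‖NNet_S Λ μ o B t‖ := by
  induction Λ using Finset.induction_on with
  | empty => exact fun _ _ _ _ _ _ _ _ _ _ => by simp [NNet_S]
  | insert v Λ hv ih =>
    intro μ o A B u t H hA hu T
    have m := mem_insert_self v Λ
    have C : ∀ a, (μ (v, a)).1 ≠ v → (μ (v, !a)).1 = v →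
        ‖NNet_S (insert v Λ) μ o A u‖ ≤ ‖NNet_S (insert v Λ) μ o B t‖ := fun a h1 h2 => by
      have h3 : μ (v, !a) = (v, !a) := (NNet_fib a h2).resolve_left fun e =>
        h1 (by rw [← e, H.inv _ m])
      rw [NNet_C H hv h1 h3, NNet_C H hv h1 h3, one_mul, one_mul]
      refine ih _ _ _ _ _ _ (NNet_okC H hv h3) hA (fun h => ?_) (NNet_stC H T h1 h3)
      rcases eq_or_ne h (μ (v, a)) with rfl | e
      · rw [Function.update_self]
        exact (NNet_vec (NNet_cE hA _) _).trans (hu _)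
      · rw [Function.update_of_ne e]
        exact hu h
    by_cases h1 : (μ (v, true)).1 = v <;> by_cases h2 : (μ (v, false)).1 = v
    · have i := ih _ _ _ _ _ _ (NNet_okAB (a := true) H hv h1 h2) hA hu (NNet_stAB T)
      rcases NNet_fib true h1 with e | e
      · have e' : μ (v, false) = (v, false) := (NNet_fib true h2).resolve_left fun k =>
          NNet_kk H true (k.trans e.symm)
        rw [NNet_B H hv e e', NNet_B H hv e e', norm_mul, norm_mul, T.vec _ m e, T.vec _ m e']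
        refine mul_le_mul ((NNet_two (hu _) (hu _)).trans_eq ?_) i (norm_nonneg _) (norm_nonneg _)
        norm_num
      · rw [NNet_A H hv e, NNet_A H hv e, norm_mul, norm_mul, NNet_rE H T m (by simp [e]), h1]
        refine mul_le_mul (((norm_add_le _ _).trans (add_le_add (NNet_ent (NNet_cE hA _) _ _)
          (NNet_ent (NNet_cE hA _) _ _))).trans_eq ?_) i (norm_nonneg _) (norm_nonneg _)
        simp only [NNet_r, beq_self_eq_true]
        norm_num
    · exact C false h2 h1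
    · exact C true h1 h2
    · rw [NNet_D (a := true) H hv h1 h2, NNet_D (a := true) H hv h1 h2, one_mul, one_mul]
      refine (ih _ _ _ _ _ _ (NNet_okD (a := true) H hv h1 h2) (fun h => ?_) hu
        (NNet_stD (a := true) H T)).trans_eq (congrArg _ (NNet_congr fun h k => ?_))
      · rcases eq_or_ne h (μ (v, true)) with rfl | e
        · rw [Function.update_self]
          exact NNet_mul (NNet_cE hA _) (NNet_cE hA _)
        · rw [Function.update_of_ne e]
          exact hA h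
      · rcases eq_or_ne h (μ (v, true)) with rfl | e
        · rw [Function.update_self, Function.update_self, NNet_rE H T m (NNet_ne h1),
            NNet_rE H T m (NNet_ne (a := !true) h2)]
          funext x y
          generalize par (μ (v, true)).1 = s
          generalize par (μ (v, !true)).1 = s'
          cases x <;> cases y <;> cases s <;> cases s' <;> cases par v <;> simp [NNet_r]
        · rw [Function.update_of_ne e, Function.update_of_ne e,
            Function.update_of_ne (k.resolve_left e).1]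

theorem NNet_ind (H : NNet_OK Λ μ o) (c : α × Bool → Bool) (P : Prop) [Decidable P]
    (hP : P ↔ ∀ h ∈ Λ ×ˢ (univ : Finset Bool), μ h ≠ h →
      xor (c h) (c (μ h)) = (par h.1 == par (μ h).1)) :
    ∏ h ∈ Λ ×ˢ (univ : Finset Bool), NNet_w μ o (fun h => NNet_r (par h.1) (par (μ h).1))
      (fun _ _ => 1) c h = if P then 1 else 0 := by
  split_ifs with k
  · refine prod_eq_one fun h m => ?_
    unfold NNet_w
    split_ifs with k1 k2
    exacts [rfl, if_pos (hP.1 k h m k1), rfl]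
  · rw [hP] at k
    push Not at k
    obtain ⟨h, m, k1, k2⟩ := k
    have m1 := (mem_product.1 m).1
    have := NNet_pair (A := fun h => NNet_r (par h.1) (par (μ h).1)) (u := fun _ _ => 1) (c := c)
      H m1 k1
    rw [NNet_rE (par := par) (t := fun _ _ => 1) H ⟨fun _ _ _ => rfl, fun _ _ _ => rfl⟩ m1 k1,
      NNet_r, if_neg k2] at this
    exact (mul_eq_zero.1 this).elim (prod_eq_zero m)
      (prod_eq_zero (mem_product.2 ⟨H.mem h m1, mem_univ _⟩))

end Net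

/-- Networks of contractions. Induction on `Λ`: remove a vertex and merge its two half edges. -/
theorem net {α : Type} [DecidableEq α] (par : α → Bool) (Λ : Finset α) (μ : α × Bool → α × Bool)
    (hinv : ∀ h, μ (μ h) = h) (hΛ : ∀ h : α × Bool, h.1 ∈ Λ → (μ h).1 ∈ Λ) (o : α × Bool → Prop)
    (ho : ∀ h : α × Bool, h.1 ∈ Λ → μ h ≠ h → (o h ↔ ¬ o (μ h)))
    (A : α × Bool → Bool → Bool → ℂ) (hA : ∀ h, Contr (A h)) (u : α × Bool → Bool → ℂ)
    (hu : ∀ h, ∑ i, ‖u h i‖ ^ 2 ≤ 2) :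
    ‖∑ b ∈ Λ.powerset, ∏ h ∈ Λ ×ˢ (univ : Finset Bool),
      (if μ h = h then u h (col b h) else if o h then A h (col b h) (col b (μ h)) else 1)‖ ≤
    ((Λ.powerset.filter fun b => ∀ h ∈ Λ ×ˢ (univ : Finset Bool), μ h ≠ h →
      xor (col b h) (col b (μ h)) = (par h.1 == par (μ h).1)).card : ℝ) := by
  have H : NNet_OK Λ μ o := ⟨fun h _ => hinv h, hΛ, ho⟩
  refine (NNet_main (par := par) Λ μ o A (fun h => NNet_r (par h.1) (par (μ h).1)) u (fun _ _ => 1)
    H hA hu ⟨fun _ _ _ => rfl, fun _ _ _ => rfl⟩).trans_eq ?_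
  rw [← Complex.norm_natCast, card_filter, Nat.cast_sum]
  refine congrArg _ (sum_congr rfl fun b _ => ?_)
  rw [Nat.cast_ite, Nat.cast_one, Nat.cast_zero]
  exact NNet_ind H _ _ Iff.rfl

end Pool.Agent.Work.MP_5cb0a4_pr.Z
end

-- merged part: Pool.Agent.Work.MP_5cb0a4_pr.Z.HarmAux
section
/-! The averaging operator of simple random walk on finitely supported functions. -/

open MeasureTheory Finset MvPolynomial Filter Topology

namespace Pool.Agent.Work.MP_5cb0a4_pr.Z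

noncomputable section

/-- Averaging over the six neighbours. -/
def Harm_P (φ : V → ℝ) : V → ℝ := fun x => (∑ d : Dir, φ (x + dv d)) / 6

/-- The same operator on finitely supported functions. -/
def Harm_Q : Module.End ℝ (V →₀ ℝ) :=
  (1 / 6 : ℝ) • ∑ d : Dir, Finsupp.lmapDomain ℝ ℝ (· + dv d)

/-- The pairing. -/
def Harm_ip (φ : V → ℝ) : (V →₀ ℝ) →ₗ[ℝ] ℝ := Finsupp.linearCombination ℝ φ

lemma Harm_ip_single (φ : V → ℝ) (x : V) : Harm_ip φ (Finsupp.single x 1) = φ x := by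
  simp [Harm_ip]

lemma Harm_ip_eq (φ : V → ℝ) (f : V →₀ ℝ) {S : Finset V} (h : ∀ x, f x ≠ 0 → x ∈ S) :
    Harm_ip φ f = ∑ x ∈ S, f x * φ x := by
  rw [Harm_ip, Finsupp.linearCombination_apply, Finsupp.sum_of_support_subset f
    (fun x hx => h x (Finsupp.mem_support_iff.1 hx)) _ (by simp)]
  rfl

lemma Harm_ip_Q (φ : V → ℝ) (f : V →₀ ℝ) : Harm_ip φ (Harm_Q f) = Harm_ip (Harm_P φ) f := by
  have : (Harm_ip φ).comp Harm_Q = Harm_ip (Harm_P φ) := by
    refine Finsupp.lhom_ext fun x a => ?_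
    simp only [Harm_ip, Harm_Q, Harm_P, LinearMap.comp_apply, LinearMap.smul_apply,
      LinearMap.sum_apply, Finsupp.lmapDomain_apply, Finsupp.mapDomain_single, map_smul, map_sum,
      Finsupp.linearCombination_single, smul_eq_mul, ← mul_sum]
    ring
  exact LinearMap.congr_fun this f

lemma Harm_sum_neg (g : V → ℝ) : ∑ d : Dir, g (-dv d) = ∑ d : Dir, g (dv d) := by
  refine Fintype.sum_equiv (Equiv.prodCongr (Equiv.refl _) Equiv.boolNot) _ _ fun d => ?_
  rw [← dv_not]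
  rfl

lemma Harm_Q_apply (f : V →₀ ℝ) (x : V) : Harm_Q f x = Harm_P f x := by
  have h : ∀ v : V, Finsupp.mapDomain (· + v) f x = f (x + -v) := fun v => by
    have := Finsupp.mapDomain_apply (add_left_injective v) f (x + -v)
    simpa using this
  simp only [Harm_Q, Harm_P, LinearMap.smul_apply, LinearMap.sum_apply, Finsupp.lmapDomain_apply,
    Finsupp.smul_apply, Finsupp.finsetSum_apply, h, smul_eq_mul]
  rw [Harm_sum_neg fun v => f (x + v)]
  ring

lemma Harm_Q_coe (f : V →₀ ℝ) : ⇑(Harm_Q f) = Harm_P f := funext (Harm_Q_apply f)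

lemma Harm_ip_symm (f g : V →₀ ℝ) : Harm_ip g f = Harm_ip f g := by
  rw [Harm_ip_eq g f (S := f.support ∪ g.support) (by simp +contextual),
    Harm_ip_eq f g (S := f.support ∪ g.support) (by simp +contextual)]
  exact sum_congr rfl fun x _ => mul_comm _ _

lemma Harm_ip_self (f : V →₀ ℝ) : 0 ≤ Harm_ip f f := by
  rw [Harm_ip_eq f f (S := f.support) (by simp)]
  exact sum_nonneg fun x _ => mul_self_nonneg _

lemma Harm_ip_pow (n : ℕ) (f g : V →₀ ℝ) :
    Harm_ip g ((Harm_Q ^ n) f) = Harm_ip ((Harm_Q ^ n) g) f := by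
  induction n generalizing g with
  | zero => simp
  | succ n ih =>
    rw [pow_succ', Module.End.mul_apply, Harm_ip_Q, ← Harm_Q_coe, ih, ← pow_succ', pow_succ,
      Module.End.mul_apply]

lemma Harm_ip_pow_pow (m n : ℕ) (f g : V →₀ ℝ) :
    Harm_ip ((Harm_Q ^ m) g) ((Harm_Q ^ n) f) = Harm_ip g ((Harm_Q ^ (m + n)) f) := by
  rw [← Harm_ip_pow, pow_add, Module.End.mul_apply]

lemma Harm_ip_even (n : ℕ) (f : V →₀ ℝ) : 0 ≤ Harm_ip f ((Harm_Q ^ (2 * n)) f) := by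
  rw [two_mul, ← Harm_ip_pow_pow]
  exact Harm_ip_self _

lemma Harm_pow_single (n : ℕ) (x y : V) :
    (Harm_Q ^ n) (Finsupp.single x 1) y = pk n (y - x) := by
  induction n generalizing y with
  | zero => simp [pk, Finsupp.single_apply, sub_eq_zero, eq_comm]
  | succ n ih =>
    rw [pow_succ', Module.End.mul_apply, Harm_Q_apply, Harm_P, pk]
    simp only [ih, add_sub_right_comm]

lemma Harm_ip_sub_left (f g h : V →₀ ℝ) :
    Harm_ip ⇑(f - g) h = Harm_ip f h - Harm_ip g h := by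
  rw [Harm_ip_symm h (f - g), map_sub, Harm_ip_symm f h, Harm_ip_symm g h]

lemma Harm_ip_add_left (f g h : V →₀ ℝ) :
    Harm_ip ⇑(f + g) h = Harm_ip f h + Harm_ip g h := by
  rw [Harm_ip_symm h (f + g), map_add, Harm_ip_symm f h, Harm_ip_symm g h]

lemma Harm_ip_single_left (x : V) (f : V →₀ ℝ) : Harm_ip (Finsupp.single x (1 : ℝ)) f = f x := by
  rw [Harm_ip_symm, Harm_ip_single]

lemma Harm_pk_neg (n : ℕ) (x : V) : pk n (-x) = pk n x := by
  have h := Harm_ip_pow n (Finsupp.single x 1) (Finsupp.single 0 1)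
  rw [Harm_ip_single_left, Harm_ip_single, Harm_pow_single, Harm_pow_single] at h
  simpa using h

lemma Harm_pk_le (n : ℕ) (x : V) : pk (2 * n) x ≤ pk (2 * n) 0 := by
  have h := Harm_ip_even n (Finsupp.single x 1 - Finsupp.single 0 1)
  rw [Harm_ip_sub_left, Harm_ip_single_left, Harm_ip_single_left, map_sub] at h
  simp only [Finsupp.sub_apply, Harm_pow_single, sub_self, sub_zero, zero_sub, Harm_pk_neg] at h
  linarith only [h]

lemma Harm_ip_one (n : ℕ) (f : V →₀ ℝ) :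
    Harm_ip (fun _ => 1) ((Harm_Q ^ n) f) = Harm_ip (fun _ => 1) f := by
  induction n with
  | zero => simp
  | succ n ih =>
    rw [pow_succ', Module.End.mul_apply, Harm_ip_Q, ← ih]
    congr 2
    funext x
    simp [Harm_P]

lemma Harm_sum_pk (n : ℕ) : ∑ x ∈ box n, pk n x = 1 := by
  have h := Harm_ip_one n (Finsupp.single 0 1)
  rw [Harm_ip_single, Harm_ip_eq _ _ (S := box n)] at h
  · simpa [Harm_pow_single] using h
  · intro x hx
    by_contra hb
    exact hx (by rw [Harm_pow_single, sub_zero, pk_eq_zero hb])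

lemma Harm_sum_le (n : ℕ) (S : Finset V) : ∑ x ∈ S, pk n x ≤ 1 := by
  rw [← Harm_sum_pk n, ← sum_filter_of_ne (p := fun x => x ∈ box n) fun x _ hx => by
    by_contra hb
    exact hx (pk_eq_zero hb)]
  exact sum_le_sum_of_subset_of_nonneg (fun x hx => (mem_filter.1 hx).2)
    fun x _ _ => pk_nonneg n x

lemma Harm_summable : Summable fun j => pk (2 * j) 0 :=
  (summable_of_sum_range_le (fun n => pk_nonneg n 0) watson).comp_injective
    (i := fun j => 2 * j) fun _ _ h => by simpa using h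

/-- Functions carried by one parity class. -/
def Harm_par (b : Prop) : Submodule ℝ (V →₀ ℝ) := Finsupp.supported ℝ ℝ {x | ¬ IsEven x ↔ b}

lemma Harm_mem_par {b : Prop} {f : V →₀ ℝ} :
    f ∈ Harm_par b ↔ ∀ x, f x ≠ 0 → (¬ IsEven x ↔ b) := by
  rw [Harm_par, Finsupp.mem_supported']
  exact forall_congr' fun x => not_imp_comm

lemma Harm_par_Q {b : Prop} {f : V →₀ ℝ} (h : f ∈ Harm_par b) : Harm_Q f ∈ Harm_par (¬ b) := by
  rw [Harm_mem_par] at h ⊢
  intro x hx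
  rw [Harm_Q_apply, Harm_P] at hx
  obtain ⟨d, -, hd⟩ := exists_ne_zero_of_sum_ne_zero (div_ne_zero_iff.1 hx).1
  have := h _ hd
  rw [isEven_add_dv] at this
  tauto

lemma Harm_par_pow {b : Prop} {f : V →₀ ℝ} (h : f ∈ Harm_par b) (n : ℕ) :
    (Harm_Q ^ (2 * n)) f ∈ Harm_par b := by
  induction n with
  | zero => simpa using h
  | succ n ih =>
    have := Harm_par_Q (Harm_par_Q ih)
    rw [not_not] at this
    rwa [mul_add, mul_one, add_comm, pow_add, pow_two, Module.End.mul_apply, Module.End.mul_apply]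

/-- The Dirichlet form. -/
lemma Harm_dir (ψ : V →₀ ℝ) (φ : V → ℝ) {Y : Finset V}
    (hY : ∀ y d, ψ (y + dv d) ≠ 0 → y ∈ Y) :
    6 * Harm_ip φ (ψ - Harm_Q (Harm_Q ψ)) =
      ∑ y ∈ Y, ∑ d : Dir, (ψ (y + dv d) - Harm_P ψ y) * (φ (y + dv d) - Harm_P φ y) := by
  have h1 : ∀ d : Dir, Harm_ip φ ψ = ∑ y ∈ Y, ψ (y + dv d) * φ (y + dv d) := by
    intro d
    rw [Harm_ip_eq φ ψ (S := Y.image (· + dv d)), sum_image fun _ _ _ _ h => add_right_cancel h]
    intro x hx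
    exact mem_image.2 ⟨x - dv d, hY _ d (by simpa using hx), by simp⟩
  have h2 : Harm_ip φ (Harm_Q (Harm_Q ψ)) = ∑ y ∈ Y, Harm_P ψ y * Harm_P φ y := by
    rw [Harm_ip_Q, Harm_ip_eq _ _ (S := Y), Harm_Q_coe]
    intro y hy
    rw [Harm_Q_apply, Harm_P] at hy
    obtain ⟨d, -, hd⟩ := exists_ne_zero_of_sum_ne_zero (div_ne_zero_iff.1 hy).1
    exact hY y d hd
  have h3 : 6 * Harm_ip φ ψ = ∑ y ∈ Y, ∑ d : Dir, ψ (y + dv d) * φ (y + dv d) := by
    rw [sum_comm, ← sum_congr rfl fun d _ => h1 d]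
    simp
  rw [map_sub, mul_sub, h3, h2, mul_sum, ← sum_sub_distrib]
  refine sum_congr rfl fun y _ => ?_
  have e1 : ∑ d : Dir, ψ (y + dv d) = 6 * Harm_P ψ y := by rw [Harm_P]; ring
  have e2 : ∑ d : Dir, φ (y + dv d) = 6 * Harm_P φ y := by rw [Harm_P]; ring
  simp only [sub_mul, mul_sub, sum_sub_distrib, ← sum_mul, ← mul_sum, e1, e2, sum_const, card_univ,
    Fintype.card_prod, Fintype.card_fin, Fintype.card_bool, nsmul_eq_mul]
  push_cast
  ring

lemma Harm_key {b : Prop} {φ : V → ℝ} (hφ : Energy b φ) {ψ : V →₀ ℝ} (hψ : ψ ∈ Harm_par b) :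
    Harm_ip φ (ψ - Harm_Q (Harm_Q ψ)) ^ 2 ≤ Harm_ip ψ (ψ - Harm_Q (Harm_Q ψ)) / 2 := by
  set Y : Finset V := (ψ.support ×ˢ (univ : Finset Dir)).image fun q => q.1 - dv q.2 with hYd
  have hY : ∀ y d, ψ (y + dv d) ≠ 0 → y ∈ Y := fun y d h =>
    mem_image.2 ⟨(y + dv d, d), by simpa using h, by simp⟩
  have hYp : ∀ y ∈ Y, IsEven y ↔ b := by
    intro y hy
    obtain ⟨q, hq, rfl⟩ := mem_image.1 hy
    have h1 := Harm_mem_par.1 hψ q.1 (by simpa using hq)
    have h2 := isEven_add_dv (x := q.1 - dv q.2) (d := q.2)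
    rw [sub_add_cancel] at h2
    tauto
  have h1 := Harm_dir ψ φ hY
  have h2 := Harm_dir ψ ψ hY
  have h3 := hφ Y hYp
  rw [← sum_product'] at h1 h2 h3
  have h4 := sum_mul_sq_le_sq_mul_sq (Y ×ˢ (univ : Finset Dir))
    (fun q => ψ (q.1 + dv q.2) - Harm_P ψ q.1) (fun q => φ (q.1 + dv q.2) - Harm_P φ q.1)
  simp only [← pow_two] at h2
  rw [← h1, ← h2] at h4
  have h5 : 0 ≤ 6 * Harm_ip ψ (ψ - Harm_Q (Harm_Q ψ)) := by
    rw [h2]; exact sum_nonneg fun _ _ => sq_nonneg _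
  have h6 := h4.trans (mul_le_mul_of_nonneg_left h3 h5)
  linarith only [h6]

end

end Pool.Agent.Work.MP_5cb0a4_pr.Z
end

-- merged part: Pool.Agent.Work.MP_5cb0a4_pr.Z.Harm
section
open MeasureTheory Finset MvPolynomial Filter Topology

namespace Pool.Agent.Work.MP_5cb0a4_pr.Z

theorem sum_pk (n : ℕ) : ∑ x ∈ box n, pk n x = 1 := Harm_sum_pk n

theorem pk_parity {n : ℕ} {x : V} (h : pk n x ≠ 0) : IsEven x ↔ Even n := by
  induction n generalizing x with
  | zero =>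
    have : x = 0 := by
      by_contra hx
      exact h (by simp [pk, hx])
    simp [this, IsEven]
  | succ n ih =>
    rw [pk] at h
    obtain ⟨d, -, hd⟩ := exists_ne_zero_of_sum_ne_zero (div_ne_zero_iff.1 h).1
    have := ih hd
    rw [isEven_add_dv] at this
    rw [Nat.even_add_one]
    tauto

theorem pk_small {ε : ℝ} (hε : 0 < ε) : ∃ n₀ : ℕ, ∀ n ≥ n₀, ∀ x, pk n x ≤ ε := by
  obtain ⟨m, hm⟩ := (Harm_summable.tendsto_atTop_zero.eventually (Iic_mem_nhds hε)).exists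
  refine ⟨2 * m, fun n hn => ?_⟩
  induction n, hn using Nat.le_induction with
  | base => exact fun x => (Harm_pk_le m x).trans hm
  | succ n _ ih =>
    intro x
    have h := sum_le_card_nsmul (univ : Finset Dir) (fun d => pk n (x + dv d)) ε fun d _ => ih _
    simp only [card_univ, Fintype.card_prod, Fintype.card_fin, Fintype.card_bool,
      nsmul_eq_mul] at h
    rw [pk]
    push_cast at h
    linarith only [h]

lemma Harm_tele {b : Prop} {φ : V → ℝ} (hφ : Energy b φ) {ζ : V →₀ ℝ} (hζ : ζ ∈ Harm_par b)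
    (N : ℕ) : (Harm_ip φ ζ - Harm_ip φ ((Harm_Q ^ (2 * N)) ζ)) ^ 2 ≤
      (∑ j ∈ range N, Harm_ip ζ ((Harm_Q ^ (2 * j)) ζ)) / 2 := by
  set ψ : V →₀ ℝ := ∑ j ∈ range N, (Harm_Q ^ (2 * j)) ζ with hψ
  have h1 : ψ - Harm_Q (Harm_Q ψ) = ζ - (Harm_Q ^ (2 * N)) ζ := by
    have := sum_range_sub' (fun j => (Harm_Q ^ (2 * j)) ζ) N
    simp only [mul_zero, pow_zero, Module.End.one_apply] at this
    rw [← this, hψ, map_sum, map_sum, ← sum_sub_distrib]
    refine sum_congr rfl fun j _ => ?_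
    rw [mul_add, mul_one, add_comm, pow_add, pow_two, Module.End.mul_apply, Module.End.mul_apply]
  have h2 := Harm_key hφ (ψ := ψ) (Submodule.sum_mem _ fun j _ => Harm_par_pow hζ j)
  rw [h1, map_sub, map_sub, Harm_ip_symm ζ ψ, Harm_ip_symm _ ψ] at h2
  have h3 : 0 ≤ Harm_ip ((Harm_Q ^ (2 * N)) ζ) ψ := by
    rw [hψ, map_sum]
    refine sum_nonneg fun j _ => ?_
    rw [Harm_ip_pow_pow, ← mul_add]
    exact Harm_ip_even _ _
  have h4 : Harm_ip ζ ψ = ∑ j ∈ range N, Harm_ip ζ ((Harm_Q ^ (2 * j)) ζ) := by rw [hψ, map_sum]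
  linarith only [h2, h3, h4]

lemma Harm_sub_le (j : ℕ) (u v : V →₀ ℝ) :
    Harm_ip ⇑(u - v) ((Harm_Q ^ (2 * j)) (u - v)) ≤
      2 * Harm_ip u ((Harm_Q ^ (2 * j)) u) + 2 * Harm_ip v ((Harm_Q ^ (2 * j)) v) := by
  have h := Harm_ip_even j (u + v)
  simp only [Harm_ip_add_left, map_add] at h
  simp only [Harm_ip_sub_left, map_sub]
  linarith only [h]

/-- The uniform distribution on `A`. -/
noncomputable def Harm_u (A : Finset V) : V →₀ ℝ :=
  (A.card : ℝ)⁻¹ • ∑ x ∈ A, Finsupp.single x 1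

lemma Harm_ip_u (φ : V → ℝ) (A : Finset V) :
    Harm_ip φ (Harm_u A) = (∑ x ∈ A, φ x) / A.card := by
  simp only [Harm_u, map_smul, map_sum, Harm_ip_single, smul_eq_mul]
  rw [inv_mul_eq_div]

lemma Harm_single_par {b : Prop} {x : V} (hx : ¬ IsEven x ↔ b) :
    Finsupp.single x (1 : ℝ) ∈ Harm_par b := Finsupp.single_mem_supported _ _ hx

lemma Harm_u_par {b : Prop} {A : Finset V} (hA : ∀ x ∈ A, ¬ IsEven x ↔ b) :
    Harm_u A ∈ Harm_par b :=
  Submodule.smul_mem _ _ (Submodule.sum_mem _ fun x hx => Harm_single_par (hA x hx))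

lemma Harm_uu {A : Finset V} (hA : 0 < A.card) (n : ℕ) {c : ℝ}
    (h : ∀ y, ∑ x ∈ A, pk n (y - x) ≤ A.card * c) :
    Harm_ip (Harm_u A) ((Harm_Q ^ n) (Harm_u A)) ≤ c := by
  have h0 : (0 : ℝ) < A.card := by exact_mod_cast hA
  rw [Harm_ip_symm, Harm_ip_u, div_le_iff₀ h0, mul_comm, ← nsmul_eq_mul]
  refine sum_le_card_nsmul _ _ _ fun y _ => ?_
  simp only [Harm_u, map_smul, map_sum, Finsupp.smul_apply, Finsupp.finsetSum_apply,
    Harm_pow_single, smul_eq_mul]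
  rw [inv_mul_le_iff₀ h0]
  exact h y

lemma Harm_green {δ : ℝ} (hδ : 0 < δ) : ∃ K : ℕ, 1 ≤ K ∧ ∀ A : Finset V, K ≤ A.card → ∀ N,
    ∑ j ∈ range N, Harm_ip (Harm_u A) ((Harm_Q ^ (2 * j)) (Harm_u A)) ≤ 2 * δ := by
  obtain ⟨s, hs⟩ := summable_iff_vanishing_norm.1 Harm_summable δ hδ
  refine ⟨⌈s.card / δ⌉₊ + 1, by omega, fun A hA N => ?_⟩
  have hA0 : 0 < A.card := by omega
  have h0 : (0 : ℝ) < A.card := by exact_mod_cast hA0
  have h1 : ∀ j, Harm_ip (Harm_u A) ((Harm_Q ^ (2 * j)) (Harm_u A)) ≤ (A.card : ℝ)⁻¹ := by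
    refine fun j => Harm_uu hA0 _ fun y => ?_
    rw [mul_inv_cancel₀ h0.ne', ← sum_image (g := fun x => y - x) (f := pk (2 * j))
      fun _ _ _ _ h => sub_right_injective h]
    exact Harm_sum_le _ _
  have h2 : ∀ j, Harm_ip (Harm_u A) ((Harm_Q ^ (2 * j)) (Harm_u A)) ≤ pk (2 * j) 0 := by
    refine fun j => Harm_uu hA0 _ fun y => ?_
    rw [← nsmul_eq_mul]
    exact sum_le_card_nsmul _ _ _ fun x _ => Harm_pk_le _ _
  rw [← sum_inter_add_sum_sdiff (range N) s]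
  have h3 := sum_le_card_nsmul (range N ∩ s) _ _ fun j _ => h1 j
  have h4 := (sum_le_sum (s := range N \ s) fun j _ => h2 j).trans
    ((le_abs_self _).trans (hs _ sdiff_disjoint).le)
  have h5 : ((range N ∩ s).card : ℝ) ≤ s.card := by exact_mod_cast card_le_card inter_subset_right
  have h6 : (s.card : ℝ) / δ ≤ A.card :=
    (Nat.le_ceil _).trans (by exact_mod_cast (by omega : ⌈s.card / δ⌉₊ ≤ A.card))
  rw [div_le_iff₀ hδ] at h6
  have h7 : ((range N ∩ s).card : ℝ) * (A.card : ℝ)⁻¹ ≤ δ := by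
    rw [← div_eq_mul_inv, div_le_iff₀ h0]
    linarith only [h5, h6]
  rw [nsmul_eq_mul] at h3
  linarith only [h3, h4, h7]

/-- The mean of `φ` after `2 N` steps from `x`. -/
noncomputable def Harm_T (φ : V → ℝ) (x : V) (N : ℕ) : ℝ :=
  Harm_ip φ ((Harm_Q ^ (2 * N)) (Finsupp.single x 1))

lemma Harm_T_eq (φ : V → ℝ) (x : V) (N : ℕ) :
    Harm_T φ x N = ∑ z ∈ (box (2 * N)).filter IsEven, pk (2 * N) z * φ (z + x) := by
  rw [Harm_T, Harm_ip_eq _ _ (S := ((box (2 * N)).filter IsEven).image (· + x)),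
    sum_image fun _ _ _ _ h => add_right_cancel h]
  · simp only [Harm_pow_single, add_sub_cancel_right]
  · intro y hy
    rw [Harm_pow_single] at hy
    refine mem_image.2 ⟨y - x, mem_filter.2 ⟨?_, (pk_parity hy).2 (even_two_mul N)⟩, by simp⟩
    by_contra hb
    exact hy (pk_eq_zero hb)

lemma Harm_step {b : Prop} {φ : V → ℝ} (hφ : Energy b φ) {y : V} (hy : IsEven y ↔ b)
    (d d' : Dir) :
    Tendsto (fun N => Harm_T φ (y + dv d) N - Harm_T φ (y + dv d') N) atTop (𝓝 0) := by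
  have h0 : Tendsto (fun N => √(pk (2 * N) 0 * 12)) atTop (𝓝 0) := by
    have := (Harm_summable.tendsto_atTop_zero.mul_const 12).sqrt
    simpa using this
  refine squeeze_zero_norm (fun N => Real.abs_le_sqrt ?_) h0
  set S := (box (2 * N)).filter IsEven with hS
  rw [Harm_T_eq, Harm_T_eq, ← sum_sub_distrib]
  simp only [← mul_sub]
  refine (sum_mul_sq_le_sq_mul_sq _ _ _).trans ?_
  refine mul_le_mul ?_ ?_ (sum_nonneg fun _ _ => sq_nonneg _) (pk_nonneg _ _)
  · calc ∑ z ∈ S, pk (2 * N) z ^ 2 ≤ ∑ z ∈ S, pk (2 * N) 0 * pk (2 * N) z :=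
          sum_le_sum fun z _ => by
            rw [pow_two]
            exact mul_le_mul_of_nonneg_right (Harm_pk_le _ _) (pk_nonneg _ _)
      _ ≤ pk (2 * N) 0 * 1 := by
          rw [← mul_sum]
          exact mul_le_mul_of_nonneg_left (Harm_sum_le _ _) (pk_nonneg _ _)
      _ = _ := mul_one _
  · have h1 := hφ (S.image (· + y)) fun w hw => by
      obtain ⟨z, hz, rfl⟩ := mem_image.1 hw
      have := (mem_filter.1 hz).2
      rw [isEven_add]
      tauto
    rw [sum_image fun _ _ _ _ h => add_right_cancel h] at h1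
    refine le_trans ?_ (show 4 * _ ≤ 12 by linarith only [h1])
    rw [mul_sum]
    refine sum_le_sum fun z _ => ?_
    rw [← add_assoc, ← add_assoc]
    generalize z + y = w
    generalize (∑ d' : Dir, φ (w + dv d')) / 6 = m
    have e := fun d : Dir => single_le_sum (f := fun d : Dir => (φ (w + dv d) - m) ^ 2)
      (fun _ _ => sq_nonneg _) (mem_univ d)
    linarith only [e, e d, e d', sq_nonneg (φ (w + dv d) + φ (w + dv d') - 2 * m), sq_nonneg (φ (w + dv d) + φ (w + dv d') - (2 : ℝ) * m)]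

lemma Harm_liouville {b : Prop} {φ : V → ℝ} (hφ : Energy b φ) {x x' : V} (hx : ¬ IsEven x ↔ b)
    (hx' : ¬ IsEven x' ↔ b) : Tendsto (fun N => Harm_T φ x' N - Harm_T φ x N) atTop (𝓝 0) := by
  let S : AddSubgroup V :=
    { carrier := {v | IsEven v ∧ ∀ x, (¬ IsEven x ↔ b) →
        Tendsto (fun N => Harm_T φ (x + v) N - Harm_T φ x N) atTop (𝓝 0)}
      zero_mem' := ⟨by simp [IsEven], fun x _ => by simp⟩
      add_mem' := by
        rintro v w ⟨hv, h1⟩ ⟨hw, h2⟩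
        refine ⟨by rw [isEven_add]; tauto, fun x hx => ?_⟩
        have := (h2 (x + v) (by rw [isEven_add]; tauto)).add (h1 x hx)
        simpa [add_assoc] using this
      neg_mem' := by
        rintro v ⟨hv, h1⟩
        refine ⟨isEven_neg.2 hv, fun x hx => ?_⟩
        have := (h1 (x + -v) (by rw [isEven_add, isEven_neg]; tauto)).neg
        simpa using this }
  have hd : ∀ d d' : Dir, dv d - dv d' ∈ S := by
    intro d d'
    have h1 := not_isEven_dv d
    have h2 := not_isEven_dv d'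
    refine ⟨by rw [sub_eq_add_neg, isEven_add, isEven_neg]; tauto, fun x hx => ?_⟩
    have := Harm_step hφ (y := x - dv d')
      (by rw [sub_eq_add_neg, isEven_add, isEven_neg]; tauto) d d'
    rwa [sub_add_cancel, sub_add_eq_add_sub, add_sub_assoc] at this
  have hv : ∀ v, IsEven v → v ∈ S := by
    rintro v ⟨k, hk⟩
    rw [Fin.sum_univ_three] at hk
    have : v = k • (dv (0, true) - dv (0, false)) + v 1 • (dv (1, true) - dv (0, true)) +
        v 2 • (dv (2, true) - dv (0, true)) := by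
      funext i
      fin_cases i <;> simp [dv]
      omega
    rw [this]
    exact add_mem (add_mem (zsmul_mem (hd _ _) _) (zsmul_mem (hd _ _) _)) (zsmul_mem (hd _ _) _)
  have := (hv (x' - x) (by
    rw [sub_eq_add_neg, isEven_add, isEven_neg]; exact not_iff_not.1 (hx'.trans hx.symm))).2 x hx
  simpa using this

lemma Harm_u_lim {b : Prop} {φ : V → ℝ} (hφ : Energy b φ) {x : V} (hx : ¬ IsEven x ↔ b)
    {A : Finset V} (hA : ∀ x ∈ A, ¬ IsEven x ↔ b) (h0 : 0 < A.card) :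
    Tendsto (fun N => Harm_ip φ ((Harm_Q ^ (2 * N)) (Harm_u A)) - Harm_T φ x N) atTop (𝓝 0) := by
  have h1 : (A.card : ℝ) ≠ 0 := by exact_mod_cast h0.ne'
  have h2 := (tendsto_finsetSum A fun z hz => Harm_liouville hφ hx (hA z hz)).const_mul
    (A.card : ℝ)⁻¹
  simp only [sum_const_zero, mul_zero] at h2
  refine h2.congr fun N => ?_
  simp only [Harm_u, map_smul, map_sum, smul_eq_mul, sum_sub_distrib, sum_const, nsmul_eq_mul,
    mul_sub, ← mul_assoc, inv_mul_cancel₀ h1, one_mul]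
  rfl

/-- Averages of a function of bounded energy over large sets are close. -/
theorem avg_close {ε : ℝ} (hε : 0 < ε) : ∃ K : ℕ, 1 ≤ K ∧ ∀ (b : Prop) (φ : V → ℝ), Energy b φ →
    ∀ A A' : Finset V, (∀ x ∈ A, ¬ IsEven x ↔ b) → (∀ x ∈ A', ¬ IsEven x ↔ b) →
      K ≤ A.card → K ≤ A'.card →
      |(∑ x ∈ A, φ x) / A.card - (∑ x ∈ A', φ x) / A'.card| ≤ ε := by
  obtain ⟨K, hK, h⟩ := Harm_green (δ := ε ^ 2 / 4) (by positivity)
  refine ⟨K, hK, fun b φ hφ A A' hA hA' h1 h2 => ?_⟩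
  obtain ⟨x, hx⟩ : A.Nonempty := card_pos.1 (by omega)
  have h3 := (Harm_u_lim hφ (hA x hx) hA (by omega)).sub (Harm_u_lim hφ (hA x hx) hA' (by omega))
  simp only [sub_sub_sub_cancel_right, sub_self] at h3
  have h4 := (h3.const_sub (Harm_ip φ (Harm_u A - Harm_u A'))).abs
  rw [sub_zero, map_sub, Harm_ip_u, Harm_ip_u] at h4
  refine le_of_tendsto' h4 fun N => abs_le_of_sq_le_sq ?_ hε.le
  have h5 := Harm_tele hφ (sub_mem (Harm_u_par hA) (Harm_u_par hA')) N
  have h6 := sum_le_sum (s := range N) fun j _ => Harm_sub_le j (Harm_u A) (Harm_u A')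
  rw [sum_add_distrib, ← mul_sum, ← mul_sum] at h6
  rw [map_sub, Harm_ip_u, Harm_ip_u, map_sub, map_sub] at h5
  linarith only [h5, h6, h, h1, h2, h A h1 N, h A' h2 N]

theorem few_far {ε : ℝ} (hε : 0 < ε) : ∃ K : ℕ, 1 ≤ K ∧ ∀ (b : Prop) (φ : V → ℝ), Energy b φ →
    ∀ A' B : Finset V, (∀ x ∈ A', ¬ IsEven x ↔ b) → (∀ x ∈ B, ¬ IsEven x ↔ b) → K ≤ A'.card →
      (B.filter fun x => ε < |φ x - (∑ x ∈ A', φ x) / A'.card|).card ≤ 2 * K := by
  obtain ⟨K, hK, h⟩ := avg_close hε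
  refine ⟨K, hK, fun b φ hφ A' B hA' hB h1 => ?_⟩
  set m := (∑ x ∈ A', φ x) / A'.card with hm
  have key : ∀ (s : ℝ), (s = 1 ∨ s = -1) →
      (B.filter fun x => ε < s * (φ x - m)).card ≤ K := by
    intro s hs
    by_contra hc
    set C := B.filter fun x => ε < s * (φ x - m) with hC
    have h2 := abs_le.1 (h b φ hφ C A' (fun x hx => hB x (mem_filter.1 hx).1) hA' (by omega) h1)
    have h0 : (0 : ℝ) < C.card := by exact_mod_cast (by omega : 0 < C.card)
    have h3 : ∑ _x ∈ C, ε < ∑ x ∈ C, s * (φ x - m) :=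
      sum_lt_sum_of_nonempty (card_pos.1 (by omega)) fun x hx => (mem_filter.1 hx).2
    rw [← mul_sum, sum_sub_distrib, sum_const, sum_const, nsmul_eq_mul, nsmul_eq_mul] at h3
    rw [← hm] at h2
    have h4 : ∑ x ∈ C, φ x = C.card * ((∑ x ∈ C, φ x) / C.card) := by field_simp
    rw [h4] at h3
    rcases hs with rfl | rfl <;> linarith only [h3, h2, h2.1, h2.2, mul_nonneg_of_nonpos_of_nonpos (Mathlib.Tactic.Linarith.sub_nonpos_of_le (Mathlib.Tactic.Linarith.natCast_nonneg ℝ #C)) (Mathlib.Tactic.Linarith.sub_nonpos_of_le h2.right), mul_nonneg_of_nonpos_of_nonpos (Mathlib.Tactic.Linarith.sub_nonpos_of_le (Mathlib.Tactic.Linarith.natCast_nonneg ℝ #C)) (Mathlib.Tactic.Linarith.sub_nonpos_of_le h2.left)]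
  have h2 : (B.filter fun x => ε < |φ x - m|) ⊆
      (B.filter fun x => ε < 1 * (φ x - m)) ∪ B.filter fun x => ε < -1 * (φ x - m) := by
    intro x hx
    obtain ⟨h3, h4⟩ := mem_filter.1 hx
    rw [mem_union, mem_filter, mem_filter]
    rcases lt_abs.1 h4 with h5 | h5
    · exact Or.inl ⟨h3, by linarith only [h5]⟩
    · exact Or.inr ⟨h3, by linarith only [h5]⟩
  have := (card_le_card h2).trans (card_union_le _ _)
  linarith only [this, key, key 1 (Or.inl rfl), key (-1) (Or.inr rfl)]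

theorem l1_close {ε : ℝ} (hε : 0 < ε) : ∃ K : ℕ, 1 ≤ K ∧ ∀ (b : Prop) (φ : V → ℝ), Energy b φ →
    (∀ x, 0 ≤ φ x ∧ φ x ≤ 1) →
    ∀ A A' : Finset V, (∀ x ∈ A, ¬ IsEven x ↔ b) → (∀ x ∈ A', ¬ IsEven x ↔ b) →
      K ≤ A.card → K ≤ A'.card →
      ∑ x ∈ A, ∑ x' ∈ A', |φ x - φ x'| ≤ ε * A.card * A'.card := by
  obtain ⟨K, hK, h⟩ := few_far (ε := ε / 4) (by positivity)
  refine ⟨K + ⌈8 * K / ε⌉₊, by omega, fun b φ hφ h01 A A' hA hA' h1 h2 => ?_⟩
  have h0 : (0 : ℝ) < A'.card := by exact_mod_cast (by omega : 0 < A'.card)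
  set m := (∑ x ∈ A', φ x) / A'.card with hm
  have hm0 : 0 ≤ m := div_nonneg (sum_nonneg fun x _ => (h01 x).1) h0.le
  have hm1 : m ≤ 1 := by
    rw [hm, div_le_one h0]
    simpa using sum_le_card_nsmul A' φ 1 fun x _ => (h01 x).2
  have key : ∀ B : Finset V, (∀ x ∈ B, ¬ IsEven x ↔ b) → K + ⌈8 * K / ε⌉₊ ≤ B.card →
      ∑ x ∈ B, |φ x - m| ≤ ε / 2 * B.card := by
    intro B hB h3
    have h4 : ((B.filter fun x => ε / 4 < |φ x - m|).card : ℝ) ≤ 2 * K := by
      exact_mod_cast h b φ hφ A' B hA' hB (by omega)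
    have h5 : 8 * K / ε ≤ B.card :=
      (Nat.le_ceil _).trans (by exact_mod_cast (by omega : ⌈8 * K / ε⌉₊ ≤ B.card))
    rw [div_le_iff₀ hε] at h5
    have h6 : ∑ x ∈ B, |φ x - m| ≤
        ∑ x ∈ B, (ε / 4 + if ε / 4 < |φ x - m| then 1 else 0) := by
      refine sum_le_sum fun x _ => ?_
      split_ifs with h7
      · have := h01 x
        rw [abs_le]
        constructor <;> linarith only [hε, hm1, this, hm0, this.1, this.2]
      · linarith only [h7, not_lt.1 h7]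
    rw [sum_add_distrib, sum_boole, sum_const, nsmul_eq_mul] at h6
    linarith only [h4, h5, h6]
  calc ∑ x ∈ A, ∑ x' ∈ A', |φ x - φ x'|
      ≤ ∑ x ∈ A, ∑ x' ∈ A', (|φ x - m| + |φ x' - m|) :=
        sum_le_sum fun x _ => sum_le_sum fun x' _ => by
          rw [abs_sub_comm (φ x') m]
          exact abs_sub_le _ _ _
    _ = A'.card * ∑ x ∈ A, |φ x - m| + A.card * ∑ x' ∈ A', |φ x' - m| := by
        simp only [sum_add_distrib, sum_const, nsmul_eq_mul, ← mul_sum]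
    _ ≤ A'.card * (ε / 2 * A.card) + A.card * (ε / 2 * A'.card) := by
        gcongr
        · exact key A hA h1
        · exact key A' hA' h2
    _ = _ := by ring

end Pool.Agent.Work.MP_5cb0a4_pr.Z
end

-- merged part: Pool.Agent.Work.MP_5cb0a4_pr.N.EnL
section
open MeasureTheory Finset Filter Topology
open scoped Classical

namespace Pool.Agent.Work.MP_5cb0a4_pr.Z

theorem En.mono {b : Prop} {E E' : ℝ} {φ : V → ℝ} (h : En b E φ) (hE : E ≤ E') : En b E' φ :=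
  fun Y hY => (h Y hY).trans hE

theorem En.nonneg {b : Prop} {E : ℝ} {φ : V → ℝ} (h : En b E φ) : 0 ≤ E := by
  simpa using h ∅ (by simp)

theorem NEnL_par {b : Prop} {y : V} (hy : IsEven y ↔ b) (d : Dir) : ¬ IsEven (y + dv d) ↔ b := by
  rw [isEven_add_dv, not_not]
  exact hy

theorem En.congr {b : Prop} {E : ℝ} {φ ψ : V → ℝ} (h : En b E φ)
    (e : ∀ x, (¬ IsEven x ↔ b) → ψ x = φ x) : En b E ψ := by
  refine fun Y hY => le_of_eq_of_le (sum_congr rfl fun y hy => ?_) (h Y hY)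
  simp only [e _ (NEnL_par (hY y hy) _)]

theorem En.iff {b b' : Prop} (e : b ↔ b') {E : ℝ} {φ : V → ℝ} (h : En b E φ) : En b' E φ :=
  propext e ▸ h

/-- Changing a bounded function on a finite set. -/
theorem En.change {b : Prop} {E C : ℝ} {φ ψ : V → ℝ} (h : En b E φ) (F : Finset V)
    (e : ∀ x ∉ F, (¬ IsEven x ↔ b) → ψ x = φ x) (hC : ∀ x, (¬ IsEven x ↔ b) → |ψ x - φ x| ≤ C) :
    En b (2 * E + 1000 * F.card * C ^ 2) ψ := by
  intro Y hY
  let w : V → ℝ := fun x => if x ∈ F then C ^ 2 else 0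
  have h1 : ∀ x, (¬ IsEven x ↔ b) → (ψ x - φ x) ^ 2 ≤ w x := fun x hx => by
    by_cases k : x ∈ F
    · simp only [w, if_pos k]
      exact sq_le_sq' (abs_le.1 (hC x hx)).1 (abs_le.1 (hC x hx)).2
    · simp only [w, if_neg k, e x k hx, sub_self, zero_pow two_ne_zero, le_refl]
  have h2 : ∀ d : Dir, ∑ y ∈ Y, w (y + dv d) ≤ F.card * C ^ 2 := fun d => by
    rw [← sum_filter, sum_const, nsmul_eq_mul]
    refine mul_le_mul_of_nonneg_right (Nat.cast_le.2 ?_) (sq_nonneg C)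
    exact card_le_card_of_injOn (· + dv d) (fun y hy => (mem_filter.1 hy).2)
      fun _ _ _ _ k => add_right_cancel k
  have h3 : ∑ y ∈ Y, ∑ d : Dir, w (y + dv d) ≤ 6 * (F.card * C ^ 2) := by
    rw [sum_comm]
    simpa using sum_le_card_nsmul (univ : Finset Dir) _ _ fun d _ => h2 d
  have h4 : ∑ y ∈ Y, ∑ d : Dir, ∑ d' : Dir, (ψ (y + dv d) - ψ (y + dv d')) ^ 2 ≤
      ∑ y ∈ Y, ∑ d : Dir, ∑ d' : Dir, (2 * (φ (y + dv d) - φ (y + dv d')) ^ 2 +
        (4 * w (y + dv d) + 4 * w (y + dv d'))) :=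
    sum_le_sum fun y hy => sum_le_sum fun d _ => sum_le_sum fun d' _ => by
      have k1 := h1 _ (NEnL_par (hY y hy) d)
      have k2 := h1 _ (NEnL_par (hY y hy) d')
      linarith only [k1, k2, sq_nonneg (ψ (y + dv d) - φ (y + dv d) + (ψ (y + dv d') - φ (y + dv d'))),
        sq_nonneg (φ (y + dv d) - φ (y + dv d') -
          (ψ (y + dv d) - φ (y + dv d) - (ψ (y + dv d') - φ (y + dv d')))), sq_nonneg (φ (y + dv d) - φ (y + dv d') - (ψ (y + dv d) - φ (y + dv d) - (ψ (y + dv d') - φ (y + dv d')))), sq_nonneg (ψ (y + dv d) - φ (y + dv d) + (ψ (y + dv d') - φ (y + dv d')))]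
  simp only [sum_add_distrib, ← mul_sum, sum_const, card_univ, Fintype.card_prod,
    Fintype.card_fin, Fintype.card_bool, nsmul_eq_mul] at h4
  have h5 := h Y hY
  have h6 : 0 ≤ F.card * C ^ 2 := by positivity
  push_cast at h4
  linarith only [h3, h4, h5, h6]

theorem NEnL_energy {b : Prop} {E c : ℝ} {φ : V → ℝ} (h : En b E φ) (hc : 0 < c)
    (hE : E ≤ c ^ 2) : Energy b fun x => φ x / c := by
  intro Y hY
  have h1 : ∑ y ∈ Y, ∑ d : Dir, (φ (y + dv d) / c - (∑ d' : Dir, φ (y + dv d') / c) / 6) ^ 2 ≤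
      ∑ y ∈ Y, ∑ d : Dir, (∑ d' : Dir, (φ (y + dv d) - φ (y + dv d')) ^ 2) / c ^ 2 :=
    sum_le_sum fun y _ => sum_le_sum fun d _ => by
      have k := sq_sum_le_card_mul_sum_sq (s := (univ : Finset Dir))
        (f := fun d' => φ (y + dv d) - φ (y + dv d'))
      have k0 : 0 ≤ ∑ d' : Dir, (φ (y + dv d) - φ (y + dv d')) ^ 2 :=
        sum_nonneg fun _ _ => sq_nonneg _
      simp only [sum_sub_distrib, sum_const, card_univ, Fintype.card_prod, Fintype.card_fin,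
        Fintype.card_bool, nsmul_eq_mul] at k
      push_cast at k
      rw [← sum_div, div_right_comm, ← sub_div, div_pow]
      exact div_le_div_of_nonneg_right (by linarith only [k0, k]) (sq_nonneg c)
  simp only [← sum_div] at h1 ⊢
  have h2 := (div_le_one (pow_pos hc 2)).2 ((h Y hY).trans hE)
  linarith only [h1, h2]

theorem NEnL_c (E : ℝ) {c : ℝ} (h : |E| + 1 ≤ c) : 0 < c ∧ E ≤ c ^ 2 := by
  have h1 := abs_nonneg E
  have h2 := le_abs_self E
  exact ⟨by linarith only [h, h1], by linarith only [h, h2, h1, sq_nonneg c, mul_nonneg_of_nonpos_of_nonpos (Mathlib.Tactic.Linarith.sub_nonpos_of_le h) (Mathlib.Tactic.Linarith.sub_nonpos_of_le h), mul_nonneg_of_nonpos_of_nonpos (Mathlib.Tactic.Linarith.sub_nonpos_of_le h) (Mathlib.Tactic.Linarith.sub_nonpos_of_le h1), mul_nonneg_of_nonpos_of_nonpos (Mathlib.Tactic.Linarith.sub_nonpos_of_le h1) (Mathlib.Tactic.Linarith.sub_nonpos_of_le h1)]⟩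

theorem NEnL_inf (b : Prop) : {x : V | IsEven x ↔ b}.Infinite := by
  refine Set.infinite_of_injective_forall_mem
    (f := fun n : ℤ => (Pi.single 0 (2 * n + if b then 0 else 1) : V)) (fun n m k => ?_) fun n => ?_
  · have k2 := congrFun k 0
    simp only [Pi.single_eq_same] at k2
    omega
  · by_cases k : b <;> simp [IsEven, k]

theorem NEnL_inf' (b : Prop) : {x : V | ¬ IsEven x ↔ b}.Infinite :=
  (NEnL_inf (¬ b)).mono fun x (hx : IsEven x ↔ ¬ b) => show ¬ IsEven x ↔ b by tauto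

theorem En.energy {b : Prop} {E : ℝ} {φ : V → ℝ} (h : En b E φ) :
    Energy b fun x => φ x / √(E + 1) := by
  have h0 := h.nonneg
  exact NEnL_energy h (Real.sqrt_pos.2 (by linarith)) (by rw [Real.sq_sqrt] <;> linarith only [h0])

theorem En_avg (E : ℝ) {ε : ℝ} (hε : 0 < ε) : ∃ K : ℕ, 1 ≤ K ∧ ∀ (b : Prop) (φ : V → ℝ), En b E φ →
    ∀ A A' : Finset V, (∀ x ∈ A, ¬ IsEven x ↔ b) → (∀ x ∈ A', ¬ IsEven x ↔ b) →
      K ≤ A.card → K ≤ A'.card →
      |(∑ x ∈ A, φ x) / A.card - (∑ x ∈ A', φ x) / A'.card| ≤ ε := by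
  obtain ⟨c0, c1⟩ := NEnL_c E le_rfl
  obtain ⟨K, hK, h⟩ := avg_close (div_pos hε c0)
  refine ⟨K, hK, fun b φ hφ A A' hA hA' h1 h2 => ?_⟩
  have k := h b _ (NEnL_energy hφ c0 c1) A A' hA hA' h1 h2
  rwa [← sum_div, ← sum_div, div_right_comm, div_right_comm _ _ (A'.card : ℝ), ← sub_div, abs_div,
    abs_of_pos c0, div_le_div_iff_of_pos_right c0] at k

/-- All but `K` points are close to the mean over a large set. -/
theorem En_few (E : ℝ) {ε : ℝ} (hε : 0 < ε) : ∃ K : ℕ, 1 ≤ K ∧ ∀ (b : Prop) (φ : V → ℝ), En b E φ →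
    ∀ A' : Finset V, (∀ x ∈ A', ¬ IsEven x ↔ b) → K ≤ A'.card → ∃ F : Finset V, F.card ≤ 2 * K ∧
      ∀ x ∉ F, (¬ IsEven x ↔ b) → |φ x - (∑ x ∈ A', φ x) / A'.card| ≤ ε := by
  obtain ⟨c0, c1⟩ := NEnL_c E le_rfl
  obtain ⟨K, hK, h⟩ := few_far (div_pos hε c0)
  refine ⟨K, hK, fun b φ hφ A' hA' h1 => ?_⟩
  have k : ∀ B : Finset V, (B : Set V) ⊆ {x | (¬ IsEven x ↔ b) ∧
      ε < |φ x - (∑ x ∈ A', φ x) / A'.card|} → B.card ≤ 2 * K := fun B hB => by
    have k1 := h b _ (NEnL_energy hφ c0 c1) A' B hA' (fun x hx => (hB hx).1) h1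
    rwa [filter_true_of_mem fun x hx => ?_] at k1
    rw [← sum_div, div_right_comm, ← sub_div, abs_div, abs_of_pos c0,
      div_lt_div_iff_of_pos_right c0]
    exact (hB hx).2
  have hf : {x | (¬ IsEven x ↔ b) ∧ ε < |φ x - (∑ x ∈ A', φ x) / A'.card|}.Finite := by
    by_contra hn
    obtain ⟨B, hB, e⟩ := Set.Infinite.exists_subset_card_eq hn (2 * K + 1)
    have := k B hB
    omega
  exact ⟨hf.toFinset, k _ hf.coe_toFinset.subset, fun x hx hb =>
    not_lt.1 fun k2 => hx (hf.mem_toFinset.2 ⟨hb, k2⟩)⟩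

theorem En_l1 (E C : ℝ) {ε : ℝ} (hε : 0 < ε) : ∃ K : ℕ, 1 ≤ K ∧ ∀ (b : Prop) (φ : V → ℝ),
    En b E φ → (∀ x, (¬ IsEven x ↔ b) → 0 ≤ φ x ∧ φ x ≤ C) →
    ∀ A A' : Finset V, (∀ x ∈ A, ¬ IsEven x ↔ b) → (∀ x ∈ A', ¬ IsEven x ↔ b) →
      K ≤ A.card → K ≤ A'.card →
      ∑ x ∈ A, ∑ x' ∈ A', |φ x - φ x'| ≤ ε * A.card * A'.card := by
  obtain ⟨c0, c1⟩ := NEnL_c E (c := |E| + 1 + |C|) (le_add_of_nonneg_right (abs_nonneg C))
  obtain ⟨K, hK, h⟩ := l1_close (div_pos hε c0)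
  refine ⟨K, hK, fun b φ hφ hC A A' hA hA' h1 h2 => ?_⟩
  have k := h b _ (NEnL_energy (hφ.congr (ψ := fun x => if (¬ IsEven x ↔ b) then φ x else 0)
    fun x hx => if_pos hx) c0 c1) (fun x => by
      by_cases hx : ¬ IsEven x ↔ b
      · rw [if_pos hx]
        exact ⟨div_nonneg (hC x hx).1 c0.le, (div_le_one c0).2
          (by linarith only [hC, hx, (hC x hx).2, le_abs_self C, abs_nonneg E])⟩
      · rw [if_neg hx, zero_div]
        exact ⟨le_rfl, zero_le_one⟩) A A' hA hA' h1 h2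
  rw [sum_congr rfl fun x hx => sum_congr rfl fun x' hx' => by
    rw [if_pos (hA x hx), if_pos (hA' x' hx'), ← sub_div, abs_div, abs_of_pos c0]] at k
  simp only [← sum_div] at k
  rwa [div_mul_eq_mul_div, div_mul_eq_mul_div, div_le_div_iff_of_pos_right c0] at k

/-- A function of finite energy has a limit at infinity. -/
theorem En.lim {b : Prop} {E : ℝ} {φ : V → ℝ} (h : En b E φ) :
    ∃ a : ℝ, ∀ ε : ℝ, 0 < ε → ∃ F : Finset V, ∀ x ∉ F, (¬ IsEven x ↔ b) → |φ x - a| ≤ ε := by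
  have hc : Cauchy (map φ (cofinite ⊓ 𝓟 {x : V | ¬ IsEven x ↔ b})) := by
    refine Metric.cauchy_iff.2 ⟨map_neBot (hf := (NEnL_inf' b).cofinite_inf_principal_neBot),
      fun ε hε => ?_⟩
    obtain ⟨K, -, k⟩ := En_few E (ε := ε / 3) (by positivity)
    obtain ⟨A, hA, e⟩ := (NEnL_inf' b).exists_subset_card_eq K
    obtain ⟨F, -, hF⟩ := k b φ h A hA e.ge
    refine ⟨{t | |t - (∑ x ∈ A, φ x) / A.card| ≤ ε / 3}, mem_map.2 (mem_inf_principal.2 ?_),
      fun s hs t ht => ?_⟩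
    · filter_upwards [F.finite_toSet.compl_mem_cofinite] with x hx using hF x hx
    · have k1 := abs_le.1 hs.out
      have k2 := abs_le.1 ht.out
      rw [Real.dist_eq, abs_lt]
      exact ⟨by linarith only [hε, k1, k2, k1.1, k2.2], by linarith only [hε, k1, k2, k1.2, k2.1]⟩
  obtain ⟨a, ha⟩ := CompleteSpace.complete hc
  refine ⟨a, fun ε hε => ?_⟩
  have k := mem_cofinite.1 (mem_inf_principal.1 (mem_map.1 (ha (Metric.closedBall_mem_nhds a hε))))
  refine ⟨k.toFinset, fun x hx hb => ?_⟩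
  by_contra hn
  exact hx (k.mem_toFinset.2 fun k2 => hn (k2 hb))

theorem exists_large (b : Prop) (K : ℕ) (F : Finset V) :
    ∃ A : Finset V, (∀ x ∈ A, (IsEven x ↔ b) ∧ x ∉ F) ∧ K ≤ A.card := by
  obtain ⟨A, hA, e⟩ := ((NEnL_inf b).sdiff F.finite_toSet).exists_subset_card_eq K
  exact ⟨A, fun x hx => hA hx, e.ge⟩

end Pool.Agent.Work.MP_5cb0a4_pr.Z
end
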