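import Pool.Agent.Work.MP_5cb0a4_pr.Z.Basic

-- merged part: Pool.Agent.Work.MP_5cb0a4_pr.Z.Cls
section
open MeasureTheory Finset MvPolynomial Filter Topology

namespace Pool.Agent.Work.MP_5cb0a4_pr.Z

/-- The possible partners of a vertex. -/
noncomputable def Cls_N (x : V) : Finset V := insert x (univ.image fun d : Dir => x + dv d)

lemma Cls_mem_N {ρ : V → V} (h : IsExt ρ) (x : V) : ρ x ∈ Cls_N x := by
  rcases (h x).1 with h | h
  · simp [Cls_N, h]
  · obtain ⟨d, hd⟩ := nbr_iff.1 h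
    exact mem_insert_of_mem (mem_image.2 ⟨d, mem_univ _, hd.symm⟩)

lemma Cls_card_N (x : V) : (Cls_N x).card ≤ 7 := by
  refine (card_insert_le _ _).trans (Nat.succ_le_succ (card_image_le.trans ?_))
  simp

lemma Cls_out {Λ : Finset V} {ρ ρ' : V → V} (h : IsExt ρ) (h' : IsExt ρ')
    (e : ∀ x ∉ Λ, ρ' x = ρ x) {x : V} (hx : ρ x ∉ Λ) : ρ' x = ρ x := by
  have h1 := e _ hx
  rw [(h x).2] at h1
  rw [← (h' (ρ x)).2, h1]

lemma Cls_glue {Λ : Finset V} {σ σ' ρ : V → V} (hσ : IsExt σ) (hσ' : IsExt σ')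
    (e : ∀ x ∈ Λ, σ x = σ' x) (hρ : ρ ∈ cls Λ σ) :
    (fun x => if x ∈ Λ then ρ x else σ' x) ∈ cls Λ σ' := by
  obtain ⟨h1, h2⟩ := mem_cls.1 hρ
  refine mem_cls.2 ⟨fun x => ?_, fun x hx => if_neg hx⟩
  by_cases hx : x ∈ Λ
  · simp only [if_pos hx]
    refine ⟨(h1 x).1, ?_⟩
    split_ifs with h
    · exact (h1 x).2
    · rw [← Cls_out h1 hσ (fun y hy => (h2 y hy).symm) h, e x hx, (hσ' x).2]
  · simp only [if_neg hx]
    refine ⟨(hσ' x).1, ?_⟩
    split_ifs with h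
    · have h3 := e _ h
      rw [(hσ' x).2] at h3
      have h4 : ρ x = σ' x := by rw [h2 x hx, ← (hσ (σ' x)).2, h3]
      rw [← h4, (h1 x).2]
    · exact (hσ' x).2

lemma Cls_isExt_res {σ : V → V} (hσ : IsExt σ) (Λ : Finset V) : IsExt (res Λ σ) := fun x => by
  by_cases h : x ∈ Λ ∧ σ x ∈ Λ
  · have e : res Λ σ x = σ x := if_pos h
    rw [e, res, if_pos ⟨h.2, by rw [(hσ x).2]; exact h.1⟩]
    exact hσ x
  · have e : res Λ σ x = x := if_neg h
    rw [e, e]
    exact ⟨Or.inl rfl, rfl⟩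

lemma Cls_free_iff {Λ : Finset V} {σ ρ : V → V} (hσ : IsExt σ) (hρ : ρ ∈ cls Λ σ) (x : V) :
    ρ x ∈ Λ ↔ σ x ∈ Λ := by
  obtain ⟨h1, h2⟩ := mem_cls.1 hρ
  refine not_iff_not.1 ⟨fun h => ?_, fun h => ?_⟩
  · rwa [Cls_out h1 hσ (fun y hy => (h2 y hy).symm) h]
  · rwa [Cls_out hσ h1 h2 h]

lemma Cls_tr_inj (v : V) {X Y : Finset V} : tr v X = tr v Y ↔ X = Y :=
  (image_injective (add_left_injective v)).eq_iff

lemma Cls_tr_empty (v : V) : tr v ∅ = ∅ := image_empty _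

theorem card_cls_le (Λ : Finset V) (σ : V → V) : (cls Λ σ).card ≤ 7 ^ Λ.card := by
  classical
  have h1 : (cls Λ σ).card ≤ (Λ.pi Cls_N).card := by
    refine card_le_card_of_injOn (fun ρ x _ => ρ x) (fun ρ hρ => ?_) fun ρ hρ ρ' hρ' e => ?_
    · exact mem_coe.2 (mem_pi.2 fun x _ => Cls_mem_N (mem_cls.1 hρ).1 x)
    · funext x
      by_cases hx : x ∈ Λ
      · exact congrFun (congrFun e x) hx
      · rw [(mem_cls.1 hρ).2 x hx, (mem_cls.1 hρ').2 x hx]
  rw [card_pi] at h1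
  exact h1.trans (prod_le_pow_card _ _ _ fun x _ => Cls_card_N x)

theorem Zs_le (L : ℕ) (hL : 1 ≤ L) : Zs L ≤ Real.exp (200 * (L : ℝ) ^ 3) := by
  have hc : ∀ n : ℕ, (cube n).card = n ^ 3 := fun n => by
    rw [cube, Fintype.card_piFinset]
    simp
  have hz : ∀ n : ℕ, zc n ≤ 7 ^ n ^ 3 := fun n => Finset.sup_le fun U hU => by
    refine ((card_filter_le _ _).trans (card_cls_le U id)).trans
      (Nat.pow_le_pow_right (by norm_num) ?_)
    rw [← hc]
    exact card_le_card (mem_powerset.1 (mem_filter.1 hU).1)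
  have e1 : (2.7 : ℝ) ≤ Real.exp 1 := by linarith [Real.exp_one_gt_d9]
  have e2 : (7 : ℝ) ≤ Real.exp 2 := by
    rw [show (2 : ℝ) = 1 + 1 by norm_num, Real.exp_add]
    nlinarith
  have h1 : (2 : ℝ) ^ (3 * (2 * L + 2) ^ 2) ≤ Real.exp 1 ^ (3 * (2 * L + 2) ^ 2) :=
    pow_le_pow_left₀ (by norm_num) (by linarith) _
  have h2 : (zc (2 * L + 2) : ℝ) ≤ Real.exp 2 ^ (2 * L + 2) ^ 3 :=
    le_trans (by exact_mod_cast hz (2 * L + 2)) (pow_le_pow_left₀ (by norm_num) e2 _)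
  refine (mul_le_mul h1 h2 (Nat.cast_nonneg _) (by positivity)).trans ?_
  rw [← Real.exp_nat_mul, ← Real.exp_nat_mul, ← Real.exp_add]
  refine Real.exp_le_exp.2 ?_
  have h3 : (1 : ℝ) ≤ L := by exact_mod_cast hL
  have h4 : (2 * (L : ℝ) + 2) ^ 2 ≤ (4 * L) ^ 2 := pow_le_pow_left₀ (by positivity) (by linarith) 2
  have h5 : (2 * (L : ℝ) + 2) ^ 3 ≤ (4 * L) ^ 3 := pow_le_pow_left₀ (by positivity) (by linarith) 3
  have h6 : (L : ℝ) ^ 2 ≤ L ^ 3 := pow_le_pow_right₀ h3 (by norm_num)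
  have h7 : (0 : ℝ) ≤ L ^ 3 := by positivity
  push_cast
  nlinarith

/-- Resampling inside a smaller set. -/
theorem sum_cls_resample {Λ' Λ : Finset V} (h : Λ' ⊆ Λ) (σ : V → V) (g w : (V → V) → ℝ)
    (hg : Off Λ' g) :
    ∑ ρ ∈ cls Λ σ, g ρ * w ρ =
      ∑ ρ ∈ cls Λ σ, g ρ * ((∑ ρ' ∈ cls Λ' ρ, w ρ') / (cls Λ' ρ).card) := by
  have h1 : ∀ ρ ρ', ρ ∈ cls Λ σ → ρ' ∈ cls Λ' ρ → ρ ∈ cls Λ' ρ' ∧ ρ' ∈ cls Λ σ := fun ρ ρ' a b =>
    ⟨mem_cls.2 ⟨(mem_cls.1 a).1, fun x hx => ((mem_cls.1 b).2 x hx).symm⟩,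
      mem_cls.2 ⟨(mem_cls.1 b).1, fun x hx =>
        ((mem_cls.1 b).2 x fun hx' => hx (h hx')).trans ((mem_cls.1 a).2 x hx)⟩⟩
  simp only [sum_div, mul_sum]
  rw [sum_comm' (t' := cls Λ σ) (s' := fun ρ' => cls Λ' ρ') fun ρ ρ' =>
    ⟨fun a => h1 ρ ρ' a.1 a.2, fun a => (h1 ρ' ρ a.2 a.1).symm⟩]
  refine sum_congr rfl fun ρ hρ => ?_
  have h2 : ∀ ρ' ∈ cls Λ' ρ, g ρ' * (w ρ / (cls Λ' ρ').card) = g ρ * (w ρ / (cls Λ' ρ).card) :=
    fun ρ' a => by
      rw [cls_eq (mem_cls.1 a).2, hg ρ' ρ (mem_cls.1 a).1 (mem_cls.1 hρ).1 (mem_cls.1 a).2]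
  have h3 : ((cls Λ' ρ).card : ℝ) ≠ 0 :=
    Nat.cast_ne_zero.2 (card_ne_zero_of_mem (self_mem_cls (mem_cls.1 hρ).1 Λ'))
  rw [sum_congr rfl h2, sum_const, nsmul_eq_mul]
  field_simp

theorem off_sum_cls {α : Type} [AddCommMonoid α] (Λ : Finset V) (g : (V → V) → α) :
    Off Λ fun σ => ∑ ρ ∈ cls Λ σ, g ρ := by
  intro σ σ' _ _ h
  simp only [cls_eq h]

theorem local_sum_cls {α : Type} [AddCommMonoid α] {Λ Λ' : Finset V} {g : (V → V) → α}
    (hg : Local Λ' g) : Local (Λ ∪ Λ') fun σ => ∑ ρ ∈ cls Λ σ, g ρ := by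
  intro σ σ' hσ hσ' h
  have e : ∀ x ∈ Λ, σ x = σ' x := fun x hx => h x (mem_union_left _ hx)
  refine sum_nbij' (fun ρ x => if x ∈ Λ then ρ x else σ' x) (fun ρ x => if x ∈ Λ then ρ x else σ x)
    (fun ρ hρ => Cls_glue hσ hσ' e hρ) (fun ρ hρ => Cls_glue hσ' hσ (fun x hx => (e x hx).symm) hρ)
    (fun ρ hρ => funext fun x => ?_) (fun ρ hρ => funext fun x => ?_) fun ρ hρ => ?_
  · by_cases hx : x ∈ Λ
    · simp only [if_pos hx]
    · simp only [if_neg hx, (mem_cls.1 hρ).2 x hx]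
  · by_cases hx : x ∈ Λ
    · simp only [if_pos hx]
    · simp only [if_neg hx, (mem_cls.1 hρ).2 x hx]
  · refine hg _ _ (mem_cls.1 hρ).1 (mem_cls.1 (Cls_glue hσ hσ' e hρ)).1 fun x hx' => ?_
    by_cases hx : x ∈ Λ
    · simp only [if_pos hx]
    · simp only [if_neg hx, (mem_cls.1 hρ).2 x hx, h x (mem_union_right _ hx')]

theorem Local.mono {α : Type} {Λ Λ' : Finset V} {g : (V → V) → α} (hg : Local Λ g)
    (h : Λ ⊆ Λ') : Local Λ' g := by
  exact fun σ σ' a b e => hg σ σ' a b fun x hx => e x (h hx)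

theorem Local.off {α : Type} {Λ Λ' : Finset V} {g : (V → V) → α} (hg : Local Λ g)
    (h : Disjoint Λ Λ') : Off Λ' g := by
  exact fun σ σ' a b e => hg σ σ' a b fun x hx => e x (disjoint_left.1 h hx)

theorem Local.sh {α : Type} {Λ : Finset V} {g : (V → V) → α} (hg : Local Λ g) (c : V) :
    Local (tr c Λ) fun σ => g (sh (-c) σ) := by
  refine fun σ σ' a b e => hg _ _ (isExt_sh a _) (isExt_sh b _) fun x hx => ?_
  simp only [Z.sh]
  rw [e _ (mem_tr.2 (by simpa using hx))]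

theorem Local.bdd {Λ : Finset V} {g : (V → V) → ℝ} (hg : Local Λ g) :
    ∃ C, ∀ σ, IsExt σ → |g σ| ≤ C := by
  refine ⟨∑ ρ ∈ cls (Λ.biUnion Cls_N) id, |g ρ|, fun σ hσ => ?_⟩
  have h1 : g σ = g (res (Λ.biUnion Cls_N) σ) :=
    hg _ _ hσ (Cls_isExt_res hσ _) fun x hx => (if_pos
      ⟨mem_biUnion.2 ⟨x, hx, mem_insert_self _ _⟩, mem_biUnion.2 ⟨x, hx, Cls_mem_N hσ x⟩⟩).symm
  rw [h1]
  exact single_le_sum (f := fun ρ => |g ρ|) (fun _ _ => abs_nonneg _)
    (mem_cls.2 ⟨Cls_isExt_res hσ _, fun x hx => if_neg fun h => hx h.1⟩)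

theorem local_mon (Λ : Finset V) : Local Λ (mon Λ) := by
  exact fun σ σ' _ _ e => filter_congr fun x hx => by rw [e x hx]

theorem local_Zm (Λ X : Finset V) : Local Λ fun σ => Zm Λ σ X := by
  have h : Local Λ fun ρ => if mon Λ ρ = X then 1 else 0 := fun σ σ' a b e => by
    simp only [local_mon Λ σ σ' a b e]
  simp only [Zm, card_filter]
  exact (local_sum_cls h).mono (union_subset (Subset.refl _) (Subset.refl _))

theorem local_Mr (Λ X : Finset V) : Local Λ fun σ => Mr Λ σ X := by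
  intro σ σ' a b e
  have h1 : ∀ X, Zm Λ σ X = Zm Λ σ' X := fun X => local_Zm Λ X σ σ' a b e
  simp only [Mr, zz_eq, h1]

theorem local_gam {Λ Λ' : Finset V} {g : (V → V) → ℝ} (hg : Local Λ' g) :
    Local (Λ ∪ Λ') (gam Λ g) := by
  have h : Local (Λ ∪ Λ') fun ρ => if mon Λ ρ = ∅ then g ρ else 0 := fun σ σ' a b e => by
    simp only [local_mon Λ σ σ' a b fun x hx => e x (mem_union_left _ hx),
      hg σ σ' a b fun x hx => e x (mem_union_right _ hx)]
  intro σ σ' a b e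
  have h1 : Zm Λ σ ∅ = Zm Λ σ' ∅ := local_Zm Λ ∅ σ σ' a b fun x hx => e x (mem_union_left _ hx)
  have h2 := ((local_sum_cls (Λ := Λ) h).mono
    (union_subset subset_union_left (Subset.refl _))) σ σ' a b e
  simp only [gam, perf, sum_filter, zz_eq, h1]
  exact congrArg (· / _) h2

theorem isExt_res {σ : V → V} (hσ : IsExt σ) (Λ : Finset V) : IsExt (res Λ σ) := by
  exact Cls_isExt_res hσ Λ

theorem res_injOn (Λ : Finset V) (σ : V → V) : Set.InjOn (res Λ) (cls Λ σ) := by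
  intro ρ hρ ρ' hρ' e
  obtain ⟨a1, a2⟩ := mem_cls.1 hρ
  obtain ⟨b1, b2⟩ := mem_cls.1 hρ'
  have h : ∀ x ∉ Λ, ρ x = ρ' x := fun x hx => (a2 x hx).trans (b2 x hx).symm
  funext x
  by_cases hx : x ∈ Λ
  swap
  · exact h x hx
  by_cases h1 : ρ x ∈ Λ
  swap
  · exact (Cls_out a1 b1 (fun y hy => (h y hy).symm) h1).symm
  by_cases h2 : ρ' x ∈ Λ
  swap
  · exact Cls_out b1 a1 h h2
  have := congrFun e x
  rwa [res, res, if_pos ⟨hx, h1⟩, if_pos ⟨hx, h2⟩] at this

/-- Fillings of `Λ` are monomer-dimer configurations of the free vertices. -/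
theorem sum_cls_free {α : Type} [AddCommMonoid α] (Λ : Finset V) {σ : V → V} (hσ : IsExt σ)
    (g : (V → V) → α) :
    ∑ ρ ∈ cls Λ σ, g (res Λ ρ) = ∑ ρ ∈ cls (free Λ σ) id, g ρ := by
  refine sum_nbij (res Λ) (fun ρ hρ => ?_) (res_injOn Λ σ) (fun τ hτ => ?_) fun _ _ => rfl
  · exact mem_cls.2 ⟨isExt_res (mem_cls.1 hρ).1 Λ, fun x hx => if_neg fun h =>
      hx (mem_free.2 ⟨h.1, (Cls_free_iff hσ hρ x).1 h.2⟩)⟩
  · obtain ⟨a1, a2⟩ := mem_cls.1 hτ
    have h1 : ∀ x ∈ free Λ σ, τ x ∈ free Λ σ := fun x hx => by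
      by_contra h
      have h2 := a2 _ h
      rw [(a1 x).2, id] at h2
      exact h (h2 ▸ hx)
    have h2 : ∀ x ∉ free Λ σ, σ x ∉ free Λ σ := fun x hx h => by
      have h3 := mem_free.1 h
      rw [(hσ x).2] at h3
      exact hx (mem_free.2 h3.symm)
    refine ⟨fun x => if x ∈ free Λ σ then τ x else σ x, mem_cls.2 ⟨fun x => ?_,
      fun x hx => if_neg fun h => hx (mem_free.1 h).1⟩, funext fun x => ?_⟩
    · by_cases hx : x ∈ free Λ σ
      · simp only [if_pos hx, if_pos (h1 x hx)]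
        exact a1 x
      · simp only [if_neg hx, if_neg (h2 x hx)]
        exact hσ x
    · by_cases hx : x ∈ free Λ σ
      · simp only [res, if_pos hx]
        exact if_pos ⟨(mem_free.1 hx).1, (mem_free.1 (h1 x hx)).1⟩
      · simp only [res, if_neg hx]
        exact (if_neg fun h => hx (mem_free.2 h)).trans (a2 x hx).symm

theorem Zm_free (Λ : Finset V) {σ : V → V} (hσ : IsExt σ) (X : Finset V) :
    Zm Λ σ X = if X ⊆ free Λ σ then zz (free Λ σ \ X) id else 0 := by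
  have h1 : Zm Λ σ X = Zm (free Λ σ) id X := by
    simp only [Zm, card_filter]
    rw [← sum_cls_free Λ hσ fun ρ => if mon (free Λ σ) ρ = X then 1 else 0]
    refine sum_congr rfl fun ρ hρ => ?_
    have e : mon Λ ρ = mon (free Λ σ) (res Λ ρ) := by
      ext x
      rw [mem_mon, mem_mon, mem_free, ← Cls_free_iff hσ hρ x]
      constructor
      · rintro ⟨a, b⟩
        have c : x ∈ Λ ∧ ρ x ∈ Λ := ⟨a, b.symm ▸ a⟩
        exact ⟨c, (if_pos c).trans b⟩
      · rintro ⟨a, b⟩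
        exact ⟨a.1, (if_pos a).symm.trans b⟩
    rw [e]
  rw [h1]
  generalize free Λ σ = F
  split_ifs with h
  · refine congrArg Finset.card (Finset.ext fun ρ => ?_)
    rw [mem_filter, mem_perf, mem_cls]
    constructor
    · rintro ⟨⟨a, b⟩, rfl⟩
      refine ⟨⟨a, fun x hx => ?_⟩,
        fun x hx e => (mem_sdiff.1 hx).2 (mem_mon.2 ⟨(mem_sdiff.1 hx).1, e⟩)⟩
      by_cases hF : x ∈ F
      · exact (mem_mon.1 (not_not.1 fun h' => hx (mem_sdiff.2 ⟨hF, h'⟩))).2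
      · exact b x hF
    · rintro ⟨⟨a, b⟩, c⟩
      refine ⟨⟨a, fun x hx => b x fun h' => hx (mem_sdiff.1 h').1⟩, Finset.ext fun x => ?_⟩
      rw [mem_mon]
      exact ⟨fun e => not_not.1 fun h' => c x (mem_sdiff.2 ⟨e.1, h'⟩) e.2,
        fun e => ⟨h e, b x fun h' => (mem_sdiff.1 h').2 e⟩⟩
  · refine card_eq_zero.2 (filter_eq_empty_iff.2 fun ρ _ e => h ?_)
    rw [← e]
    exact filter_subset _ _

theorem sum_cls_sh {α : Type} [AddCommMonoid α] (v : V) (Λ : Finset V) (σ : V → V)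
    (g : (V → V) → α) :
    ∑ ρ ∈ cls (tr v Λ) (sh v σ), g ρ = ∑ ρ ∈ cls Λ σ, g (sh v ρ) := by
  refine (sum_nbij' (sh v) (sh (-v)) (fun ρ hρ => ?_) (fun ρ hρ => ?_) (fun ρ _ => ?_)
    (fun ρ _ => ?_) fun _ _ => rfl).symm
  · refine mem_cls.2 ⟨isExt_sh (mem_cls.1 hρ).1 v, fun x hx => ?_⟩
    simp only [sh]
    rw [(mem_cls.1 hρ).2 _ fun h => hx (mem_tr.2 h)]
  · refine mem_cls.2 ⟨isExt_sh (mem_cls.1 hρ).1 _, fun x hx => ?_⟩
    simp only [sh]
    rw [(mem_cls.1 hρ).2 _ fun h => hx (by simpa using mem_tr.1 h)]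
    simp [sh]
  · rw [sh_sh, neg_add_cancel, sh_zero]
  · rw [sh_sh, add_neg_cancel, sh_zero]

theorem mon_sh (v : V) (Λ : Finset V) (σ : V → V) :
    mon (tr v Λ) (sh v σ) = tr v (mon Λ σ) := by
  ext x
  rw [mem_mon, mem_tr, mem_tr, mem_mon, sh, eq_sub_iff_add_eq]

theorem Zm_sh (v : V) (Λ : Finset V) (σ : V → V) (X : Finset V) :
    Zm (tr v Λ) (sh v σ) (tr v X) = Zm Λ σ X := by
  simp only [Zm, card_filter]
  rw [sum_cls_sh]
  simp only [mon_sh, Cls_tr_inj]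

theorem zz_tr_id (v : V) (U : Finset V) : zz (tr v U) id = zz U id := by
  have e : sh v id = id := funext fun x => by simp [sh]
  have h := Zm_sh v U id ∅
  rwa [e, Cls_tr_empty] at h

theorem gam_sh (v : V) (Λ : Finset V) (g : (V → V) → ℝ) (σ : V → V) :
    gam (tr v Λ) g (sh v σ) = gam Λ (fun ρ => g (sh v ρ)) σ := by
  have h := Zm_sh v Λ σ ∅
  rw [Cls_tr_empty] at h
  have e : ∀ X, tr v X = ∅ ↔ X = ∅ := fun X => image_eq_empty
  simp only [gam, perf, sum_filter, zz_eq, h]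
  rw [sum_cls_sh]
  simp only [mon_sh, e]

end Pool.Agent.Work.MP_5cb0a4_pr.Z
end

-- merged part: Pool.Agent.Work.MP_5cb0a4_pr.Z.Cls2
section
open MeasureTheory Finset MvPolynomial Filter Topology

namespace Pool.Agent.Work.MP_5cb0a4_pr.Z

/-- Indicator of a monomer set. -/
noncomputable def Cls2_I (Λ X : Finset V) (ρ : V → V) : ℝ := if mon Λ ρ = X then 1 else 0

lemma Cls2_off_mul {Λ : Finset V} {g h : (V → V) → ℝ} (hg : Off Λ g) (hh : Off Λ h) :
    Off Λ fun ρ => g ρ * h ρ := fun σ σ' a b c => by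
  simp only [hg σ σ' a b c, hh σ σ' a b c]

lemma Cls2_off_mono {α : Type} {Λ Λ' : Finset V} {g : (V → V) → α} (hg : Off Λ' g) (h : Λ ⊆ Λ') :
    Off Λ g := fun σ σ' a b c => hg σ σ' a b fun x hx => c x fun h' => hx (h h')

lemma Cls2_off_cls {α : Type} (Λ : Finset V) (F : Finset (V → V) → α) :
    Off Λ fun ρ => F (cls Λ ρ) := fun _ _ _ _ c => by simp only [cls_eq c]

lemma Cls2_local_I (Λ X : Finset V) : Local Λ (Cls2_I Λ X) := fun σ σ' a b c => by
  simp only [Cls2_I, local_mon Λ σ σ' a b c]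

lemma Cls2_sum_I (Λ X : Finset V) (s : Finset (V → V)) (g : (V → V) → ℝ) :
    ∑ ρ ∈ s, Cls2_I Λ X ρ * g ρ = ∑ ρ ∈ s.filter (fun ρ => mon Λ ρ = X), g ρ := by
  simp only [Cls2_I, boole_mul, sum_filter]

lemma Cls2_card_I (Λ X : Finset V) (σ : V → V) : ∑ ρ ∈ cls Λ σ, Cls2_I Λ X ρ = Zm Λ σ X := by
  simp only [Cls2_I, Zm, card_filter, Nat.cast_sum, Nat.cast_ite, Nat.cast_one, Nat.cast_zero]

lemma Cls2_split {Λ' Λ X : Finset V} (h : Λ' ⊆ Λ) (hX : X ⊆ Λ') (ρ : V → V) :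
    Cls2_I Λ X ρ = Cls2_I (Λ \ Λ') ∅ ρ * Cls2_I Λ' X ρ := by
  have e : mon Λ ρ = X ↔ mon (Λ \ Λ') ρ = ∅ ∧ mon Λ' ρ = X := by
    simp only [Finset.ext_iff, mem_mon, Finset.mem_sdiff, notMem_empty, iff_false]
    constructor
    · intro h1
      exact ⟨fun x h2 => h2.1.2 (hX ((h1 x).1 ⟨h2.1.1, h2.2⟩)), fun x =>
        ⟨fun h2 => (h1 x).1 ⟨h h2.1, h2.2⟩, fun h2 => ⟨hX h2, ((h1 x).2 h2).2⟩⟩⟩
    · rintro ⟨h1, h2⟩ x
      refine ⟨fun h3 => (h2 x).1 ⟨?_, h3.2⟩, fun h3 => ⟨h (hX h3), ((h2 x).2 h3).2⟩⟩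
      by_contra h4
      exact h1 x ⟨⟨h3.1, h4⟩, h3.2⟩
  simp only [Cls2_I, e, ite_zero_mul_ite_zero, mul_one]

lemma Cls2_off_I (Λ Λ' : Finset V) : Off Λ' (Cls2_I (Λ \ Λ') ∅) :=
  (Cls2_local_I _ _).off sdiff_disjoint

lemma Cls2_off_zz {α : Type} (Λ : Finset V) (F : ℕ → α) : Off Λ fun ρ => F (zz Λ ρ) :=
  Cls2_off_cls Λ fun s => F (s.filter fun ρ => mon Λ ρ = ∅).card

lemma Cls2_key {Λ' Λ : Finset V} (h : Λ' ⊆ Λ) (σ : V → V) {G : (V → V) → ℝ} (hG : Off Λ' G)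
    (w : (V → V) → ℝ) :
    ∑ ρ ∈ cls Λ σ, G ρ * (Cls2_I Λ' ∅ ρ * ((∑ ρ' ∈ cls Λ' ρ, w ρ') / zz Λ' ρ)) =
      ∑ ρ ∈ cls Λ σ, G ρ * (if 0 < zz Λ' ρ then 1 else 0) * w ρ := by
  have h1 := sum_cls_resample h σ _ (Cls2_I Λ' ∅) (Cls2_off_mul hG (Cls2_off_mul
    (off_sum_cls Λ' w) (Cls2_off_zz Λ' fun n => (n : ℝ)⁻¹)))
  rw [sum_cls_resample h σ _ w (Cls2_off_mul hG (Cls2_off_zz Λ' fun n => if 0 < n then 1 else 0))]
  refine Eq.trans (sum_congr rfl fun ρ _ => by ring) (h1.trans (sum_congr rfl fun ρ _ => ?_))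
  rw [Cls2_card_I, ← zz_eq]
  split_ifs with h2
  · have h3 : (zz Λ' ρ : ℝ) ≠ 0 := Nat.cast_ne_zero.2 h2.ne'
    field_simp
  · rw [Nat.eq_zero_of_not_pos h2]
    simp

lemma Cls2_repl (s : Finset (V → V)) (S : Finset V) (Λ : V → Finset V)
    (hdisj : ∀ i ∈ S, ∀ j ∈ S, i ≠ j → Disjoint (Λ i) (Λ j)) (f f' : V → (V → V) → ℝ)
    (hf : ∀ i ∈ S, Local (Λ i) (f i)) (hf' : ∀ i ∈ S, Local (Λ i) (f' i))
    (h : ∀ i ∈ S, ∀ G, Off (Λ i) G → ∑ ρ ∈ s, G ρ * f i ρ = ∑ ρ ∈ s, G ρ * f' i ρ)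
    (G : (V → V) → ℝ) (hG : ∀ i ∈ S, Off (Λ i) G) :
    ∑ ρ ∈ s, G ρ * ∏ i ∈ S, f i ρ = ∑ ρ ∈ s, G ρ * ∏ i ∈ S, f' i ρ := by
  induction S using Finset.induction_on generalizing G with
  | empty => rfl
  | insert j S hj ih =>
    have hm := mem_insert_self j S
    have hd : ∀ i ∈ S, Disjoint (Λ j) (Λ i) := fun i hi =>
      hdisj j hm i (mem_insert_of_mem hi) fun e => hj (e ▸ hi)
    have h1 := ih (fun i hi k hk => hdisj i (mem_insert_of_mem hi) k (mem_insert_of_mem hk))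
      (fun i hi => hf i (mem_insert_of_mem hi)) (fun i hi => hf' i (mem_insert_of_mem hi))
      (fun i hi => h i (mem_insert_of_mem hi)) (fun ρ => G ρ * f j ρ)
      fun i hi => Cls2_off_mul (hG i (mem_insert_of_mem hi)) ((hf j hm).off (hd i hi))
    have h2 := h j hm (fun ρ => G ρ * ∏ i ∈ S, f' i ρ) (Cls2_off_mul (hG j hm) fun σ σ' a b c =>
      prod_congr rfl fun i hi => (hf' i (mem_insert_of_mem hi)).off (hd i hi).symm σ σ' a b c)
    simp only [prod_insert hj, ← mul_assoc]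
    rw [h1]
    simp only [mul_right_comm _ (f j _), mul_right_comm _ (f' j _)]
    exact h2

theorem gam_tower {Λ' Λ : Finset V} (h : Λ' ⊆ Λ) (g : (V → V) → ℝ) (σ : V → V) :
    gam Λ (gam Λ' g) σ = gam Λ g σ := by
  have h1 := Cls2_key h σ (Cls2_off_I Λ Λ') fun ρ => Cls2_I Λ' ∅ ρ * g ρ
  refine congrArg (· / (zz Λ σ : ℝ)) ?_
  rw [perf, ← Cls2_sum_I, ← Cls2_sum_I]
  refine Eq.trans (sum_congr rfl fun ρ _ => ?_) (h1.trans (sum_congr rfl fun ρ hρ => ?_))
  · rw [Cls2_split h (empty_subset _), Cls2_sum_I, mul_assoc]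
    rfl
  · rw [Cls2_split h (empty_subset _)]
    split_ifs with h2
    · ring
    · have h3 : Cls2_I Λ' ∅ ρ = 0 := if_neg fun h3 =>
        h2 (card_pos.2 ⟨ρ, mem_filter.2 ⟨self_mem_cls (mem_cls.1 hρ).1 _, h3⟩⟩)
      rw [h3]
      ring

theorem gam_mono {Λ : Finset V} {g g' : (V → V) → ℝ} {σ : V → V}
    (h : ∀ ρ ∈ perf Λ σ, g ρ ≤ g' ρ) : gam Λ g σ ≤ gam Λ g' σ := by
  exact div_le_div_of_nonneg_right (sum_le_sum h) (Nat.cast_nonneg _)

theorem gam_const {Λ : Finset V} {σ : V → V} (h : 0 < zz Λ σ) (c : ℝ) :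
    gam Λ (fun _ => c) σ = c := by
  rw [gam, sum_const, nsmul_eq_mul]
  exact mul_div_cancel_left₀ _ (Nat.cast_ne_zero.2 h.ne')

/-- Jensen for the positive part. -/
theorem gam_pos_le {Λ' Λ : Finset V} (h : Λ' ⊆ Λ) (g : (V → V) → ℝ) (c : ℝ) {σ : V → V}
    (hz : 0 < zz Λ σ) :
    max (gam Λ g σ - c) 0 ≤ gam Λ (fun ρ => max (gam Λ' g ρ - c) 0) σ := by
  refine max_le ?_ (div_nonneg (sum_nonneg fun _ _ => le_max_right _ _) (Nat.cast_nonneg _))
  refine le_trans (le_of_eq ?_) (gam_mono (g := fun ρ => gam Λ' g ρ - c) fun _ _ => le_max_left _ _)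
  rw [← gam_tower h g σ]
  conv_lhs => rw [← gam_const hz c]
  simp only [gam, sum_sub_distrib, sub_div]

/-- Jensen for the logarithm. -/
theorem gam_log_le {Λ : Finset V} {σ : V → V} (hz : 0 < zz Λ σ) (g : (V → V) → ℝ)
    (hg : ∀ ρ ∈ perf Λ σ, 0 < g ρ) :
    gam Λ (fun ρ => Real.log (g ρ)) σ ≤ Real.log (gam Λ g σ) := by
  have h0 : (0 : ℝ) < zz Λ σ := Nat.cast_pos.2 hz
  have hc : 0 < gam Λ g σ := div_pos (sum_pos hg (card_pos.1 hz)) h0
  have h1 := gam_mono (g := fun ρ => Real.log (g ρ))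
    (g' := fun ρ => g ρ / gam Λ g σ + (Real.log (gam Λ g σ) - 1)) fun ρ hρ => by
      have h2 := Real.log_le_sub_one_of_pos (div_pos (hg ρ hρ) hc)
      rw [Real.log_div (hg ρ hρ).ne' hc.ne'] at h2
      linarith
  refine h1.trans (le_of_eq ?_)
  have h2 := gam_const hz (Real.log (gam Λ g σ) - 1)
  rw [gam] at h2
  rw [gam, sum_add_distrib, add_div, h2, ← sum_div, div_right_comm]
  have h3 : (∑ ρ ∈ perf Λ σ, g ρ) / zz Λ σ / gam Λ g σ = 1 := div_self hc.ne'
  linarith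

/-- Monomer configurations that can be repaired inside `Λ'`. -/
theorem rep_sum {Λ' Λ X : Finset V} (h : Λ' ⊆ Λ) (hX : X ⊆ Λ') (σ : V → V) (H : (V → V) → ℝ)
    (hH : Off Λ' H) :
    ∑ ρ ∈ (cls Λ σ).filter (fun ρ => mon Λ ρ = X ∧ 0 < zz Λ' ρ), H ρ =
      ∑ ρ ∈ perf Λ σ, Mr Λ' ρ X * H ρ := by
  have h1 := Cls2_key h σ (Cls2_off_mul (Cls2_off_I Λ Λ') hH) (Cls2_I Λ' X)
  rw [perf, ← Cls2_sum_I, ← filter_filter, filter_comm, ← Cls2_sum_I, sum_filter]
  refine Eq.trans (sum_congr rfl fun ρ _ => ?_) (h1.symm.trans (sum_congr rfl fun ρ _ => ?_))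
  · rw [Cls2_split h hX]
    split_ifs <;> ring
  · rw [Cls2_split h (empty_subset _), Cls2_card_I, Mr]
    ring

theorem Mr_super {Λ' Λ X : Finset V} (h : Λ' ⊆ Λ) (hX : X ⊆ Λ') (σ : V → V) :
    gam Λ (fun ρ => Mr Λ' ρ X) σ ≤ Mr Λ σ X := by
  have h1 := rep_sum h hX σ (fun _ => 1) fun _ _ _ _ _ => rfl
  simp only [mul_one, sum_const, nsmul_eq_mul] at h1
  refine div_le_div_of_nonneg_right (h1.symm.trans_le (Nat.cast_le.2 (card_le_card ?_)))
    (Nat.cast_nonneg _)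
  exact monotone_filter_right _ fun _ _ h => h.1

/-- Class replacement. -/
theorem class_replace (U : Finset V) (σ : V → V) (S : Finset V) (Λ : V → Finset V)
    (hsub : ∀ i ∈ S, Λ i ⊆ U) (hdisj : ∀ i ∈ S, ∀ j ∈ S, i ≠ j → Disjoint (Λ i) (Λ j))
    (b : V → (V → V) → ℝ) (hb : ∀ i ∈ S, Local (Λ i) (b i))
    (hB : ∀ i ∈ S, ∀ ρ, IsExt ρ → 0 ≤ ∑ ρ' ∈ cls (Λ i) ρ, b i ρ')
    (H : (V → V) → ℝ) (hH0 : ∀ ρ, IsExt ρ → 0 ≤ H ρ) (hH : Off (S.biUnion Λ) H) :
    ∑ ρ ∈ perf U σ, H ρ * ∏ i ∈ S, (∑ ρ' ∈ cls (Λ i) ρ, b i ρ') / zz (Λ i) ρ ≤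
      ∑ ρ ∈ (cls U σ).filter (fun ρ => mon U ρ ⊆ S.biUnion Λ), H ρ * ∏ i ∈ S, b i ρ := by
  have hS : S.biUnion Λ ⊆ U := biUnion_subset.2 hsub
  have hG : ∀ i ∈ S, Off (Λ i) fun ρ => Cls2_I (U \ S.biUnion Λ) ∅ ρ * H ρ := fun i hi =>
    Cls2_off_mono (Cls2_off_mul (Cls2_off_I _ _) hH) (subset_biUnion_of_mem Λ hi)
  have l1 : ∀ i ∈ S, Local (Λ i) fun ρ => ∑ ρ' ∈ cls (Λ i) ρ, b i ρ' := fun i hi =>
    (local_sum_cls (hb i hi)).mono (union_self _).subset
  have l2 : ∀ i, Local (Λ i) fun ρ => zz (Λ i) ρ := fun i => local_Zm (Λ i) ∅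
  have l3 : ∀ i, Local (Λ i) fun ρ => (cls (Λ i) ρ).card := fun i σ σ' a c d => by
    have h1 := (local_sum_cls (Λ := Λ i) (Λ' := Λ i) (g := fun _ => (1 : ℕ))
      fun _ _ _ _ _ => rfl).mono (union_self _).subset σ σ' a c d
    simpa only [← card_eq_sum_ones] using h1
  have p1 := Cls2_repl (cls U σ) S Λ hdisj
    (fun i ρ => Cls2_I (Λ i) ∅ ρ * ((∑ ρ' ∈ cls (Λ i) ρ, b i ρ') / zz (Λ i) ρ))
    (fun i ρ => (if 0 < zz (Λ i) ρ then 1 else 0) *
      ((∑ ρ' ∈ cls (Λ i) ρ, b i ρ') / (cls (Λ i) ρ).card))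
    (fun i hi σ σ' a c d => by
      have e1 := l1 i hi σ σ' a c d
      have e2 := l2 i σ σ' a c d
      simp only at e1 e2 ⊢
      rw [e1, e2, Cls2_local_I _ _ σ σ' a c d])
    (fun i hi σ σ' a c d => by
      have e1 := l1 i hi σ σ' a c d
      have e2 := l2 i σ σ' a c d
      have e3 := l3 i σ σ' a c d
      simp only at e1 e2 e3 ⊢
      rw [e1, e2, e3])
    (fun i hi G hG => by
      rw [Cls2_key (hsub i hi) σ hG, sum_cls_resample (hsub i hi) σ _ (b i)
        (Cls2_off_mul hG (Cls2_off_zz (Λ i) fun n => if 0 < n then 1 else 0))]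
      simp only [mul_assoc]) _ hG
  have p2 := Cls2_repl (cls U σ) S Λ hdisj b
    (fun i ρ => (∑ ρ' ∈ cls (Λ i) ρ, b i ρ') / (cls (Λ i) ρ).card) hb
    (fun i hi σ σ' a c d => by
      have e1 := l1 i hi σ σ' a c d
      have e3 := l3 i σ σ' a c d
      simp only at e1 e3 ⊢
      rw [e1, e3])
    (fun i hi G hG => sum_cls_resample (hsub i hi) σ G (b i) hG) _ hG
  have e1 : ∀ ρ, Cls2_I (S.biUnion Λ) ∅ ρ = ∏ i ∈ S, Cls2_I (Λ i) ∅ ρ := fun ρ => by
    have e : mon (S.biUnion Λ) ρ = ∅ ↔ ∀ i ∈ S, mon (Λ i) ρ = ∅ := by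
      simp only [eq_empty_iff_forall_notMem, mem_mon, mem_biUnion]
      exact ⟨fun h i hi x hx => h x ⟨⟨i, hi, hx.1⟩, hx.2⟩,
        fun h x ⟨⟨i, hi, hx⟩, h2⟩ => h i hi x ⟨hx, h2⟩⟩
    simp only [Cls2_I, prod_boole, e]
  have e2 : (cls U σ).filter (fun ρ => mon U ρ ⊆ S.biUnion Λ) =
      (cls U σ).filter fun ρ => mon (U \ S.biUnion Λ) ρ = ∅ := filter_congr fun ρ _ => by
    rw [eq_empty_iff_forall_notMem]
    refine forall_congr' fun x => ?_
    simp only [mem_mon, Finset.mem_sdiff]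
    tauto
  rw [e2, perf, ← Cls2_sum_I, ← Cls2_sum_I]
  simp only [← mul_assoc]
  rw [p2]
  refine le_trans (le_of_eq (sum_congr rfl fun ρ _ => ?_)) (p1.trans_le (sum_le_sum fun ρ hρ => ?_))
  · rw [Cls2_split hS (empty_subset _), e1, prod_mul_distrib]
    ring
  · have h1 := (mem_cls.1 hρ).1
    have h2 : ∀ i ∈ S, 0 ≤ (∑ ρ' ∈ cls (Λ i) ρ, b i ρ') / ((cls (Λ i) ρ).card : ℝ) := fun i hi =>
      div_nonneg (hB i hi ρ h1) (Nat.cast_nonneg _)
    refine mul_le_mul_of_nonneg_left (prod_le_prod (fun i hi => ?_) fun i hi => ?_)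
      (mul_nonneg ?_ (hH0 ρ h1))
    · split_ifs
      · exact mul_nonneg zero_le_one (h2 i hi)
      · rw [zero_mul]
    · split_ifs
      · rw [one_mul]
      · rw [zero_mul]
        exact h2 i hi
    · rw [Cls2_I]
      split_ifs <;> norm_num

theorem Mr_empty {Λ : Finset V} {σ : V → V} (h : 0 < zz Λ σ) : Mr Λ σ ∅ = 1 := by
  exact div_self (Nat.cast_ne_zero.2 h.ne')

theorem Mr_nonneg (Λ : Finset V) (σ : V → V) (X : Finset V) : 0 ≤ Mr Λ σ X := by
  exact div_nonneg (Nat.cast_nonneg _) (Nat.cast_nonneg _)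

lemma Cls2_nbr_ne {x y : V} (h : Nbr x y) : y ≠ x := fun e => by
  have h1 := nbr_parity h
  rw [e] at h1
  tauto

lemma Cls2_dimer {Λ : Finset V} (σ : V → V) {x y : V} (hx : x ∈ Λ) (hy : y ∈ Λ) (h : Nbr x y) :
    ((perf Λ σ).filter fun ρ => ρ x = y).card = Zm Λ σ {x, y} := by
  have hne := Cls2_nbr_ne h
  refine card_nbij' (fun ρ z => if z = x ∨ z = y then z else ρ z)
    (fun ρ z => if z = x then y else if z = y then x else ρ z) (fun ρ hρ => ?_) (fun ρ hρ => ?_)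
    (fun ρ hρ => ?_) fun ρ hρ => ?_
  · obtain ⟨h1, h2⟩ := mem_filter.1 (mem_coe.1 hρ)
    obtain ⟨⟨h3, h4⟩, h5⟩ := mem_perf.1 h1
    have h6 : ρ y = x := by rw [← h2, (h3 x).2]
    refine mem_coe.2 (mem_filter.2 ⟨mem_cls.2 ⟨fun z => ?_, fun z hz => ?_⟩, ?_⟩)
    · by_cases e : z = x ∨ z = y
      · simp only [if_pos e, true_or, true_and]
      · have e2 : ¬ (ρ z = x ∨ ρ z = y) := fun e2 => e (e2.symm.imp
          (fun e3 => h3.inj (e3.trans h2.symm)) fun e3 => h3.inj (e3.trans h6.symm))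
        simp only [if_neg e, if_neg e2]
        exact h3 z
    · beta_reduce
      rw [if_neg, h4 z hz]
      rintro (rfl | rfl)
      · exact hz hx
      · exact hz hy
    · ext z
      rw [mem_mon, mem_insert, mem_singleton]
      refine ⟨fun h7 => by_contra fun e => h5 z h7.1 (by simpa only [if_neg e] using h7.2),
        fun e => ⟨?_, if_pos e⟩⟩
      rcases e with rfl | rfl
      · exact hx
      · exact hy
  · obtain ⟨h1, h2⟩ := mem_filter.1 (mem_coe.1 hρ)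
    obtain ⟨h3, h4⟩ := mem_cls.1 h1
    have h5 : ρ x = x := (mem_mon.1 (h2 ▸ mem_insert_self x {y})).2
    have h6 : ρ y = y := (mem_mon.1 (h2 ▸ mem_insert_of_mem (mem_singleton_self y))).2
    refine mem_coe.2 (mem_filter.2 ⟨mem_perf.2 ⟨⟨fun z => ?_, fun z hz => ?_⟩, fun z hz => ?_⟩,
      if_pos rfl⟩)
    · by_cases e1 : z = x
      · simp only [e1, if_true, if_neg hne, and_true]
        exact Or.inr h
      by_cases e2 : z = y
      · simp only [e2, if_true, if_neg hne, and_true]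
        exact Or.inr (nbr_symm h)
      have e3 : ρ z ≠ x := fun e3 => e1 (h3.inj (e3.trans h5.symm))
      have e4 : ρ z ≠ y := fun e4 => e2 (h3.inj (e4.trans h6.symm))
      simp only [if_neg e1, if_neg e2, if_neg e3, if_neg e4]
      exact h3 z
    · beta_reduce
      rw [if_neg fun e : z = x => hz (e ▸ hx), if_neg fun e : z = y => hz (e ▸ hy), h4 z hz]
    · beta_reduce
      split_ifs with e1 e2
      · exact e1 ▸ hne
      · exact e2 ▸ hne.symm
      · intro e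
        have h7 : z ∈ ({x, y} : Finset V) := h2 ▸ mem_mon.2 ⟨hz, e⟩
        rw [mem_insert, mem_singleton] at h7
        tauto
  · obtain ⟨h1, h2⟩ := mem_filter.1 (mem_coe.1 hρ)
    have h3 := (mem_perf.1 h1).1.1
    funext z
    by_cases e1 : z = x
    · simp only [e1, if_true, h2]
    by_cases e2 : z = y
    · simp only [e2, if_true, if_neg hne]
      rw [← h2, (h3 x).2]
    simp only [e1, e2, if_false, or_self]
  · obtain ⟨-, h2⟩ := mem_filter.1 (mem_coe.1 hρ)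
    have h5 : ρ x = x := (mem_mon.1 (h2 ▸ mem_insert_self x {y})).2
    have h6 : ρ y = y := (mem_mon.1 (h2 ▸ mem_insert_of_mem (mem_singleton_self y))).2
    funext z
    by_cases e1 : z = x
    · simp only [e1, true_or, if_true, h5]
    by_cases e2 : z = y
    · simp only [e2, or_true, if_true, h6]
    simp only [e1, e2, if_false, or_self]

theorem Mr_sum {Λ : Finset V} {σ : V → V} (hz : 0 < zz Λ σ) {x : V} (hx : x ∈ Λ)
    (hd : ∀ d : Dir, x + dv d ∈ Λ) :
    ∑ d : Dir, Mr Λ σ {x, x + dv d} = 1 := by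
  have h1 : zz Λ σ = ∑ d : Dir, Zm Λ σ {x, x + dv d} := by
    simp only [← Cls2_dimer σ hx (hd _) (nbr_iff.2 ⟨_, rfl⟩), card_filter]
    rw [sum_comm, zz, card_eq_sum_ones]
    refine sum_congr rfl fun ρ hρ => ?_
    obtain ⟨⟨h3, -⟩, h5⟩ := mem_perf.1 hρ
    obtain ⟨d, e⟩ := nbr_iff.1 ((h3 x).1.resolve_left (h5 x hx))
    rw [sum_eq_single d, if_pos e]
    · exact fun d' _ h => if_neg fun e' => h (dv_injective (add_left_cancel (e'.symm.trans e)))
    · exact fun h => absurd (mem_univ d) h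
  simp only [Mr]
  rw [← sum_div, ← Nat.cast_sum, ← h1]
  exact div_self (Nat.cast_ne_zero.2 hz.ne')

lemma Cls2_sg {Λ : Finset V} {ρ : V → V} (h : IsExt ρ) :
    ∑ x ∈ free Λ ρ, sg x = ∑ x ∈ mon Λ ρ, sg x := by
  have h1 : mon Λ ρ ⊆ free Λ ρ := fun x hx =>
    mem_free.2 ⟨(mem_mon.1 hx).1, (mem_mon.1 hx).2.symm ▸ (mem_mon.1 hx).1⟩
  have h2 : ∀ x ∈ free Λ ρ \ mon Λ ρ, ρ x ≠ x := fun x hx e =>
    (Finset.mem_sdiff.1 hx).2 (mem_mon.2 ⟨(mem_free.1 (Finset.mem_sdiff.1 hx).1).1, e⟩)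
  rw [← sum_sdiff h1, sum_involution (fun x _ => ρ x) (fun x hx => ?_) (fun x hx _ => h2 x hx)
    (fun x hx => ?_) (fun x _ => (h x).2), zero_add]
  · have h3 := nbr_parity ((h x).1.resolve_left (h2 x hx))
    by_cases e : IsEven x
    · rw [sg, sg, if_pos e, if_neg fun h4 => h3.1 h4 e, add_neg_cancel]
    · rw [sg, sg, if_neg e, if_pos (h3.2 e), neg_add_cancel]
  · obtain ⟨h3, h4⟩ := mem_free.1 (Finset.mem_sdiff.1 hx).1
    exact Finset.mem_sdiff.2 ⟨mem_free.2 ⟨h4, (h x).2.symm ▸ h3⟩, fun h5 =>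
      h2 x hx ((mem_mon.1 h5).2.symm.trans (h x).2)⟩

lemma Cls2_free {Λ : Finset V} {σ ρ ρ' : V → V} (h : ρ ∈ cls Λ σ) (h' : ρ' ∈ cls Λ σ) :
    free Λ ρ ⊆ free Λ ρ' := by
  intro x hx
  obtain ⟨h1, h2⟩ := mem_free.1 hx
  obtain ⟨a1, a2⟩ := mem_cls.1 h
  obtain ⟨b1, b2⟩ := mem_cls.1 h'
  refine mem_free.2 ⟨h1, by_contra fun h3 => h3 ?_⟩
  have h4 : ρ (ρ' x) = x := by rw [a2 _ h3, ← b2 _ h3, (b1 x).2]
  rwa [← h4, (a1 _).2] at h2

theorem Mr_neutral {Λ : Finset V} {σ : V → V} {X : Finset V} (h : Mr Λ σ X ≠ 0) :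
    (X.filter IsEven).card = (X.filter fun v => ¬ IsEven v).card := by
  obtain ⟨h1, h2⟩ := div_ne_zero_iff.1 h
  obtain ⟨ρ, hρ⟩ := card_ne_zero.1 (Nat.cast_ne_zero.1 h1)
  obtain ⟨τ, hτ⟩ := card_ne_zero.1 (Nat.cast_ne_zero.1 h2)
  obtain ⟨a1, a2⟩ := mem_filter.1 hρ
  obtain ⟨b1, b2⟩ := mem_filter.1 hτ
  have h3 := Cls2_sg (Λ := Λ) (mem_cls.1 a1).1
  rw [(Cls2_free a1 b1).antisymm (Cls2_free b1 a1), Cls2_sg (mem_cls.1 b1).1, a2, b2, sum_empty] at h3
  simp only [sg, sum_ite, sum_const, nsmul_eq_mul] at h3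
  exact_mod_cast (by linarith : ((X.filter IsEven).card : ℝ) = (X.filter fun v => ¬ IsEven v).card)

/-- A combination of monomer correlations as a sum over the class. -/
theorem sum_cls_mon {Λ T : Finset V} (hT : T ⊆ Λ) (c : Finset V → ℝ)
    (hc : ∀ X, ¬ X ⊆ T → c X = 0) (σ : V → V) :
    (∑ ρ ∈ cls Λ σ, c (mon Λ ρ)) / zz Λ σ = ∑ X ∈ T.powerset, c X * Mr Λ σ X := by
  simp only [Mr, ← mul_div_assoc, ← sum_div, ← Cls2_card_I, mul_sum]
  rw [sum_comm]
  refine congrArg (· / (zz Λ σ : ℝ)) (sum_congr rfl fun ρ _ => ?_)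
  simp only [Cls2_I, mul_boole, sum_ite_eq, mem_powerset]
  split_ifs with h
  · rfl
  · exact hc _ h

end Pool.Agent.Work.MP_5cb0a4_pr.Z
end

-- merged part: Pool.Agent.Work.MP_5cb0a4_pr.Z.Poly
section
open MeasureTheory Finset MvPolynomial Filter Topology

namespace Pool.Agent.Work.MP_5cb0a4_pr.Z

theorem Poly_apply {α : Type} [DecidableEq α] (U : Finset α) (x : α) :
    sqf U x = if x ∈ U then 1 else 0 := by
  simp [sqf, Finsupp.finsetSum_apply, Finsupp.single_apply]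

theorem Poly_support {α : Type} (U : Finset α) : (sqf U).support = U := by
  classical
  ext x
  simp [Poly_apply]

theorem Poly_inj {α : Type} {U S : Finset α} : sqf U = sqf S ↔ U = S :=
  ⟨fun h => by rw [← Poly_support U, h, Poly_support], congrArg sqf⟩

/-- Coefficient of a squarefree monomial in a product. -/
theorem coeff_sqf_mul {α R : Type} [DecidableEq α] [CommRing R] (U : Finset α)
    (p q : MvPolynomial α R) :
    coeff (sqf U) (p * q) = ∑ S ∈ U.powerset, coeff (sqf S) p * coeff (sqf (U \ S)) q := by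
  rw [coeff_mul]
  refine (sum_nbij' (fun S => (sqf S, sqf (U \ S))) (fun x => x.1.support) (fun S hS => ?_)
    (fun x hx => ?_) (fun S _ => Poly_support S) (fun x hx => ?_) fun _ _ => rfl).symm
  · have h := mem_powerset.1 hS
    refine mem_antidiagonal.2 (Finsupp.ext fun v => ?_)
    have := @h v
    simp only [Finsupp.add_apply, Poly_apply, Finset.mem_sdiff]
    by_cases h1 : v ∈ S <;> by_cases h2 : v ∈ U <;> simp_all
  · refine mem_powerset.2 fun v hv => ?_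
    have h := DFunLike.congr_fun (mem_antidiagonal.1 hx) v
    rw [Finsupp.add_apply, Poly_apply] at h
    have := Finsupp.mem_support_iff.1 hv
    split_ifs at h with h1
    · exact h1
    · omega
  · have h := fun v => DFunLike.congr_fun (mem_antidiagonal.1 hx) v
    simp only [Finsupp.add_apply, Poly_apply] at h
    refine Prod.ext (Finsupp.ext fun v => ?_) (Finsupp.ext fun v => ?_) <;> have := h v <;>
      simp only [Poly_apply, Finset.mem_sdiff, Finsupp.mem_support_iff] <;>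
      by_cases h1 : v ∈ U <;> simp only [h1, if_true, if_false, true_and, false_and] at this ⊢ <;>
      (try split_ifs) <;> omega

/-- Squarefree coefficients vanish on the ideal generated by the squares of the variables. -/
theorem coeff_sqf_congr {α R : Type} [CommRing R] (U : Finset α) {p q : MvPolynomial α R}
    (h : p - q ∈ Ideal.span (Set.range fun v : α => (X v : MvPolynomial α R) ^ 2)) :
    coeff (sqf U) p = coeff (sqf U) q := by
  classical
  have key : ∀ r, coeff (sqf U) (r * (p - q)) = 0 := by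
    generalize p - q = x at h
    induction h using Submodule.span_induction with
    | mem x hx =>
      obtain ⟨v, rfl⟩ := hx
      intro r
      simp only
      rw [X_pow_eq_monomial, coeff_mul_monomial', if_neg fun h => ?_]
      have := Finsupp.single_le_iff.1 h
      rw [Poly_apply] at this
      split_ifs at this <;> omega
    | zero => simp
    | add x y _ _ hx hy => exact fun r => by rw [mul_add, coeff_add, hx, hy, add_zero]
    | smul a x _ hx => exact fun r => by rw [smul_eq_mul, ← mul_assoc, hx]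
  have := key 1
  rwa [one_mul, coeff_sub, sub_eq_zero] at this

theorem coeff_sqf_prod_X {α R : Type} [DecidableEq α] [CommRing R] (U S : Finset α) :
    coeff (sqf U) (∏ v ∈ S, (X v : MvPolynomial α R)) = if U = S then 1 else 0 := by
  have : ∏ v ∈ S, (X v : MvPolynomial α R) = monomial (sqf S) 1 := (monomial_sum_one _ _).symm
  rw [this, coeff_monomial]
  exact if_congr (Poly_inj.trans eq_comm) rfl rfl

theorem coeff_sqf_eq_zero {α R : Type} [DecidableEq α] [CommRing R] {U : Finset α}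
    {p : MvPolynomial α R} (h : ¬ U ⊆ p.vars) : coeff (sqf U) p = 0 := by
  by_contra h1
  exact h fun v hv => (mem_vars_iff_mem_support v).2
    ⟨sqf U, mem_support_iff.2 h1, (Poly_support U).symm ▸ hv⟩

/-- Factorisation for polynomials in disjoint sets of variables. -/
theorem coeff_sqf_prod_disj {α ι R : Type} [DecidableEq α] [DecidableEq ι] [CommRing R]
    (S : Finset ι) (A : ι → Finset α) (p : ι → MvPolynomial α R)
    (hA : ∀ i ∈ S, ∀ j ∈ S, i ≠ j → Disjoint (A i) (A j)) (hp : ∀ i ∈ S, (p i).vars ⊆ A i)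
    (U : Finset α) :
    coeff (sqf U) (∏ i ∈ S, p i) =
      if U ⊆ S.biUnion A then ∏ i ∈ S, coeff (sqf (U ∩ A i)) (p i) else 0 := by
  induction S using Finset.induction_on generalizing U with
  | empty =>
    rw [prod_empty, ← prod_empty (f := fun v => (X v : MvPolynomial α R)), coeff_sqf_prod_X]
    simp
  | insert i S hi ih =>
    have h1 : ∀ j ∈ S, ∀ v ∈ A i, v ∉ A j := fun j hj v hv => disjoint_left.1
      (hA i (mem_insert_self _ _) j (mem_insert_of_mem hj) fun e => hi (e ▸ hj)) hv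
    replace ih := ih (fun a ha b hb => hA a (mem_insert_of_mem ha) b (mem_insert_of_mem hb))
      fun a ha => hp a (mem_insert_of_mem ha)
    rw [prod_insert hi, prod_insert hi, coeff_sqf_mul, sum_eq_single_of_mem (U ∩ A i)
      (mem_powerset.2 inter_subset_left) fun T hT hne => ?_, ih, mul_ite, mul_zero, biUnion_insert]
    · refine if_congr ?_ (congrArg _ (prod_congr rfl fun j hj => ?_)) rfl
      · rw [sdiff_inter_self_left]
        exact sdiff_le_iff
      · congr 2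
        ext v
        have := h1 j hj v
        simp only [mem_inter, Finset.mem_sdiff]
        tauto
    · by_cases h2 : T ⊆ A i
      · rw [ih, if_neg, mul_zero]
        refine fun h3 => hne (Subset.antisymm (subset_inter (mem_powerset.1 hT) h2) fun v hv => ?_)
        by_contra h4
        obtain ⟨j, hj, h5⟩ := mem_biUnion.1 (h3 (Finset.mem_sdiff.2 ⟨(mem_inter.1 hv).1, h4⟩))
        exact h1 j hj v (mem_inter.1 hv).2 h5
      · rw [coeff_sqf_eq_zero fun h3 => h2 (h3.trans (hp i (mem_insert_self _ _))), zero_mul]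

theorem coeff_sqf_rename {α β R : Type} [DecidableEq β] [CommRing R] (f : α → β)
    (hf : Function.Injective f) (U : Finset α) (p : MvPolynomial α R) :
    coeff (sqf (U.image f)) (rename f p) = coeff (sqf U) p := by
  have : sqf (U.image f) = (sqf U).mapDomain f := by
    rw [sqf, sqf, sum_image hf.injOn, Finsupp.mapDomain_finsetSum]
    simp only [Finsupp.mapDomain_single]
  rw [this, coeff_rename_mapDomain f hf]

theorem mE_sub_nE_mul {α R : Type} [CommRing R] (x y : α) (M : Bool → Bool → R) :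
    mE x y M - nE x y M * (1 + X x * X y) ∈
      Ideal.span (Set.range fun v : α => (X v : MvPolynomial α R) ^ 2) := by
  have h : ∀ v : α, (X v : MvPolynomial α R) ^ 2 ∈
      Ideal.span (Set.range fun v : α => (X v : MvPolynomial α R) ^ 2) :=
    fun v => Ideal.subset_span ⟨v, rfl⟩
  convert Ideal.add_mem _
    (Ideal.mul_mem_left _ (-(C (M true false) * X y + C (M true true - M false false) * X y ^ 2))
      (h x)) (Ideal.mul_mem_left _ (-(C (M false true) * X x)) (h y)) using 1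
  simp only [mE, nE, map_sub]
  ring

theorem vars_prod_nE {R : Type} [CommRing R] (D : Finset Edge) (M : Edge → Bool → Bool → R) :
    (∏ e ∈ D, nE (src e) (tgt e) (M e)).vars ⊆ verts D := by
  rw [← coe_subset, ← mem_supported, supported_eq_adjoin_X]
  refine Subalgebra.prod_mem _ fun e he => ?_
  have h1 : (X (src e) : MvPolynomial V R) ∈ Algebra.adjoin R (X '' (verts D : Set V)) :=
    Algebra.subset_adjoin ⟨_, mem_union_left _ (mem_image_of_mem src he), rfl⟩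
  have h2 : (X (tgt e) : MvPolynomial V R) ∈ Algebra.adjoin R (X '' (verts D : Set V)) :=
    Algebra.subset_adjoin ⟨_, mem_union_right _ (mem_image_of_mem tgt he), rfl⟩
  have h3 : ∀ r, (C r : MvPolynomial V R) ∈ Algebra.adjoin R (X '' (verts D : Set V)) :=
    Subalgebra.algebraMap_mem _
  exact add_mem (add_mem (add_mem (h3 _) (mul_mem (h3 _) h1)) (mul_mem (h3 _) h2))
    (mul_mem (mul_mem (h3 _) h1) h2)

theorem cX_eq_zero {R : Type} [CommRing R] {D : Finset Edge} (M : Edge → Bool → Bool → R)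
    {X : Finset V} (h : ¬ X ⊆ verts D) : cX D M X = 0 := by
  exact coeff_sqf_eq_zero fun h1 => h (h1.trans (vars_prod_nE D M))

theorem Poly_map {R S : Type} [CommRing R] [CommRing S] (f : R →+* S) (D : Finset Edge)
    (M : Edge → Bool → Bool → R) (Y : Finset V) :
    cX D (fun e i j => f (M e i j)) Y = f (cX D M Y) := by
  rw [cX, cX, ← coeff_map, map_prod]
  simp only [nE, map_add, map_mul, map_C, map_X, map_sub]

theorem cX_ofReal (D : Finset Edge) (M : Edge → Bool → Bool → ℝ) (X : Finset V) :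
    cX D (fun e i j => (M e i j : ℂ)) X = ((cX D M X : ℝ) : ℂ) := by
  exact Poly_map Complex.ofRealHom D M X

theorem continuous_cX (D : Finset Edge) (X : Finset V) :
    Continuous fun M : Edge → Bool → Bool → ℝ => cX D M X := by
  let P : Edge → Bool → Bool → C(Edge → Bool → Bool → ℝ, ℝ) :=
    fun e i j => ⟨fun M => M e i j, by fun_prop⟩
  refine (cX D P X).continuous.congr fun M => ?_
  exact (Poly_map (ContinuousMap.evalAlgHom ℝ ℝ M).toRingHom D P X).symm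

/-- `cX` only depends on the matrices on `D`. -/
theorem cX_congr {R : Type} [CommRing R] {D : Finset Edge} {M M' : Edge → Bool → Bool → R}
    (h : ∀ e ∈ D, M e = M' e) (X : Finset V) : cX D M X = cX D M' X := by
  rw [cX, cX, prod_congr rfl fun e he => by rw [h e he]]

/-- The insertion of monomers at `X₀`: edges `(x, 0)` with the matrix unit `E₁₀`. -/
theorem cX_unit {R : Type} [CommRing R] (X₀ X : Finset V) :
    cX (X₀.image fun x => ((x, 0) : Edge))
      (fun _ i j => if i = true ∧ j = false then (1 : R) else 0) X = if X = X₀ then 1 else 0 := by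
  rw [cX, prod_image fun _ _ _ _ h => (Prod.ext_iff.1 h).1, ← coeff_sqf_prod_X]
  simp [nE, src]

theorem Poly_ne (e : Edge) : src e ≠ tgt e := fun h =>
  dv_ne_zero _ (left_eq_add.1 (h.trans (tgt_eq e)))

theorem Poly_ext {e e' : Edge} (h1 : src e = src e') (h2 : tgt e = tgt e') : e = e' := by
  rw [tgt_eq, tgt_eq, h1, add_right_inj] at h2
  exact Prod.ext h1 (Prod.ext_iff.1 (dv_injective h2)).1

theorem Poly_rev {e e' : Edge} (h1 : src e = tgt e') (h2 : tgt e = src e') : False := by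
  rw [tgt_eq, h1, tgt_eq, add_assoc, add_eq_left, add_eq_zero_iff_neg_eq, ← dv_not] at h2
  exact Bool.false_ne_true (Prod.ext_iff.1 (dv_injective h2)).2

theorem Poly_ex {U : Finset V} {ρ : V → V} (h : ρ ∈ cls U id) {x : V} (hx : ρ x ≠ x) :
    ∃ e ∈ (edges U).filter fun e => ρ (src e) = tgt e, src e = x ∨ tgt e = x := by
  obtain ⟨h1, h2⟩ := mem_cls.1 h
  have h3 : x ∈ U := not_not.1 fun h3 => hx (h2 x h3)
  have h4 : ρ x ∈ U := not_not.1 fun h4 => hx (h1.inj (h2 _ h4))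
  obtain ⟨⟨i, b⟩, hd⟩ := nbr_iff.1 ((h1 x).1.resolve_left hx)
  cases b
  · have h5 : tgt (ρ x, i) = x := by
      rw [tgt_eq, src, hd, show dv (i, false) = -dv (i, true) from dv_not (i, true)]
      exact neg_add_cancel_right _ _
    exact ⟨(ρ x, i), mem_filter.2 ⟨mem_edges.2 ⟨h4, h5.symm ▸ h3⟩, (h1 x).2.trans h5.symm⟩,
      Or.inr h5⟩
  · have h5 : ρ x = tgt (x, i) := hd.trans (tgt_eq (x, i)).symm
    exact ⟨(x, i), mem_filter.2 ⟨mem_edges.2 ⟨h3, h5 ▸ h4⟩, h5⟩, Or.inl rfl⟩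

theorem Poly_match (μ : Finset Edge) (h : ∀ x, #{e ∈ μ | src e = x ∨ tgt e = x} ≤ 1) :
    ∃ ρ : V → V, (∀ e ∈ μ, ρ (src e) = tgt e) ∧ (∀ e ∈ μ, ρ (tgt e) = src e) ∧
      ∀ x, (¬∃ e ∈ μ, src e = x ∨ tgt e = x) → ρ x = x := by
  have h1 : ∀ x, ∃ y, (∀ e ∈ μ, src e = x ∨ tgt e = x → y = src e + tgt e - x) ∧
      ((¬∃ e ∈ μ, src e = x ∨ tgt e = x) → y = x) := fun x => by
    by_cases hx : ∃ e ∈ μ, src e = x ∨ tgt e = x
    · obtain ⟨e, he⟩ := id hx
      refine ⟨src e + tgt e - x, fun e' h2 h3 => ?_, fun h2 => absurd hx h2⟩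
      rw [card_le_one.1 (h x) e (mem_filter.2 he) e' (mem_filter.2 ⟨h2, h3⟩)]
    · exact ⟨x, fun e h2 h3 => absurd ⟨e, h2, h3⟩ hx, fun _ => rfl⟩
  choose ρ h2 h3 using h1
  exact ⟨ρ, fun e he => (h2 _ e he (Or.inl rfl)).trans (add_sub_cancel_left _ _),
    fun e he => (h2 _ e he (Or.inr rfl)).trans (add_sub_cancel_right _ _), h3⟩

theorem Poly_coeff {R : Type} [CommRing R] (W : Finset V) (t : Edge → R) (μ : Finset Edge) :
    coeff (sqf W) (∏ e ∈ μ, C (t e) * X (src e) * X (tgt e)) = open Classical in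
      if ∀ x, #{e ∈ μ | src e = x ∨ tgt e = x} = if x ∈ W then 1 else 0 then ∏ e ∈ μ, t e
      else 0 := by
  have h1 : ∏ e ∈ μ, (C (t e) * X (src e) * X (tgt e) : MvPolynomial V R) =
      monomial (∑ e ∈ μ, (Finsupp.single (src e) 1 + Finsupp.single (tgt e) 1)) (∏ e ∈ μ, t e) := by
    rw [monomial_sum_index]
    simp only [mul_assoc, prod_mul_distrib, map_prod, X, monomial_mul, mul_one]
  classical
  rw [h1, coeff_monomial]
  refine if_congr (Finsupp.ext_iff.trans (forall_congr' fun x => ?_)) rfl rfl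
  rw [Poly_apply, Finsupp.finsetSum_apply, card_filter]
  refine Eq.congr_left (sum_congr rfl fun e _ => ?_)
  have := Poly_ne e
  simp only [Finsupp.add_apply, Finsupp.single_apply]
  by_cases h2 : src e = x <;> by_cases h3 : tgt e = x <;> simp_all

/-- Weighted matchings with prescribed monomers as a coefficient. -/
theorem coeff_dimer {R : Type} [CommRing R] (U X₀ : Finset V) (hX : X₀ ⊆ U) (t : Edge → R) :
    coeff (sqf (U \ X₀)) (∏ e ∈ edges U, (1 + C (t e) * X (src e) * X (tgt e))) =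
      ∑ ρ ∈ (cls U id).filter (fun ρ => mon U ρ = X₀),
        ∏ e ∈ edges U, if ρ (src e) = tgt e then t e else 1 := by
  classical
  rw [prod_one_add, coeff_sum]
  simp only [Poly_coeff, ← prod_filter]
  rw [← sum_filter]
  refine (sum_bij (fun ρ _ => (edges U).filter fun e => ρ (src e) = tgt e) (fun ρ hρ => ?_)
    (fun ρ hρ ρ' hρ' h => ?_) (fun μ hμ => ?_) fun _ _ => rfl).symm
  · obtain ⟨h1, rfl⟩ := mem_filter.1 hρ
    obtain ⟨h2, h3⟩ := mem_cls.1 h1
    refine mem_filter.2 ⟨mem_powerset.2 (filter_subset _ _), fun x => ?_⟩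
    split_ifs with hx
    · obtain ⟨e, he, h4⟩ := Poly_ex h1 fun h => (Finset.mem_sdiff.1 hx).2
        (mem_mon.2 ⟨(Finset.mem_sdiff.1 hx).1, h⟩)
      refine card_eq_one.2 ⟨e, eq_singleton_iff_unique_mem.2 ⟨mem_filter.2 ⟨he, h4⟩,
        fun e' he' => ?_⟩⟩
      have h5 := (mem_filter.1 he).2
      have h6 := (mem_filter.1 (mem_filter.1 he').1).2
      rcases h4 with h4 | h4 <;> rcases (mem_filter.1 he').2 with h7 | h7
      · exact Poly_ext (h7.trans h4.symm) (by rw [← h5, ← h6, h4, h7])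
      · exact (Poly_rev (h4.trans h7.symm) (by rw [← h5, h4, ← h7, ← h6, (h2 _).2])).elim
      · exact (Poly_rev (h7.trans h4.symm) (by rw [← h6, h7, ← h4, ← h5, (h2 _).2])).elim
      · exact Poly_ext (h2.inj (by rw [h5, h6, h4, h7])) (h7.trans h4.symm)
    · refine card_eq_zero.2 (filter_eq_empty_iff.2 fun e he h4 => hx ?_)
      obtain ⟨h5, h6⟩ := mem_filter.1 he
      rw [mem_edges] at h5
      rw [Finset.mem_sdiff, mem_mon]
      rcases h4 with rfl | rfl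
      · exact ⟨h5.1, fun h => Poly_ne e (h.2.symm.trans h6)⟩
      · exact ⟨h5.2, fun h => Poly_ne e (h2.inj (h6.trans h.2.symm))⟩
  · have key : ∀ {ρ ρ' : V → V}, ρ ∈ cls U id → ρ' ∈ cls U id →
        ((edges U).filter fun e => ρ (src e) = tgt e) =
          (edges U).filter (fun e => ρ' (src e) = tgt e) → ∀ x, ρ x ≠ x → ρ x = ρ' x := by
      intro ρ ρ' h1 h2 h x hx
      obtain ⟨e, he, h3⟩ := Poly_ex h1 hx
      have h4 := (mem_filter.1 he).2
      have h5 := (mem_filter.1 (h ▸ he)).2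
      rcases h3 with rfl | rfl
      · exact h4.trans h5.symm
      · exact ((congrArg ρ h4).symm.trans ((mem_cls.1 h1).1 _).2).trans
          ((congrArg ρ' h5).symm.trans ((mem_cls.1 h2).1 _).2).symm
    have h1 := (mem_filter.1 hρ).1
    have h2 := (mem_filter.1 hρ').1
    funext x
    by_cases hx : ρ x = x
    · by_contra h3
      exact h3 (key h2 h1 h.symm x fun h4 => h3 (hx.trans h4.symm)).symm
    · exact key h1 h2 h x hx
  · obtain ⟨h1, h2⟩ := mem_filter.1 hμ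
    rw [mem_powerset] at h1
    obtain ⟨ρ, a1, a2, a3⟩ := Poly_match μ fun x => (h2 x).trans_le (by split_ifs <;> omega)
    have a4 : ∀ x, ρ x = x ∨ ∃ e ∈ μ, src e = x ∨ tgt e = x := fun x =>
      or_iff_not_imp_right.2 (a3 x)
    refine ⟨ρ, mem_filter.2 ⟨mem_cls.2 ⟨fun x => ?_, fun x hx => a3 x ?_⟩, ?_⟩, ?_⟩
    · rcases a4 x with h | ⟨e, he, rfl | rfl⟩
      · exact ⟨Or.inl h, by rw [h, h]⟩
      · rw [a1 e he, a2 e he]
        exact ⟨Or.inr (nbr_iff.2 ⟨_, tgt_eq e⟩), rfl⟩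
      · rw [a2 e he, a1 e he]
        exact ⟨Or.inr (nbr_symm (nbr_iff.2 ⟨_, tgt_eq e⟩)), rfl⟩
    · rintro ⟨e, he, rfl | rfl⟩
      exacts [hx (mem_edges.1 (h1 he)).1, hx (mem_edges.1 (h1 he)).2]
    · ext x
      have h3 := h2 x
      rw [mem_mon]
      refine ⟨fun h => ?_, fun h => ⟨hX h, a3 x fun ⟨e, he⟩ => ?_⟩⟩
      · by_contra h4
        rw [if_pos (Finset.mem_sdiff.2 ⟨h.1, h4⟩)] at h3
        obtain ⟨e, he⟩ := card_pos.1 (h3.symm ▸ one_pos)
        obtain ⟨h5, rfl | rfl⟩ := mem_filter.1 he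
        · exact Poly_ne e (h.2.symm.trans (a1 e h5))
        · exact Poly_ne e ((a2 e h5).symm.trans h.2)
      · rw [if_neg fun h4 => (Finset.mem_sdiff.1 h4).2 h, card_eq_zero] at h3
        exact filter_eq_empty_iff.1 h3 he.1 he.2
    · ext e
      rw [mem_filter]
      refine ⟨fun h => ?_, fun h => ⟨h1 h, a1 e h⟩⟩
      rcases a4 (src e) with h3 | ⟨e', he', h3 | h3⟩
      · exact (Poly_ne e (h3.symm.trans h.2)).elim
      · rwa [← Poly_ext h3 (by rw [← a1 e' he', h3, h.2])]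
      · exact (Poly_rev h3.symm (by rw [← a2 e' he', h3, h.2])).elim

theorem Poly_contr {M : Bool → Bool → ℂ}
    (h : ∀ v : Bool → ℂ, ‖M true true * v true + M true false * v false‖ ^ 2 +
      ‖M false true * v true + M false false * v false‖ ^ 2 ≤ ‖v true‖ ^ 2 + ‖v false‖ ^ 2) :
    Contr M := by
  intro u v
  have h1 : ‖∑ i, ∑ j, u i * M i j * v j‖ ≤ ∑ i, ‖u i‖ * ‖∑ j, M i j * v j‖ := by
    refine norm_sum_le_of_le _ fun i _ => le_of_eq ?_
    simp only [← norm_mul, mul_sum, mul_assoc]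
  refine (pow_le_pow_left₀ (norm_nonneg _) h1 2).trans ((sum_mul_sq_le_sq_mul_sq _ _ _).trans
    (mul_le_mul_of_nonneg_left ?_ (sum_nonneg fun _ _ => sq_nonneg _)))
  simpa only [Fintype.sum_bool] using h v

theorem contrR_of {M : Bool → Bool → ℝ}
    (h : ∀ a b : ℝ, (M false false * a + M false true * b) ^ 2 +
      (M true false * a + M true true * b) ^ 2 ≤ a ^ 2 + b ^ 2) : ContrR M := by
  refine Poly_contr fun v => ?_
  have h1 := h (v false).re (v true).re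
  have h2 := h (v false).im (v true).im
  simp only [Complex.sq_norm, Complex.normSq_apply, Complex.add_re, Complex.add_im,
    Complex.re_ofReal_mul, Complex.im_ofReal_mul]
  linarith

theorem contr_diag {t : ℂ} (ht : ‖t‖ ≤ 1) :
    Contr fun i j => if i = j then (if i = true then t else 1) else 0 := by
  refine Poly_contr fun v => ?_
  have := pow_le_pow_left₀ (by positivity) (mul_le_of_le_one_left (norm_nonneg (v true)) ht) 2
  simpa using this

theorem contr_unit (a b : Bool) : Contr fun i j => if i = a ∧ j = b then 1 else 0 := by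
  refine Poly_contr fun v => ?_
  cases a <;> cases b <;> simp

theorem contr_idM : Contr idM := by
  refine Poly_contr fun v => ?_
  simp [idM]

end Pool.Agent.Work.MP_5cb0a4_pr.Z
end

-- merged part: Pool.Agent.Work.MP_5cb0a4_pr.Z.RPAux
section
/-! Tensor products of contractions are contractions. -/

open Finset MvPolynomial
open scoped ComplexConjugate

namespace Pool.Agent.Work.MP_5cb0a4_pr.Z

theorem RP_mul_conj (z : ℂ) : z * conj z = ((‖z‖ ^ 2 : ℝ) : ℂ) := by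
  rw [Complex.mul_conj, Complex.normSq_eq_norm_sq]

theorem RP_norm_sum {ι : Type} [Fintype ι] (w : ι → ℂ) :
    ‖∑ i, w i * conj (w i)‖ = ∑ i, ‖w i‖ ^ 2 := by
  simp only [RP_mul_conj]
  rw [← Complex.ofReal_sum, Complex.norm_real, Real.norm_of_nonneg (by positivity)]

theorem RP_op {M : Bool → Bool → ℂ} (h : Contr M) (v : Bool → ℂ) :
    ∑ i, ‖∑ j, M i j * v j‖ ^ 2 ≤ ∑ j, ‖v j‖ ^ 2 := by
  have h1 := h (fun i => conj (∑ j, M i j * v j)) v
  have h2 : ∑ i, ∑ j, conj (∑ j, M i j * v j) * M i j * v j =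
      ∑ i, (∑ j, M i j * v j) * conj (∑ j, M i j * v j) :=
    sum_congr rfl fun i _ => by
      rw [mul_comm, mul_sum]
      exact sum_congr rfl fun j _ => mul_assoc _ _ _
  simp only [Complex.norm_conj] at h1
  rw [h2, RP_norm_sum] at h1
  have h3 : 0 ≤ ∑ i, ‖∑ j, M i j * v j‖ ^ 2 := by positivity
  have h4 : 0 ≤ ∑ j, ‖v j‖ ^ 2 := by positivity
  by_contra hc
  nlinarith

theorem RP_cons {n : ℕ} {β : Type} [AddCommMonoid β] (f : (Fin (n + 1) → Bool) → β) :
    ∑ b, f b = ∑ i : Bool, ∑ b : Fin n → Bool, f (Fin.cons i b) := by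
  rw [← (Fin.consEquiv fun _ => Bool).sum_comp, Fintype.sum_prod_type]
  rfl

theorem RP_op_fin (n : ℕ) (K : Fin n → Bool → Bool → ℂ) (hK : ∀ e, Contr (K e))
    (R : (Fin n → Bool) → ℂ) :
    ∑ b : Fin n → Bool, ‖∑ b' : Fin n → Bool, (∏ e, K e (b e) (b' e)) * R b'‖ ^ 2 ≤
      ∑ b, ‖R b‖ ^ 2 := by
  induction n with
  | zero => simp
  | succ n ih =>
    simp only [RP_cons, Fin.prod_univ_succ, Fin.cons_zero, Fin.cons_succ, mul_assoc, ← mul_sum]
    rw [sum_comm]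
    refine (sum_le_sum fun b _ => RP_op (hK 0) _).trans ?_
    rw [sum_comm]
    exact sum_le_sum fun j _ => ih (fun e => K e.succ) (fun e => hK _) _

theorem RP_op_gen {E : Type} [Fintype E] [DecidableEq E] (K : E → Bool → Bool → ℂ)
    (hK : ∀ e, Contr (K e)) (R : (E → Bool) → ℂ) :
    ∑ b : E → Bool, ‖∑ b' : E → Bool, (∏ e, K e (b e) (b' e)) * R b'‖ ^ 2 ≤ ∑ b, ‖R b‖ ^ 2 := by
  let φ := (Fintype.equivFin E).symm
  have h := RP_op_fin _ (fun i => K (φ i)) (fun i => hK _) fun b => R (φ.arrowCongr (.refl _) b)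
  rw [← (φ.arrowCongr (.refl Bool)).sum_comp, ← (φ.arrowCongr (.refl Bool)).sum_comp]
  refine le_trans (le_of_eq (sum_congr rfl fun b _ => ?_)) h
  rw [← (φ.arrowCongr (.refl Bool)).sum_comp]
  congr 2
  refine sum_congr rfl fun b' _ => ?_
  rw [← φ.prod_comp]
  simp

theorem RP_tensor {E : Type} [Fintype E] [DecidableEq E] (K : E → Bool → Bool → ℂ)
    (hK : ∀ e, Contr (K e)) (L R : (E → Bool) → ℂ) :
    ‖∑ b : E → Bool, ∑ b' : E → Bool, L b * ((∏ e, K e (b e) (b' e)) * R b')‖ ^ 2 ≤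
      (∑ b, ‖L b‖ ^ 2) * ∑ b, ‖R b‖ ^ 2 := by
  simp only [← mul_sum]
  refine le_trans ?_ (mul_le_mul_of_nonneg_left (RP_op_gen K hK R) (by positivity))
  refine le_trans ?_ (sum_mul_sq_le_sq_mul_sq _ _ _)
  refine pow_le_pow_left₀ (norm_nonneg _) ((norm_sum_le _ _).trans (le_of_eq ?_)) 2
  simp only [norm_mul]

/-- Transposition, if `f` is set. -/
def RP_tp (f : Bool) (A : Bool → Bool → ℂ) : Bool → Bool → ℂ :=
  fun i j => if f then A j i else A i j

theorem RP_tp_contr (f : Bool) {A : Bool → Bool → ℂ} (h : Contr A) : Contr (RP_tp f A) := by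
  cases f
  · exact h
  · intro u v
    have := h v u
    rw [sum_comm, mul_comm] at this
    refine le_trans (le_of_eq ?_) this
    congr 2
    refine sum_congr rfl fun i _ => sum_congr rfl fun j _ => ?_
    simp only [RP_tp, if_true]
    ring

theorem RP_conj_contr {A : Bool → Bool → ℂ} (h : Contr A) : Contr fun i j => conj (A i j) := by
  intro u v
  have := h (fun i => conj (u i)) fun i => conj (v i)
  simp only [Complex.norm_conj] at this
  rw [← Complex.norm_conj]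
  simpa only [map_sum, map_mul, Complex.conj_conj] using this

theorem RP_split {α : Type} [Fintype α] [DecidableEq α] {A : Finset α} {p q : MvPolynomial α ℂ}
    (hp : p ∈ supported ℂ (A : Set α)) (hq : q ∈ supported ℂ ((Aᶜ : Finset α) : Set α)) :
    coeff (sqf univ) (p * q) = coeff (sqf A) p * coeff (sqf Aᶜ) q := by
  rw [mem_supported, coe_subset] at hp hq
  rw [coeff_sqf_mul, sum_eq_single A (fun S _ hS => ?_) fun h => absurd (by simp) h]
  · rfl
  · by_cases h : S ⊆ A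
    · rw [coeff_sqf_eq_zero (U := univ \ S) fun h' => hS (h.antisymm ?_), mul_zero]
      exact compl_subset_compl.1 (h'.trans hq)
    · rw [coeff_sqf_eq_zero fun h' => h (h'.trans hp), zero_mul]

end Pool.Agent.Work.MP_5cb0a4_pr.Z
end

-- merged part: Pool.Agent.Work.MP_5cb0a4_pr.Z.RP
section
open MeasureTheory Finset MvPolynomial Filter Topology
open scoped ComplexConjugate

namespace Pool.Agent.Work.MP_5cb0a4_pr.Z

/-- A reflection of a finite graph with vertex set `α`, edge set `ε` and end point maps `s`, `t`,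
exchanging the left half with the right half. -/
structure Refl (α ε : Type) (s t : ε → α) where
  left : α → Bool
  θ : α → α
  ϑ : ε → ε
  flip : ε → Bool
  θθ : ∀ v, θ (θ v) = v
  ϑϑ : ∀ e, ϑ (ϑ e) = e
  side : ∀ v, left (θ v) = !left v
  flip_ϑ : ∀ e, flip (ϑ e) = flip e
  s_ϑ : ∀ e, s (ϑ e) = θ (if flip e then t e else s e)
  t_ϑ : ∀ e, t (ϑ e) = θ (if flip e then s e else t e)
  cross : ∀ e, left (s e) ≠ left (t e) → t e = θ (s e)
  cross_inj : ∀ e e', left (s e) ≠ left (t e) → left (s e') ≠ left (t e') →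
    (s e = s e' ∨ s e = t e') → e = e'

/-- Partition function with edge matrices `M`. -/
noncomputable def Zg {α ε : Type} [Fintype α] [Fintype ε] (s t : ε → α)
    (M : ε → Bool → Bool → ℂ) : ℂ :=
  coeff (sqf univ) (∏ e, mE (s e) (t e) (M e))

section

variable {α ε : Type} [Fintype α] [DecidableEq α] [Fintype ε] [DecidableEq ε] {s t : ε → α}
  (r : Refl α ε s t)

/-- Edges inside the half `c`. -/
abbrev RP_sd (c : Bool) (e : ε) : Prop := r.left (s e) = c ∧ r.left (t e) = c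

/-- Crossing edges. -/
abbrev RP_cr : Type := {e // r.left (s e) ≠ r.left (t e)}

/-- The end of a crossing edge in the half `c`. -/
def RP_en (c : Bool) (e : ε) : α := if r.left (s e) = c then s e else t e

/-- The vertices of the half `c`. -/
def RP_half (c : Bool) : Finset α := univ.filter fun v => r.left v = c

/-- The polynomial of the half `c`, with the occupation `b` of the crossing edges. -/
noncomputable def RP_P (c : Bool) (M : ε → Bool → Bool → ℂ) (b : RP_cr r → Bool) :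
    MvPolynomial α ℂ :=
  (∏ e with RP_sd r c e, mE (s e) (t e) (M e)) * ∏ e, if b e then X (RP_en r c e) else 1

/-- The reflected matrices. -/
noncomputable def RP_ref (c : Bool) (M : ε → Bool → Bool → ℂ) (e : ε) : Bool → Bool → ℂ :=
  if RP_sd r c e then M e
  else if RP_sd r (!c) e then fun i j => conj (RP_tp (r.flip e) (M (r.ϑ e)) i j) else idM

omit [Fintype α] [DecidableEq α] [Fintype ε] [DecidableEq ε] in
theorem RP_sd_ϑ (c : Bool) (e : ε) : RP_sd r c (r.ϑ e) ↔ RP_sd r (!c) e := by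
  simp only [RP_sd, r.s_ϑ, r.t_ϑ, r.side]
  cases r.flip e <;> cases c <;> simp [and_comm]

omit [Fintype α] [DecidableEq α] [Fintype ε] [DecidableEq ε] in
theorem RP_en_left (c : Bool) (e : RP_cr r) : r.left (RP_en r c e) = c := by
  have := e.2
  unfold RP_en
  split_ifs with h
  · exact h
  · revert h this
    cases r.left (s e) <;> cases r.left (t e) <;> cases c <;> simp

omit [Fintype α] [DecidableEq α] [Fintype ε] [DecidableEq ε] in
theorem RP_en_not (c : Bool) (e : RP_cr r) : RP_en r (!c) e = r.θ (RP_en r c e) := by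
  have h1 := r.cross e e.2
  unfold RP_en
  by_cases h : r.left (s e) = c
  · rw [if_pos h, if_neg (by simp [h]), h1]
  · rw [if_neg h, if_pos (Bool.eq_not.2 h), h1, r.θθ]

omit [DecidableEq α] [DecidableEq ε] in
theorem RP_supp (c : Bool) (M : ε → Bool → Bool → ℂ) (b : RP_cr r → Bool) :
    RP_P r c M b ∈ supported ℂ (RP_half r c : Set α) := by
  have hX : ∀ v, r.left v = c → (X v : MvPolynomial α ℂ) ∈ supported ℂ (RP_half r c : Set α) :=
    fun v hv => X_mem_supported.2 (by simpa [RP_half] using hv)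
  have hC : ∀ a : ℂ, (C a : MvPolynomial α ℂ) ∈ supported ℂ (RP_half r c : Set α) :=
    fun a => Subalgebra.algebraMap_mem _ a
  refine mul_mem (prod_mem fun e he => ?_) (prod_mem fun e _ => ?_)
  · have h := (mem_filter.1 he).2
    exact add_mem (add_mem (add_mem (hC _) (mul_mem (hC _) (hX _ h.1))) (mul_mem (hC _) (hX _ h.2)))
      (mul_mem (mul_mem (hC _) (hX _ h.1)) (hX _ h.2))
  · split_ifs
    exacts [hX _ (RP_en_left r c e), one_mem _]

omit [Fintype ε] [DecidableEq ε] in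
theorem RP_half_not (c : Bool) : RP_half r (!c) = (RP_half r c)ᶜ := by
  ext v
  simp [RP_half, Bool.eq_not]

omit [Fintype α] [DecidableEq α] [DecidableEq ε] in
theorem RP_prod {β : Type} [CommMonoid β] (c : Bool) (f : ε → β) :
    ∏ e, f e = (∏ e with RP_sd r c e, f e) * (∏ e with RP_sd r (!c) e, f e) * ∏ e : RP_cr r, f e := by
  rw [← prod_subtype (univ.filter fun e => r.left (s e) ≠ r.left (t e)) (by simp) f, prod_filter,
    prod_filter, prod_filter, ← prod_mul_distrib, ← prod_mul_distrib]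
  refine prod_congr rfl fun e _ => ?_
  unfold RP_sd
  cases r.left (s e) <;> cases r.left (t e) <;> cases c <;> simp

theorem RP_Zg (c : Bool) (M : ε → Bool → Bool → ℂ) :
    Zg s t M = ∑ b : RP_cr r → Bool, ∑ b' : RP_cr r → Bool,
      coeff (sqf (RP_half r c)) (RP_P r c M b) *
        ((∏ e : RP_cr r, RP_tp (r.left (s e) != c) (M e) (b e) (b' e)) *
          coeff (sqf (RP_half r (!c))) (RP_P r (!c) M b')) := by
  have h1 : ∀ e : RP_cr r, mE (s e) (t e) (M e) = ∑ i, ∑ j, C (RP_tp (r.left (s e) != c) (M e) i j) *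
      ((if i then X (RP_en r c e) else 1) * if j then X (RP_en r (!c) e) else 1) := fun e => by
    by_cases h : r.left (s e) = c
    · simp [mE, RP_tp, RP_en, h]
      ring
    · simp [mE, RP_tp, RP_en, Bool.eq_not.2 h]
      ring
  have h2 : ∏ e : RP_cr r, mE (s e) (t e) (M e) = ∑ b : RP_cr r → Bool, ∑ b' : RP_cr r → Bool,
      C (∏ e : RP_cr r, RP_tp (r.left (s e) != c) (M e) (b e) (b' e)) *
        ((∏ e : RP_cr r, if b e then X (RP_en r c e) else 1) *
          ∏ e : RP_cr r, if b' e then X (RP_en r (!c) e) else 1) := by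
    rw [prod_congr rfl fun e _ => h1 e, Fintype.prod_sum]
    refine sum_congr rfl fun b _ => ?_
    rw [Fintype.prod_sum]
    refine sum_congr rfl fun b' _ => ?_
    rw [prod_mul_distrib, prod_mul_distrib, map_prod]
  rw [Zg, RP_prod r c, h2, mul_sum, coeff_sum]
  refine sum_congr rfl fun b _ => ?_
  rw [mul_sum, coeff_sum]
  refine sum_congr rfl fun b' _ => ?_
  have h3 := RP_supp r (!c) M b'
  rw [RP_half_not] at h3
  rw [mul_left_comm (coeff _ _), RP_half_not, ← RP_split (RP_supp r c M b) h3, ← coeff_C_mul,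
    RP_P, RP_P, mul_left_comm, mul_mul_mul_comm]

omit [Fintype α] [DecidableEq α] [DecidableEq ε] in
theorem RP_P_ref (c : Bool) (M : ε → Bool → Bool → ℂ) (b : RP_cr r → Bool) :
    RP_P r (!c) (RP_ref r c M) b = rename r.θ (map (starRingEnd ℂ) (RP_P r c M b)) := by
  simp only [RP_P, map_mul, map_prod]
  congr 1
  · refine prod_nbij' r.ϑ r.ϑ (fun e he => ?_) (fun e he => ?_) (fun e _ => r.ϑϑ e)
      (fun e _ => r.ϑϑ e) fun e he => ?_
    · exact mem_filter.2 ⟨mem_univ _, (RP_sd_ϑ r c e).2 (mem_filter.1 he).2⟩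
    · exact mem_filter.2 ⟨mem_univ _, (RP_sd_ϑ r _ e).2 (by simpa using (mem_filter.1 he).2)⟩
    · have h := (mem_filter.1 he).2
      have h' : ¬ RP_sd r c e := fun h' => by simpa using h'.1.symm.trans h.1
      rw [RP_ref, if_neg h', if_pos h, r.s_ϑ, r.t_ϑ]
      cases r.flip e
      · simp [mE, RP_tp, r.θθ]
      · simp [mE, RP_tp, r.θθ]
        ring
  · refine prod_congr rfl fun e _ => ?_
    split_ifs
    · rw [map_X, rename_X, RP_en_not]
    · simp

theorem RP_Zg_ref (c : Bool) (M : ε → Bool → Bool → ℂ) :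
    ‖Zg s t (RP_ref r c M)‖ = ∑ b, ‖coeff (sqf (RP_half r c)) (RP_P r c M b)‖ ^ 2 := by
  have h1 : RP_half r (!c) = (RP_half r c).image r.θ := by
    ext v
    simp only [RP_half, mem_image, mem_filter, mem_univ, true_and]
    exact ⟨fun h => ⟨r.θ v, by rw [r.side, h, Bool.not_not], r.θθ v⟩,
      fun ⟨w, h, e⟩ => by rw [← e, r.side, h]⟩
  have h2 : ∀ b, RP_P r c (RP_ref r c M) b = RP_P r c M b := fun b => by
    rw [RP_P, RP_P, prod_congr rfl fun e he => by rw [RP_ref, if_pos (mem_filter.1 he).2]]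
  have h3 : ∀ b b' : RP_cr r → Bool,
      ∏ e : RP_cr r, RP_tp (r.left (s e) != c) (RP_ref r c M e) (b e) (b' e) =
        if b = b' then 1 else 0 := fun b b' => by
    have h4 : ∀ e : RP_cr r, RP_tp (r.left (s e) != c) (RP_ref r c M e) (b e) (b' e) =
        if b e = b' e then 1 else 0 := fun e => by
      rw [RP_ref, if_neg fun h => e.2 (h.1.trans h.2.symm), if_neg fun h => e.2 (h.1.trans h.2.symm)]
      simp only [RP_tp, idM, eq_comm (a := b' e), ite_self]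
    simp only [h4, prod_boole, mem_univ, true_imp_iff, funext_iff]
  rw [RP_Zg r c, ← RP_norm_sum]
  simp only [h2, h3, RP_P_ref, h1,
    coeff_sqf_rename r.θ (Function.Involutive.injective r.θθ), coeff_map, ite_mul, one_mul,
    zero_mul, mul_ite, mul_zero, sum_ite_eq, mem_univ, if_true]

theorem RP_cs {M : ε → Bool → Bool → ℂ} (hM : ∀ e, Contr (M e)) :
    ‖Zg s t M‖ ^ 2 ≤ ‖Zg s t (RP_ref r true M)‖ * ‖Zg s t (RP_ref r false M)‖ := by
  rw [RP_Zg_ref, RP_Zg_ref, RP_Zg r true]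
  exact RP_tensor _ (fun e => RP_tp_contr _ (hM _)) _ _

open Classical in
/-- Number of edges whose matrix is not the identity. -/
noncomputable def RP_n (M : ε → Bool → Bool → ℂ) : ℕ := ∑ e, if M e = idM then 0 else 1

omit [Fintype α] [DecidableEq α] [DecidableEq ε] in
open Classical in
theorem RP_n_ref (c : Bool) (M : ε → Bool → Bool → ℂ) :
    RP_n (RP_ref r c M) ≤ 2 * ∑ e, if RP_sd r c e ∧ M e ≠ idM then 1 else 0 := by
  rw [two_mul]
  nth_rewrite 2 [← Equiv.sum_comp (Function.Involutive.toPerm r.ϑ r.ϑϑ)]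
  rw [← sum_add_distrib]
  refine sum_le_sum fun e _ => ?_
  by_cases h : RP_ref r c M e = idM
  · simp [h]
  rw [if_neg h]
  unfold RP_ref at h
  split_ifs at h with h1 h2
  · rw [if_pos ⟨h1, h⟩]
    exact Nat.le_add_right _ _
  · refine le_trans (le_of_eq (if_pos ⟨(RP_sd_ϑ r c e).2 h2, fun h3 => h ?_⟩).symm)
      (Nat.le_add_left _ _)
    rw [show M (r.ϑ e) = idM from h3]
    funext i j
    cases i <;> cases j <;> simp [RP_tp, idM]
  · exact absurd rfl h

omit [Fintype α] [DecidableEq α] [DecidableEq ε] in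
theorem RP_n_lt {M : ε → Bool → Bool → ℂ} {e : ε} (h : r.left (s e) ≠ r.left (t e))
    (he : M e ≠ idM) : ∃ c, RP_n (RP_ref r c M) < RP_n M := by
  classical
  have h1 := RP_n_ref r true M
  have h2 := RP_n_ref r false M
  have h3 : (∑ e, if RP_sd r true e ∧ M e ≠ idM then 1 else 0) +
      (∑ e, if RP_sd r false e ∧ M e ≠ idM then 1 else 0) < RP_n M := by
    rw [← sum_add_distrib]
    refine sum_lt_sum (fun x _ => ?_) ⟨e, mem_univ _, ?_⟩
    · unfold RP_sd
      by_cases hx : M x = idM <;> cases r.left (s x) <;> cases r.left (t x) <;> simp [hx]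
    · rw [if_neg fun k => h (k.1.1.trans k.1.2.symm), if_neg fun k => h (k.1.1.trans k.1.2.symm),
        if_neg he]
      exact Nat.one_pos
  by_contra hc
  push Not at hc
  have := hc true
  have := hc false
  omega

end

/-- Gaussian domination with arbitrary contractions on the edges. -/
theorem rp_gd {α ε : Type} [Fintype α] [DecidableEq α] [Fintype ε] [DecidableEq ε]
    (s t : ε → α) (h : ∀ e, ∃ r : Refl α ε s t, r.left (s e) ≠ r.left (t e))
    (M : ε → Bool → Bool → ℂ) (hM : ∀ e, Contr (M e)) :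
    ‖Zg s t M‖ ≤ ‖Zg s t fun _ => idM‖ := by
  let W : Set ℂ := {0, 1} ∪ Set.range fun p : ε × Bool × Bool => M p.1 p.2.1 p.2.2
  let S : Set (ε → Bool → Bool → ℂ) :=
    {N | (∀ e, Contr (N e)) ∧ ∀ e i j, N e i j ∈ W ∪ conj '' W}
  have hW : W.Finite := (Set.toFinite _).union (Set.finite_range _)
  have hS : S.Finite := (Set.Finite.pi' fun _ => Set.Finite.pi' fun _ =>
    Set.Finite.pi' fun _ => hW.union (hW.image _)).subset fun N hN => hN.2
  have hMS : M ∈ S := ⟨hM, fun e i j => Or.inl (Or.inr ⟨(e, i, j), rfl⟩)⟩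
  have hr : ∀ (r : Refl α ε s t) (c : Bool), ∀ N ∈ S, RP_ref r c N ∈ S := fun r c N hN => by
    refine ⟨fun e => ?_, fun e i j => ?_⟩ <;> unfold RP_ref <;> split_ifs
    · exact hN.1 e
    · exact RP_conj_contr (RP_tp_contr _ (hN.1 _))
    · exact contr_idM
    · exact hN.2 e i j
    · have : RP_tp (r.flip e) (N (r.ϑ e)) i j ∈ W ∪ conj '' W := by
        unfold RP_tp
        split_ifs <;> exact hN.2 _ _ _
      rcases this with h1 | ⟨z, h1, h2⟩
      · exact Or.inr ⟨_, h1, rfl⟩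
      · exact Or.inl (by simpa only [← h2, Complex.conj_conj] using h1)
    · refine Or.inl (Or.inl ?_)
      unfold idM
      split_ifs <;> simp
  obtain ⟨N₀, h0, hmax⟩ := Set.exists_max_image S (fun N => ‖Zg s t N‖) hS ⟨M, hMS⟩
  obtain ⟨N, ⟨hN, hN0⟩, hmin⟩ := Set.exists_min_image {N ∈ S | ‖Zg s t N‖ = ‖Zg s t N₀‖} RP_n
    (hS.subset fun _ h => h.1) ⟨N₀, h0, rfl⟩
  refine (hmax M hMS).trans ?_
  rcases (norm_nonneg (Zg s t N₀)).eq_or_lt with hz | hz
  · exact hz.symm.trans_le (norm_nonneg _)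
  by_cases hid : N = fun _ => idM
  · rw [← hN0, hid]
  obtain ⟨e, he⟩ := Function.ne_iff.1 hid
  obtain ⟨r, hre⟩ := h e
  obtain ⟨c, hc⟩ := RP_n_lt r hre he
  refine absurd (hmin _ ⟨hr r c N hN, (hmax _ (hr r c N hN)).antisymm ?_⟩) hc.not_ge
  have h1 := RP_cs r hN.1
  have h2 := hmax _ (hr r true N hN)
  have h3 := hmax _ (hr r false N hN)
  rw [hN0] at h1
  cases c <;> nlinarith [norm_nonneg (Zg s t (RP_ref r true N)), norm_nonneg (Zg s t (RP_ref r false N))]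

end Pool.Agent.Work.MP_5cb0a4_pr.Z
end

-- merged part: Pool.Agent.Work.MP_5cb0a4_pr.Z.Torus
section
open MeasureTheory Finset MvPolynomial Filter Topology

namespace Pool.Agent.Work.MP_5cb0a4_pr.Z

/-- Vertices of the torus. -/
abbrev Torus_T (n : ℕ) : Type := Fin 3 → ZMod n

/-- Source of a torus edge. -/
def Torus_s {n : ℕ} (e : Torus_T n × Fin 3) : Torus_T n := e.1

/-- Target of a torus edge. -/
def Torus_t {n : ℕ} (e : Torus_T n × Fin 3) : Torus_T n := e.1 + Pi.single e.2 1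

/-- The reflection of the torus. -/
def Torus_θ {n : ℕ} (i : Fin 3) (c : ZMod n) (x : Torus_T n) : Torus_T n :=
  Function.update x i (2 * c + 1 - x i)

section Reflection

variable {n : ℕ} (i : Fin 3) (c : ZMod n)

lemma Torus_θθ (x : Torus_T n) : Torus_θ i c (Torus_θ i c x) = x := by
  simp [Torus_θ]

lemma Torus_θ_self (x : Torus_T n) :
    Torus_θ i c (x + Pi.single i 1) = Torus_θ i c x - Pi.single i 1 := by
  funext j
  by_cases h : j = i
  · subst h
    simp [Torus_θ]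
    ring
  · simp [Torus_θ, h]

lemma Torus_θ_ne (x : Torus_T n) {k : Fin 3} (hk : k ≠ i) :
    Torus_θ i c (x + Pi.single k 1) = Torus_θ i c x + Pi.single k 1 := by
  funext j
  by_cases h : j = i
  · subst h
    simp [Torus_θ, hk.symm]
  · simp [Torus_θ, h]

lemma Torus_val_neg [NeZero n] (u : ZMod n) : (-u - 1).val + u.val + 1 = n := by
  have h := u.val_lt
  have h1 : -u - 1 = ((n - 1 - u.val : ℕ) : ZMod n) := by
    have h2 : ((n - 1 - u.val + u.val + 1 : ℕ) : ZMod n) = 0 := by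
      rw [show n - 1 - u.val + u.val + 1 = n by omega, ZMod.natCast_self]
    rw [Nat.cast_add, Nat.cast_add, ZMod.natCast_zmod_val, Nat.cast_one] at h2
    linear_combination -h2
  rw [h1, ZMod.val_cast_of_lt (by omega)]
  omega

lemma Torus_val_succ [NeZero n] (u : ZMod n) :
    (u.val + 1 < n ∧ (u + 1).val = u.val + 1) ∨ (u.val + 1 = n ∧ (u + 1).val = 0) := by
  have h := u.val_lt
  have h1 : u + 1 = ((u.val + 1 : ℕ) : ZMod n) := by simp
  rcases (Nat.succ_le_of_lt h).lt_or_eq with h2 | h2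
  · exact .inl ⟨h2, by rw [h1, ZMod.val_cast_of_lt h2]⟩
  · exact .inr ⟨h2, by rw [h1, show u.val + 1 = n from h2, ZMod.natCast_self, ZMod.val_zero]⟩

lemma Torus_cross [NeZero n] {h : ℕ} (e : Torus_T n × Fin 3)
    (he : decide (h ≤ (Torus_s e i - c - 1).val) ≠ decide (h ≤ (Torus_t e i - c - 1).val)) :
    e.2 = i ∧ Torus_t e i - c - 1 = e.1 i - c - 1 + 1 ∧
      ¬ (h ≤ (e.1 i - c - 1).val ↔ h ≤ (e.1 i - c - 1 + 1).val) := by
  have h1 : e.2 = i := by
    by_contra h2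
    have h3 : Torus_t e i = Torus_s e i := by simp [Torus_s, Torus_t, Ne.symm h2]
    exact he (by rw [h3])
  have h2 : Torus_t e i - c - 1 = e.1 i - c - 1 + 1 := by
    simp only [Torus_t, h1, Pi.add_apply, Pi.single_eq_same]
    ring
  exact ⟨h1, h2, fun h3 => he (by rw [h2]; exact decide_eq_decide.2 h3)⟩

/-- The reflection as a symmetry of the torus graph. -/
def Torus_refl [NeZero n] {h : ℕ} (hn : n = 2 * h) (hh : 2 ≤ h) :
    Refl (Torus_T n) (Torus_T n × Fin 3) Torus_s Torus_t where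
  left x := decide (h ≤ (x i - c - 1).val)
  θ := Torus_θ i c
  ϑ e := (if e.2 = i then Torus_θ i c e.1 - Pi.single i 1 else Torus_θ i c e.1, e.2)
  flip e := decide (e.2 = i)
  θθ := Torus_θθ i c
  ϑϑ e := by
    refine Prod.ext ?_ rfl
    by_cases h : e.2 = i
    · simp only [h, if_true]
      rw [← Torus_θ_self i c e.1, Torus_θθ, add_sub_cancel_right]
    · simp only [h, if_false, Torus_θθ]
  side x := by
    have h1 := Torus_val_neg (x i - c - 1)
    have h2 : Torus_θ i c x i - c - 1 = -(x i - c - 1) - 1 := by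
      simp only [Torus_θ, Function.update_self]
      ring
    rw [h2, ← decide_not, decide_eq_decide]
    omega
  flip_ϑ e := rfl
  s_ϑ e := by
    by_cases h : e.2 = i
    · simp [Torus_s, Torus_t, h, Torus_θ_self]
    · simp [Torus_s, h]
  t_ϑ e := by
    by_cases h : e.2 = i
    · simp [Torus_s, Torus_t, h]
    · simp [Torus_t, h, Torus_θ_ne i c _ h]
  cross e he := by
    obtain ⟨h1, h2, h3⟩ := Torus_cross i c e he
    have h4 := Torus_val_neg (e.1 i - c - 1)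
    have h5 := Torus_val_succ (e.1 i - c - 1)
    have h6 : e.1 i - c - 1 + 1 = -(e.1 i - c - 1) - 1 := ZMod.val_injective n (by omega)
    funext j
    by_cases h : j = i
    · subst h
      simp only [Torus_θ, Torus_s, Function.update_self]
      linear_combination h2 + h6
    · simp [Torus_θ, Torus_s, Torus_t, h, h1]
  cross_inj e e' he he' h := by
    obtain ⟨h1, -, h3⟩ := Torus_cross i c e he
    obtain ⟨h4, h5, h6⟩ := Torus_cross i c e' he'
    rcases h with h | h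
    · exact Prod.ext h (h1.trans h4.symm)
    · rw [← h, Torus_s] at h5
      rw [h5] at h3
      have h7 := Torus_val_succ (e'.1 i - c - 1)
      have h8 := Torus_val_succ (e'.1 i - c - 1 + 1)
      omega

end Reflection

lemma Torus_gd {n h : ℕ} [NeZero n] (hn : n = 2 * h) (hh : 2 ≤ h)
    (M : Torus_T n × Fin 3 → Bool → Bool → ℂ) (hM : ∀ e, Contr (M e)) :
    ‖Zg Torus_s Torus_t M‖ ≤ ‖Zg (Torus_s (n := n)) Torus_t fun _ => idM‖ := by
  refine rp_gd _ _ (fun e => ⟨Torus_refl e.2 (e.1 e.2) hn hh, ?_⟩) M hM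
  have h1 := Torus_val_neg (0 : ZMod n)
  have h2 : Torus_t e e.2 - e.1 e.2 - 1 = 0 := by simp [Torus_t]
  have h3 : Torus_s e e.2 - e.1 e.2 - 1 = -0 - 1 := by simp [Torus_s]
  rw [ZMod.val_zero] at h1
  simp only [Torus_refl, h2, h3, ZMod.val_zero, ne_eq, decide_eq_decide]
  omega

/-- The cube `[a, a + n)^3`. -/
noncomputable def Torus_Q (a : ℤ) (n : ℕ) : Finset V :=
  Fintype.piFinset fun _ => Finset.Ico a (a + n)

lemma Torus_mem {a : ℤ} {n : ℕ} {x : V} : x ∈ Torus_Q a n ↔ ∀ i, a ≤ x i ∧ x i < a + n := by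
  simp [Torus_Q, Fintype.mem_piFinset]

/-- The target of an edge, wrapped around the cube. -/
def Torus_w (a : ℤ) (n : ℕ) (e : Edge) : V :=
  if e.1 e.2 + 1 = a + n then Function.update e.1 e.2 a else tgt e

lemma Torus_w_eq {a : ℤ} {n : ℕ} {e : Edge} (h : tgt e ∈ Torus_Q a n) : Torus_w a n e = tgt e := by
  have h1 := (Torus_mem.1 h e.2).2
  simp only [tgt, Pi.add_apply, Pi.single_eq_same] at h1
  exact if_neg h1.ne

lemma Torus_wrap {a : ℤ} {n : ℕ} {e : Edge} (h : e.1 ∈ Torus_Q a n) (h' : tgt e ∉ Torus_Q a n) :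
    e.1 e.2 + 1 = a + n := by
  by_contra h1
  refine h' (Torus_mem.2 fun j => ?_)
  have h2 := Torus_mem.1 h j
  by_cases h3 : j = e.2
  · subst h3
    simp only [tgt, Pi.add_apply, Pi.single_eq_same]
    omega
  · simpa [tgt, h3] using h2

lemma Torus_lift (a : ℤ) (n : ℕ) [NeZero n] (M : Edge → Bool → Bool → ℂ) :
    Zg Torus_s Torus_t (fun e : Torus_T n × Fin 3 => M (fun j => (e.1 j).val + a, e.2)) =
      coeff (sqf (Torus_Q a n))
        (∏ e ∈ Torus_Q a n ×ˢ univ, mE (src e) (Torus_w a n e) (M e)) := by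
  have h1 : Function.Injective fun (x : Torus_T n) (j : Fin 3) => ((x j).val : ℤ) + a :=
    fun x y h => funext fun j => ZMod.val_injective n
      (Nat.cast_injective (add_right_cancel (congrFun h j)))
  have h2 : univ.image (fun (x : Torus_T n) (j : Fin 3) => ((x j).val : ℤ) + a) = Torus_Q a n := by
    ext y
    simp only [mem_image, mem_univ, true_and, Torus_mem]
    constructor
    · rintro ⟨x, rfl⟩ j
      have := (x j).val_lt
      beta_reduce
      omega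
    · refine fun h => ⟨fun j => ((y j - a : ℤ) : ZMod n), funext fun j => ?_⟩
      have := h j
      rw [ZMod.val_intCast, Int.emod_eq_of_lt (by omega) (by omega), sub_add_cancel]
  rw [Zg, ← coeff_sqf_rename _ h1, h2, map_prod]
  congr 1
  refine prod_nbij (fun e => (fun j => (e.1 j).val + a, e.2)) (fun e _ => ?_)
    (fun e _ e' _ h => Prod.ext (h1 (Prod.mk.inj h).1) (Prod.mk.inj h).2) ?_ fun e _ => ?_
  · exact mem_product.2 ⟨h2 ▸ mem_image_of_mem _ (mem_univ _), mem_univ _⟩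
  · rintro ⟨y, k⟩ hy
    obtain ⟨x, -, rfl⟩ := mem_image.1 (h2 ▸ (mem_product.1 hy).1)
    exact ⟨(x, k), by simp, rfl⟩
  · have h3 : (fun j => ((Torus_t e j).val : ℤ) + a) =
        Torus_w a n (fun j => (e.1 j).val + a, e.2) := by
      have h4 := Torus_val_succ (e.1 e.2)
      funext j
      unfold Torus_w
      by_cases h5 : j = e.2
      · subst h5
        split_ifs with h6 <;>
          simp only [Torus_t, tgt, Pi.add_apply, Pi.single_eq_same, Function.update_self] at h6 ⊢ <;>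
          omega
      · split_ifs <;> simp [Torus_t, tgt, h5]
    simp only [mE, map_add, map_mul, rename_C, rename_X, h3]
    rfl

lemma Torus_coeff_X {U : Finset V} (p : MvPolynomial V ℂ) (S : Finset V) :
    coeff (sqf U) ((∏ v ∈ S, X v) * p) = if S ⊆ U then coeff (sqf (U \ S)) p else 0 := by
  simp [coeff_sqf_mul, coeff_sqf_prod_X]

lemma Torus_zz (Q U : Finset V) (hU : U ⊆ Q) :
    coeff (sqf U) (∏ e ∈ edges Q, mE (src e) (tgt e) (idM : Bool → Bool → ℂ)) = zz U id := by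
  have h := coeff_dimer (R := ℂ) Q (Q \ U) sdiff_subset fun _ => 1
  have h1 := Zm_free Q isExt_id (Q \ U)
  have h2 : free Q id = Q := filter_true_of_mem fun _ h => h
  rw [h2, if_pos sdiff_subset, Finset.sdiff_sdiff_eq_self hU] at h1
  rw [Finset.sdiff_sdiff_eq_self hU] at h
  simpa [mE, idM, ← h1, Zm] using h

lemma Torus_ind (n : ℕ) (u v : Edge → V) (D : Finset Edge)
    (hD : ∀ e ∈ D, u e ∉ inner n ∧ v e ∉ inner n) (U : Finset V) (h1 : inner n ⊆ U)
    (h2 : U ⊆ cube n) :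
    ‖coeff (sqf U) ((∏ e ∈ D, mE (u e) (v e) (idM : Bool → Bool → ℂ)) *
      ∏ e ∈ edges (cube n), mE (src e) (tgt e) idM)‖ ≤ 2 ^ D.card * zc n := by
  induction D using Finset.induction_on generalizing U with
  | empty =>
    rw [prod_empty, one_mul, Torus_zz _ _ h2, card_empty, pow_zero, one_mul, Complex.norm_natCast,
      Nat.cast_le]
    exact le_sup (f := fun U => zz U id) (mem_filter.2 ⟨mem_powerset.2 h2, h1⟩)
  | insert e D he ih =>
    have h3 := ih fun e' he' => hD e' (mem_insert_of_mem he')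
    have h4 := hD e (mem_insert_self _ _)
    have h5 : mE (u e) (v e) (idM : Bool → Bool → ℂ) =
        1 + (∏ x ∈ {u e}, X x) * ∏ x ∈ {v e}, X x := by simp [mE, idM]
    rw [prod_insert he, card_insert_of_notMem he, mul_assoc, h5, add_mul, one_mul, coeff_add,
      mul_assoc, Torus_coeff_X, Torus_coeff_X, pow_succ]
    have h6 := h3 U h1 h2
    have h7 := h3 ((U \ {u e}) \ {v e}) (fun x hx => mem_sdiff.2
      ⟨mem_sdiff.2 ⟨h1 hx, fun h => h4.1 (mem_singleton.1 h ▸ hx)⟩,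
        fun h => h4.2 (mem_singleton.1 h ▸ hx)⟩)
      (sdiff_subset.trans (sdiff_subset.trans h2))
    have h8 := (norm_nonneg _).trans h6
    refine (norm_add_le _ _).trans ?_
    split_ifs <;> first | linarith | (rw [norm_zero]; linarith)

lemma Torus_id (n : ℕ) [NeZero n] :
    ‖Zg (Torus_s (n := n)) Torus_t fun _ => idM‖ ≤ 2 ^ (3 * n ^ 2) * zc n := by
  have h1 : Torus_Q 0 n = cube n := by simp [Torus_Q, cube]
  have h2 : ∏ e ∈ edges (cube n), mE (src e) (Torus_w 0 n e) (idM : Bool → Bool → ℂ) =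
      ∏ e ∈ edges (cube n), mE (src e) (tgt e) idM :=
    prod_congr rfl fun e he => by rw [Torus_w_eq (h1 ▸ (mem_edges.1 he).2)]
  have h3 : ∀ e ∈ (cube n ×ˢ (univ : Finset (Fin 3))).filter fun e => tgt e ∉ cube n,
      e.1 ∈ cube n ∧ e.1 e.2 + 1 = 0 + n := fun e he =>
    have h := mem_filter.1 he
    ⟨(mem_product.1 h.1).1, Torus_wrap (h1 ▸ (mem_product.1 h.1).1) (h1 ▸ h.2)⟩
  rw [Torus_lift 0 n fun _ => idM, h1,
    ← prod_filter_not_mul_prod_filter _ fun e => tgt e ∈ cube n]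
  refine (congrArg (fun p => ‖coeff (sqf (cube n)) (_ * p)‖) h2).trans_le
    ((Torus_ind n src (Torus_w 0 n) _ (fun e he => ?_) _ (fun x hx => ?_) subset_rfl).trans ?_)
  · have h := (h3 e he).2
    refine ⟨fun h4 => ?_, fun h4 => ?_⟩ <;> have h5 := mem_inner.1 h4 e.2
    · rw [src] at h5
      omega
    · rw [Torus_w, if_pos h, Function.update_self] at h5
      omega
  · exact mem_cube.2 fun i => by have := mem_inner.1 hx i; omega
  · refine mul_le_mul_of_nonneg_right (pow_le_pow_right₀ one_le_two ?_) (Nat.cast_nonneg _)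
    have h4 : ∀ i : Fin 3, (sq i (Pi.single i ((n : ℤ) - 1)) n).card = n ^ 2 := fun i => by
      rw [sq, Fintype.card_piFinset]
      fin_cases i <;> simp [Fin.prod_univ_three, pow_two]
    refine (card_le_card (t := univ.biUnion fun i : Fin 3 =>
      (sq i (Pi.single i ((n : ℤ) - 1)) n).image fun x => (x, i)) fun e he => ?_).trans
      (card_biUnion_le.trans ?_)
    · refine mem_biUnion.2 ⟨e.2, mem_univ _, mem_image.2 ⟨e.1, mem_sq.2 ⟨?_, fun j hj => ?_⟩, rfl⟩⟩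
      · have := (h3 e he).2
        rw [Pi.single_eq_same]
        omega
      · simpa [hj] using mem_cube.1 (h3 e he).1 j
    · refine (sum_le_sum fun i _ => card_image_le.trans_eq (h4 i)).trans_eq ?_
      simp

/-- Gaussian domination for subsets of a box. -/
theorem boxGD (L : ℕ) (hL : 1 ≤ L) (U : Finset V) (hU : U ⊆ box L)
    (M : Edge → Bool → Bool → ℂ) (hM : ∀ e ∈ edges U, Contr (M e)) :
    ‖coeff (sqf U) (∏ e ∈ edges U, mE (src e) (tgt e) (M e))‖ ≤ Zs L := by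
    have h1 : U ⊆ Torus_Q (-L) (2 * L + 2) := fun x hx => Torus_mem.2 fun i => by
      have := mem_box.1 (hU hx) i
      omega
    generalize hQ : Torus_Q (-L) (2 * L + 2) = Q at h1
    let N : Edge → Bool → Bool → ℂ := fun e => if e ∈ edges U then M e else
      if e.1 ∉ U ∧ e.2 = 0 then fun i j => if i = true ∧ j = false then 1 else 0
      else fun i j => if i = false ∧ j = false then 1 else 0
    have h2 : ∀ e, Contr (N e) := fun e => by
      simp only [N]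
      split_ifs with h
      exacts [hM e h, contr_unit _ _, contr_unit _ _]
    have h3 := (Torus_gd (h := L + 1) (by ring) (by omega) _ fun e =>
      h2 (fun j => (e.1 j).val + -(L : ℤ), e.2)).trans (Torus_id (2 * L + 2))
    have h4 : ∀ e ∈ Q ×ˢ (univ : Finset (Fin 3)),
        mE (src e) (Torus_w (-L) (2 * L + 2) e) (N e) =
          (if e.1 ∉ U ∧ e.2 = 0 then X e.1 else 1) *
            if e ∈ edges U then mE (src e) (tgt e) (M e) else 1 := fun e _ => by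
      simp only [N]
      split_ifs with h h' h'
      · exact absurd (mem_edges.1 h).1 h'.1
      · rw [Torus_w_eq (hQ ▸ h1 (mem_edges.1 h).2), one_mul]
      · simp [mE, src]
      · simp [mE]
    have h5 : ∏ e ∈ Q ×ˢ (univ : Finset (Fin 3)), (if e.1 ∉ U ∧ e.2 = 0 then X e.1 else 1) =
        ∏ v ∈ Q \ U, (X v : MvPolynomial V ℂ) := by
      rw [prod_product, sdiff_eq_filter, prod_filter]
      exact prod_congr rfl fun v _ => by by_cases h : v ∈ U <;> simp [h]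
    have h6 : Q ×ˢ (univ : Finset (Fin 3)) ∩ edges U = edges U :=
      inter_eq_right.2 fun e he => mem_product.2 ⟨h1 (mem_edges.1 he).1, mem_univ _⟩
    rwa [Torus_lift, hQ, prod_congr rfl h4, prod_mul_distrib, h5, prod_ite_mem, h6, Torus_coeff_X,
      if_pos sdiff_subset, Finset.sdiff_sdiff_eq_self h1] at h3

theorem zz_le_Zs (L : ℕ) (hL : 1 ≤ L) (U : Finset V) (hU : U ⊆ box L) :
    (zz U id : ℝ) ≤ Zs L := by
    have h := boxGD L hL U hU (fun _ => idM) fun _ _ => contr_idM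
    rwa [Torus_zz U U subset_rfl, Complex.norm_natCast] at h

end Pool.Agent.Work.MP_5cb0a4_pr.Z
end

-- merged part: Pool.Agent.Work.MP_5cb0a4_pr.Z.Meas
section
open MeasureTheory ProbabilityTheory Finset MvPolynomial Filter Topology

namespace Pool.Agent.Work.MP_5cb0a4_pr.Z

theorem Meas_factor {X Y : Type} [MeasurableSpace X] [MeasurableSpace Y] [Countable Y]
    [MeasurableSingletonClass Y] {r : X → Y} (hr : Measurable r) {f : X → ℝ}
    (h : f.FactorsThrough r) : Measurable f := by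
  rw [← h.extend_comp fun _ => (0 : ℝ)]
  exact (measurable_of_countable _).comp hr

theorem Meas_fin {X Y : Type} {r : X → Y} (hr : (Set.range r).Finite) {f : X → ℝ}
    (h : f.FactorsThrough r) : (Set.range f).Finite := by
  rw [← h.extend_comp fun _ => (0 : ℝ), Set.range_comp]
  exact hr.image _

/-- Restriction to `Λ`. -/
def Meas_r (Λ : Finset V) (σ : V → V) : Λ → V := fun x => σ x

theorem Meas_eval (x : V) : Measurable fun τ : Dimer => τ.1 x :=
  (measurable_pi_apply x).comp measurable_subtype_coe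

theorem Meas_r_meas (Λ : Finset V) : Measurable fun τ : Dimer => Meas_r Λ τ.1 :=
  measurable_pi_lambda _ fun x => Meas_eval x

theorem Meas_r_fin (Λ : Finset V) : (Meas_r Λ '' {σ | IsExt σ}).Finite := by
  refine (Set.Finite.pi' (t := fun x : Λ => insert x.1 (Set.range fun d : Dir => x.1 + dv d))
    fun x => (Set.finite_range _).insert _).subset ?_
  rintro _ ⟨σ, hσ, rfl⟩ x
  rcases (hσ x).1 with h | h
  · exact Or.inl h
  · obtain ⟨d, hd⟩ := nbr_iff.1 h
    exact Or.inr ⟨d, hd.symm⟩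

theorem Local.measurable {Λ : Finset V} {g : (V → V) → ℝ} (hg : Local Λ g) :
    Measurable fun τ : Dimer => g τ.1 :=
  Meas_factor (Meas_r_meas Λ) fun τ τ' h =>
    hg _ _ (isExt_dimer τ) (isExt_dimer τ') fun x hx => congrFun h ⟨x, hx⟩

theorem Local.integrable {Λ : Finset V} {g : (V → V) → ℝ} (hg : Local Λ g) (ν : Measure Dimer)
    [IsFiniteMeasure ν] : Integrable (fun τ : Dimer => g τ.1) ν := by
  obtain ⟨C, hC⟩ := hg.bdd
  exact Integrable.of_bound hg.measurable.aestronglyMeasurable C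
    (Eventually.of_forall fun τ => hC _ (isExt_dimer τ))

theorem Local2.measurable {Λ : Finset V} {g : (V → V) → (V → V) → ℝ} (hg : Local2 Λ g) :
    Measurable fun p : Dimer × Dimer => g p.1.1 p.2.1 :=
  Meas_factor (r := fun p : Dimer × Dimer => (Meas_r Λ p.1.1, Meas_r Λ p.2.1))
    (((Meas_r_meas Λ).comp measurable_fst).prodMk ((Meas_r_meas Λ).comp measurable_snd))
    fun _ _ h => hg _ _ _ _ (isExt_dimer _) (isExt_dimer _) (isExt_dimer _) (isExt_dimer _)
      (fun x hx => congrFun (congrArg Prod.fst h) ⟨x, hx⟩)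
      fun x hx => congrFun (congrArg Prod.snd h) ⟨x, hx⟩

theorem Local2.bdd {Λ : Finset V} {g : (V → V) → (V → V) → ℝ} (hg : Local2 Λ g) :
    ∃ C, ∀ σ₁ σ₂, IsExt σ₁ → IsExt σ₂ → |g σ₁ σ₂| ≤ C := by
  have h1 := Meas_fin (r := fun p : {σ // IsExt σ} × {σ // IsExt σ} =>
      (Meas_r Λ p.1.1, Meas_r Λ p.2.1)) (f := fun p => |g p.1.1 p.2.1|)
    (((Meas_r_fin Λ).prod (Meas_r_fin Λ)).subset (by
      rintro _ ⟨p, rfl⟩
      exact ⟨⟨_, p.1.2, rfl⟩, _, p.2.2, rfl⟩))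
    fun p q h => congrArg _ (hg _ _ _ _ p.1.2 p.2.2 q.1.2 q.2.2
      (fun x hx => congrFun (congrArg Prod.fst h) ⟨x, hx⟩)
      fun x hx => congrFun (congrArg Prod.snd h) ⟨x, hx⟩)
  obtain ⟨C, hC⟩ := h1.bddAbove
  exact ⟨C, fun σ₁ σ₂ k₁ k₂ => hC ⟨(⟨σ₁, k₁⟩, ⟨σ₂, k₂⟩), rfl⟩⟩

theorem Local2.sh {α : Type} {Λ : Finset V} {g : (V → V) → (V → V) → α} (hg : Local2 Λ g)
    (c : V) : Local2 (tr c Λ) fun σ₁ σ₂ => g (sh (-c) σ₁) (sh (-c) σ₂) := by
  have key : ∀ σ σ' : V → V, (∀ x ∈ tr c Λ, σ x = σ' x) →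
      ∀ x ∈ Λ, Z.sh (-c) σ x = Z.sh (-c) σ' x := fun σ σ' h x hx => by
    unfold Z.sh
    rw [h _ (mem_tr.2 (by simpa using hx))]
  intro σ₁ σ₂ σ₁' σ₂' a b a' b' h₁ h₂
  exact hg _ _ _ _ (isExt_sh a _) (isExt_sh b _) (isExt_sh a' _) (isExt_sh b' _) (key _ _ h₁)
    (key _ _ h₂)

theorem measurable_shift (v : V) : Measurable (shift v) := by
  refine Measurable.subtype_mk (measurable_pi_lambda _ fun x => ?_)
  exact (measurable_of_countable fun y : V => y + v).comp (Meas_eval (x - v))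

theorem integral_sh {ν : Measure Dimer} (h : IsErgodicGibbs ν) {Λ : Finset V}
    {g : (V → V) → ℝ} (hg : Local Λ g) {v : V} (hv : IsEven v) :
    ∫ τ, g (sh v τ.1) ∂ν = ∫ τ, g τ.1 ∂ν := by
  have h1 := integral_map (μ := ν) (measurable_shift v).aemeasurable
    hg.measurable.aestronglyMeasurable
  rw [(h.invariant v hv).map_eq] at h1
  exact h1.symm

theorem Meas_outside (Λ : Finset V) : Measurable (outside Λ) :=
  measurable_pi_lambda _ fun e =>
    (measurable_of_countable fun y : V => y = e.2 ∧ ¬ (e.1 ∈ Λ ∧ e.2 ∈ Λ)).comp (Meas_eval e.1)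

theorem Meas_compl {Λ : Finset V} {σ τ : Dimer} :
    σ ∈ completions Λ τ ↔ ∀ x ∉ Λ, σ.1 x = τ.1 x := by
  constructor
  · intro h x hx
    have h1 : outside Λ τ (x, τ.1 x) := ⟨rfl, fun k => hx k.1⟩
    have h2 : outside Λ σ = outside Λ τ := h
    rw [← h2] at h1
    exact h1.1
  · intro h
    funext e
    refine propext (and_congr_left fun he => ?_)
    by_cases h1 : e.1 ∈ Λ
    · have h2 := h e.2 fun k => he ⟨h1, k⟩
      constructor
      · intro k
        rw [← (σ.2 e.1).2, k, h2, (τ.2 e.2).2]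
      · intro k
        rw [← (τ.2 e.1).2, k, ← h2, (σ.2 e.2).2]
    · rw [h _ h1]

open Classical in
/-- The completions as a finite set. -/
noncomputable def Meas_P (Λ : Finset V) (τ : Dimer) : Finset Dimer := (perf Λ τ.1).subtype _

theorem Meas_perf {Λ : Finset V} {τ : Dimer} {ρ : V → V} (h : ρ ∈ perf Λ τ.1) (x : V) :
    Nbr x (ρ x) ∧ ρ (ρ x) = x := by
  obtain ⟨⟨h1, h2⟩, h3⟩ := mem_perf.1 h
  refine ⟨?_, (h1 x).2⟩
  by_cases hx : x ∈ Λ
  · exact (h1 x).1.resolve_left (h3 x hx)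
  · rw [h2 x hx]
    exact (τ.2 x).1

theorem Meas_sum (Λ : Finset V) (τ : Dimer) (g : (V → V) → ℝ) :
    ∑ σ ∈ Meas_P Λ τ, g σ.1 = ∑ ρ ∈ perf Λ τ.1, g ρ := by
  classical
  unfold Meas_P
  convert sum_subtype_of_mem g fun ρ (h : ρ ∈ perf Λ τ.1) => Meas_perf h

theorem Meas_card (Λ : Finset V) (τ : Dimer) :
    ((Meas_P Λ τ).card : ℝ) = (perf Λ τ.1).card := by
  simpa using Meas_sum Λ τ fun _ => 1

theorem Meas_coe (Λ : Finset V) (τ : Dimer) : completions Λ τ = Meas_P Λ τ := by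
  classical
  ext σ
  rw [Meas_compl, mem_coe, Meas_P, mem_subtype, mem_perf]
  refine ⟨fun h => ⟨⟨isExt_dimer σ, h⟩, fun x _ k => ?_⟩, fun h => h.1.2⟩
  have := (σ.2 x).1
  rw [k] at this
  simp [Nbr] at this

theorem Meas_unif (Λ : Finset V) (τ : Dimer) (A : Set Dimer) :
    (uniformOn (completions Λ τ)).real A =
      (∑ σ ∈ Meas_P Λ τ, A.indicator (fun _ => (1 : ℝ)) σ) / (Meas_P Λ τ).card := by
  classical
  have e : (Meas_P Λ τ : Set Dimer) ∩ A = ((Meas_P Λ τ).filter (· ∈ A) : Finset Dimer) := by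
    ext σ
    simp
  rw [Meas_coe, Measure.real, ← uniformOn_inter_self (finite_toSet _), e, uniformOn_apply_finset,
    inter_eq_right.2 (filter_subset _ _), ENNReal.toReal_div, ENNReal.toReal_natCast,
    ENNReal.toReal_natCast, card_filter]
  simp [Set.indicator_apply]

/-- The DLR equation for local functions. -/
theorem dlr {ν : Measure Dimer} (h : IsErgodicGibbs ν) (Λ : Finset V) {Λ' : Finset V}
    {g : (V → V) → ℝ} (hg : Local Λ' g) : ∫ τ, gam Λ g τ.1 ∂ν = ∫ τ, g τ.1 ∂ν := by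
  classical
  have := h.prob
  have h1 : (Set.range fun τ : Dimer => g τ.1).Finite :=
    Meas_fin (r := fun τ : Dimer => Meas_r Λ' τ.1) ((Meas_r_fin Λ').subset (by
      rintro _ ⟨τ, rfl⟩
      exact ⟨_, isExt_dimer τ, rfl⟩)) fun τ τ' h =>
      hg _ _ (isExt_dimer τ) (isExt_dimer τ') fun x hx => congrFun h ⟨x, hx⟩
  let A : ℝ → Set Dimer := fun v => (fun τ : Dimer => g τ.1) ⁻¹' {v}
  have hA : ∀ v, MeasurableSet (A v) := fun v => hg.measurable (measurableSet_singleton v)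
  have e1 : ∀ τ : Dimer, g τ.1 = ∑ v ∈ h1.toFinset, v * (A v).indicator (fun _ => (1 : ℝ)) τ := by
    intro τ
    rw [sum_eq_single_of_mem (g τ.1) (h1.mem_toFinset.2 ⟨τ, rfl⟩)]
    · rw [Set.indicator_of_mem (show τ ∈ A (g τ.1) from rfl), mul_one]
    · intro v _ hv
      rw [Set.indicator_of_notMem (show τ ∉ A v from fun e => hv (Eq.symm e)), mul_zero]
  have e2 : ∀ τ : Dimer, gam Λ g τ.1 =
      ∑ v ∈ h1.toFinset, v * (uniformOn (completions Λ τ)).real (A v) := by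
    intro τ
    rw [gam, zz, ← Meas_sum, ← Meas_card, sum_congr rfl fun σ _ => e1 σ, sum_comm, sum_div]
    refine sum_congr rfl fun v _ => ?_
    rw [Meas_unif, ← mul_sum, mul_div_assoc]
  have hm : outsideAlg Λ ≤ (inferInstance : MeasurableSpace Dimer) := (Meas_outside Λ).comap_le
  rw [integral_congr_ae (Eventually.of_forall e1), integral_congr_ae (Eventually.of_forall e2),
    integral_finsetSum _ fun v _ =>
      (integrable_condExp.congr (h.gibbs Λ (A v) (hA v))).const_mul v,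
    integral_finsetSum _ fun v _ => ((integrable_const (1 : ℝ)).indicator (hA v)).const_mul v]
  refine sum_congr rfl fun v _ => ?_
  rw [integral_const_mul, integral_const_mul, ← integral_congr_ae (h.gibbs Λ (A v) (hA v)),
    integral_condExp hm]

theorem Meas_swap {Λ : Finset V} {g : (V → V) → (V → V) → ℝ} (hg : Local2 Λ g) :
    Local2 Λ fun σ₁ σ₂ => g σ₂ σ₁ := fun _ _ _ _ a b a' b' h₁ h₂ => hg _ _ _ _ b a b' a' h₂ h₁

theorem Meas_sec {Λ : Finset V} {g : (V → V) → (V → V) → ℝ} (hg : Local2 Λ g) {σ : V → V}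
    (hσ : IsExt σ) : Local Λ (g σ) := fun _ _ a b h => hg _ _ _ _ hσ a hσ b (fun _ _ => rfl) h

theorem Meas_gam2 {Λ : Finset V} {g : (V → V) → (V → V) → ℝ} (hg : Local2 Λ g) :
    Local2 Λ fun σ₁ σ₂ => gam Λ (g σ₁) σ₂ := by
  intro σ₁ σ₂ σ₁' σ₂' a b a' b' h₁ h₂
  refine (local_gam (Λ := Λ) (Meas_sec hg a) σ₂ σ₂' b b' fun x hx =>
    h₂ x (by simpa using hx)).trans ?_
  unfold gam
  congr 1
  refine sum_congr rfl fun ρ hρ => ?_
  have k := (mem_perf.1 hρ).1.1
  exact hg _ _ _ _ a k a' k h₁ fun _ _ => rfl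

theorem Meas_int2 {Λ : Finset V} {g : (V → V) → (V → V) → ℝ} (hg : Local2 Λ g)
    (μ : Measure (Dimer × Dimer)) [IsFiniteMeasure μ] :
    Integrable (fun p : Dimer × Dimer => g p.1.1 p.2.1) μ := by
  obtain ⟨C, hC⟩ := hg.bdd
  exact Integrable.of_bound hg.measurable.aestronglyMeasurable C
    (Eventually.of_forall fun p => hC _ _ (isExt_dimer _) (isExt_dimer _))

/-- The DLR equation for the product measure. -/
theorem dlr2 {ν₁ ν₂ : Measure Dimer} (h₁ : IsErgodicGibbs ν₁) (h₂ : IsErgodicGibbs ν₂)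
    (Λ : Finset V) {g : (V → V) → (V → V) → ℝ} (hg : Local2 Λ g) :
    ∫ p, g p.1.1 p.2.1 ∂(ν₁.prod ν₂) =
      ∫ p, (∑ ρ₁ ∈ perf Λ p.1.1, ∑ ρ₂ ∈ perf Λ p.2.1, g ρ₁ ρ₂) /
        ((zz Λ p.1.1 : ℝ) * zz Λ p.2.1) ∂(ν₁.prod ν₂) := by
  have := h₁.prob
  have := h₂.prob
  have k1 := Meas_gam2 hg
  have k2 := Meas_swap (Meas_gam2 (Meas_swap k1))
  have e1 : ∫ p, g p.1.1 p.2.1 ∂(ν₁.prod ν₂) = ∫ p, gam Λ (g p.1.1) p.2.1 ∂(ν₁.prod ν₂) := by
    rw [integral_prod _ (Meas_int2 hg _), integral_prod _ (Meas_int2 k1 _)]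
    exact integral_congr_ae (Eventually.of_forall fun τ =>
      (dlr h₂ Λ (Meas_sec hg (isExt_dimer τ))).symm)
  rw [e1, integral_prod_symm _ (Meas_int2 k1 _)]
  refine Eq.trans (integral_congr_ae (Eventually.of_forall fun τ =>
    (dlr h₁ Λ (Meas_sec (Meas_swap k1) (isExt_dimer τ))).symm)) ?_
  refine (integral_prod_symm _ (Meas_int2 k2 _)).symm.trans
    (integral_congr_ae (Eventually.of_forall fun p => ?_))
  simp only [gam]
  rw [← sum_div, div_div, mul_comm]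

end Pool.Agent.Work.MP_5cb0a4_pr.Z
end

-- merged part: Pool.Agent.Work.MP_5cb0a4_pr.Z.Sub
section
open MeasureTheory Finset MvPolynomial Filter Topology

namespace Pool.Agent.Work.MP_5cb0a4_pr.Z

lemma Sub_inner_sub (n : ℕ) : inner n ⊆ cube n := fun x hx =>
  mem_cube.2 fun i => by have := mem_inner.1 hx i; omega

lemma Sub_le_zc {n : ℕ} {U : Finset V} (h1 : inner n ⊆ U) (h2 : U ⊆ cube n) :
    zz U id ≤ zc n := by
  unfold zc
  exact le_sup (f := fun U => zz U id) (mem_filter.2 ⟨mem_powerset.2 h2, h1⟩)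

lemma Sub_card_cube (n : ℕ) : (cube n).card = n ^ 3 := by
  rw [cube, Fintype.card_piFinset]
  simp

/-- The columnar matching of an even cube. -/
noncomputable def Sub_col (n : ℕ) (x : V) : V :=
  if x ∈ cube n then (if Even (x 0) then x + dv (0, true) else x + dv (0, false)) else x

lemma Sub_up_mem {m : ℕ} {x : V} (hx : x ∈ cube (2 * m)) (he : Even (x 0)) :
    x + dv (0, true) ∈ cube (2 * m) ∧ ¬ Even ((x + dv (0, true)) 0) := by
  refine ⟨mem_cube.2 fun i => ?_, ?_⟩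
  · have h := mem_cube.1 hx i
    obtain ⟨k, hk⟩ := he
    by_cases hi : i = 0
    · subst hi
      simp only [Pi.add_apply, dv, Pi.single_eq_same, if_true]
      push_cast at h ⊢
      omega
    · simp only [Pi.add_apply, dv, Pi.single_eq_of_ne hi, add_zero]
      exact h
  · simp only [Pi.add_apply, dv, Pi.single_eq_same, if_true]
    rw [Int.even_add_one]
    exact fun h => h he

lemma Sub_down_mem {m : ℕ} {x : V} (hx : x ∈ cube (2 * m)) (he : ¬ Even (x 0)) :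
    x + dv (0, false) ∈ cube (2 * m) ∧ Even ((x + dv (0, false)) 0) := by
  obtain ⟨k, hk⟩ := Int.not_even_iff_odd.1 he
  refine ⟨mem_cube.2 fun i => ?_, ?_⟩
  · have h := mem_cube.1 hx i
    by_cases hi : i = 0
    · subst hi
      simp only [Pi.add_apply, dv, Pi.single_eq_same, Bool.false_eq_true, if_false]
      push_cast at h ⊢
      omega
    · simp only [Pi.add_apply, dv, Pi.single_eq_of_ne hi, add_zero]
      exact h
  · simp only [Pi.add_apply, dv, Pi.single_eq_same, Bool.false_eq_true, if_false]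
    exact ⟨k, by omega⟩

lemma Sub_dv_cancel (i : Fin 3) (x : V) :
    x + dv (i, true) + dv (i, false) = x ∧ x + dv (i, false) + dv (i, true) = x := by
  have h : dv (i, false) = -dv (i, true) := dv_not (i, true)
  rw [h]
  constructor <;> abel

theorem zc_pos {m : ℕ} (hm : 1 ≤ m) : 0 < zc (2 * m) := by
  have _ := hm
  refine lt_of_lt_of_le ?_ (Sub_le_zc (Sub_inner_sub _) subset_rfl)
  refine card_pos.2 ⟨Sub_col (2 * m), mem_perf.2 ⟨⟨fun x => ?_, fun x hx => ?_⟩, fun x hx => ?_⟩⟩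
  · by_cases hx : x ∈ cube (2 * m)
    · by_cases he : Even (x 0)
      · obtain ⟨h1, h2⟩ := Sub_up_mem hx he
        have e1 : Sub_col (2 * m) x = x + dv (0, true) := by
          simp only [Sub_col, if_pos hx, if_pos he]
        refine ⟨Or.inr (nbr_iff.2 ⟨_, e1⟩), ?_⟩
        rw [e1]
        simp only [Sub_col, if_pos h1, if_neg h2]
        exact (Sub_dv_cancel 0 x).1
      · obtain ⟨h1, h2⟩ := Sub_down_mem hx he
        have e1 : Sub_col (2 * m) x = x + dv (0, false) := by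
          simp only [Sub_col, if_pos hx, if_neg he]
        refine ⟨Or.inr (nbr_iff.2 ⟨_, e1⟩), ?_⟩
        rw [e1]
        simp only [Sub_col, if_pos h1, if_pos h2]
        exact (Sub_dv_cancel 0 x).2
    · have e1 : Sub_col (2 * m) x = x := by simp only [Sub_col, if_neg hx]
      exact ⟨Or.inl e1, by rw [e1, e1]⟩
  · simp only [Sub_col, if_neg hx, id]
  · simp only [Sub_col, if_pos hx]
    split_ifs
    · exact fun h => dv_ne_zero _ (add_eq_left.1 h)
    · exact fun h => dv_ne_zero _ (add_eq_left.1 h)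

/-- The cell number `q` of side `m`. -/
noncomputable def Sub_cell (m : ℕ) (q : V) : Finset V := tr (fun i => (m : ℤ) * q i) (cube m)

lemma Sub_mem_cell {m : ℕ} {q x : V} :
    x ∈ Sub_cell m q ↔ ∀ i, (m : ℤ) * q i ≤ x i ∧ x i < (m : ℤ) * q i + m := by
  simp only [Sub_cell, mem_tr, mem_cube, Pi.sub_apply]
  exact forall_congr' fun i => by omega

lemma Sub_cell_unique {m : ℕ} {q q' x : V} (h : x ∈ Sub_cell m q) (h' : x ∈ Sub_cell m q') :
    q = q' := by
  funext i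
  have h1 := Sub_mem_cell.1 h i
  have h2 := Sub_mem_cell.1 h' i
  have hm : (0 : ℤ) ≤ m := Int.natCast_nonneg m
  by_contra hn
  rcases lt_or_gt_of_ne hn with h | h
  · have : q i + 1 ≤ q' i := h
    nlinarith [h1.1, h1.2, h2.1, h2.2]
  · have : q' i + 1 ≤ q i := h
    nlinarith [h1.1, h1.2, h2.1, h2.2]

lemma Sub_cell_bound {m n : ℕ} {q : V} (hq : q ∈ cube (n / m)) (i : Fin 3) :
    0 ≤ (m : ℤ) * q i ∧ (m : ℤ) * q i + m ≤ n := by
  have h := mem_cube.1 hq i
  have hm : (0 : ℤ) ≤ m := Int.natCast_nonneg m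
  have h3 : (m : ℤ) * ((n / m : ℕ) : ℤ) ≤ n := by exact_mod_cast Nat.mul_div_le n m
  have h4 : q i + 1 ≤ ((n / m : ℕ) : ℤ) := h.2
  constructor
  · exact mul_nonneg hm h.1
  · nlinarith

lemma Sub_cell_sub {m n : ℕ} {q : V} (hq : q ∈ cube (n / m)) : Sub_cell m q ⊆ cube n :=
  fun x hx => mem_cube.2 fun i => by
    have h1 := Sub_mem_cell.1 hx i
    have h2 := Sub_cell_bound hq i
    omega

lemma Sub_card_edges_le (n : ℕ) : (edges (cube n)).card ≤ 3 * n ^ 3 := by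
  refine (card_filter_le _ _).trans ?_
  rw [card_product, Sub_card_cube]
  simp [mul_comm]

lemma Sub_card_edges_cell (m : ℕ) (q : V) :
    3 * m ^ 2 * (m - 1) ≤ (edges (Sub_cell m q)).card := by
  let P : Fin 3 → Finset V := fun i => Fintype.piFinset fun j =>
    Finset.Ico ((m : ℤ) * q j) ((m : ℤ) * q j + (if j = i then ((m - 1 : ℕ) : ℤ) else (m : ℤ)))
  have hP : ∀ i, (P i).card = m ^ 2 * (m - 1) := by
    intro i
    simp only [P, Fintype.card_piFinset, Int.card_Ico, add_sub_cancel_left, Fin.prod_univ_three]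
    fin_cases i
    · simp
      ring
    · simp
      ring
    · simp [pow_two]
  have hsub : (univ : Finset (Fin 3)).biUnion (fun i => P i ×ˢ ({i} : Finset (Fin 3))) ⊆
      edges (Sub_cell m q) := by
    intro e he
    obtain ⟨i, -, he⟩ := mem_biUnion.1 he
    obtain ⟨h1, h2⟩ := mem_product.1 he
    have h2 : e.2 = i := mem_singleton.1 h2
    simp only [P, Fintype.mem_piFinset, mem_Ico] at h1
    refine mem_edges.2 ⟨Sub_mem_cell.2 fun j => ?_, Sub_mem_cell.2 fun j => ?_⟩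
    · have := h1 j
      simp only [src]
      split_ifs at this <;> omega
    · have := h1 j
      simp only [tgt, Pi.add_apply, Pi.single_apply, h2]
      split_ifs at this ⊢ <;> omega
  refine le_trans (le_of_eq ?_) (card_le_card hsub)
  rw [card_biUnion]
  · simp only [card_product, hP, card_singleton, mul_one, sum_const, card_univ, Fintype.card_fin,
      smul_eq_mul]
    ring
  · intro i _ j _ hij
    refine disjoint_left.2 fun e h1 h2 => hij ?_
    rw [← mem_singleton.1 (mem_product.1 h1).2, ← mem_singleton.1 (mem_product.1 h2).2]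

/-- Edges of the big cube that are not inside one cell. -/
noncomputable def Sub_E (m n : ℕ) : Finset Edge :=
  edges (cube n) \ (cube (n / m)).biUnion fun q => edges (Sub_cell m q)

lemma Sub_mem_E {m n : ℕ} {e : Edge} : e ∈ Sub_E m n ↔ (src e ∈ cube n ∧ tgt e ∈ cube n) ∧
    ∀ q ∈ cube (n / m), ¬ (src e ∈ Sub_cell m q ∧ tgt e ∈ Sub_cell m q) := by
  simp only [Sub_E, Finset.mem_sdiff, mem_biUnion, mem_edges, not_exists, not_and]

lemma Sub_card_E (m n : ℕ) :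
    (Sub_E m n).card ≤ 3 * n ^ 3 - (n / m) ^ 3 * (3 * m ^ 2 * (m - 1)) := by
  have hsub : ((cube (n / m)).biUnion fun q => edges (Sub_cell m q)) ⊆ edges (cube n) := by
    intro e he
    obtain ⟨q, hq, he⟩ := mem_biUnion.1 he
    exact mem_edges.2 ⟨Sub_cell_sub hq (mem_edges.1 he).1, Sub_cell_sub hq (mem_edges.1 he).2⟩
  have hcard : (n / m) ^ 3 * (3 * m ^ 2 * (m - 1)) ≤
      ((cube (n / m)).biUnion fun q => edges (Sub_cell m q)).card := by
    rw [card_biUnion]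
    · rw [← Sub_card_cube, ← smul_eq_mul, ← sum_const]
      exact sum_le_sum fun q _ => Sub_card_edges_cell m q
    · intro q _ q' _ hqq
      exact disjoint_left.2 fun e h1 h2 =>
        hqq (Sub_cell_unique (mem_edges.1 h1).1 (mem_edges.1 h2).1)
  rw [Sub_E, card_sdiff_of_subset hsub]
  have := Sub_card_edges_le n
  omega

lemma Sub_edge_of_nbr {x y : V} (h : Nbr x y) :
    ∃ e : Edge, (src e = x ∧ tgt e = y) ∨ (src e = y ∧ tgt e = x) := by
  obtain ⟨⟨i, b⟩, rfl⟩ := nbr_iff.1 h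
  cases b
  · exact ⟨(x + dv (i, false), i), Or.inr ⟨rfl, by rw [tgt_eq]; exact (Sub_dv_cancel i x).2⟩⟩
  · exact ⟨(x, i), Or.inl ⟨rfl, by rw [tgt_eq]; rfl⟩⟩

lemma Sub_mem_verts {D : Finset Edge} {x : V} : x ∈ verts D ↔ ∃ e ∈ D, src e = x ∨ tgt e = x := by
  simp only [verts, mem_union, mem_image]
  constructor
  · rintro (⟨e, he, h⟩ | ⟨e, he, h⟩)
    · exact ⟨e, he, Or.inl h⟩
    · exact ⟨e, he, Or.inr h⟩
  · rintro ⟨e, he, h | h⟩
    · exact Or.inl ⟨e, he, h⟩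
    · exact Or.inr ⟨e, he, h⟩

/-- The part of a cell that is left for the inner dimers. -/
noncomputable def Sub_U (m : ℕ) (U : Finset V) (μ : Finset Edge) (q : V) : Finset V :=
  (Sub_cell m q ∩ U) \ verts μ

lemma Sub_zz_U {m n : ℕ} {U : Finset V} (h1 : inner n ⊆ U) {μ : Finset Edge}
    (hμ : μ ⊆ Sub_E m n) {q : V} (hq : q ∈ cube (n / m)) : zz (Sub_U m U μ q) id ≤ zc m := by
  rw [← zz_tr_id (fun i => -((m : ℤ) * q i))]
  refine Sub_le_zc (fun y hy => mem_tr.2 ?_) (fun y hy => ?_)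
  · have hy' := mem_inner.1 hy
    have hb := Sub_cell_bound hq
    refine mem_sdiff.2 ⟨mem_inter.2 ⟨Sub_mem_cell.2 fun i => ?_, h1 (mem_inner.2 fun i => ?_)⟩, ?_⟩
    · have := hy' i
      simp only [Pi.sub_apply]
      omega
    · have := hy' i
      have := hb i
      simp only [Pi.sub_apply]
      omega
    · intro hv
      obtain ⟨e, he, hx⟩ := Sub_mem_verts.1 hv
      refine (Sub_mem_E.1 (hμ he)).2 q hq ⟨Sub_mem_cell.2 fun i => ?_, Sub_mem_cell.2 fun i => ?_⟩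
      · have h5 := hy' i
        rcases hx with hx | hx
        · have h6 := congrFun hx i
          simp only [Pi.sub_apply] at h6
          omega
        · have h6 := congrFun hx i
          simp only [tgt, Pi.sub_apply, Pi.add_apply, Pi.single_apply] at h6
          simp only [src]
          split_ifs at h6 <;> omega
      · have h5 := hy' i
        rcases hx with hx | hx
        · have h6 := congrFun hx i
          simp only [src, Pi.sub_apply] at h6
          simp only [tgt, Pi.add_apply, Pi.single_apply]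
          split_ifs <;> omega
        · have h6 := congrFun hx i
          simp only [Pi.sub_apply] at h6
          omega
  · have h3 := (mem_inter.1 (mem_sdiff.1 (mem_tr.1 hy)).1).1
    refine mem_cube.2 fun i => ?_
    have := Sub_mem_cell.1 h3 i
    simp only [Pi.sub_apply] at this
    omega

lemma Sub_maps {U : Finset V} {ρ : V → V} (hρ : ρ ∈ perf U id) {x : V} (hx : x ∈ U) :
    ρ x ∈ U := by
  obtain ⟨⟨h1, h2⟩, h3⟩ := mem_perf.1 hρ
  by_contra hn
  have h4 := h2 _ hn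
  rw [(h1 x).2] at h4
  exact h3 x hx h4.symm

/-- The dimers that are not inside one cell. -/
noncomputable def Sub_mu (m n : ℕ) (ρ : V → V) : Finset Edge :=
  (Sub_E m n).filter fun e => ρ (src e) = tgt e

lemma Sub_edge {U : Finset V} {ρ : V → V} (hρ : ρ ∈ perf U id) {x : V} (hx : x ∈ U) :
    ∃ e : Edge, ρ (src e) = tgt e ∧
      ((src e = x ∧ tgt e = ρ x) ∨ (src e = ρ x ∧ tgt e = x)) := by
  obtain ⟨⟨h1, -⟩, h3⟩ := mem_perf.1 hρ
  obtain ⟨e, he⟩ := Sub_edge_of_nbr ((h1 x).1.resolve_left (h3 x hx))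
  refine ⟨e, ?_, he⟩
  rcases he with ⟨a, b⟩ | ⟨a, b⟩
  · rw [a, b]
  · rw [a, b, (h1 x).2]

lemma Sub_res_mem {m n : ℕ} {U : Finset V} (h2 : U ⊆ cube n) {ρ : V → V} (hρ : ρ ∈ perf U id)
    {q : V} (hq : q ∈ cube (n / m)) :
    res (Sub_cell m q) ρ ∈ perf (Sub_U m U (Sub_mu m n ρ) q) id := by
  obtain ⟨⟨a1, a2⟩, a3⟩ := mem_perf.1 hρ
  refine mem_perf.2 ⟨⟨isExt_res a1 _, fun x hx => ?_⟩, fun x hx => ?_⟩
  · simp only [res, id]
    split_ifs with h
    · by_cases hU : x ∈ U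
      · exfalso
        have hv : x ∈ verts (Sub_mu m n ρ) := by
          by_contra hv
          exact hx (mem_sdiff.2 ⟨mem_inter.2 ⟨h.1, hU⟩, hv⟩)
        obtain ⟨e, he, hx'⟩ := Sub_mem_verts.1 hv
        obtain ⟨he1, he2⟩ := mem_filter.1 he
        refine (Sub_mem_E.1 he1).2 q hq ?_
        rcases hx' with hx' | hx'
        · rw [← he2, hx']
          exact h
        · have : src e = ρ x := by rw [← hx', ← he2, (a1 _).2]
          rw [this, hx']
          exact ⟨h.2, h.1⟩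
      · exact a2 x hU
    · rfl
  · obtain ⟨hx1, hx2⟩ := mem_sdiff.1 hx
    obtain ⟨hc, hU⟩ := mem_inter.1 hx1
    have hin : ρ x ∈ Sub_cell m q := by
      by_contra hn
      obtain ⟨e, he1, he2⟩ := Sub_edge hρ hU
      have c1 := h2 hU
      have c2 := h2 (Sub_maps hρ hU)
      refine hx2 (Sub_mem_verts.2 ⟨e, mem_filter.2 ⟨Sub_mem_E.2 ?_, he1⟩, ?_⟩)
      · rcases he2 with ⟨a, b⟩ | ⟨a, b⟩
        · rw [a, b]
          refine ⟨⟨c1, c2⟩, fun q' _ h => hn ?_⟩
          rw [Sub_cell_unique hc h.1]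
          exact h.2
        · rw [a, b]
          refine ⟨⟨c2, c1⟩, fun q' _ h => hn ?_⟩
          rw [Sub_cell_unique hc h.2]
          exact h.1
      · rcases he2 with ⟨a, -⟩ | ⟨-, b⟩
        · exact Or.inl a
        · exact Or.inr b
    simp only [res, if_pos (And.intro hc hin)]
    exact a3 x hU

lemma Sub_inj {m n : ℕ} {U : Finset V} (h2 : U ⊆ cube n) {ρ ρ' : V → V} (hρ : ρ ∈ perf U id)
    (hρ' : ρ' ∈ perf U id) (hμ : Sub_mu m n ρ = Sub_mu m n ρ')
    (hr : ∀ q ∈ cube (n / m), res (Sub_cell m q) ρ = res (Sub_cell m q) ρ') : ρ = ρ' := by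
  obtain ⟨⟨a1, a2⟩, a3⟩ := mem_perf.1 hρ
  obtain ⟨⟨b1, b2⟩, -⟩ := mem_perf.1 hρ'
  funext x
  by_cases hU : x ∈ U
  · obtain ⟨e, he1, he2⟩ := Sub_edge hρ hU
    by_cases hE : e ∈ Sub_E m n
    · have h3 : e ∈ Sub_mu m n ρ' := hμ ▸ mem_filter.2 ⟨hE, he1⟩
      have h4 := (mem_filter.1 h3).2
      rcases he2 with ⟨a, b⟩ | ⟨a, b⟩
      · rw [a, b] at h4
        exact h4.symm
      · rw [a, b] at h4
        have h5 := (b1 (ρ x)).2
        rw [h4] at h5
        exact h5.symm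
    · have c1 := h2 hU
      have c2 := h2 (Sub_maps hρ hU)
      have h3 : ∃ q ∈ cube (n / m), x ∈ Sub_cell m q ∧ ρ x ∈ Sub_cell m q := by
        by_contra hn
        refine hE (Sub_mem_E.2 ?_)
        rcases he2 with ⟨a, b⟩ | ⟨a, b⟩
        · rw [a, b]
          exact ⟨⟨c1, c2⟩, fun q hq h => hn ⟨q, hq, h⟩⟩
        · rw [a, b]
          exact ⟨⟨c2, c1⟩, fun q hq h => hn ⟨q, hq, h.2, h.1⟩⟩
      obtain ⟨q, hq, h4⟩ := h3
      have h5 := congrFun (hr q hq) x
      simp only [res, if_pos h4] at h5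
      split_ifs at h5 with h6
      · exact h5
      · exact absurd h5 (a3 x hU)
  · rw [a2 x hU, b2 x hU]

lemma Sub_zz_le {m n : ℕ} {U : Finset V} (h1 : inner n ⊆ U) (h2 : U ⊆ cube n) :
    zz U id ≤ zc m ^ ((n / m) ^ 3) * 2 ^ (Sub_E m n).card := by
  classical
  rw [← card_powerset]
  refine card_le_mul_card_image_of_maps_to (f := Sub_mu m n)
    (fun ρ _ => mem_powerset.2 (filter_subset _ _)) _ fun μ hμ => ?_
  have hμ := mem_powerset.1 hμ
  have hc : ((cube (n / m)).pi fun q => perf (Sub_U m U μ q) id).card ≤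
      zc m ^ ((n / m) ^ 3) := by
    rw [card_pi, ← Sub_card_cube]
    exact prod_le_pow_card _ _ _ fun q hq => Sub_zz_U h1 hμ hq
  refine le_trans ?_ hc
  refine card_le_card_of_injOn (fun ρ => fun q _ => res (Sub_cell m q) ρ) ?_ ?_
  · intro ρ hρ
    obtain ⟨a, b⟩ := mem_filter.1 (mem_coe.1 hρ)
    refine mem_coe.2 (mem_pi.2 fun q hq => ?_)
    rw [← b]
    exact Sub_res_mem h2 a hq
  · intro ρ hρ ρ' hρ' h
    obtain ⟨a, b⟩ := mem_filter.1 (mem_coe.1 hρ)
    obtain ⟨a', b'⟩ := mem_filter.1 (mem_coe.1 hρ')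
    exact Sub_inj h2 a a' (b.trans b'.symm) fun q hq => congrFun (congrFun h q) hq

/-- Submultiplicativity. -/
theorem zc_le {m : ℕ} (hm : 1 ≤ m) (n : ℕ) :
    zc n ≤ 2 ^ (3 * n ^ 3 - (n / m) ^ 3 * (3 * m ^ 2 * (m - 1))) * zc m ^ ((n / m) ^ 3) := by
  have _ := hm
  refine Finset.sup_le fun U hU => ?_
  obtain ⟨h2, h1⟩ := mem_filter.1 hU
  refine (Sub_zz_le (m := m) h1 (mem_powerset.1 h2)).trans ?_
  rw [mul_comm]
  exact Nat.mul_le_mul_right _ (Nat.pow_le_pow_right (by norm_num) (Sub_card_E m n))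

end Pool.Agent.Work.MP_5cb0a4_pr.Z
end

-- merged part: Pool.Agent.Work.MP_5cb0a4_pr.Z.Switch
section
open MeasureTheory Finset MvPolynomial Filter Topology

namespace Pool.Agent.Work.MP_5cb0a4_pr.Z

theorem Conn.symm {σ₁ σ₂ : V → V} (h₁ : IsExt σ₁) (h₂ : IsExt σ₂) {x y : V}
    (h : Conn σ₁ σ₂ x y) : Conn σ₁ σ₂ y x := by
  induction h with
  | refl => exact Relation.ReflTransGen.refl
  | tail _ hs ih =>
    exact Relation.ReflTransGen.head
      (hs.imp (fun e => by rw [← e, (h₁ _).2]) fun e => by rw [← e, (h₂ _).2]) ih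

theorem Conn.swap {σ₁ σ₂ : V → V} {x y : V} (h : Conn σ₁ σ₂ x y) : Conn σ₂ σ₁ x y := by
  induction h with
  | refl => exact Relation.ReflTransGen.refl
  | tail _ hs ih => exact ih.tail hs.symm

/-- Two sinks (even and missed by `σ₁`, or odd and missed by `σ₂`) are never connected. -/
theorem sinks_not_conn {σ₁ σ₂ : V → V} (h₁ : IsExt σ₁) (h₂ : IsExt σ₂) {x x' : V}
    (hx : (IsEven x ∧ σ₁ x = x) ∨ (¬ IsEven x ∧ σ₂ x = x))
    (hx' : (IsEven x' ∧ σ₁ x' = x') ∨ (¬ IsEven x' ∧ σ₂ x' = x'))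
    (h : Conn σ₁ σ₂ x x') : x = x' := by
  let s : V → V := fun v => if IsEven v then σ₁ v else σ₂ v
  have fix : ∀ v, (IsEven v ∧ σ₁ v = v) ∨ (¬ IsEven v ∧ σ₂ v = v) → s v = v := by
    rintro v (⟨a, b⟩ | ⟨a, b⟩)
    · exact (if_pos a).trans b
    · exact (if_neg a).trans b
  have adj : ∀ u v, σ₁ u = v ∨ σ₂ u = v → u = v ∨ s u = v ∨ s v = u := by
    rintro u _ (rfl | rfl)
    · by_cases hu : IsEven u
      · exact Or.inr (Or.inl (if_pos hu))
      · exact (h₁ u).1.imp Eq.symm fun hn =>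
          Or.inr ((if_pos ((nbr_parity hn).2 hu)).trans (h₁ u).2)
    · by_cases hu : IsEven u
      · exact (h₂ u).1.imp Eq.symm fun hn =>
          Or.inr ((if_neg fun e => (nbr_parity hn).1 e hu).trans (h₂ u).2)
      · exact Or.inr (Or.inl (if_neg hu))
  have key : ∀ v, Conn σ₁ σ₂ x v → ∃ j, s^[j] v = x := by
    intro v hv
    induction hv with
    | refl => exact ⟨0, rfl⟩
    | tail _ hs ih =>
      obtain ⟨j, hj⟩ := ih
      rcases adj _ _ hs with rfl | rfl | rfl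
      · exact ⟨j, hj⟩
      · exact ⟨j, by rw [← Function.iterate_succ_apply, Function.iterate_succ_apply', hj, fix x hx]⟩
      · exact ⟨j + 1, hj⟩
  obtain ⟨j, hj⟩ := key x' h
  exact hj.symm.trans (Function.iterate_fixed (fix x' hx') j)

open Classical in
/-- Exchange the two configurations on a set. -/
noncomputable def swp (K : Set V) (σ₁ σ₂ : V → V) : V → V := fun x => if x ∈ K then σ₂ x else σ₁ x

theorem isExt_swp {σ₁ σ₂ : V → V} (h₁ : IsExt σ₁) (h₂ : IsExt σ₂) {K : Set V}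
    (hK₁ : ∀ x ∈ K, σ₁ x ∈ K) (hK₂ : ∀ x ∈ K, σ₂ x ∈ K) : IsExt (swp K σ₁ σ₂) := by
  intro x
  by_cases hx : x ∈ K
  · rw [show swp K σ₁ σ₂ x = σ₂ x from if_pos hx,
      show swp K σ₁ σ₂ (σ₂ x) = σ₂ (σ₂ x) from if_pos (hK₂ x hx)]
    exact h₂ x
  · have h : σ₁ x ∉ K := fun h => hx ((h₁ x).2 ▸ hK₁ _ h)
    rw [show swp K σ₁ σ₂ x = σ₁ x from if_neg hx,
      show swp K σ₁ σ₂ (σ₁ x) = σ₁ (σ₁ x) from if_neg h]
    exact h₁ x

/-- Parity of the number of fixed points on an invariant finite set. -/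
theorem card_fixed_parity {σ : V → V} (hσ : IsExt σ) (K : Finset V) (hK : ∀ x ∈ K, σ x ∈ K) :
    (K.filter fun x => σ x = x).card % 2 = K.card % 2 := by
  have h1 : ∑ _x ∈ K.filter fun x => ¬ σ x = x, (1 : ZMod 2) = 0 :=
    sum_involution (fun x _ => σ x) (fun _ _ => rfl) (fun x hx _ => (mem_filter.1 hx).2)
      (fun x hx => mem_filter.2 ⟨hK x (mem_filter.1 hx).1, fun e =>
        (mem_filter.1 hx).2 (e.symm.trans (hσ x).2)⟩) fun x _ => (hσ x).2
  rw [sum_const, nsmul_eq_mul, mul_one, ZMod.natCast_eq_zero_iff] at h1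
  have h2 := card_filter_add_card_filter_not (s := K) fun x => σ x = x
  omega

theorem Switch_free {Λ : Finset V} {σ ρ ρ' : V → V} (h : ρ ∈ cls Λ σ) (h' : ρ' ∈ cls Λ σ) {v : V}
    (hv : ρ v ∈ Λ) : ρ' v ∈ Λ := by
  by_contra hw
  have e : ρ (ρ' v) = v :=
    ((mem_cls.1 h).2 _ hw).trans (((mem_cls.1 h').2 _ hw).symm.trans ((mem_cls.1 h').1 v).2)
  rw [← e, ((mem_cls.1 h).1 _).2] at hv
  exact hw hv

theorem Switch_sub {Λ : Finset V} {σ ρ₁ ρ₂ : V → V} (h₁ : ρ₁ ∈ cls Λ σ) (h₂ : ρ₂ ∈ cls Λ σ)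
    {x v : V} (hx : x ∈ mon Λ ρ₂) (h : Conn ρ₁ ρ₂ x v) : v ∈ Λ := by
  have key : v ∈ Λ ∧ ρ₂ v ∈ Λ := by
    induction h with
    | refl => exact ⟨(mem_mon.1 hx).1, (mem_mon.1 hx).2.symm ▸ (mem_mon.1 hx).1⟩
    | tail _ hs ih =>
      rcases hs with rfl | rfl
      · exact ⟨Switch_free h₂ h₁ ih.2,
          Switch_free h₁ h₂ (by rw [((mem_cls.1 h₁).1 _).2]; exact ih.1)⟩
      · exact ⟨ih.2, by rw [((mem_cls.1 h₂).1 _).2]; exact ih.1⟩
  exact key.1

/-- The component of an even monomer contains exactly one other monomer, which is odd. -/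
theorem Switch_end {Λ : Finset V} {σ ρ₁ ρ₂ : V → V} (h₁ : ρ₁ ∈ perf Λ σ) (h₂ : ρ₂ ∈ cls Λ σ)
    {x : V} (hx : x ∈ mon Λ ρ₂) (he : IsEven x) : ∃ y, ¬ IsEven y ∧ Conn ρ₁ ρ₂ x y ∧ ρ₂ y = y ∧
      ∀ v, Conn ρ₁ ρ₂ x v → ρ₂ v = v → v = x ∨ v = y := by
  classical
  have c₁ : ρ₁ ∈ cls Λ σ := (mem_filter.1 h₁).1
  have e₁ := (mem_cls.1 c₁).1
  have e₂ := (mem_cls.1 h₂).1
  have ev : ∀ v, Conn ρ₁ ρ₂ x v → ρ₂ v = v → IsEven v → v = x := fun v hv h h' =>
    (sinks_not_conn e₂ e₁ (Or.inl ⟨he, (mem_mon.1 hx).2⟩) (Or.inl ⟨h', h⟩) hv.swap).symm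
  have hK : ∀ v, v ∈ Λ.filter (Conn ρ₁ ρ₂ x) ↔ Conn ρ₁ ρ₂ x v := fun v =>
    ⟨fun h => (mem_filter.1 h).2, fun h => mem_filter.2 ⟨Switch_sub c₁ h₂ hx h, h⟩⟩
  obtain ⟨y, a1, a2, a3⟩ : ∃ y, ¬ IsEven y ∧ Conn ρ₁ ρ₂ x y ∧ ρ₂ y = y := by
    by_contra hn
    have p1 := card_fixed_parity e₁ (Λ.filter (Conn ρ₁ ρ₂ x)) fun v hv =>
      (hK _).2 (((hK v).1 hv).tail (Or.inl rfl))
    have p2 := card_fixed_parity e₂ (Λ.filter (Conn ρ₁ ρ₂ x)) fun v hv =>
      (hK _).2 (((hK v).1 hv).tail (Or.inr rfl))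
    rw [filter_eq_empty_iff.2 fun v hv => (mem_perf.1 h₁).2 v (mem_filter.1 hv).1,
      card_empty] at p1
    have p3 : (Λ.filter (Conn ρ₁ ρ₂ x)).filter (fun v => ρ₂ v = v) = {x} :=
      eq_singleton_iff_unique_mem.2 ⟨mem_filter.2 ⟨(hK x).2 Relation.ReflTransGen.refl,
        (mem_mon.1 hx).2⟩, fun v hv => ev v ((hK v).1 (mem_filter.1 hv).1) (mem_filter.1 hv).2
          (by_contra fun h => hn ⟨v, h, (hK v).1 (mem_filter.1 hv).1, (mem_filter.1 hv).2⟩)⟩
    rw [p3, card_singleton] at p2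
    omega
  refine ⟨y, a1, a2, a3, fun v hv h => ?_⟩
  by_cases h' : IsEven v
  · exact Or.inl (ev v hv h h')
  · exact Or.inr (sinks_not_conn e₁ e₂ (Or.inr ⟨h', h⟩) (Or.inr ⟨a1, a3⟩)
      (Relation.ReflTransGen.trans (hv.symm e₁ e₂) a2))

/-- The exchange on the component of `x`. -/
noncomputable def Switch_map (x : V) (q : (V → V) × (V → V)) : (V → V) × (V → V) :=
  (swp {v | Conn q.1 q.2 x v} q.1 q.2, swp {v | Conn q.1 q.2 x v} q.2 q.1)

theorem Switch_invol (x : V) : Function.Involutive (Switch_map x) := by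
  intro q
  have h : Conn (Switch_map x q).1 (Switch_map x q).2 = Conn q.1 q.2 := by
    unfold Conn
    congr 1
    funext u v
    simp only [Switch_map, swp]
    split_ifs
    · exact propext Or.comm
    · rfl
  rw [Switch_map, h]
  refine Prod.ext (funext fun v => ?_) (funext fun v => ?_) <;> simp only [Switch_map, swp] <;>
    split_ifs <;> rfl

theorem Zm_switch (Λ : Finset V) (σ : V → V) (X Y : Finset V) (x : V)
    (hX : ∀ v ∈ X, IsEven v) (hY : ∀ v ∈ Y, ¬ IsEven v) (hx : IsEven x) (hxX : x ∉ X) :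
    zz Λ σ * Zm Λ σ (insert x X ∪ Y) ≤ ∑ y ∈ Y, Zm Λ σ {x, y} * Zm Λ σ (X ∪ Y.erase y) := by
  classical
  rw [zz, Zm, ← card_product]
  refine (card_le_card_of_injOn (Switch_map x) (t := Y.biUnion fun y =>
    ((cls Λ σ).filter fun ρ => mon Λ ρ = {x, y}) ×ˢ
      (cls Λ σ).filter fun ρ => mon Λ ρ = X ∪ Y.erase y) ?_
    (Switch_invol x).injective.injOn).trans
    (card_biUnion_le.trans (sum_le_sum fun y _ => (card_product _ _).le))
  rintro ⟨ρ₁, ρ₂⟩ hq
  obtain ⟨h₁, h₂⟩ := mem_product.1 (mem_coe.1 hq)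
  obtain ⟨h₂, hm⟩ := mem_filter.1 h₂
  simp only at h₁ h₂ hm
  have c₁ : ρ₁ ∈ cls Λ σ := (mem_filter.1 h₁).1
  have hm' : ∀ v, v ∈ Λ ∧ ρ₂ v = v ↔ (v = x ∨ v ∈ X) ∨ v ∈ Y := fun v => by
    rw [← mem_mon, hm, mem_union, mem_insert]
  have hxm : x ∈ mon Λ ρ₂ := mem_mon.2 ((hm' x).2 (Or.inl (Or.inl rfl)))
  obtain ⟨y, a1, a2, a3, a4⟩ := Switch_end h₁ h₂ hxm hx
  have sub : ∀ v, Conn ρ₁ ρ₂ x v → v ∈ Λ := fun v => Switch_sub c₁ h₂ hxm
  have k1 : ∀ v ∈ {v | Conn ρ₁ ρ₂ x v}, ρ₁ v ∈ {v | Conn ρ₁ ρ₂ x v} := fun v hv =>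
    Relation.ReflTransGen.tail hv (Or.inl rfl)
  have k2 : ∀ v ∈ {v | Conn ρ₁ ρ₂ x v}, ρ₂ v ∈ {v | Conn ρ₁ ρ₂ x v} := fun v hv =>
    Relation.ReflTransGen.tail hv (Or.inr rfl)
  have hy : y ∈ Y := ((hm' y).1 ⟨sub y a2, a3⟩).resolve_left fun h =>
    a1 (h.elim (fun e => e ▸ hx) (hX y))
  have np := (mem_perf.1 h₁).2
  refine mem_coe.2 (mem_biUnion.2 ⟨y, hy, mem_product.2 ⟨mem_filter.2 ⟨mem_cls.2
    ⟨isExt_swp (mem_cls.1 c₁).1 (mem_cls.1 h₂).1 k1 k2, fun v hv => ?_⟩, ?_⟩, mem_filter.2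
    ⟨mem_cls.2 ⟨isExt_swp (mem_cls.1 h₂).1 (mem_cls.1 c₁).1 k2 k1, fun v hv => ?_⟩, ?_⟩⟩⟩)
  · exact (if_neg fun h => hv (sub v h)).trans ((mem_cls.1 c₁).2 v hv)
  · ext v
    rw [mem_mon, mem_insert, mem_singleton]
    by_cases hv : Conn ρ₁ ρ₂ x v
    · rw [show (Switch_map x (ρ₁, ρ₂)).1 v = ρ₂ v from if_pos hv]
      refine ⟨fun h => a4 v hv h.2, fun h => ⟨sub v hv, ?_⟩⟩
      rcases h with rfl | rfl
      exacts [(mem_mon.1 hxm).2, a3]
    · rw [show (Switch_map x (ρ₁, ρ₂)).1 v = ρ₁ v from if_neg hv]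
      refine ⟨fun h => absurd h.2 (np v h.1), fun h => absurd ?_ hv⟩
      rcases h with rfl | rfl
      exacts [Relation.ReflTransGen.refl, a2]
  · exact (if_neg fun h => hv (sub v h)).trans ((mem_cls.1 h₂).2 v hv)
  · ext v
    rw [mem_mon, mem_union, mem_erase]
    by_cases hv : Conn ρ₁ ρ₂ x v
    · rw [show (Switch_map x (ρ₁, ρ₂)).2 v = ρ₁ v from if_pos hv]
      refine ⟨fun h => absurd h.2 (np v h.1), fun h => False.elim ?_⟩
      rcases a4 v hv ((hm' v).2 (h.imp Or.inr And.right)).2 with rfl | rfl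
      · exact h.elim hxX fun h => hY _ h.2 hx
      · exact h.elim (fun h => a1 (hX _ h)) fun h => h.1 rfl
    · rw [show (Switch_map x (ρ₁, ρ₂)).2 v = ρ₂ v from if_neg hv, hm']
      have n1 : v ≠ x := by
        rintro rfl
        exact hv Relation.ReflTransGen.refl
      have n2 : v ≠ y := by
        rintro rfl
        exact hv a2
      exact ⟨fun h => h.imp (fun h => h.resolve_left n1) fun h => ⟨n2, h⟩,
        fun h => h.imp Or.inr And.right⟩

theorem Mr_switch (Λ : Finset V) (σ : V → V) (X Y : Finset V) (x : V)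
    (hX : ∀ v ∈ X, IsEven v) (hY : ∀ v ∈ Y, ¬ IsEven v) (hx : IsEven x) (hxX : x ∉ X) :
    Mr Λ σ (insert x X ∪ Y) ≤ ∑ y ∈ Y, Mr Λ σ {x, y} * Mr Λ σ (X ∪ Y.erase y) := by
  rcases Nat.eq_zero_or_pos (zz Λ σ) with h | h
  · simp [Mr, h]
  · have h0 : (0 : ℝ) < zz Λ σ := Nat.cast_pos.2 h
    have h1 := (Nat.cast_le (α := ℝ)).2 (Zm_switch Λ σ X Y x hX hY hx hxX)
    push_cast at h1
    simp only [Mr, div_mul_div_comm, ← sum_div]
    rw [div_le_div_iff₀ h0 (mul_pos h0 h0)]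
    nlinarith [mul_le_mul_of_nonneg_right h1 h0.le]

end Pool.Agent.Work.MP_5cb0a4_pr.Z
end

-- merged part: Pool.Agent.Work.MP_5cb0a4_pr.Z.Recol
section
open MeasureTheory Finset MvPolynomial Filter Topology

namespace Pool.Agent.Work.MP_5cb0a4_pr.Z

/-- `ρ₁` misses the points of `A`, `ρ₂` misses their translates by `e0`. -/
structure Pre (A : Finset V) (ρ₁ ρ₂ : V → V) : Prop where
  ext1 : IsExt ρ₁
  ext2 : IsExt ρ₂
  miss1 : ∀ x ∈ A, ρ₁ x = x ∧ ρ₂ x ≠ x
  miss2 : ∀ x ∈ A, ρ₂ (x + e0) = x + e0 ∧ ρ₁ (x + e0) ≠ x + e0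

/-- `(ρ₁', ρ₂')` is a recolouring of the union of `ρ₁`, `ρ₂` and the edges from `A` to `A + e0`. -/
structure Post (A : Finset V) (ρ₁ ρ₂ ρ₁' ρ₂' : V → V) : Prop where
  ext1 : IsExt ρ₁'
  ext2 : IsExt ρ₂'
  off : ∀ v, v ∉ A → v - e0 ∉ A → s(ρ₁' v, ρ₂' v) = s(ρ₁ v, ρ₂ v)
  on1 : ∀ x ∈ A, s(ρ₁' x, ρ₂' x) = s(x + e0, ρ₂ x)
  on2 : ∀ x ∈ A, s(ρ₁' (x + e0), ρ₂' (x + e0)) = s(x, ρ₁ (x + e0))
  far : ∀ v, (∀ x ∈ A, ¬ Conn ρ₁' ρ₂' x v) → ρ₁' v = ρ₁ v ∧ ρ₂' v = ρ₂ v

theorem Recol_or {a b c d : V} (h : s(a, b) = s(c, d)) (v : V) :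
    (a = v ∨ b = v) ↔ (c = v ∨ d = v) := by
  rcases Sym2.eq_iff.1 h with ⟨rfl, rfl⟩ | ⟨rfl, rfl⟩
  · rfl
  · exact or_comm

theorem Recol_e0 (x : V) : x + e0 ≠ x := fun h => dv_ne_zero (0, true) (by
  rw [← e0_eq]
  simpa using h)

/-- Add the edge from `x` to `x + e0` in the first colour. -/
theorem Recol_add {ρ₁ : V → V} (h₁ : IsExt ρ₁) {x : V} (hx : ρ₁ x = x)
    (hy : ρ₁ (x + e0) = x + e0) : ∃ σ : V → V, IsExt σ ∧ σ x = x + e0 ∧ σ (x + e0) = x ∧
      ∀ v, v ≠ x → v ≠ x + e0 → σ v = ρ₁ v := by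
  classical
  have hn : Nbr x (x + e0) := nbr_iff.2 ⟨(0, true), by rw [e0_eq]⟩
  have h0 : e0 ≠ 0 := e0_eq ▸ dv_ne_zero _
  refine ⟨fun v => if v = x then x + e0 else if v = x + e0 then x else ρ₁ v, fun v => ?_,
    if_pos rfl, by simp [h0], fun v a b => by simp [a, b]⟩
  by_cases a : v = x
  · subst a
    simp [h0, hn]
  by_cases b : v = x + e0
  · subst b
    simp [h0, nbr_symm hn]
  have a' : ρ₁ v ≠ x := fun e => a (h₁.inj (e.trans hx.symm))
  have b' : ρ₁ v ≠ x + e0 := fun e => b (h₁.inj (e.trans hy.symm))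
  simpa [a, b, a', b'] using h₁ v

/-- The result of adding one edge. -/
def Recol_One (x : V) (ρ₁ ρ₂ σ₁ σ₂ : V → V) : Prop :=
  IsExt σ₁ ∧ IsExt σ₂ ∧ (∀ v, v ≠ x → v ≠ x + e0 → s(σ₁ v, σ₂ v) = s(ρ₁ v, ρ₂ v)) ∧
    (∀ p, s(ρ₁ x, ρ₂ x) = s(x, p) → s(σ₁ x, σ₂ x) = s(x + e0, p)) ∧
    (∀ p, s(ρ₁ (x + e0), ρ₂ (x + e0)) = s(x + e0, p) → s(σ₁ (x + e0), σ₂ (x + e0)) = s(x, p)) ∧
    ∀ v, ¬ Conn σ₁ σ₂ x v → σ₁ v = ρ₁ v ∧ σ₂ v = ρ₂ v

theorem Recol_One.swap {x : V} {ρ₁ ρ₂ σ₁ σ₂ : V → V} (h : Recol_One x ρ₁ ρ₂ σ₁ σ₂) :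
    Recol_One x ρ₂ ρ₁ σ₂ σ₁ := by
  obtain ⟨h1, h2, h3, h4, h5, h6⟩ := h
  exact ⟨h2, h1, fun v a b => Sym2.eq_swap.trans ((h3 v a b).trans Sym2.eq_swap),
    fun p a => Sym2.eq_swap.trans (h4 p (Sym2.eq_swap.trans a)),
    fun p a => Sym2.eq_swap.trans (h5 p (Sym2.eq_swap.trans a)),
    fun v a => (h6 v fun b => a b.swap).symm⟩

theorem Recol_same {ρ₁ ρ₂ : V → V} (h₁ : IsExt ρ₁) (h₂ : IsExt ρ₂) {x : V} (hx : ρ₁ x = x)
    (hy : ρ₁ (x + e0) = x + e0) : ∃ σ, Recol_One x ρ₁ ρ₂ σ ρ₂ := by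
  obtain ⟨σ, e, a, b, c⟩ := Recol_add h₁ hx hy
  refine ⟨σ, e, h₂, fun v h1 h2 => by rw [c v h1 h2], fun p hp => ?_, fun p hp => ?_,
    fun v hv => ⟨c v ?_ ?_, rfl⟩⟩
  · rw [hx] at hp
    rw [a, Sym2.congr_right.1 hp]
  · rw [hy] at hp
    rw [b, Sym2.congr_right.1 hp]
  · rintro rfl
    exact hv Relation.ReflTransGen.refl
  · rintro rfl
    exact hv (Relation.ReflTransGen.single (Or.inl a))

theorem Recol_One.up {x : V} {ρ₁ ρ₂ σ₁ σ₂ : V → V} (h : Recol_One x ρ₁ ρ₂ σ₁ σ₂)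
    (hx : ρ₁ x = x ∨ ρ₂ x = x) (hy : ρ₁ (x + e0) = x + e0 ∨ ρ₂ (x + e0) = x + e0) {u v : V}
    (huv : Conn ρ₁ ρ₂ u v) : Conn σ₁ σ₂ u v := by
  obtain ⟨-, -, h3, h4, h5, -⟩ := h
  have hs : ∀ w, ρ₁ w = w ∨ ρ₂ w = w → ∃ p, s(ρ₁ w, ρ₂ w) = s(w, p) := by
    rintro w (e | e)
    · exact ⟨ρ₂ w, by rw [e]⟩
    · exact ⟨ρ₁ w, by rw [e, Sym2.eq_swap]⟩
  induction huv with
  | refl => exact Relation.ReflTransGen.refl
  | @tail v w _ hvw ih =>
    by_cases a : v = x
    · subst a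
      obtain ⟨p, hp⟩ := hs v hx
      rcases (Recol_or hp w).1 hvw with e | e
      · exact e ▸ ih
      · exact ih.tail ((Recol_or (h4 p hp) w).2 (Or.inr e))
    by_cases b : v = x + e0
    · subst b
      obtain ⟨p, hp⟩ := hs _ hy
      rcases (Recol_or hp w).1 hvw with e | e
      · exact e ▸ ih
      · exact ih.tail ((Recol_or (h5 p hp) w).2 (Or.inr e))
    exact ih.tail ((Recol_or (h3 v a b) w).2 hvw)

theorem Recol_diff {ρ₁ ρ₂ : V → V} (h₁ : IsExt ρ₁) (h₂ : IsExt ρ₂) {x : V} (hx : ρ₁ x = x)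
    (hy : ρ₂ (x + e0) = x + e0) : ∃ σ₁ σ₂, Recol_One x ρ₁ ρ₂ σ₁ σ₂ := by
  have hn : ¬ Conn ρ₁ ρ₂ (x + e0) x := fun hc => by
    have hp : IsEven (x + e0) ↔ ¬ IsEven x := by rw [e0_eq, isEven_add_dv]
    by_cases e : IsEven x
    · exact Recol_e0 x (sinks_not_conn h₁ h₂ (Or.inr ⟨fun a => hp.1 a e, hy⟩) (Or.inl ⟨e, hx⟩) hc)
    · exact Recol_e0 x (sinks_not_conn h₂ h₁ (Or.inl ⟨hp.2 e, hy⟩) (Or.inr ⟨e, hx⟩) hc.swap)
  set K : Set V := {v | Conn ρ₁ ρ₂ (x + e0) v} with hK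
  have k1 : ∀ v ∈ K, ρ₁ v ∈ K := fun v hv => hv.tail (Or.inl rfl)
  have k2 : ∀ v ∈ K, ρ₂ v ∈ K := fun v hv => hv.tail (Or.inr rfl)
  have k0 : x + e0 ∈ K := Relation.ReflTransGen.refl
  have kx : x ∉ K := hn
  have hs : ∀ v, s(swp K ρ₁ ρ₂ v, swp K ρ₂ ρ₁ v) = s(ρ₁ v, ρ₂ v) := fun v => by
    unfold swp
    split_ifs
    · exact Sym2.eq_swap
    · rfl
  have gx : swp K ρ₁ ρ₂ x = x := by simp [swp, kx, hx]
  have gy : swp K ρ₁ ρ₂ (x + e0) = x + e0 := by simp [swp, k0, hy]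
  obtain ⟨σ, hσ⟩ := Recol_same (isExt_swp h₁ h₂ k1 k2) (isExt_swp h₂ h₁ k2 k1) gx gy
  have hup : ∀ u v, Conn (swp K ρ₁ ρ₂) (swp K ρ₂ ρ₁) u v → Conn σ (swp K ρ₂ ρ₁) u v :=
    fun u v => hσ.up (Or.inl gx) (Or.inl gy)
  obtain ⟨a1, a2, a3, a4, a5, a6⟩ := hσ
  refine ⟨σ, _, a1, a2, fun v a b => (a3 v a b).trans (hs v), fun p hp => a4 p ((hs _).trans hp),
    fun p hp => a5 p ((hs _).trans hp), fun v hv => ?_⟩
  have kv : v ∉ K := fun hc => by
    refine hv (Relation.ReflTransGen.head ((Recol_or (a4 _ (by rw [gx])) _).2 (Or.inl rfl))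
      (hup _ _ ?_))
    exact Relation.ReflTransGen.mono (fun a b e => (Recol_or (hs a) b).2 e) _ _ hc
  exact ⟨(a6 v hv).1.trans (by simp [swp, kv]), by simp [swp, kv]⟩

theorem Recol_one {ρ₁ ρ₂ : V → V} (h₁ : IsExt ρ₁) (h₂ : IsExt ρ₂) {x : V}
    (hx : ρ₁ x = x ∨ ρ₂ x = x) (hy : ρ₁ (x + e0) = x + e0 ∨ ρ₂ (x + e0) = x + e0) :
    ∃ σ₁ σ₂, Recol_One x ρ₁ ρ₂ σ₁ σ₂ := by
  rcases hx with hx | hx <;> rcases hy with hy | hy
  · exact ⟨_, _, (Recol_same h₁ h₂ hx hy).choose_spec⟩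
  · exact Recol_diff h₁ h₂ hx hy
  · obtain ⟨σ₂, σ₁, h⟩ := Recol_diff h₂ h₁ hx hy
    exact ⟨σ₁, σ₂, h.swap⟩
  · exact ⟨_, _, (Recol_same h₂ h₁ hx hy).choose_spec.swap⟩

theorem Recol_gen (A : Finset V) (hA : ∀ x ∈ A, x + e0 ∉ A) {ρ₁ ρ₂ : V → V} (h₁ : IsExt ρ₁)
    (h₂ : IsExt ρ₂) (hx : ∀ x ∈ A, ρ₁ x = x ∨ ρ₂ x = x)
    (hy : ∀ x ∈ A, ρ₁ (x + e0) = x + e0 ∨ ρ₂ (x + e0) = x + e0) :
    ∃ σ₁ σ₂, IsExt σ₁ ∧ IsExt σ₂ ∧ (∀ v, v ∉ A → v - e0 ∉ A → s(σ₁ v, σ₂ v) = s(ρ₁ v, ρ₂ v)) ∧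
      (∀ x ∈ A, ∀ p, s(ρ₁ x, ρ₂ x) = s(x, p) → s(σ₁ x, σ₂ x) = s(x + e0, p)) ∧
      (∀ x ∈ A, ∀ p, s(ρ₁ (x + e0), ρ₂ (x + e0)) = s(x + e0, p) →
        s(σ₁ (x + e0), σ₂ (x + e0)) = s(x, p)) ∧
      (∀ u v, Conn ρ₁ ρ₂ u v → Conn σ₁ σ₂ u v) ∧
      ∀ v, (∀ x ∈ A, ¬ Conn σ₁ σ₂ x v) → σ₁ v = ρ₁ v ∧ σ₂ v = ρ₂ v := by
  classical
  induction A using Finset.induction_on generalizing ρ₁ ρ₂ with
  | empty => exact ⟨ρ₁, ρ₂, h₁, h₂, fun _ _ _ => rfl, by simp, by simp, fun _ _ h => h, by simp⟩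
  | insert z B hz ih =>
    have mz := mem_insert_self z B
    obtain ⟨κ₁, κ₂, hκ⟩ := Recol_one h₁ h₂ (hx z mz) (hy z mz)
    have hup : ∀ u v, Conn ρ₁ ρ₂ u v → Conn κ₁ κ₂ u v := fun u v => hκ.up (hx z mz) (hy z mz)
    obtain ⟨a1, a2, a3, a4, a5, a6⟩ := hκ
    have c1 : ∀ x ∈ B, s(κ₁ x, κ₂ x) = s(ρ₁ x, ρ₂ x) := fun x hx =>
      a3 x (fun e => hz (e ▸ hx)) fun e => hA z mz (e ▸ mem_insert_of_mem hx)
    have c2 : ∀ x ∈ B, s(κ₁ (x + e0), κ₂ (x + e0)) = s(ρ₁ (x + e0), ρ₂ (x + e0)) := fun x hx =>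
      a3 _ (fun e => hA x (mem_insert_of_mem hx) (e ▸ mz)) fun e => hz (add_right_cancel e ▸ hx)
    obtain ⟨σ₁, σ₂, b1, b2, b3, b4, b5, b6, b7⟩ := ih
      (fun x hx e => hA x (mem_insert_of_mem hx) (mem_insert_of_mem e)) a1 a2
      (fun x h => (Recol_or (c1 x h) _).2 (hx x (mem_insert_of_mem h)))
      (fun x h => (Recol_or (c2 x h) _).2 (hy x (mem_insert_of_mem h)))
    refine ⟨σ₁, σ₂, b1, b2, fun v h1 h2 => ?_, fun x h p hp => ?_, fun x h p hp => ?_,
      fun u v h => b6 u v (hup u v h), fun v hv => ?_⟩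
    · rw [mem_insert, not_or] at h1 h2
      exact (b3 v h1.2 h2.2).trans (a3 v h1.1 fun e => h2.1 (by rw [e, add_sub_cancel_right]))
    · rcases mem_insert.1 h with rfl | h
      · exact (b3 x hz fun e => hA _ (mem_insert_of_mem e) (by rwa [sub_add_cancel])).trans
          (a4 p hp)
      · exact b4 x h p ((c1 x h).trans hp)
    · rcases mem_insert.1 h with rfl | h
      · exact (b3 _ (fun e => hA x mz (mem_insert_of_mem e))
          (by rwa [add_sub_cancel_right])).trans (a5 p hp)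
      · exact b5 x h p ((c2 x h).trans hp)
    · obtain ⟨d1, d2⟩ := b7 v fun x h => hv x (mem_insert_of_mem h)
      obtain ⟨d3, d4⟩ := a6 v fun e => hv z mz (b6 _ _ e)
      exact ⟨d1.trans d3, d2.trans d4⟩

theorem Recol_up {A : Finset V} {ρ₁ ρ₂ ρ₁' ρ₂' : V → V} (h : Pre A ρ₁ ρ₂)
    (hp : Post A ρ₁ ρ₂ ρ₁' ρ₂') (u v : V) (huv : ρ₁ u = v ∨ ρ₂ u = v) :
    u = v ∨ ρ₁' u = v ∨ ρ₂' u = v := by
  by_cases c1 : u ∈ A
  · rw [(h.miss1 u c1).1] at huv
    exact huv.imp_right fun e => (Recol_or (hp.on1 u c1) v).2 (Or.inr e)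
  by_cases c2 : u - e0 ∈ A
  · have e1 := hp.on2 _ c2
    have e2 := (h.miss2 _ c2).1
    rw [sub_add_cancel] at e1 e2
    rw [e2] at huv
    exact huv.symm.imp_right fun e => (Recol_or e1 v).2 (Or.inr e)
  exact Or.inr ((Recol_or (hp.off u c1 c2) v).2 huv)

theorem recolour (A : Finset V) (hA : ∀ x ∈ A, x + e0 ∉ A) {ρ₁ ρ₂ : V → V} (h : Pre A ρ₁ ρ₂) :
    ∃ ρ₁' ρ₂', Post A ρ₁ ρ₂ ρ₁' ρ₂' := by
  obtain ⟨σ₁, σ₂, e1, e2, h1, h2, h3, -, h5⟩ := Recol_gen A hA h.ext1 h.ext2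
    (fun x hx => Or.inl (h.miss1 x hx).1) (fun x hx => Or.inr (h.miss2 x hx).1)
  refine ⟨σ₁, σ₂, e1, e2, h1, fun x hx => h2 x hx _ ?_, fun x hx => h3 x hx _ ?_, h5⟩
  · rw [(h.miss1 x hx).1]
  · rw [(h.miss2 x hx).1, Sym2.eq_swap]

theorem recolour_unique (A : Finset V) (hA : ∀ x ∈ A, x + e0 ∉ A) {ρ₁ ρ₂ κ₁ κ₂ ρ₁' ρ₂' : V → V}
    (h : Pre A ρ₁ ρ₂) (h' : Pre A κ₁ κ₂) (hp : Post A ρ₁ ρ₂ ρ₁' ρ₂')
    (hp' : Post A κ₁ κ₂ ρ₁' ρ₂') : ρ₁ = κ₁ ∧ ρ₂ = κ₂ := by
  have a1 : ∀ x ∈ A, ρ₁ x = κ₁ x ∧ ρ₂ x = κ₂ x := fun x hx =>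
    ⟨(h.miss1 x hx).1.trans (h'.miss1 x hx).1.symm,
      Sym2.congr_right.1 ((hp.on1 x hx).symm.trans (hp'.on1 x hx))⟩
  have a2 : ∀ v, v - e0 ∈ A → ρ₁ v = κ₁ v ∧ ρ₂ v = κ₂ v := fun v hv => by
    obtain ⟨x, rfl⟩ : ∃ x, v = x + e0 := ⟨v - e0, by simp⟩
    rw [add_sub_cancel_right] at hv
    exact ⟨Sym2.congr_right.1 ((hp.on2 x hv).symm.trans (hp'.on2 x hv)),
      (h.miss2 x hv).1.trans (h'.miss2 x hv).1.symm⟩
  have a3 : ∀ x ∈ A, ∀ v, Conn ρ₁' ρ₂' x v → ρ₁ v = κ₁ v ∧ ρ₂ v = κ₂ v := by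
    intro x hx v hv
    induction hv with
    | refl => exact a1 x hx
    | @tail u v _ huv ih =>
      by_cases c1 : v ∈ A
      · exact a1 v c1
      by_cases c2 : v - e0 ∈ A
      · exact a2 v c2
      have e1 := hp.off v c1 c2
      have e2 := e1.symm.trans (hp'.off v c1 c2)
      have hu : ρ₁' v = u ∨ ρ₂' v = u := by
        rcases huv with rfl | rfl
        · exact Or.inl (hp.ext1 u).2
        · exact Or.inr (hp.ext2 u).2
      rcases (Recol_or e1 u).1 hu with e | e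
      · have e3 : κ₁ v = ρ₁ v := by
          rw [e, ← (h'.ext1 u).2, ← ih.1, ← e, (h.ext1 v).2]
        rw [e3] at e2
        exact ⟨e3.symm, Sym2.congr_right.1 e2⟩
      · have e3 : κ₂ v = ρ₂ v := by
          rw [e, ← (h'.ext2 u).2, ← ih.2, ← e, (h.ext2 v).2]
        rw [e3] at e2
        exact ⟨Sym2.congr_left.1 e2, e3.symm⟩
  have a4 : ∀ v, ρ₁ v = κ₁ v ∧ ρ₂ v = κ₂ v := fun v => by
    by_cases c : ∃ x ∈ A, Conn ρ₁' ρ₂' x v
    · obtain ⟨x, hx, hv⟩ := c
      exact a3 x hx v hv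
    · have c' : ∀ x ∈ A, ¬ Conn ρ₁' ρ₂' x v := fun x hx hv => c ⟨x, hx, hv⟩
      exact ⟨(hp.far v c').1.symm.trans (hp'.far v c').1, (hp.far v c').2.symm.trans (hp'.far v c').2⟩
  exact ⟨funext fun v => (a4 v).1, funext fun v => (a4 v).2⟩

/-- `Ev` only depends on the uncoloured union inside the box. -/
theorem ev_congr {k R : ℕ} (x : Fin k → V) {σ₁ σ₂ σ₁' σ₂' : V → V}
    (h : ∀ v ∈ box R, s(σ₁' v, σ₂' v) = s(σ₁ v, σ₂ v)) : Ev x R σ₁' σ₂' ↔ Ev x R σ₁ σ₂ := by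
  have : RB R σ₁' σ₂' = RB R σ₁ σ₂ := by
    unfold RB
    congr 1
    funext u v
    exact propext (and_congr_right fun hu => and_congr_right fun _ => Recol_or (h u hu) v)
  unfold Ev
  rw [this]

/-- After recolouring, the sinks near the centre `c` produce the crossing event. -/
theorem ev_of_post {k R : ℕ} (hR : 2 ≤ R) {x : Fin k → V} (hxi : Function.Injective x)
    (hxe : ∀ i, IsEven (x i)) (hxin : ∀ i, x i ∈ box (R - 2)) {c : V} (hc : IsEven c)
    {A : Finset V} (hA : ∀ x ∈ A, x + e0 ∉ A) {ρ₁ ρ₂ ρ₁' ρ₂' : V → V} (h : Pre A ρ₁ ρ₂)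
    (hp : Post A ρ₁ ρ₂ ρ₁' ρ₂') (hxA : ∀ i, x i + c ∈ A)
    (hAx : ∀ v ∈ A, (v - c ∈ box R ∨ v + e0 - c ∈ box R) → ∃ i, v = x i + c)
    (hm₁ : ∀ v, v - c ∈ box R → ρ₁ v = v → v ∈ A)
    (hm₂ : ∀ v, v - c ∈ box R → ρ₂ v = v → v - e0 ∈ A) :
    Ev x R (sh (-c) ρ₁') (sh (-c) ρ₂') := by
  classical
  have hodd : ∀ v : V, IsEven v → ¬ IsEven (v + e0) := fun v hv => by
    rw [e0_eq, isEven_add_dv]
    exact not_not.2 hv
  have hev : ∀ j, IsEven (x j + c) := fun j => isEven_add.2 (iff_of_true (hxe j) hc)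
  have s1 : ∀ j, (IsEven (x j + c) ∧ ρ₁ (x j + c) = x j + c) ∨
      (¬ IsEven (x j + c) ∧ ρ₂ (x j + c) = x j + c) := fun j =>
    Or.inl ⟨hev j, (h.miss1 _ (hxA j)).1⟩
  have s2 : ∀ j, (IsEven (x j + c + e0) ∧ ρ₁ (x j + c + e0) = x j + c + e0) ∨
      (¬ IsEven (x j + c + e0) ∧ ρ₂ (x j + c + e0) = x j + c + e0) := fun j =>
    Or.inr ⟨hodd _ (hev j), (h.miss2 _ (hxA j)).1⟩
  have n1 : ∀ i j, Conn ρ₁ ρ₂ (x i + c) (x j + c) → x i + c = x j + c := fun i j =>
    sinks_not_conn h.ext1 h.ext2 (s1 i) (s1 j)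
  have n2 : ∀ i j, ¬ Conn ρ₁ ρ₂ (x i + c) (x j + c + e0) := fun i j hc =>
    hA _ (hxA j) (sinks_not_conn h.ext1 h.ext2 (s1 i) (s2 j) hc ▸ hxA i)
  have n3 : ∀ i j, ¬ Conn ρ₁ ρ₂ (x i + c + e0) (x j + c) := fun i j hc =>
    n2 j i (hc.symm h.ext1 h.ext2)
  have n4 : ∀ i j, Conn ρ₁ ρ₂ (x i + c + e0) (x j + c + e0) → x i + c = x j + c := fun i j hc =>
    add_right_cancel (sinks_not_conn h.ext1 h.ext2 (s2 i) (s2 j) hc)
  have hsh : ∀ (ρ : V → V) (u v : V), sh (-c) ρ u = v ↔ ρ (u + c) = v + c := fun ρ u v => by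
    simp only [sh, sub_neg_eq_add, add_neg_eq_iff_eq_add]
  refine ⟨fun i j hij hRB => ?_, fun i => ?_⟩
  · have key : ∀ u, RB R (sh (-c) ρ₁') (sh (-c) ρ₂') (x i) u →
        Conn ρ₁ ρ₂ (x i + c) (u + c) ∨ Conn ρ₁ ρ₂ (x i + c + e0) (u + c) := by
      intro u hu
      induction hu with
      | refl => exact Or.inl Relation.ReflTransGen.refl
      | @tail u v _ huv ih =>
        obtain ⟨hu, -, huv⟩ := huv
        rw [hsh, hsh] at huv
        have ext : ρ₁ (u + c) = v + c ∨ ρ₂ (u + c) = v + c →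
            Conn ρ₁ ρ₂ (x i + c) (v + c) ∨ Conn ρ₁ ρ₂ (x i + c + e0) (v + c) := fun e =>
          ih.imp (fun a => a.tail e) fun a => a.tail e
        by_cases c1 : u + c ∈ A
        · rcases (Recol_or (hp.on1 _ c1) _).1 huv with e | e
          · obtain ⟨l, hl⟩ := hAx _ c1 (Or.inl (by simpa using hu))
            rw [hl] at ih e
            rw [← e, ← n1 i l (ih.resolve_right (n3 i l))]
            exact Or.inr Relation.ReflTransGen.refl
          · exact ext (Or.inr e)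
        by_cases c2 : u + c - e0 ∈ A
        · have e1 := hp.on2 _ c2
          rw [sub_add_cancel] at e1
          rcases (Recol_or e1 _).1 huv with e | e
          · obtain ⟨l, hl⟩ := hAx _ c2 (Or.inr (by simpa using hu))
            rw [sub_eq_iff_eq_add.1 hl] at ih
            rw [← e, hl, ← n4 i l (ih.resolve_left (n2 i l))]
            exact Or.inl Relation.ReflTransGen.refl
          · exact ext (Or.inl e)
        exact ext ((Recol_or (hp.off _ c1 c2) _).1 huv)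
    exact hij (hxi (add_right_cancel (n1 i j ((key _ hRB).resolve_right (n3 i j)))))
  · by_contra hn
    have key : ∀ U, Conn ρ₁ ρ₂ (x i + c) U →
        RB R (sh (-c) ρ₁') (sh (-c) ρ₂') (x i) (U - c) ∧ U - c ∈ box (R - 1) := by
      intro U hU
      induction hU with
      | refl =>
        rw [add_sub_cancel_right]
        exact ⟨Relation.ReflTransGen.refl, box_mono (by omega) (hxin i)⟩
      | @tail U W _ hUW ih =>
        by_cases e : U = W
        · exact e ▸ ih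
        have hn1 : Nbr U W := by
          rcases hUW with rfl | rfl
          · exact (h.ext1 U).1.resolve_left (Ne.symm e)
          · exact (h.ext2 U).1.resolve_left (Ne.symm e)
        obtain ⟨d, hd⟩ := nbr_iff.1 hn1
        have hW : W - c ∈ box R := by
          have := add_dv_mem_box ih.2 d
          rwa [Nat.sub_add_cancel (by omega), sub_add_eq_add_sub, ← hd] at this
        have h1 : RB R (sh (-c) ρ₁') (sh (-c) ρ₂') (x i) (W - c) := by
          refine ih.1.tail ⟨box_mono (by omega) ih.2, hW, ?_⟩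
          rw [hsh, hsh, sub_add_cancel, sub_add_cancel]
          exact (Recol_up h hp U W hUW).resolve_left e
        refine ⟨h1, by_contra fun h2 => hn ⟨_, mem_lev.2 ⟨hW, h2⟩, h1⟩⟩
    have hK : ∀ U, U ∈ (tr c (box (R - 1))).filter (Conn ρ₁ ρ₂ (x i + c)) ↔
        Conn ρ₁ ρ₂ (x i + c) U := fun U => by
      rw [mem_filter, mem_tr]
      exact ⟨fun a => a.2, fun a => ⟨(key U a).2, a⟩⟩
    generalize (tr c (box (R - 1))).filter (Conn ρ₁ ρ₂ (x i + c)) = K at hK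
    have hb : ∀ U ∈ K, U - c ∈ box R := fun U hU => box_mono (by omega) (key U ((hK U).1 hU)).2
    have p1 := card_fixed_parity h.ext1 K fun U hU => (hK _).2 (((hK U).1 hU).tail (Or.inl rfl))
    have p2 := card_fixed_parity h.ext2 K fun U hU => (hK _).2 (((hK U).1 hU).tail (Or.inr rfl))
    have q1 : (K.filter fun U => ρ₁ U = U) = {x i + c} := by
      ext U
      rw [mem_filter, mem_singleton]
      constructor
      · rintro ⟨a, b⟩
        obtain ⟨l, rfl⟩ := hAx U (hm₁ U (hb U a) b) (Or.inl (hb U a))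
        exact (n1 i l ((hK _).1 a)).symm
      · rintro rfl
        exact ⟨(hK _).2 Relation.ReflTransGen.refl, (h.miss1 _ (hxA i)).1⟩
    have q2 : (K.filter fun U => ρ₂ U = U) = ∅ := by
      refine filter_eq_empty_iff.2 fun U a b => ?_
      obtain ⟨l, hl⟩ := hAx _ (hm₂ U (hb U a) b) (Or.inr (by simpa using hb U a))
      exact n2 i l (sub_eq_iff_eq_add.1 hl ▸ (hK _).1 a)
    rw [q1, card_singleton] at p1
    rw [q2, card_empty] at p2
    omega

end Pool.Agent.Work.MP_5cb0a4_pr.Z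
end

-- merged part: Pool.Agent.Work.MP_5cb0a4_pr.Z.S1
section
open MeasureTheory Finset MvPolynomial Filter Topology

namespace Pool.Agent.Work.MP_5cb0a4_pr.Z

theorem local2_fD {k : ℕ} (x y : Fin k → V) {R m : ℕ} (h : R ≤ m) :
    Local2 (box m) (fD x y R m) := by
  intro σ₁ σ₂ σ₁' σ₂' e₁ e₂ e₁' e₂' h₁ h₂
  have h3 : Ev x R σ₁ σ₂ = Ev x R σ₁' σ₂' := propext (ev_congr x fun v hv => by
    rw [h₁ v (box_mono h hv), h₂ v (box_mono h hv)])
  have h4 := fun X => local_Mr (box m) X σ₁ σ₁' e₁ e₁' h₁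
  have h5 := fun X => local_Mr (box m) X σ₂ σ₂' e₂ e₂' h₂
  simp only at h4 h5
  unfold fD
  rw [h3, h4, h5]

open Classical in
/-- Indicator of the crossing event at the centre `c`. -/
noncomputable def S1_e {k : ℕ} (x : Fin k → V) (R : ℕ) (c : V) (ρ₁ ρ₂ : V → V) : ℝ :=
  if Ev x R (sh (-c) ρ₁) (sh (-c) ρ₂) then 1 else 0

theorem S1_e_nonneg {k : ℕ} (x : Fin k → V) (R : ℕ) (c : V) (ρ₁ ρ₂ : V → V) :
    0 ≤ S1_e x R c ρ₁ ρ₂ := by
  unfold S1_e
  split_ifs <;> norm_num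

theorem S1_e_le {k : ℕ} (x : Fin k → V) (R : ℕ) (c : V) (ρ₁ ρ₂ : V → V) {δ : ℝ}
    (h1 : δ ≤ 1) : 0 ≤ 1 - δ * S1_e x R c ρ₁ ρ₂ := by
  unfold S1_e
  split_ifs <;> linarith

theorem S1_e_congr {k R m : ℕ} (x : Fin k → V) (h : R ≤ m) {c : V} {ρ₁ ρ₂ ρ₁' ρ₂' : V → V}
    (H : ∀ v ∈ tr c (box m), s(ρ₁' v, ρ₂' v) = s(ρ₁ v, ρ₂ v)) :
    S1_e x R c ρ₁' ρ₂' = S1_e x R c ρ₁ ρ₂ := by
  have h3 : Ev x R (sh (-c) ρ₁') (sh (-c) ρ₂') = Ev x R (sh (-c) ρ₁) (sh (-c) ρ₂) :=
    propext (ev_congr x fun v hv => congrArg (Sym2.map (· + -c)) (H (v - -c)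
      (mem_tr.2 (by simpa using box_mono h hv))))
  unfold S1_e
  rw [h3]

theorem S1_Mr (Λ T : Finset V) (c : V) (ρ : V → V) : Mr Λ (sh (-c) ρ) T =
    (∑ ρ' ∈ cls (tr c Λ) ρ, if mon (tr c Λ) ρ' = tr c T then (1 : ℝ) else 0) / zz (tr c Λ) ρ := by
  have h1 := Zm_sh c Λ (sh (-c) ρ)
  rw [sh_sh, add_neg_cancel, sh_zero] at h1
  rw [Mr, zz_eq, zz_eq, ← h1, ← h1, sum_boole]
  rfl

theorem S1_cr (U : Finset V) (σ : V → V) (S Λ T : Finset V) (hsub : ∀ c ∈ S, tr c Λ ⊆ U)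
    (hdisj : ∀ c ∈ S, ∀ c' ∈ S, c ≠ c' → Disjoint (tr c Λ) (tr c' Λ)) (H : (V → V) → ℝ)
    (hH0 : ∀ ρ, 0 ≤ H ρ) (hH : Off (S.biUnion fun c => tr c Λ) H) :
    ∑ ρ ∈ perf U σ, H ρ * ∏ c ∈ S, Mr Λ (sh (-c) ρ) T ≤
      ∑ ρ ∈ (cls U σ).filter (fun ρ => mon U ρ = S.biUnion fun c => tr c T), H ρ := by
  simp only [S1_Mr]
  refine (class_replace U σ S (fun c => tr c Λ) hsub hdisj
    (fun c ρ' => if mon (tr c Λ) ρ' = tr c T then (1 : ℝ) else 0)
    (fun c _ a b ha hb h => by simp only [local_mon (tr c Λ) a b ha hb h])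
    (fun c _ ρ _ => sum_nonneg fun _ _ => by split_ifs <;> norm_num) H (fun ρ _ => hH0 ρ)
    hH).trans ?_
  rw [sum_filter, sum_filter]
  refine sum_le_sum fun ρ _ => ?_
  by_cases h1 : mon U ρ ⊆ S.biUnion fun c => tr c Λ
  · rw [if_pos h1]
    by_cases h2 : ∀ c ∈ S, mon (tr c Λ) ρ = tr c T
    · rw [prod_congr rfl fun c hc => if_pos (h2 c hc), prod_const_one, mul_one, if_pos]
      ext v
      rw [mem_biUnion]
      constructor
      · intro hv
        obtain ⟨c, hc, h3⟩ := mem_biUnion.1 (h1 hv)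
        exact ⟨c, hc, h2 c hc ▸ mem_mon.2 ⟨h3, (mem_mon.1 hv).2⟩⟩
      · rintro ⟨c, hc, h3⟩
        rw [← h2 c hc, mem_mon] at h3
        exact mem_mon.2 ⟨hsub c hc h3.1, h3.2⟩
    · push Not at h2
      obtain ⟨c, hc, h3⟩ := h2
      rw [prod_eq_zero hc (if_neg h3), mul_zero]
      split_ifs
      exacts [hH0 ρ, le_rfl]
  · rw [if_neg h1]
    split_ifs
    exacts [hH0 ρ, le_rfl]

theorem S1_card (L : ℕ) (hL : 1 ≤ L) :
    (((cls (box L) id).filter fun ρ => mon (box L) ρ ⊆ lev L).card : ℝ) ≤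
      2 ^ (lev L).card * Zs L := by
  rw [card_eq_sum_card_fiberwise (f := mon (box L)) (t := (lev L).powerset)
    fun ρ hρ => mem_powerset.2 (mem_filter.1 hρ).2]
  push_cast
  refine (sum_le_card_nsmul _ _ (Zs L) fun X _ => ?_).trans_eq (by
    rw [card_powerset, nsmul_eq_mul]
    push_cast
    rfl)
  have h1 : ((((cls (box L) id).filter fun ρ => mon (box L) ρ ⊆ lev L).filter
      fun ρ => mon (box L) ρ = X).card : ℝ) ≤ Zm (box L) id X :=
    Nat.cast_le.2 (card_le_card (filter_subset_filter _ (filter_subset _ _)))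
  refine h1.trans ?_
  rw [Zm_free _ isExt_id]
  split_ifs
  · exact zz_le_Zs L hL _ (sdiff_subset.trans (filter_subset _ _))
  · rw [Nat.cast_zero, Zs]
    positivity

theorem S1_res {L : ℕ} (hL : 1 ≤ L) {ρ : V → V} (h : IsExt ρ) {v : V} (hv : v ∈ box (L - 1)) :
    res (box L) ρ v = ρ v := by
  refine if_pos ⟨box_mono (Nat.sub_le L 1) hv, ?_⟩
  rcases (h v).1 with h1 | h1
  · rw [h1]
    exact box_mono (Nat.sub_le L 1) hv
  · obtain ⟨d, hd⟩ := nbr_iff.1 h1
    have := add_dv_mem_box hv d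
    rwa [Nat.sub_add_cancel hL, ← hd] at this

theorem S1_sub_e0 {t : ℕ} {v : V} (h : v + e0 ∈ box t) : v ∈ box (t + 1) := by
  have := add_dv_mem_box h (0, false)
  rwa [show dv (0, false) = -e0 from (dv_not (0, true)).trans (congrArg _ e0_eq.symm),
    add_neg_cancel_right] at this

section

variable {k R m : ℕ} {x y : Fin k → V} (hp : Pos x y R m) {T : Finset V}
  (hT : ∀ t, t ∈ T ↔ (∃ i, x i = t) ∨ ∃ i, y i = t) {S : Finset V}
  (hd : ∀ c ∈ S, ∀ c' ∈ S, c ≠ c' → Disjoint (tr c (box m)) (tr c' (box m)))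
include hp hT

theorem S1_T {t : V} (ht : t ∈ T) : t ∈ box m ∧ t + e0 ∈ box m := by
  have h1 := hp.hR
  have h2 := hp.hm
  have h3 : t ∈ box (m - 1) := by
    rcases (hT t).1 ht with ⟨i, rfl⟩ | ⟨i, rfl⟩
    · exact box_mono (by omega) (hp.xin i)
    · exact hp.yin i
  refine ⟨box_mono (by omega) h3, ?_⟩
  rw [e0_eq]
  exact box_mono (by omega) (add_dv_mem_box h3 _)

theorem S1_T' {t : V} (ht : t ∈ T) : t + e0 ∉ T := by
  intro ht'
  have h1 := hp.hR
  have h0 : IsEven (t + e0) ↔ ¬ IsEven t := e0_eq ▸ isEven_add_dv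
  rcases (hT t).1 ht with ⟨i, rfl⟩ | ⟨i, rfl⟩ <;> rcases (hT _).1 ht' with ⟨j, h⟩ | ⟨j, h⟩
  · exact h0.1 (h ▸ hp.xeven j) (hp.xeven i)
  · refine hp.yout j ?_
    rw [h, e0_eq]
    exact box_mono (by omega) (add_dv_mem_box (hp.xin i) _)
  · exact hp.yout i (box_mono (by omega) (S1_sub_e0 (h ▸ hp.xin j)))
  · exact hp.yodd j (h ▸ h0.2 (hp.yodd i))

theorem S1_A {v : V} (hv : v ∈ S.biUnion fun c => tr c T) :
    ∃ c ∈ S, v - c ∈ T ∧ v ∈ tr c (box m) ∧ v + e0 ∈ tr c (box m) := by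
  obtain ⟨c, hc, h⟩ := mem_biUnion.1 hv
  have h1 := S1_T hp hT (mem_tr.1 h)
  exact ⟨c, hc, mem_tr.1 h, mem_tr.2 h1.1, mem_tr.2 (by rw [add_sub_right_comm]; exact h1.2)⟩

include hd

theorem S1_hA : ∀ v ∈ S.biUnion fun c => tr c T, v + e0 ∉ S.biUnion fun c => tr c T := by
  intro v hv hv'
  obtain ⟨c, hc, h1, -, h2⟩ := S1_A hp hT hv
  obtain ⟨c', hc', h3, h4, -⟩ := S1_A hp hT hv'
  obtain rfl : c = c' := by
    by_contra h
    exact disjoint_left.1 (hd c hc c' hc' h) h2 h4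
  rw [add_sub_right_comm] at h3
  exact S1_T' hp hT h1 h3

theorem S1_hAx {c : V} (hc : c ∈ S) (v : V) (hv : v ∈ S.biUnion fun c => tr c T)
    (h : v - c ∈ box R ∨ v + e0 - c ∈ box R) : ∃ i, v = x i + c := by
  have hm : R ≤ m := by have := hp.hm; omega
  obtain ⟨c', hc', h1, h2, h3⟩ := S1_A hp hT hv
  obtain rfl : c = c' := by
    by_contra hne
    rcases h with h | h
    · exact disjoint_left.1 (hd c hc c' hc' hne) (mem_tr.2 (box_mono hm h)) h2
    · exact disjoint_left.1 (hd c hc c' hc' hne) (mem_tr.2 (box_mono hm h)) h3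
  rcases (hT _).1 h1 with ⟨i, hi⟩ | ⟨i, hi⟩
  · exact ⟨i, by rw [hi, sub_add_cancel]⟩
  · refine absurd ?_ (hp.yout i)
    rw [hi]
    rcases h with h | h
    · exact box_mono (Nat.le_succ R) h
    · exact S1_sub_e0 (by rwa [add_sub_right_comm] at h)

variable {L : ℕ} (hL : 1 ≤ L) (hs : ∀ c ∈ S, tr c (box m) ⊆ box (L - 1)) {ρ₁ ρ₂ : V → V}
  (e₁ : IsExt ρ₁) (e₂ : IsExt ρ₂)
  (m₁ : ∀ v ∈ box L, ρ₁ v = v ↔ v ∈ S.biUnion fun c => tr c T)
  (m₂ : ∀ v ∈ box L, ρ₂ v = v ↔ v - e0 ∈ S.biUnion fun c => tr c T)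
include hL hs e₁ e₂ m₁ m₂

theorem S1_pre : Pre (S.biUnion fun c => tr c T) (res (box L) ρ₁) (res (box L) ρ₂) := by
  have hA := S1_hA hp hT hd
  refine ⟨isExt_res e₁ _, isExt_res e₂ _, fun v hv => ?_, fun v hv => ?_⟩
  · obtain ⟨c, hc, -, h1, -⟩ := S1_A hp hT hv
    have h2 := hs c hc h1
    have h3 := box_mono (Nat.sub_le L 1) h2
    rw [S1_res hL e₁ h2, S1_res hL e₂ h2]
    exact ⟨(m₁ v h3).2 hv, fun h => hA _ ((m₂ v h3).1 h) (by rwa [sub_add_cancel])⟩
  · obtain ⟨c, hc, -, -, h1⟩ := S1_A hp hT hv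
    have h2 := hs c hc h1
    have h3 := box_mono (Nat.sub_le L 1) h2
    rw [S1_res hL e₁ h2, S1_res hL e₂ h2]
    exact ⟨(m₂ _ h3).2 (by rwa [add_sub_cancel_right]), fun h => hA _ hv ((m₁ _ h3).1 h)⟩

variable {κ₁ κ₂ : V → V}
  (hq : Post (S.biUnion fun c => tr c T) (res (box L) ρ₁) (res (box L) ρ₂) κ₁ κ₂)
include hq

theorem S1_mem : κ₁ ∈ (cls (box L) id).filter (fun ρ => mon (box L) ρ ⊆ lev L) ∧
    κ₂ ∈ (cls (box L) id).filter fun ρ => mon (box L) ρ ⊆ lev L := by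
  have hpre := S1_pre hp hT hd hL hs e₁ e₂ m₁ m₂
  have h0 : e0 ≠ 0 := e0_eq ▸ dv_ne_zero _
  have h1 : ∀ v ∉ box L, κ₁ v = v ∧ κ₂ v = v := by
    intro v hv
    have h2 := hq.off v (fun h => ?_) fun h => ?_
    · rw [show res (box L) ρ₁ v = v from if_neg fun h => hv h.1,
        show res (box L) ρ₂ v = v from if_neg fun h => hv h.1, Sym2.eq_iff, or_self] at h2
      exact h2
    · obtain ⟨c, hc, -, h3, -⟩ := S1_A hp hT h
      exact hv (box_mono (Nat.sub_le L 1) (hs c hc h3))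
    · obtain ⟨c, hc, -, -, h3⟩ := S1_A hp hT h
      rw [sub_add_cancel] at h3
      exact hv (box_mono (Nat.sub_le L 1) (hs c hc h3))
  have h2 : ∀ v ∈ box (L - 1), v ∉ s(κ₁ v, κ₂ v) := by
    intro v hv
    have hv' := box_mono (Nat.sub_le L 1) hv
    by_cases h3 : v ∈ S.biUnion fun c => tr c T
    · rw [hq.on1 v h3, Sym2.mem_iff, not_or]
      exact ⟨fun h => h0 (left_eq_add.1 h), (hpre.miss1 v h3).2.symm⟩
    by_cases h4 : v - e0 ∈ S.biUnion fun c => tr c T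
    · have h5 := hq.on2 _ h4
      have h6 := (hpre.miss2 _ h4).2
      rw [sub_add_cancel] at h5 h6
      rw [h5, Sym2.mem_iff, not_or]
      exact ⟨fun h => h0 (sub_eq_self.1 h.symm), h6.symm⟩
    · rw [hq.off v h3 h4, S1_res hL e₁ hv, S1_res hL e₂ hv, Sym2.mem_iff, not_or]
      exact ⟨fun h => h3 ((m₁ v hv').1 h.symm), fun h => h4 ((m₂ v hv').1 h.symm)⟩
  refine ⟨mem_filter.2 ⟨mem_cls.2 ⟨hq.ext1, fun v hv => (h1 v hv).1⟩, fun v hv => ?_⟩,
    mem_filter.2 ⟨mem_cls.2 ⟨hq.ext2, fun v hv => (h1 v hv).2⟩, fun v hv => ?_⟩⟩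
  · rw [mem_mon] at hv
    exact mem_lev.2 ⟨hv.1, fun h => h2 v h (Sym2.mem_iff.2 (Or.inl hv.2.symm))⟩
  · rw [mem_mon] at hv
    exact mem_lev.2 ⟨hv.1, fun h => h2 v h (Sym2.mem_iff.2 (Or.inr hv.2.symm))⟩

theorem S1_in {c : V} (hc : c ∈ S) (he : IsEven c) : S1_e x R c κ₁ κ₂ = 1 := by
  have hm : R ≤ m := by have := hp.hm; omega
  have h1 : ∀ v, v - c ∈ box R → v ∈ box (L - 1) := fun v hv =>
    hs c hc (mem_tr.2 (box_mono hm hv))
  refine if_pos (ev_of_post hp.hR hp.xinj hp.xeven hp.xin he (S1_hA hp hT hd)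
    (S1_pre hp hT hd hL hs e₁ e₂ m₁ m₂) hq (fun i => mem_biUnion.2 ⟨c, hc, mem_tr.2 ?_⟩)
    (S1_hAx hp hT hd hc) (fun v hv h => ?_) fun v hv h => ?_)
  · rw [add_sub_cancel_right]
    exact (hT _).2 (Or.inl ⟨i, rfl⟩)
  · rw [S1_res hL e₁ (h1 v hv)] at h
    exact (m₁ v (box_mono (Nat.sub_le L 1) (h1 v hv))).1 h
  · rw [S1_res hL e₂ (h1 v hv)] at h
    exact (m₂ v (box_mono (Nat.sub_le L 1) (h1 v hv))).1 h

omit hd hs m₁ m₂ in
theorem S1_out {c : V} (hc : tr c (box m) ⊆ box (L - 1))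
    (hc' : ∀ c' ∈ S, Disjoint (tr c (box m)) (tr c' (box m))) :
    S1_e x R c κ₁ κ₂ = S1_e x R c ρ₁ ρ₂ := by
  refine S1_e_congr x (m := m) (by have := hp.hm; omega) fun v hv => ?_
  rw [hq.off v (fun h => ?_) fun h => ?_, S1_res hL e₁ (hc hv), S1_res hL e₂ (hc hv)]
  · obtain ⟨c', k1, -, k2, -⟩ := S1_A hp hT h
    exact disjoint_left.1 (hc' c' k1) hv k2
  · obtain ⟨c', k1, -, -, k2⟩ := S1_A hp hT h
    rw [sub_add_cancel] at k2
    exact disjoint_left.1 (hc' c' k1) hv k2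

end

theorem S1_inj {α β : Type} (s : Finset α) (t : Finset β) (g : α → ℝ) (g' : β → ℝ)
    (h0 : ∀ b, 0 ≤ g' b) (r : α → β → Prop) (h1 : ∀ a ∈ s, ∃ b, r a b)
    (h2 : ∀ a ∈ s, ∀ b, r a b → b ∈ t ∧ g a = g' b)
    (h3 : ∀ a ∈ s, ∀ a' ∈ s, ∀ b, r a b → r a' b → a = a') : ∑ a ∈ s, g a ≤ ∑ b ∈ t, g' b := by
  classical
  choose f hf using fun a : s => h1 a a.2
  rw [← sum_coe_sort, sum_congr rfl fun (a : s) _ => (h2 a a.2 _ (hf a)).2, ← sum_image (g := f)
    fun a _ a' _ h => Subtype.ext (h3 a a.2 a' a'.2 _ (hf a) (h ▸ hf a'))]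
  refine sum_le_sum_of_subset_of_nonneg (fun b hb => ?_) fun b _ _ => h0 b
  obtain ⟨a, -, rfl⟩ := mem_image.1 hb
  exact (h2 a a.2 _ (hf a)).1

theorem S1_fix {k R m : ℕ} {x y : Fin k → V} (hp : Pos x y R m) {T T' : Finset V}
    (hT : ∀ t, t ∈ T ↔ (∃ i, x i = t) ∨ ∃ i, y i = t) (hT' : ∀ t, t ∈ T' ↔ t - e0 ∈ T)
    {L : ℕ} (hL : 1 ≤ L) {C : Finset V} (hCe : ∀ c ∈ C, IsEven c)
    (hCs : ∀ c ∈ C, tr c (box m) ⊆ box (L - 1))
    (hCd : ∀ c ∈ C, ∀ c' ∈ C, c ≠ c' → Disjoint (tr c (box m)) (tr c' (box m)))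
    (σ₁ σ₂ : V → V) {δ : ℝ} (hδ1 : δ ≤ 1) {S : Finset V} (hS : S ⊆ C) :
    ∑ ρ₁ ∈ perf (box L) σ₁, (∑ ρ₂ ∈ perf (box L) σ₂, (∏ c ∈ C \ S, (1 - δ * S1_e x R c ρ₁ ρ₂)) *
      ∏ c ∈ S, Mr (box m) (sh (-c) ρ₂) T') * ∏ c ∈ S, Mr (box m) (sh (-c) ρ₁) T ≤
    ∑ p ∈ ((cls (box L) id).filter fun ρ => mon (box L) ρ ⊆ lev L) ×ˢ
      ((cls (box L) id).filter fun ρ => mon (box L) ρ ⊆ lev L),
      (∏ c ∈ S, S1_e x R c p.1 p.2) * ∏ c ∈ C \ S, (1 - δ * S1_e x R c p.1 p.2) := by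
  have hm : R ≤ m := by have := hp.hm; omega
  have hs : ∀ c ∈ S, tr c (box m) ⊆ box (L - 1) := fun c hc => hCs c (hS hc)
  have hs' : ∀ c ∈ S, tr c (box m) ⊆ box L := fun c hc =>
    (hs c hc).trans (box_mono (Nat.sub_le L 1))
  have hd : ∀ c ∈ S, ∀ c' ∈ S, c ≠ c' → Disjoint (tr c (box m)) (tr c' (box m)) :=
    fun c hc c' hc' => hCd c (hS hc) c' (hS hc')
  have hd' : ∀ c ∈ C \ S, ∀ c' ∈ S, Disjoint (tr c (box m)) (tr c' (box m)) := fun c hc c' hc' =>
    hCd c (mem_sdiff.1 hc).1 c' (hS hc') fun h => (mem_sdiff.1 hc).2 (h ▸ hc')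
  have hn : ∀ c ∈ C \ S, ∀ v ∈ tr c (box m), v ∉ S.biUnion fun c => tr c (box m) := by
    intro c hc v hv h
    obtain ⟨c', k1, k2⟩ := mem_biUnion.1 h
    exact disjoint_left.1 (hd' c hc c' k1) hv k2
  have hG : ∀ ρ₁ ρ₂, 0 ≤ ∏ c ∈ C \ S, (1 - δ * S1_e x R c ρ₁ ρ₂) := fun ρ₁ ρ₂ =>
    prod_nonneg fun c _ => S1_e_le x R c ρ₁ ρ₂ hδ1
  refine (sum_le_sum fun ρ₁ _ => mul_le_mul_of_nonneg_right (S1_cr (box L) σ₂ S (box m) T' hs' hd
    _ (hG ρ₁) fun a b _ _ h => prod_congr rfl fun c hc => by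
      rw [S1_e_congr x hm fun v hv => by rw [h v (hn c hc v hv)]])
    (prod_nonneg fun c _ => Mr_nonneg _ _ _)).trans ?_
  refine (S1_cr (box L) σ₁ S (box m) T hs' hd _ (fun ρ₁ => sum_nonneg fun ρ₂ _ => hG ρ₁ ρ₂)
    fun a b _ _ h => sum_congr rfl fun ρ₂ _ => prod_congr rfl fun c hc => by
      rw [S1_e_congr x hm fun v hv => by rw [h v (hn c hc v hv)]]).trans ?_
  rw [← sum_product']
  have key : ∀ p ∈ ((cls (box L) σ₁).filter fun ρ => mon (box L) ρ = S.biUnion fun c => tr c T) ×ˢ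
      ((cls (box L) σ₂).filter fun ρ => mon (box L) ρ = S.biUnion fun c => tr c T'),
      p.1 ∈ cls (box L) σ₁ ∧ p.2 ∈ cls (box L) σ₂ ∧
      (∀ v ∈ box L, p.1 v = v ↔ v ∈ S.biUnion fun c => tr c T) ∧
      ∀ v ∈ box L, p.2 v = v ↔ v - e0 ∈ S.biUnion fun c => tr c T := by
    intro p hp
    obtain ⟨h1, h2⟩ := mem_product.1 hp
    rw [mem_filter] at h1 h2
    refine ⟨h1.1, h2.1, fun v hv => ?_, fun v hv => ?_⟩
    · rw [← h1.2, mem_mon, and_iff_right hv]
    · rw [← and_iff_right (b := p.2 v = v) hv, ← mem_mon, h2.2]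
      simp only [mem_biUnion, mem_tr, hT', sub_right_comm v]
  refine S1_inj _ _ _ _ (fun p => mul_nonneg (prod_nonneg fun c _ => S1_e_nonneg x R c _ _)
    (hG _ _)) (fun p q => Post (S.biUnion fun c => tr c T) (res (box L) p.1) (res (box L) p.2)
      q.1 q.2) (fun p h => ?_) (fun p h q hq => ?_) fun p h p' h' q hq hq' => ?_
  · obtain ⟨k1, k2, k3, k4⟩ := key p h
    obtain ⟨a, b, hab⟩ := recolour _ (S1_hA hp hT hd)
      (S1_pre hp hT hd hL hs (mem_cls.1 k1).1 (mem_cls.1 k2).1 k3 k4)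
    exact ⟨(a, b), hab⟩
  · obtain ⟨k1, k2, k3, k4⟩ := key p h
    have e₁ := (mem_cls.1 k1).1
    have e₂ := (mem_cls.1 k2).1
    refine ⟨mem_product.2 (S1_mem hp hT hd hL hs e₁ e₂ k3 k4 hq), ?_⟩
    rw [prod_congr rfl fun c hc => S1_in hp hT hd hL hs e₁ e₂ k3 k4 hq hc (hCe c (hS hc)),
      prod_const_one, one_mul]
    exact prod_congr rfl fun c hc => by
      rw [S1_out hp hT hL e₁ e₂ hq (hCs c (mem_sdiff.1 hc).1) (hd' c hc)]
  · obtain ⟨k1, k2, k3, k4⟩ := key p h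
    obtain ⟨l1, l2, l3, l4⟩ := key p' h'
    obtain ⟨u1, u2⟩ := recolour_unique _ (S1_hA hp hT hd)
      (S1_pre hp hT hd hL hs (mem_cls.1 k1).1 (mem_cls.1 k2).1 k3 k4)
      (S1_pre hp hT hd hL hs (mem_cls.1 l1).1 (mem_cls.1 l2).1 l3 l4) hq hq'
    exact Prod.ext (res_injOn _ _ (mem_coe.2 k1) (mem_coe.2 l1) u1)
      (res_injOn _ _ (mem_coe.2 k2) (mem_coe.2 l2) u2)

/-- The product bound of the double transfer. -/
theorem s1count {k R m : ℕ} {x y : Fin k → V} (hp : Pos x y R m) (L : ℕ) (hL : 1 ≤ L)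
    (C : Finset V) (hCe : ∀ c ∈ C, IsEven c) (hCs : ∀ c ∈ C, tr c (box m) ⊆ box (L - 1))
    (hCd : ∀ c ∈ C, ∀ c' ∈ C, c ≠ c' → Disjoint (tr c (box m)) (tr c' (box m)))
    {σ₁ σ₂ : V → V} (h₁ : IsExt σ₁) (h₂ : IsExt σ₂) {δ : ℝ} (hδ0 : 0 ≤ δ) (hδ1 : δ ≤ 1) :
    ∑ ρ₁ ∈ perf (box L) σ₁, ∑ ρ₂ ∈ perf (box L) σ₂,
      ∏ c ∈ C, (1 + δ * fD x y R m (sh (-c) ρ₁) (sh (-c) ρ₂)) ≤
        (2 ^ (lev L).card * Zs L) ^ 2 := by
  have _ := h₁
  have _ := h₂
  obtain ⟨T, T', hT, hT', hf⟩ : ∃ T T' : Finset V,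
      (∀ t, t ∈ T ↔ (∃ i, x i = t) ∨ ∃ i, y i = t) ∧ (∀ t, t ∈ T' ↔ t - e0 ∈ T) ∧
      ∀ c ρ₁ ρ₂, fD x y R m (sh (-c) ρ₁) (sh (-c) ρ₂) =
        Mr (box m) (sh (-c) ρ₁) T * Mr (box m) (sh (-c) ρ₂) T' - S1_e x R c ρ₁ ρ₂ := by
    refine ⟨_, _, fun t => ?_, fun t => ?_, fun _ _ _ => rfl⟩
    · simp only [mem_union, mem_image, mem_univ, true_and]
    · simp only [mem_union, mem_image, mem_univ, true_and, eq_sub_iff_add_eq, or_comm]
  have h1 : ∀ ρ₁ ρ₂, ∏ c ∈ C, (1 + δ * fD x y R m (sh (-c) ρ₁) (sh (-c) ρ₂)) =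
      ∑ S ∈ C.powerset, δ ^ S.card * ((∏ c ∈ C \ S, (1 - δ * S1_e x R c ρ₁ ρ₂)) *
        (∏ c ∈ S, Mr (box m) (sh (-c) ρ₂) T') * ∏ c ∈ S, Mr (box m) (sh (-c) ρ₁) T) := by
    intro ρ₁ ρ₂
    rw [prod_congr rfl fun c _ => show _ = δ * (Mr (box m) (sh (-c) ρ₂) T' *
      Mr (box m) (sh (-c) ρ₁) T) + (1 - δ * S1_e x R c ρ₁ ρ₂) by rw [hf]; ring, prod_add]
    refine sum_congr rfl fun S _ => ?_
    rw [prod_mul_distrib, prod_mul_distrib, prod_const]
    ring
  have h2 : ∀ p : (V → V) × (V → V), ∑ S ∈ C.powerset, δ ^ S.card *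
      ((∏ c ∈ S, S1_e x R c p.1 p.2) * ∏ c ∈ C \ S, (1 - δ * S1_e x R c p.1 p.2)) = 1 := by
    intro p
    have := prod_add (fun c => δ * S1_e x R c p.1 p.2) (fun c => 1 - δ * S1_e x R c p.1 p.2) C
    simp only [add_sub_cancel, prod_const_one, prod_mul_distrib, prod_const, mul_assoc] at this
    exact this.symm
  simp only [h1]
  rw [sum_congr rfl fun ρ₁ _ => sum_comm, sum_comm]
  simp only [← mul_sum, ← sum_mul]
  refine (sum_le_sum fun S hS => mul_le_mul_of_nonneg_left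
    (S1_fix hp hT hT' hL hCe hCs hCd σ₁ σ₂ hδ1 (mem_powerset.1 hS)) (pow_nonneg hδ0 _)).trans ?_
  simp only [mul_sum]
  rw [sum_comm, sum_congr rfl fun p _ => h2 p, sum_const, card_product, nsmul_eq_mul, mul_one,
    Nat.cast_mul, ← pow_two]
  exact pow_le_pow_left₀ (Nat.cast_nonneg _) (S1_card L hL) 2

end Pool.Agent.Work.MP_5cb0a4_pr.Z
end

-- merged part: Pool.Agent.Work.MP_5cb0a4_pr.Z.State1
section
open MeasureTheory Finset MvPolynomial Filter Topology

namespace Pool.Agent.Work.MP_5cb0a4_pr.Z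

/-- Divergence of an edge field supported on `D`. -/
noncomputable def dvg (D : Finset Edge) (α : Edge → ℝ) (v : V) : ℝ :=
  (∑ e ∈ D.filter (fun e => src e = v), α e) - ∑ e ∈ D.filter (fun e => tgt e = v), α e

/-- The linear functional on polynomials that is given by `G`. -/
noncomputable def State1_lin (T : Finset V) (G : Finset V → ℝ) : MvPolynomial V ℝ →ₗ[ℝ] ℝ :=
  ∑ S ∈ T.powerset, G S • lcoeff ℝ (sqf S)

theorem State1_apply (T : Finset V) (G : Finset V → ℝ) (p : MvPolynomial V ℝ) :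
    State1_lin T G p = ∑ S ∈ T.powerset, coeff (sqf S) p * G S := by
  simp [State1_lin, LinearMap.sum_apply, mul_comm]

theorem State1_Ysum (D : Finset Edge) (M : Edge → Bool → Bool → ℝ) (G : Finset V → ℝ) :
    Ysum D M G = State1_lin (verts D) G (∏ e ∈ D, nE (src e) (tgt e) (M e)) :=
  (State1_apply _ _ _).symm

theorem State1_mon {T S : Finset V} (G : Finset V → ℝ) (h : S ⊆ T) :
    State1_lin T G (∏ v ∈ S, X v) = G S := by
  simp [State1_apply, coeff_sqf_prod_X, h]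

/-- The ideal that is generated by the squares of the variables. -/
noncomputable abbrev State1_I : Ideal (MvPolynomial V ℝ) :=
  Ideal.span (Set.range fun v : V => (X v : MvPolynomial V ℝ) ^ 2)

theorem State1_congr (T : Finset V) (G : Finset V → ℝ) {p q : MvPolynomial V ℝ}
    (h : Ideal.Quotient.mkₐ ℝ State1_I p = Ideal.Quotient.mkₐ ℝ State1_I q) :
    State1_lin T G p = State1_lin T G q := by
  simp only [State1_apply]
  exact sum_congr rfl fun S _ => by rw [coeff_sqf_congr S (Ideal.Quotient.eq.1 h)]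

theorem State1_sq (v : V) :
    Ideal.Quotient.mkₐ ℝ State1_I (X v) * Ideal.Quotient.mkₐ ℝ State1_I (X v) = 0 := by
  rw [← map_mul, ← pow_two]
  exact Ideal.Quotient.eq_zero_iff_mem.2 (Ideal.subset_span ⟨v, rfl⟩)

theorem IsState.gd_abs {G : Finset V → ℝ} (h : IsState G) (D : Finset Edge)
    (M : Edge → Bool → Bool → ℝ) (hM : ∀ e ∈ D, ContrR (M e)) : |Ysum D M G| ≤ 1 := by
  classical
  refine abs_le.2 ⟨?_, h.gd D M hM⟩
  rcases D.eq_empty_or_nonempty with rfl | ⟨f, hf⟩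
  · have := State1_mon (T := verts ∅) G (empty_subset _)
    rw [State1_Ysum, prod_empty]
    rw [prod_empty, h.one] at this
    linarith
  · have k := h.gd D (fun e => if e = f then -M e else M e) fun e he => by
      split_ifs
      · intro u v
        simpa [← neg_add, -neg_add_rev] using hM e he u v
      · exact hM e he
    rw [State1_Ysum, ← mul_prod_erase _ _ hf, if_pos rfl,
      prod_congr rfl fun e he => by rw [if_neg (ne_of_mem_erase he)],
      show nE (src f) (tgt f) (-M f) = -nE (src f) (tgt f) (M f) by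
        simp only [nE, Pi.neg_apply, map_neg, map_sub]; ring,
      neg_mul, map_neg, mul_prod_erase _ (fun e => nE (src e) (tgt e) (M e)) hf,
      ← State1_Ysum] at k
    linarith

section
variable {Q : Type} [CommRing Q] [Algebra ℝ Q] {y : V → Q}

theorem State1_one {ι : Type} {z : Q} (hz : z * z = 0) (s : Finset ι) (a : ι → ℝ) :
    ∏ i ∈ s, (1 + a i • z) = 1 + (∑ i ∈ s, a i) • z := by
  classical
  induction s using Finset.induction_on with
  | empty => simp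
  | insert i s hi ih =>
    rw [prod_insert hi, sum_insert hi, ih, add_smul]
    simp only [add_mul, mul_add, smul_mul_smul_comm, hz, smul_zero]
    ring

theorem State1_fib {ι : Type} (hy : ∀ v, y v * y v = 0) (s : Finset ι) (a : ι → ℝ) (f : ι → V)
    {T : Finset V} (hT : ∀ i ∈ s, f i ∈ T) : ∏ i ∈ s, (1 + a i • y (f i)) =
      ∏ v ∈ T, (1 + (∑ i ∈ s.filter (fun i => f i = v), a i) • y v) := by
  rw [← prod_fiberwise_of_maps_to hT]
  refine prod_congr rfl fun v _ => ?_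
  rw [← State1_one (hy v)]
  exact prod_congr rfl fun i hi => by rw [(mem_filter.1 hi).2]

theorem State1_src {D : Finset Edge} {e : Edge} (h : e ∈ D) : src e ∈ verts D :=
  mem_union_left _ (mem_image_of_mem _ h)

theorem State1_tgt {D : Finset Edge} {e : Edge} (h : e ∈ D) : tgt e ∈ verts D :=
  mem_union_right _ (mem_image_of_mem _ h)

theorem State1_div (hy : ∀ v, y v * y v = 0) (D : Finset Edge) (α : Edge → ℝ) :
    ∏ e ∈ D, (1 + α e • y (src e)) * (1 + (-α e) • y (tgt e)) =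
      ∏ v ∈ verts D, (1 + dvg D α v • y v) := by
  rw [prod_mul_distrib, State1_fib hy D α src fun _ => State1_src,
    State1_fib hy D (fun e => -α e) tgt fun _ => State1_tgt, ← prod_mul_distrib]
  refine prod_congr rfl fun v _ => ?_
  simp only [add_mul, mul_add, smul_mul_smul_comm, hy, smul_zero]
  simp only [dvg, sub_smul, sum_neg_distrib, neg_smul]
  ring

theorem State1_exp (hy : ∀ v, y v * y v = 0) (X' T : Finset V) (ζ : V → ℝ) :
    (∏ v ∈ X', y v) * ∏ v ∈ T, (1 + ζ v • y v) =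
      ∑ S ∈ (T \ X').powerset, (∏ v ∈ S, ζ v) • ∏ v ∈ X' ∪ S, y v := by
  have k : (∏ v ∈ X', y v) * ∏ v ∈ T ∩ X', (1 + ζ v • y v) = ∏ v ∈ X', y v := by
    rw [← prod_sdiff (inter_subset_right (s₁ := T) (s₂ := X')), mul_assoc, ← prod_mul_distrib]
    congr 1
    exact prod_congr rfl fun v _ => by simp [mul_add, hy]
  rw [← prod_inter_mul_prod_sdiff T X', ← mul_assoc, k, prod_one_add, mul_sum]
  refine sum_congr rfl fun S hS => ?_
  rw [prod_smul, mul_smul_comm, prod_union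
    (disjoint_sdiff.mono_right (mem_powerset.1 hS))]

end

theorem State1_c1 (a x y : ℝ) :
    (x - a * y) ^ 2 + (a * x + (1 - a ^ 2) * y) ^ 2 ≤ Real.exp (a ^ 2) * (x ^ 2 + y ^ 2) := by
  have k := Real.sum_le_exp_of_nonneg (sq_nonneg a) 4
  simp only [sum_range_succ, sum_range_zero, Nat.factorial] at k
  refine le_trans ?_ (mul_le_mul_of_nonneg_right k (by positivity))
  have h1 : 0 ≤ (1 / 2 + a ^ 2 / 6) * (a * x) ^ 2 + 2 * (a * x) * y
      + (2 - a ^ 2 / 2 + a ^ 4 / 6) * y ^ 2 := by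
    refine le_of_mul_le_mul_left (a := 1 / 2 + a ^ 2 / 6) ?_ (by positivity)
    have : 0 ≤ ((1 / 2 + a ^ 2 / 6) * (a * x) + y) ^ 2 + (a ^ 2 / 12 + a ^ 6 / 36) * y ^ 2 := by
      positivity
    linarith
  have := mul_nonneg (sq_nonneg a) h1
  push_cast
  linarith

theorem State1_c2 (a x y : ℝ) : (x - a * y) ^ 2 ≤ Real.exp (a ^ 2) * (x ^ 2 + y ^ 2) := by
  refine le_trans ?_ (mul_le_mul_of_nonneg_right (Real.add_one_le_exp _) (by positivity))
  nlinarith [sq_nonneg (a * x + y)]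

theorem State1_ee (a : ℝ) : Real.exp (-a ^ 2 / 2) ^ 2 * Real.exp (a ^ 2) = 1 := by
  rw [← Real.exp_nat_mul, ← Real.exp_add]
  simp only [Real.exp_eq_one_iff]
  push_cast
  ring

/-- The matrices of the exponential bound. -/
noncomputable def State1_M (m : Prop) [Decidable m] (a : ℝ) : Bool → Bool → ℝ := fun i j =>
  Real.exp (-a ^ 2 / 2) * if m then (if i then (if j then -a else 1) else 0)
    else if i then (if j then 1 - a ^ 2 else a) else if j then -a else 1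

theorem State1_contr (m : Prop) [Decidable m] (a : ℝ) : ContrR (State1_M m a) := by
  refine contrR_of fun x y => ?_
  have h0 := State1_ee a
  have h1 := mul_le_mul_of_nonneg_left (State1_c1 a x y) (sq_nonneg (Real.exp (-a ^ 2 / 2)))
  have h2 := mul_le_mul_of_nonneg_left (State1_c2 a x y) (sq_nonneg (Real.exp (-a ^ 2 / 2)))
  rw [← mul_assoc, h0] at h1 h2
  by_cases hm : m <;> simp only [State1_M, hm, if_true, if_false, Bool.false_eq_true] <;> linarith

theorem State1_nE {Q : Type} [CommRing Q] [Algebra ℝ Q] (φ : MvPolynomial V ℝ →ₐ[ℝ] Q)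
    (hy : ∀ v, φ (X v) * φ (X v) = 0) (m : Prop) [Decidable m] (a : ℝ) (s t : V) :
    φ (nE s t (State1_M m a)) = Real.exp (-a ^ 2 / 2) •
      ((if m then φ (X s) else 1) * ((1 + a • φ (X s)) * (1 + (-a) • φ (X t)))) := by
  have hC : ∀ r, φ (C r) = algebraMap ℝ _ r := fun r => φ.commutes r
  simp only [nE, map_add, map_mul, hC, Algebra.smul_def]
  by_cases hm : m <;> simp only [State1_M, hm, if_true, if_false, Bool.false_eq_true, map_sub,
    map_mul, map_neg, map_one, map_zero, map_pow]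
  · linear_combination (-(algebraMap ℝ _ (Real.exp (-a ^ 2 / 2))) * algebraMap ℝ _ a *
      (1 - algebraMap ℝ _ a * φ (X t))) * hy s
  · ring

theorem State1_prod {Q : Type} [CommRing Q] [Algebra ℝ Q] (φ : MvPolynomial V ℝ →ₐ[ℝ] Q)
    (hy : ∀ v, φ (X v) * φ (X v) = 0) (X' : Finset V) (D : Finset Edge) (α : Edge → ℝ) :
    φ (∏ e ∈ D ∪ X'.image fun x => (x, 0), nE (src e) (tgt e)
      (State1_M (e ∈ X'.image fun x => (x, 0)) (if e ∈ D then α e else 0))) =
    φ (Real.exp (-((∑ e ∈ D, α e ^ 2) / 2)) •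
      ∑ S ∈ (verts D \ X').powerset, (∏ v ∈ S, dvg D α v) • ∏ v ∈ X' ∪ S, X v) := by
  set E : Finset Edge := X'.image fun x => (x, 0) with hE
  have hc : ∏ e ∈ D ∪ E, Real.exp (-(if e ∈ D then α e else 0) ^ 2 / 2)
      = Real.exp (-((∑ e ∈ D, α e ^ 2) / 2)) := by
    rw [← Real.exp_sum, ← sum_subset subset_union_left fun e _ he => by simp [he],
      sum_congr rfl fun e he => by rw [if_pos he], ← sum_div, sum_neg_distrib, neg_div]
  simp only [map_prod, State1_nE φ hy, map_smul, map_sum]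
  rw [prod_smul, hc, ← State1_exp hy, ← State1_div hy, prod_mul_distrib,
    prod_ite_mem, inter_eq_right.2 subset_union_right, hE,
    prod_image fun _ _ _ _ q => congrArg Prod.fst q,
    ← prod_subset subset_union_left fun e _ he => by simp [he]]
  congr 2
  exact prod_congr rfl fun e he => by rw [if_pos he]

/-- Gaussian domination in exponential form, with monomers at `X'`. -/
theorem IsState.exp_bound {G : Finset V → ℝ} (h : IsState G) (X' : Finset V) (D : Finset Edge)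
    (α : Edge → ℝ) :
    |∑ S ∈ (verts D \ X').powerset, (∏ v ∈ S, dvg D α v) * G (X' ∪ S)| ≤
      Real.exp ((∑ e ∈ D, α e ^ 2) / 2) := by
  have k := h.gd_abs (D ∪ X'.image fun x => (x, 0)) (fun e => State1_M
    (e ∈ X'.image fun x => (x, 0)) (if e ∈ D then α e else 0)) fun e _ => State1_contr _ _
  have e : ∀ S ∈ (verts D \ X').powerset, State1_lin (verts (D ∪ X'.image fun x => (x, 0))) G
      ((∏ v ∈ S, dvg D α v) • ∏ v ∈ X' ∪ S, X v) = (∏ v ∈ S, dvg D α v) * G (X' ∪ S) := by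
    intro S hS
    rw [map_smul, State1_mon G (union_subset (fun x hx => State1_src (e := (x, 0))
      (mem_union_right _ (mem_image_of_mem _ hx))) fun v hv => ?_), smul_eq_mul]
    rcases mem_union.1 (mem_sdiff.1 (mem_powerset.1 hS hv)).1 with q | q <;>
      obtain ⟨e, he, rfl⟩ := mem_image.1 q
    exacts [State1_src (mem_union_left _ he), State1_tgt (mem_union_left _ he)]
  rwa [State1_Ysum, State1_congr _ _ (State1_prod _ State1_sq X' D α), map_smul, map_sum,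
    sum_congr rfl e, smul_eq_mul, abs_mul, Real.abs_exp, Real.exp_neg,
    inv_mul_le_iff₀ (Real.exp_pos _), mul_one] at k

theorem IsState.le_one {G : Finset V → ℝ} (h : IsState G) (X : Finset V) : G X ≤ 1 := by
  simpa [verts, abs_of_nonneg (h.nonneg X)] using h.exp_bound X ∅ fun _ => 0

theorem State1_dvg (D : Finset Edge) (α : Edge → ℝ) (ψ : V → ℝ) :
    ∑ v ∈ verts D, dvg D α v * ψ v = ∑ e ∈ D, α e * (ψ (src e) - ψ (tgt e)) := by
  have k : ∀ f : Edge → V, (∀ e ∈ D, f e ∈ verts D) →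
      ∑ v ∈ verts D, (∑ e ∈ D.filter (fun e => f e = v), α e) * ψ v = ∑ e ∈ D, α e * ψ (f e) :=
    fun f hf => by
      rw [← sum_fiberwise_of_maps_to hf]
      refine sum_congr rfl fun v _ => ?_
      rw [sum_mul]
      exact sum_congr rfl fun e he => by rw [(mem_filter.1 he).2]
  simp only [dvg, sub_mul, mul_sub, sum_sub_distrib, k src fun _ => State1_src,
    k tgt fun _ => State1_tgt]

/-- The edge from `y` in the direction `d`. -/
def State1_ed (q : V × Dir) : Edge := if q.2.2 then (q.1, q.2.1) else (q.1 + dv q.2, q.2.1)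

theorem State1_ends (q : V × Dir) :
    q.2.2 = true ∧ src (State1_ed q) = q.1 ∧ tgt (State1_ed q) = q.1 + dv q.2 ∨
    q.2.2 = false ∧ src (State1_ed q) = q.1 + dv q.2 ∧ tgt (State1_ed q) = q.1 := by
  obtain ⟨y, i, b⟩ := q
  cases b <;> simp [State1_ed, src, tgt, dv, Pi.single_neg]

theorem State1_snd (q : V × Dir) : (State1_ed q).2 = q.2.1 := by
  unfold State1_ed
  split_ifs <;> rfl

/-- An edge field with prescribed values on the edges at `Y`. -/
theorem State1_field {b : Prop} {Y : Finset V} (hY : ∀ y ∈ Y, IsEven y ↔ b) (β : V × Dir → ℝ) :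
    ∃ (D : Finset Edge) (α : Edge → ℝ), ∑ e ∈ D, α e ^ 2 = ∑ q ∈ Y ×ˢ univ, β q ^ 2 ∧
      ∀ ψ : V → ℝ, ∑ v ∈ verts D, dvg D α v * ψ v
        = ∑ q ∈ Y ×ˢ univ, β q * (ψ (q.1 + dv q.2) - ψ q.1) := by
  classical
  let inv : Edge → V × Dir := fun e =>
    if IsEven (src e) ↔ b then (src e, e.2, true) else (tgt e, e.2, false)
  have hi : ∀ q ∈ Y ×ˢ (univ : Finset Dir), inv (State1_ed q) = q := fun q hq => by
    have h1 := hY _ (mem_product.1 hq).1
    have h2 := isEven_add_dv (x := q.1) (d := q.2)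
    rcases State1_ends q with ⟨a, a1, a2⟩ | ⟨a, a1, a2⟩ <;> simp only [inv, a1, a2, State1_snd]
    · rw [if_pos h1, ← a]
    · rw [if_neg (by tauto), ← a]
  have hj : Set.InjOn State1_ed (Y ×ˢ (univ : Finset Dir) : Finset _) := fun q hq r hr e => by
    rw [← hi q hq, e, hi r hr]
  refine ⟨(Y ×ˢ univ).image State1_ed, fun e => (if (inv e).2.2 then -1 else 1) * β (inv e), ?_,
    fun ψ => ?_⟩
  · rw [sum_image hj]
    refine sum_congr rfl fun q hq => ?_
    simp only [hi q hq]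
    split_ifs <;> ring
  · rw [State1_dvg, sum_image hj]
    refine sum_congr rfl fun q hq => ?_
    rw [hi q hq]
    rcases State1_ends q with ⟨a, a1, a2⟩ | ⟨a, a1, a2⟩ <;> simp only [a, a1, a2] <;> simp
    ring

theorem State1_card {G : Finset V → ℝ} (h : IsState G) {X' S S' : Finset V} {b : Prop}
    (hS : ∀ v ∈ S, ¬ (IsEven v ↔ b)) (hS' : ∀ v ∈ S', ¬ (IsEven v ↔ b)) (d : Disjoint X' S)
    (d' : Disjoint X' S') (g : G (X' ∪ S) ≠ 0) (g' : G (X' ∪ S') ≠ 0) : S.card = S'.card := by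
  have k := h.neutral _ g
  have k' := h.neutral _ g'
  simp only [filter_union] at k k'
  rw [card_union_of_disjoint (disjoint_filter_filter d),
    card_union_of_disjoint (disjoint_filter_filter d)] at k
  rw [card_union_of_disjoint (disjoint_filter_filter d'),
    card_union_of_disjoint (disjoint_filter_filter d')] at k'
  by_cases hb : b
  · rw [filter_false_of_mem (s := S) fun v hv => by have := hS v hv; tauto,
      filter_true_of_mem (s := S) fun v hv => by have := hS v hv; tauto] at k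
    rw [filter_false_of_mem (s := S') fun v hv => by have := hS' v hv; tauto,
      filter_true_of_mem (s := S') fun v hv => by have := hS' v hv; tauto] at k'
    omega
  · rw [filter_true_of_mem (s := S) fun v hv => by have := hS v hv; tauto,
      filter_false_of_mem (s := S) fun v hv => by have := hS v hv; tauto] at k
    rw [filter_true_of_mem (s := S') fun v hv => by have := hS' v hv; tauto,
      filter_false_of_mem (s := S') fun v hv => by have := hS' v hv; tauto] at k'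
    omega

theorem IsState.energy {G : Finset V → ℝ} (h : IsState G) (X' : Finset V) (b : Prop) :
    Energy b fun x => if x ∈ X' then 0 else G (insert x X') := by
  classical
  intro Y hY
  set φ : V → ℝ := fun x => if x ∈ X' then 0 else G (insert x X') with hφ
  change ∑ y ∈ Y, ∑ d : Dir, (φ (y + dv d) - (∑ d' : Dir, φ (y + dv d')) / 6) ^ 2 ≤ 3
  by_cases h0 : ∀ v, ¬ (IsEven v ↔ b) → φ v = 0
  · have : ∀ y ∈ Y, ∀ d, φ (y + dv d) = 0 := fun y hy d => h0 _ (by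
      have := hY y hy
      have := isEven_add_dv (x := y) (d := d)
      tauto)
    rw [sum_eq_zero fun y hy => by simp [this y hy]]
    norm_num
  push Not at h0
  obtain ⟨v0, p0, g0⟩ := h0
  have n0 : v0 ∉ X' := fun q => g0 (if_pos q)
  rw [show φ v0 = G (X' ∪ {v0}) by rw [union_comm, ← insert_eq]; exact if_neg n0] at g0
  set β : V × Dir → ℝ := fun q => φ (q.1 + dv q.2) - (∑ d' : Dir, φ (q.1 + dv d')) / 6 with hβ
  set A := ∑ q ∈ Y ×ˢ univ, β q ^ 2 with hA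
  rw [← sum_product' (f := fun y d => β (y, d) ^ 2)]
  change A ≤ 3
  have z : ∀ (c : V → ℝ), ∑ q ∈ Y ×ˢ univ, β q * c q.1 = 0 := fun c => by
    rw [sum_product]
    refine sum_eq_zero fun y _ => ?_
    simp only [hβ, ← sum_mul, sum_sub_distrib, sum_const, card_univ, Fintype.card_prod,
      Fintype.card_fin, Fintype.card_bool, nsmul_eq_mul]
    push_cast
    ring
  have key : ∀ s : ℝ, s * A ≤ Real.exp (s ^ 2 * A / 2) := fun s => by
    obtain ⟨D, α, e1, e2⟩ := State1_field hY fun q => s * β q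
    have e3 : ∀ ψ : V → ℝ, ∑ v ∈ verts D, dvg D α v * ψ v
        = s * ∑ q ∈ Y ×ˢ univ, β q * ψ (q.1 + dv q.2) := fun ψ => by
      simp only [e2, mul_assoc, ← mul_sum, mul_sub, sum_sub_distrib, z]
      ring
    have e4 : ∀ v ∈ verts D, (IsEven v ↔ b) → dvg D α v = 0 := fun v hv hb => by
      have := e3 fun w => if w = v then 1 else 0
      rw [sum_eq_zero (s := Y ×ˢ univ) fun q hq => by
        rw [if_neg, mul_zero]
        rintro rfl
        have := hY _ (mem_product.1 hq).1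
        have := isEven_add_dv (x := q.1) (d := q.2)
        tauto] at this
      simpa [hv] using this
    have k := (le_abs_self _).trans (h.exp_bound X' D α)
    rw [e1, ← sum_subset (s₁ := powersetCard 1 (verts D \ X'))
      (fun S hS => mem_powerset.2 (mem_powersetCard.1 hS).1) fun S hS hn => ?_,
      powersetCard_one, sum_map] at k
    · have e5 : ∑ v ∈ verts D \ X', dvg D α v * φ v = s * A := by
        rw [sum_subset sdiff_subset fun v hv hn => by
          rw [show φ v = 0 from if_pos (by simpa [hv] using hn), mul_zero], e3, hA]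
        congr 1
        rw [← sub_zero (∑ _ ∈ _, _), ← z fun y => (∑ d' : Dir, φ (y + dv d')) / 6,
          ← sum_sub_distrib]
        exact sum_congr rfl fun q _ => by rw [pow_two, ← mul_sub]
      simp only [mul_pow, ← mul_sum] at k
      refine le_trans (le_of_eq ?_) k
      rw [← e5]
      refine sum_congr rfl fun v hv => ?_
      simp only [Function.Embedding.coeFn_mk, prod_singleton, hφ, if_neg (mem_sdiff.1 hv).2]
      rw [union_comm, ← insert_eq]
    · by_contra ne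
      have hs := mem_powerset.1 hS
      refine hn (mem_powersetCard.2 ⟨hs, ?_⟩)
      exact State1_card h (b := b) (S' := {v0}) (fun v hv hb => (left_ne_zero_of_mul ne)
        (prod_eq_zero hv (e4 v (mem_sdiff.1 (hs hv)).1 hb)))
        (fun v hv => by rw [mem_singleton.1 hv]; tauto) (disjoint_sdiff.mono_right hs)
        (disjoint_singleton_right.2 n0) (right_ne_zero_of_mul ne) g0
  have A0 : 0 ≤ A := sum_nonneg fun _ _ => sq_nonneg _
  rcases A0.eq_or_lt with q | q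
  · linarith
  have r := Real.sqrt_pos.2 q
  have r2 := Real.mul_self_sqrt A0
  have k := key (√A)⁻¹
  rw [show (√A)⁻¹ * A = √A by field_simp; linarith,
    show (√A)⁻¹ ^ 2 * A / 2 = 1 / 2 by field_simp; linarith] at k
  have e : Real.exp (1 / 2) * Real.exp (1 / 2) = Real.exp 1 := by rw [← Real.exp_add]; norm_num
  nlinarith [Real.exp_one_lt_d9]

theorem State1_ser (L : MvPolynomial V ℝ →ₗ[ℝ] ℝ) (D : Finset Edge) (u : Edge → MvPolynomial V ℝ) :
    ∃ R : ℝ → MvPolynomial V ℝ, (∀ p, Continuous fun s => L (p * R s)) ∧ ∀ s : ℝ,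
      2 * ∏ e ∈ D, (1 + C s * u e) = 2 + C s * (2 * ∑ e ∈ D, u e)
        + C s ^ 2 * ((∑ e ∈ D, u e) ^ 2 - ∑ e ∈ D, u e ^ 2) + C s ^ 3 * R s := by
  induction D using Finset.induction_on with
  | empty => exact ⟨0, fun p => by simpa using continuous_const, fun s => by simp⟩
  | insert f D hf ih =>
    obtain ⟨R, h1, h2⟩ := ih
    refine ⟨fun s => R s + ((∑ e ∈ D, u e) ^ 2 - ∑ e ∈ D, u e ^ 2) * u f + s • (u f * R s),
      fun p => ?_, fun s => ?_⟩
    · simp only [mul_add, map_add, mul_smul_comm, map_smul, ← mul_assoc, smul_eq_mul]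
      exact ((h1 p).add continuous_const).add (continuous_id.mul (h1 _))
    · simp only [prod_insert hf, sum_insert hf, smul_eq_C_mul]
      linear_combination (1 + C s * u f) * h2 s

theorem State1_xx {T : Finset V} (G : Finset V → ℝ) {v w : V} (hv : v ∈ T) (hw : w ∈ T) :
    State1_lin T G (X v * X w) = if v = w then 0 else G {v, w} := by
  split_ifs with e
  · rw [State1_congr T G (q := 0) (by rw [map_mul, e, State1_sq, map_zero]), map_zero]
  · rw [← State1_mon G (insert_subset hv (singleton_subset_iff.2 hw)), prod_pair e]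

theorem State1_pair {G : Finset V → ℝ} (h : IsState G) {v w : V} (e : IsEven v ↔ IsEven w) :
    G {v, w} = 0 := by
  by_contra g
  have k := h.neutral _ g
  by_cases hv : IsEven v
  · rw [filter_true_of_mem (by simp [hv, ← e]), filter_false_of_mem (by simp [hv, ← e])] at k
    exact (card_pos.2 (insert_nonempty _ _)).ne' k
  · rw [filter_false_of_mem (by simp [hv, ← e]), filter_true_of_mem (by simp [hv, ← e])] at k
    exact (card_pos.2 (insert_nonempty _ _)).ne k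

theorem State1_gd2 {G : Finset V → ℝ} (h : IsState G) (D : Finset Edge) (α : Edge → ℝ) :
    State1_lin (verts D) G (∏ e ∈ D, (1 + C (α e) * (X (src e) - X (tgt e)))) ≤
      Real.exp ((∑ e ∈ D, α e ^ 2) / 2) := by
  have p : ∀ a : ℝ, 0 < √(1 + a ^ 2) := fun a => Real.sqrt_pos.2 (by positivity)
  have k := h.gd D (fun e i j => (√(1 + α e ^ 2))⁻¹ *
    if i then (if j then 1 else α e) else if j then -α e else 1) fun e _ =>
      contrR_of fun x y => by
        have := Real.sq_sqrt (show 0 ≤ 1 + α e ^ 2 by positivity)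
        have q := (p (α e)).ne'
        simp only [if_true, if_false, Bool.false_eq_true]
        refine le_of_eq ?_
        field_simp
        rw [this]
        ring
  rw [State1_Ysum, prod_congr rfl (g := fun e => (√(1 + α e ^ 2))⁻¹ •
    (1 + C (α e) * (X (src e) - X (tgt e)))) fun e _ => by
      simp only [nE, if_true, if_false, Bool.false_eq_true, smul_eq_C_mul, map_mul, map_neg,
        map_one, map_sub]
      ring, prod_smul, map_smul, smul_eq_mul, prod_inv_distrib,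
    inv_mul_le_iff₀ (prod_pos fun e _ => p _), mul_one] at k
  refine k.trans ?_
  rw [sum_div, Real.exp_sum]
  refine prod_le_prod (fun e _ => (p _).le) fun e _ => Real.sqrt_le_iff.2 ⟨(Real.exp_pos _).le, ?_⟩
  rw [← Real.exp_nat_mul, add_comm]
  exact (Real.add_one_le_exp _).trans (le_of_eq (by congr 1; push_cast; ring))

/-- The infrared inequality with the hard-core correction. -/
theorem IsState.second {G : Finset V → ℝ} (h : IsState G) (D : Finset Edge) (α : Edge → ℝ) :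
    (∑ x ∈ (verts D).filter IsEven, ∑ y ∈ (verts D).filter (fun v => ¬ IsEven v),
        dvg D α x * dvg D α y * G {x, y}) + ∑ e ∈ D, α e ^ 2 * G {src e, tgt e} ≤
      (∑ e ∈ D, α e ^ 2) / 2 := by
  set L := State1_lin (verts D) G with hL
  set A := ∑ e ∈ D, α e ^ 2 with hA
  set u : Edge → MvPolynomial V ℝ := fun e => C (α e) * (X (src e) - X (tgt e)) with hu
  obtain ⟨R, h1, h2⟩ := State1_ser L D u
  have l0 : L 1 = 1 := by simpa [h.one] using State1_mon (T := verts D) G (empty_subset _)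
  have lx : ∀ v ∈ verts D, L (X v) = 0 := fun v hv => by
    simpa [show G {v} = 0 by simpa using State1_pair h (v := v) Iff.rfl] using
      State1_mon G (singleton_subset_iff.2 hv)
  have l1 : L (∑ e ∈ D, u e) = 0 := by
    rw [map_sum]
    exact sum_eq_zero fun e he => by
      simp only [hu, C_mul', map_smul, map_sub, lx _ (State1_src he), lx _ (State1_tgt he)]
      simp
  have l2 : L (∑ e ∈ D, u e ^ 2) = -2 * ∑ e ∈ D, α e ^ 2 * G {src e, tgt e} := by
    rw [map_sum, mul_sum]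
    refine sum_congr rfl fun e he => ?_
    have ne : src e ≠ tgt e := fun q => by
      have := isEven_add_dv (x := src e) (d := (e.2, true))
      rw [← tgt_eq, ← q] at this
      tauto
    rw [show u e ^ 2 = (α e ^ 2) • (X (src e) * X (src e) + X (tgt e) * X (tgt e)
        - (2 : ℝ) • (X (src e) * X (tgt e))) by
      simp only [hu, smul_eq_C_mul, map_pow, map_ofNat]; ring]
    simp only [map_smul, map_sub, map_add, hL, State1_xx G (State1_src he) (State1_src he),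
      State1_xx G (State1_tgt he) (State1_tgt he), State1_xx G (State1_src he) (State1_tgt he),
      if_neg ne, if_true, smul_eq_mul]
    ring
  have su : ∑ e ∈ D, u e = ∑ v ∈ verts D, dvg D α v • X v := by
    ext m
    simp only [hu, coeff_sum, coeff_smul, coeff_C_mul, coeff_sub, smul_eq_mul]
    exact (State1_dvg D α fun v => coeff m (X v)).symm
  have l3 : L ((∑ e ∈ D, u e) ^ 2) = 2 * ∑ x ∈ (verts D).filter IsEven,
      ∑ y ∈ (verts D).filter (fun v => ¬ IsEven v), dvg D α x * dvg D α y * G {x, y} := by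
    have : L ((∑ e ∈ D, u e) ^ 2) =
        ∑ x ∈ verts D, ∑ y ∈ verts D, dvg D α x * dvg D α y * G {x, y} := by
      rw [su, pow_two, sum_mul_sum, map_sum]
      refine sum_congr rfl fun x hx => ?_
      rw [map_sum]
      refine sum_congr rfl fun y hy => ?_
      rw [smul_mul_smul_comm, map_smul, State1_xx G hx hy, smul_eq_mul]
      split_ifs with e
      · rw [State1_pair h (e ▸ Iff.rfl)]
      · rfl
    rw [this, ← sum_filter_add_sum_filter_not _ IsEven, two_mul]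
    congr 1
    · refine sum_congr rfl fun x hx => (sum_subset (filter_subset _ _) fun y hy hn => ?_).symm
      rw [State1_pair h (by have := (mem_filter.1 hx).2; simp only [mem_filter] at hn; tauto),
        mul_zero]
    · rw [sum_comm (s := filter IsEven _)]
      refine sum_congr rfl fun x hx => ?_
      rw [← sum_subset (filter_subset IsEven _) fun y hy hn => ?_]
      · exact sum_congr rfl fun y _ => by rw [pair_comm, mul_comm (dvg D α x)]
      · rw [State1_pair h (by have := (mem_filter.1 hx).2; simp only [mem_filter] at hn; tauto),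
          mul_zero]
  set Q := L ((∑ e ∈ D, u e) ^ 2 - ∑ e ∈ D, u e ^ 2) with hQ
  have key : ∀ s : ℝ, 2 + s ^ 2 * Q + s ^ 3 * L (1 * R s) ≤ 2 * Real.exp (s ^ 2 * A / 2) := by
    intro s
    have k := State1_gd2 h D fun e => s * α e
    have e := congrArg L (h2 s)
    simp only [mul_pow, ← mul_sum, map_mul, mul_assoc] at k
    simp only [two_mul, ← map_pow, C_mul', map_add, map_smul, smul_eq_mul, l1, ← hQ] at e
    rw [← one_add_one_eq_two (R := MvPolynomial V ℝ), map_add, l0] at e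
    simp only [hu, C_mul'] at e k
    rw [one_mul]
    linarith
  have A0 : 0 ≤ A := sum_nonneg fun _ _ => sq_nonneg _
  have lim : Q + 0 * L (1 * R 0) ≤ A + 0 ^ 2 * A ^ 2 / 2 := by
    have c1 : Continuous fun s : ℝ => Q + s * L (1 * R s) :=
      continuous_const.add (continuous_id.mul (h1 1))
    have c2 : Continuous fun s : ℝ => A + s ^ 2 * A ^ 2 / 2 := by fun_prop
    have c3 : Continuous fun s : ℝ => s ^ 2 * A / 2 := by fun_prop
    refine le_of_tendsto_of_tendsto (b := 𝓝[>] 0) ((c1.tendsto 0).mono_left nhdsWithin_le_nhds)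
      ((c2.tendsto 0).mono_left nhdsWithin_le_nhds) ?_
    filter_upwards [self_mem_nhdsWithin, nhdsWithin_le_nhds
      ((c3.tendsto 0).eventually_le_const (show 0 ^ 2 * A / 2 < 1 by norm_num))] with s hs hs1
    have b := (abs_le.1 (Real.abs_exp_sub_one_sub_id_le
      (show |s ^ 2 * A / 2| ≤ 1 by rwa [abs_of_nonneg (by positivity)]))).2
    refine le_of_mul_le_mul_left (a := s ^ 2) ?_ (pow_pos hs 2)
    linarith [key s]
  rw [hQ, map_sub, l2, l3] at lim
  linarith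

end Pool.Agent.Work.MP_5cb0a4_pr.Z
end

-- merged part: Pool.Agent.Work.MP_5cb0a4_pr.Z.Paths
section
open MeasureTheory Finset MvPolynomial Filter Topology

namespace Pool.Agent.Work.MP_5cb0a4_pr.Z

/-- At least `k` infinite components. -/
def Ik (k : ℕ) : Set (Dimer × Dimer) :=
  {p | ∃ x : Fin k → V, (∀ i, {y | Conn p.1.1 p.2.1 (x i) y}.Infinite) ∧
    ∀ i j, i ≠ j → ¬ Conn p.1.1 p.2.1 (x i) (x j)}

/-- Connection by exactly `n` steps. -/
def Paths_st (r : V → V → Prop) : ℕ → V → V → Prop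
  | 0, x, y => x = y
  | n + 1, x, y => ∃ z, Paths_st r n x z ∧ r z y

lemma Paths_st_iff (r : V → V → Prop) (x y : V) :
    Relation.ReflTransGen r x y ↔ ∃ n, Paths_st r n x y := by
  constructor
  · intro h
    induction h with
    | refl => exact ⟨0, rfl⟩
    | tail _ h ih => exact ih.elim fun n hn => ⟨n + 1, _, hn, h⟩
  · rintro ⟨n, hn⟩
    induction n generalizing y with
    | zero => exact hn ▸ Relation.ReflTransGen.refl
    | succ n ih => exact hn.elim fun z hz => (ih z hz.1).tail hz.2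

lemma Paths_meas (x y : V) : Measurable fun p : Dimer × Dimer => Conn p.1.1 p.2.1 x y := by
  have h0 : ∀ u v : V, Measurable fun τ : Dimer => τ.1 u = v := fun u v => by
    have hm : Measurable fun τ : Dimer => τ.1 u :=
      (measurable_pi_apply u).comp measurable_subtype_coe
    exact measurableSet_setOf.1
      (show MeasurableSet {τ : Dimer | τ.1 u = v} from hm (measurableSet_singleton v))
  simp only [Conn, Paths_st_iff]
  refine Measurable.exists fun n => ?_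
  induction n generalizing y with
  | zero => exact measurable_const (a := x = y)
  | succ n ih =>
    exact Measurable.exists fun z => (ih z).and
      (((h0 z y).comp measurable_fst).or ((h0 z y).comp measurable_snd))

lemma Paths_inf (s : Set V) : s.Infinite ↔ ∀ F : Finset V, ∃ y, y ∈ s ∧ y ∉ F :=
  ⟨fun h F => h.exists_notMem_finset F, fun h hs =>
    (h hs.toFinset).elim fun _ hy => hy.2 (hs.mem_toFinset.2 hy.1)⟩

lemma Paths_sh {σ₁ σ₂ : V → V} (v : V) {x y : V} (h : Conn σ₁ σ₂ x y) :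
    Conn (sh v σ₁) (sh v σ₂) (x + v) (y + v) := by
  induction h with
  | refl => exact Relation.ReflTransGen.refl
  | tail _ h ih =>
    refine ih.tail ?_
    simpa only [sh, add_sub_cancel_right, add_left_inj] using h

lemma Paths_Ik {k : ℕ} (v : V) {σ₁ σ₂ : V → V}
    (h : ∃ x : Fin k → V, (∀ i, {y | Conn σ₁ σ₂ (x i) y}.Infinite) ∧
      ∀ i j, i ≠ j → ¬ Conn σ₁ σ₂ (x i) (x j)) :
    ∃ x : Fin k → V, (∀ i, {y | Conn (sh v σ₁) (sh v σ₂) (x i) y}.Infinite) ∧
      ∀ i j, i ≠ j → ¬ Conn (sh v σ₁) (sh v σ₂) (x i) (x j) := by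
  obtain ⟨x, h1, h2⟩ := h
  refine ⟨fun i => x i + v, fun i => ((h1 i).image (add_left_injective v).injOn).mono ?_,
    fun i j hij h => h2 i j hij ?_⟩
  · rintro _ ⟨y, hy, rfl⟩
    exact Paths_sh v hy
  · simpa only [sh_sh, neg_add_cancel, sh_zero, add_neg_cancel_right] using Paths_sh (-v) h

lemma Paths_reach (τ₁ τ₂ : Dimer) (x y : V) :
    (unionGraph τ₁ τ₂).Reachable x y ↔ Conn τ₁.1 τ₂.1 x y := by
  have hne : ∀ (τ : Dimer) (u : V), u ≠ τ.1 u := fun τ u e => by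
    have h1 := nbr_parity (τ.2 u).1
    rw [← e] at h1
    tauto
  have e : (unionGraph τ₁ τ₂).Adj = fun u v => τ₁.1 u = v ∨ τ₂.1 u = v := by
    funext u v
    rw [unionGraph, SimpleGraph.fromRel_adj]
    refine propext ⟨?_, fun h => ⟨?_, Or.inl h⟩⟩
    · rintro ⟨-, h | rfl | rfl⟩
      · exact h
      · exact Or.inl (τ₁.2 v).2
      · exact Or.inr (τ₂.2 v).2
    · rcases h with rfl | rfl
      · exact hne τ₁ u
      · exact hne τ₂ u
  rw [SimpleGraph.reachable_iff_reflTransGen, e, Conn]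

lemma Paths_rb {R : ℕ} {σ₁ σ₂ : V → V} {x y : V} (h : RB R σ₁ σ₂ x y) : Conn σ₁ σ₂ x y := by
  induction h with
  | refl => exact Relation.ReflTransGen.refl
  | tail _ h ih => exact ih.tail h.2.2

lemma Paths_box (y : V) : ∀ᶠ R in atTop, y ∈ box R := by
  filter_upwards [eventually_ge_atTop (univ.sup fun i => (y i).natAbs)] with R hR
  refine mem_box.2 fun i => ?_
  have h : (y i).natAbs ≤ R := (Finset.le_sup (f := fun i => (y i).natAbs) (mem_univ i)).trans hR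
  omega

theorem measurableSet_Ik (k : ℕ) : MeasurableSet (Ik k) := by
  simp only [Ik, Paths_inf]
  exact measurableSet_setOf.2 (Measurable.exists fun x => (Measurable.forall fun i =>
    Measurable.forall fun F => Measurable.exists fun y => (Paths_meas _ y).and measurable_const).and
    (Measurable.forall fun i => Measurable.forall fun j => measurable_const.imp (Paths_meas _ _).not))

theorem Ik_shift (k : ℕ) (v : V) :
    (fun p : Dimer × Dimer => (shift v p.1, shift v p.2)) ⁻¹' Ik k = Ik k := by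
  ext p
  refine ⟨fun h => ?_, fun h => Paths_Ik v h⟩
  have h1 := Paths_Ik (σ₁ := sh v p.1.1) (σ₂ := sh v p.2.1) (-v) h
  rwa [sh_sh, sh_sh, neg_add_cancel, sh_zero, sh_zero] at h1

theorem infinite_of_Ik {p : Dimer × Dimer} (h : ∀ k, p ∈ Ik k) :
    (infinitePaths p.1 p.2).Infinite := by
  intro hf
  haveI := hf.to_subtype
  obtain ⟨x, h1, h2⟩ := h (Nat.card (infinitePaths p.1 p.2) + 1)
  have h3 := Nat.card_le_card_of_injective (β := infinitePaths p.1 p.2)
    (fun i => ⟨(unionGraph p.1 p.2).connectedComponentMk (x i), (h1 i).mono fun y hy =>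
      SimpleGraph.ConnectedComponent.sound ((Paths_reach _ _ _ _).2 hy).symm⟩)
    fun i j hij => by_contra fun hne => h2 i j hne ((Paths_reach _ _ _ _).1
      (SimpleGraph.ConnectedComponent.exact (congrArg Subtype.val hij)))
  rw [Nat.card_fin] at h3
  omega

theorem eventually_not_ev {k : ℕ} {p : Dimer × Dimer} (h : p ∉ Ik k) (x : Fin k → V) :
    ∀ᶠ R in atTop, ¬ Ev x R p.1.1 p.2.1 := by
  by_cases h1 : ∀ i, {y | Conn p.1.1 p.2.1 (x i) y}.Infinite
  · have h2 : ¬ ∀ i j, i ≠ j → ¬ Conn p.1.1 p.2.1 (x i) (x j) := fun h2 => h ⟨x, h1, h2⟩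
    push Not at h2
    obtain ⟨i, j, hij, h3⟩ := h2
    have h4 : ∀ y, Conn p.1.1 p.2.1 (x i) y → ∀ᶠ R in atTop, RB R p.1.1 p.2.1 (x i) y := by
      intro y hy
      induction hy with
      | refl => exact Eventually.of_forall fun _ => Relation.ReflTransGen.refl
      | tail _ h ih =>
        filter_upwards [ih, Paths_box _, Paths_box _] with R a1 a2 a3
        exact a1.tail ⟨a2, a3, h⟩
    exact (h4 _ h3).mono fun R hR hE => hE.1 i j hij hR
  · obtain ⟨i, hi⟩ := not_forall.1 h1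
    have h2 := (eventually_all_finite (Set.not_infinite.1 hi)).2 fun y _ =>
      (tendsto_sub_atTop_nat 1).eventually (Paths_box y)
    refine h2.mono fun R hR hE => ?_
    obtain ⟨y, a1, a2⟩ := hE.2 i
    exact (mem_lev.1 a1).2 (hR y (Paths_rb a2))

theorem local2_ev {k : ℕ} (x : Fin k → V) (R : ℕ) : Local2 (box R) (Ev x R) := by
  intro σ₁ σ₂ σ₁' σ₂' _ _ _ _ h1 h2
  have e : RB R σ₁ σ₂ = RB R σ₁' σ₂' := by
    refine congrArg Relation.ReflTransGen (funext fun u => funext fun v => propext ?_)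
    exact and_congr_right fun hu => by rw [h1 u hu, h2 u hu]
  simp only [Ev, e]

end Pool.Agent.Work.MP_5cb0a4_pr.Z
end
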