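import Pool.Agent.Work.MP_5cb0a4_pr.Z.Basic
import Pool.Agent.Work.MP_5cb0a4_pr.Z.Harm
import Pool.Agent.Work.MP_5cb0a4_pr.Z.Paths

-- merged part: Pool.Agent.Work.MP_5cb0a4_pr.Z.Flux
section
open MeasureTheory Finset MvPolynomial Filter Topology

namespace Pool.Agent.Work.MP_5cb0a4_pr.Z

lemma Flux_sg (x : V) (d : Dir) : sg (x + dv d) = -sg x := by
  unfold sg
  by_cases h : IsEven x <;> simp [isEven_add_dv, h]

lemma Flux_inv {σ : V → V} (hσ : IsExt σ) (x y : V) : σ y = x ↔ σ x = y :=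
  ⟨fun h => by rw [← h, (hσ y).2], fun h => by rw [← h, (hσ x).2]⟩

lemma Flux_c1 (d : Dir) (t l : ℕ) (p : ℕ × ℕ) :
    corner d t l p d.1 = if d.2 then (t : ℤ) else -(t : ℤ) := by simp [corner]

lemma Flux_c0 (d : Dir) (t : ℕ) {j : Fin 3} (h : j ≠ d.1) :
    corner d t 0 (0, 0) j = -(t : ℤ) := by simp [corner, h]

theorem fl_anti {σ : V → V} (hσ : IsExt σ) (x : V) (d : Dir) :
    fl σ (x + dv d) x = -fl σ x (x + dv d) := by
  rw [fl, fl, Flux_sg, if_congr (Flux_inv hσ _ _) rfl rfl]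
  ring

theorem abs_fl_le (σ : V → V) (x y : V) : |fl σ x y| ≤ 5 / 6 := by
  unfold fl sg
  split_ifs <;> rw [abs_le] <;> constructor <;> norm_num

theorem fl_odd_le (σ : V → V) {x : V} (hx : ¬ IsEven x) (y : V) : fl σ x y ≤ 1 / 6 := by
  rw [fl, sg, if_neg hx]
  split_ifs <;> norm_num

theorem fl_div {σ : V → V} (hσ : IsExt σ) (x : V) :
    ∑ d : Dir, fl σ x (x + dv d) = if σ x = x then -sg x else 0 := by
  simp only [fl, ← mul_sum, sum_sub_distrib, sum_const, card_univ, Fintype.card_prod,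
    Fintype.card_fin, Fintype.card_bool]
  split_ifs with h
  · rw [sum_eq_zero fun d _ => if_neg (by rw [h]; simpa using dv_ne_zero d)]
    norm_num
  · obtain ⟨d, hd⟩ := nbr_iff.1 ((hσ x).1.resolve_left h)
    rw [sum_eq_single d (fun d' _ h' => if_neg (by
      rw [hd]; exact fun e => h' (dv_injective (add_left_cancel e)).symm)) (by simp), if_pos hd]
    norm_num

/-- Divergence theorem. -/
theorem div_thm {σ : V → V} (hσ : IsExt σ) (U : Finset V) :
    ∑ x ∈ U, ∑ d : Dir, (if x + dv d ∈ U then 0 else fl σ x (x + dv d)) =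
      -∑ x ∈ mon U σ, sg x := by
  have h1 : ∑ x ∈ U, ∑ d : Dir, (if x + dv d ∈ U then fl σ x (x + dv d) else 0) = 0 := by
    rw [← sum_product', ← sum_filter]
    refine sum_involution (fun q _ => (q.1 + dv q.2, (q.2.1, !q.2.2))) (fun q _ => ?_)
      (fun q _ _ e => ?_) (fun q hq => ?_) (fun q _ => ?_)
    · simp only [dv_not, add_neg_cancel_right, fl_anti hσ, add_neg_cancel]
    · exact dv_ne_zero q.2 (by simpa using congrArg Prod.fst e)
    · simp only [mem_filter, mem_product, mem_univ, and_true, dv_not, add_neg_cancel_right] at hq ⊢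
      exact hq.symm
    · simp [dv_not]
  have h2 : ∑ x ∈ U, ∑ d : Dir, fl σ x (x + dv d) = -∑ x ∈ mon U σ, sg x := by
    rw [mon, sum_filter, ← sum_neg_distrib]
    refine sum_congr rfl fun x _ => ?_
    rw [fl_div hσ]
    split_ifs <;> simp
  rw [← h2]
  refine ((zero_add _).symm.trans (congrArg (· + _) h1.symm)).trans ?_
  rw [← sum_add_distrib]
  refine sum_congr rfl fun x _ => ?_
  rw [← sum_add_distrib]
  refine sum_congr rfl fun d _ => ?_
  split_ifs <;> simp

lemma Flux_face {d : Dir} {t : ℕ} {x : V} :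
    x ∈ sq d.1 (corner d t 0 (0, 0)) (2 * t + 1) ↔ x ∈ box t ∧ x + dv d ∉ box t := by
  have e1 : (x + dv d) d.1 = x d.1 + if d.2 then 1 else -1 := by simp [dv]
  have e2 : ∀ j, j ≠ d.1 → (x + dv d) j = x j := fun j hj => by simp [dv, hj]
  rw [mem_sq, mem_box, mem_box, Flux_c1]
  constructor
  · rintro ⟨h1, h2⟩
    refine ⟨fun j => ?_, fun h => ?_⟩
    · by_cases hj : j = d.1
      · rw [hj, h1]
        split_ifs <;> omega
      · have := h2 j hj
        rw [Flux_c0 d t hj] at this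
        omega
    · have := h d.1
      rw [e1, h1] at this
      split_ifs at this <;> omega
  · rintro ⟨h1, h2⟩
    refine ⟨?_, fun j hj => ?_⟩
    · by_contra h
      refine h2 fun j => ?_
      by_cases hj : j = d.1
      · have := h1 d.1
        rw [hj, e1]
        split_ifs at h ⊢ <;> omega
      · rw [e2 j hj]
        exact h1 j
    · have := h1 j
      rw [Flux_c0 d t hj]
      omega

/-- The flux from `S` to the next level, face by face. -/
theorem Out_eq (σ : V → V) (S : Finset V) {t : ℕ} (ht : 1 ≤ t) :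
    Out σ S t = ∑ d : Dir, ∑ x ∈ sq d.1 (corner d t 0 (0, 0)) (2 * t + 1) ∩ S,
      fl σ x (x + dv d) := by
  rw [Out, sum_comm]
  refine sum_congr rfl fun d _ => ?_
  rw [sum_ite, sum_const_zero, zero_add]
  refine sum_congr ?_ fun _ _ => rfl
  ext x
  simp only [mem_filter, mem_inter, mem_lev, Flux_face]
  refine ⟨fun h => ⟨⟨h.1.1.1, h.2⟩, h.1.2⟩, fun h => ⟨⟨⟨h.1.1, fun k => h.1.2 ?_⟩, h.2⟩, h.1.2⟩⟩
  have := add_dv_mem_box k d
  rwa [Nat.sub_add_cancel ht] at this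

theorem Phi_eq {σ : V → V} (hσ : IsExt σ) (t : ℕ) : Phi σ t = -∑ x ∈ mon (box t) σ, sg x := by
  rw [← div_thm hσ, Phi, sum_comm]
  refine sum_congr rfl fun d _ => ?_
  rw [sum_ite, sum_const_zero, zero_add, FQ]
  refine sum_congr ?_ fun _ _ => rfl
  ext x
  rw [mem_filter, Flux_face]

theorem sq_corner_subset {d : Dir} {t l : ℕ} {p : ℕ × ℕ} (hp : p ∈ sqs t l) :
    sq d.1 (corner d t l p) l ⊆ sq d.1 (corner d t 0 (0, 0)) (2 * t + 1) := by
  have key : ∀ q : ℕ, q < (2 * t + 1) / l → (l : ℤ) * q + l ≤ 2 * t + 1 := fun q hq => by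
    have h1 : l * (q + 1) ≤ 2 * t + 1 :=
      (Nat.mul_le_mul_left l hq).trans (Nat.mul_div_le _ _)
    exact_mod_cast h1
  obtain ⟨h1, h2⟩ := mem_product.1 hp
  have h3 := key _ (mem_range.1 h1)
  have h4 := key _ (mem_range.1 h2)
  have h5 : (0 : ℤ) ≤ l * p.1 := by positivity
  have h6 : (0 : ℤ) ≤ l * p.2 := by positivity
  intro x hx
  rw [mem_sq, Flux_c1] at hx ⊢
  refine ⟨hx.1, fun j hj => ?_⟩
  have := hx.2 j hj
  rw [Flux_c0 d t hj]
  simp only [corner, if_neg hj] at this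
  push_cast
  split_ifs at this <;> omega

theorem mem_face {d : Dir} {t : ℕ} {x : V} :
    x ∈ sq d.1 (corner d t 0 (0, 0)) (2 * t + 1) ↔ x ∈ box t ∧ x + dv d ∉ box t := by
  exact Flux_face

theorem card_sq (i : Fin 3) (c : V) (l : ℕ) : (sq i c l).card = l ^ 2 := by
  rw [sq, Fintype.card_piFinset]
  fin_cases i <;> simp [Fin.prod_univ_three, pow_two]

theorem abs_FQ_le (σ : V → V) (d : Dir) (c : V) (l : ℕ) : |FQ σ d c l| ≤ (l : ℝ) ^ 2 := by
  refine (abs_sum_le_sum_abs _ _).trans ?_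
  refine (sum_le_card_nsmul _ _ 1 fun x _ => (abs_fl_le σ _ _).trans (by norm_num)).trans ?_
  simp [card_sq]

theorem local_FQ (d : Dir) (c : V) (l : ℕ) : Local (sq d.1 c l) fun σ => FQ σ d c l := by
  intro σ σ' _ _ h
  exact sum_congr rfl fun x hx => by rw [fl, fl, h x hx]

theorem local_Psi (b w l : ℕ) : Local (box b) (Psi b w l) := by
  intro σ σ' hσ hσ' h
  refine sum_congr rfl fun t ht => sum_congr rfl fun d _ => sum_congr rfl fun p hp => ?_
  have := local_FQ d (corner d t l p) l σ σ' hσ hσ' fun x hx =>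
    h x (box_mono (mem_Ioo.1 ht).2.le (mem_face.1 (sq_corner_subset hp hx)).1)
  exact congrArg (· ^ 2) this

/-- The flux through a square is an affine function of the edge occupations. -/
theorem FQ_affine (d : Dir) (c : V) (l : ℕ) (Λ : Finset V)
    (h : ∀ x ∈ sq d.1 c l, x ∈ Λ ∧ x + dv d ∈ Λ) :
    ∃ (a : ℝ) (s : Edge → ℝ),
      (∀ e, s e ≠ 0 → ∃ x ∈ sq d.1 c l, src e = x + dv d ∨ tgt e = x + dv d) ∧
      ∀ ρ, IsExt ρ → FQ ρ d c l = a + ∑ e ∈ edges Λ, if ρ (src e) = tgt e then s e else 0 := by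
  classical
  obtain ⟨φ, hφ⟩ : ∃ φ : V → Edge, ∀ x, (src (φ x) = x ∧ tgt (φ x) = x + dv d) ∨
      (src (φ x) = x + dv d ∧ tgt (φ x) = x) := by
    obtain ⟨i, b⟩ := d
    cases b
    · refine ⟨fun x => (x + dv (i, false), i), fun x => Or.inr ⟨rfl, ?_⟩⟩
      rw [tgt_eq]
      exact (congrArg (fun v => x + v + dv (i, true)) (dv_not (i, true))).trans (by simp)
    · exact ⟨fun x => (x, i), fun x => Or.inl ⟨rfl, tgt_eq _⟩⟩
  refine ⟨-(∑ x ∈ sq d.1 c l, sg x) / 6, fun e => ∑ x ∈ sq d.1 c l, if φ x = e then sg x else 0,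
    fun e he => ?_, fun ρ hρ => ?_⟩
  · obtain ⟨x, hx, h1⟩ := exists_ne_zero_of_sum_ne_zero he
    obtain rfl : φ x = e := by
      by_contra k
      exact h1 (if_neg k)
    exact ⟨x, hx, (hφ x).elim (fun k => Or.inr k.2) fun k => Or.inl k.1⟩
  · have h1 : ∀ e : Edge, (if ρ (src e) = tgt e then
        ∑ x ∈ sq d.1 c l, (if φ x = e then sg x else 0) else 0) =
        ∑ x ∈ sq d.1 c l, if φ x = e then (if ρ (src e) = tgt e then sg x else 0) else 0 := by
      intro e
      split_ifs <;> simp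
    simp only [h1]
    rw [sum_comm, neg_div, sum_div, ← sum_neg_distrib, ← sum_add_distrib]
    refine sum_congr rfl fun x hx => ?_
    have h2 : φ x ∈ edges Λ ∧ (ρ (src (φ x)) = tgt (φ x) ↔ ρ x = x + dv d) := by
      rw [mem_edges]
      rcases hφ x with ⟨k1, k2⟩ | ⟨k1, k2⟩ <;> rw [k1, k2]
      · exact ⟨h x hx, Iff.rfl⟩
      · exact ⟨(h x hx).symm, Flux_inv hρ _ _⟩
    rw [sum_ite_eq, if_pos h2.1, if_congr h2.2 rfl rfl, fl]
    split_ifs <;> ring

end Pool.Agent.Work.MP_5cb0a4_pr.Z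
end

-- merged part: Pool.Agent.Work.MP_5cb0a4_pr.N.FluxP
section
open MeasureTheory Finset Filter Topology
open scoped Classical

namespace Pool.Agent.Work.MP_5cb0a4_pr.Z

theorem n1_nonneg (s : Fin 3 → ℝ) : 0 ≤ n1 s := by
  exact sum_nonneg fun i _ => abs_nonneg _

theorem pS_ge {s : Fin 3 → ℝ} {κ : ℝ} (h : n1 s ≤ 1 - κ) (d : Dir) : κ / 6 ≤ pS s d := by
  have := le_max_right (sd s d) 0
  unfold pS
  linarith only [h, this]

theorem pS_nonneg {s : Fin 3 → ℝ} (h : n1 s ≤ 1) (d : Dir) : 0 ≤ pS s d := by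
  have := pS_ge (s := s) (κ := 0) (by linarith) d
  linarith only [this]

lemma NFluxP_max (s : Fin 3 → ℝ) (d : Dir) : max (sd s d) 0 ≤ n1 s := by
  refine max_le ?_ (n1_nonneg s)
  refine le_trans ?_ (single_le_sum (f := fun i => |s i|) (fun i _ => abs_nonneg _) (mem_univ d.1))
  unfold sd
  split_ifs
  · exact le_abs_self _
  · exact neg_le_abs _

theorem pS_le_one {s : Fin 3 → ℝ} (h : n1 s ≤ 1) (d : Dir) : pS s d ≤ 1 := by
  have := NFluxP_max s d
  unfold pS
  linarith only [h, this]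

lemma NFluxP_abs (a : ℝ) : max a 0 + max (-a) 0 = |a| := by
  rcases le_total 0 a with h | h
  · rw [max_eq_left h, max_eq_right (by linarith), abs_of_nonneg h, add_zero]
  · rw [max_eq_right h, max_eq_left (by linarith), abs_of_nonpos h, zero_add]

theorem sum_pS (s : Fin 3 → ℝ) : ∑ d : Dir, pS s d = 1 := by
  have h : ∀ i : Fin 3, ∑ b : Bool, pS s (i, b) = (1 - n1 s) / 3 + |s i| := fun i => by
    rw [Fintype.sum_bool, ← NFluxP_abs]
    simp only [pS, sd, if_true, Bool.false_eq_true, if_false]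
    ring
  rw [Fintype.sum_prod_type, sum_congr rfl fun i _ => h i, sum_add_distrib, sum_const, card_univ,
    Fintype.card_fin, nsmul_eq_mul]
  unfold n1
  push_cast
  ring

theorem pS_sub (s : Fin 3 → ℝ) (d : Dir) : pS s d - pS s (d.1, !d.2) = sd s d := by
  obtain ⟨i, b⟩ := d
  have h : ∀ a : ℝ, max a 0 - max (-a) 0 = a := fun a => by
    rcases le_total 0 a with h | h
    · rw [max_eq_left h, max_eq_right (by linarith), sub_zero]
    · rw [max_eq_right h, max_eq_left (by linarith), zero_sub, neg_neg]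
  have h1 := h (s i)
  cases b <;> simp only [pS, sd, if_true, Bool.false_eq_true, if_false, Bool.not_true,
    Bool.not_false] <;> linarith only [h1]

theorem pe_rev (s : Fin 3 → ℝ) (x : V) (d : Dir) : pe s (x + dv d) (d.1, !d.2) = pe s x d := by
  unfold pe
  by_cases h : IsEven x <;> simp [isEven_add_dv, h]

theorem sum_pe (s : Fin 3 → ℝ) (x : V) : ∑ d : Dir, pe s x d = 1 := by
  unfold pe
  split_ifs
  · exact sum_pS s
  · rw [← sum_pS s]
    exact Fintype.sum_equiv (Equiv.prodCongr (Equiv.refl _) Equiv.boolNot) _ _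
      fun d => rfl

theorem flp_zero (σ : V → V) (x : V) (d : Dir) : flp 0 σ x d = fl σ x (x + dv d) := by
  simp [flp, fl, pe, pS, sd, n1]

theorem FQp_zero (σ : V → V) (d : Dir) (c : V) (l : ℕ) : FQp 0 σ d c l = FQ σ d c l := by
  exact sum_congr rfl fun x _ => flp_zero σ x d

theorem PsO_zero (σ : V → V) (b k l : ℕ) : PsO 0 b k l σ = Psi b (b / k) l σ := by
  simp only [PsO, Psp, lsum, Psi, FQp_zero]

theorem flp_anti {σ : V → V} (hσ : IsExt σ) (s : Fin 3 → ℝ) (x : V) (d : Dir) :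
    flp s σ (x + dv d) (d.1, !d.2) = -flp s σ x d := by
  rw [flp, flp, Flux_sg, pe_rev, dv_not, add_neg_cancel_right,
    if_congr (Flux_inv hσ _ _) rfl rfl]
  ring

lemma NFluxP_pe {s : Fin 3 → ℝ} (h : n1 s ≤ 1) (x : V) (d : Dir) :
    0 ≤ pe s x d ∧ pe s x d ≤ 1 := by
  unfold pe
  split_ifs <;> exact ⟨pS_nonneg h _, pS_le_one h _⟩

lemma NFluxP_sg (x : V) : |sg x| = 1 := by
  unfold sg
  split_ifs <;> simp

theorem abs_flp_le {s : Fin 3 → ℝ} (h : n1 s ≤ 1) (σ : V → V) (x : V) (d : Dir) :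
    |flp s σ x d| ≤ 1 := by
  have := NFluxP_pe h x d
  rw [flp, abs_mul, NFluxP_sg, one_mul, abs_le]
  split_ifs <;> constructor <;> linarith only [this, this.1, this.2]

theorem flp_div {σ : V → V} (hσ : IsExt σ) (s : Fin 3 → ℝ) (x : V) :
    ∑ d : Dir, flp s σ x d = if σ x = x then -sg x else 0 := by
  simp only [flp, ← mul_sum, sum_sub_distrib, sum_pe]
  split_ifs with h
  · rw [sum_eq_zero fun d _ => if_neg (by rw [h]; simpa using dv_ne_zero d)]
    norm_num
  · obtain ⟨d, hd⟩ := nbr_iff.1 ((hσ x).1.resolve_left h)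
    rw [sum_eq_single d (fun d' _ h' => if_neg (by
      rw [hd]; exact fun e => h' (dv_injective (add_left_cancel e)).symm)) (by simp), if_pos hd]
    norm_num

/-- Divergence theorem. -/
theorem div_thmP {σ : V → V} (hσ : IsExt σ) (s : Fin 3 → ℝ) (U : Finset V) :
    ∑ x ∈ U, ∑ d : Dir, (if x + dv d ∈ U then 0 else flp s σ x d) = -∑ x ∈ mon U σ, sg x := by
  have h1 : ∑ x ∈ U, ∑ d : Dir, (if x + dv d ∈ U then flp s σ x d else 0) = 0 := by
    rw [← sum_product', ← sum_filter]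
    refine sum_involution (fun q _ => (q.1 + dv q.2, (q.2.1, !q.2.2))) (fun q _ => ?_)
      (fun q _ _ e => ?_) (fun q hq => ?_) (fun q _ => ?_)
    · simp only [flp_anti hσ, add_neg_cancel]
    · exact dv_ne_zero q.2 (by simpa using congrArg Prod.fst e)
    · simp only [mem_filter, mem_product, mem_univ, and_true, dv_not, add_neg_cancel_right] at hq ⊢
      exact hq.symm
    · simp [dv_not]
  have h2 : ∑ x ∈ U, ∑ d : Dir, flp s σ x d = -∑ x ∈ mon U σ, sg x := by
    rw [mon, sum_filter, ← sum_neg_distrib]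
    refine sum_congr rfl fun x _ => ?_
    rw [flp_div hσ]
    split_ifs <;> simp
  rw [← h2]
  refine ((zero_add _).symm.trans (congrArg (· + _) h1.symm)).trans ?_
  rw [← sum_add_distrib]
  refine sum_congr rfl fun x _ => ?_
  rw [← sum_add_distrib]
  refine sum_congr rfl fun d _ => ?_
  split_ifs <;> simp

theorem Outp_eq (s : Fin 3 → ℝ) (σ : V → V) (S : Finset V) {t : ℕ} (ht : 1 ≤ t) :
    Outp s σ S t = ∑ d : Dir, ∑ x ∈ sq d.1 (corner d t 0 (0, 0)) (2 * t + 1) ∩ S, flp s σ x d := by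
  rw [Outp, sum_comm]
  refine sum_congr rfl fun d _ => ?_
  rw [sum_ite, sum_const_zero, zero_add]
  refine sum_congr ?_ fun _ _ => rfl
  ext x
  simp only [mem_filter, mem_inter, mem_lev, Flux_face]
  refine ⟨fun h => ⟨⟨h.1.1.1, h.2⟩, h.1.2⟩, fun h => ⟨⟨⟨h.1.1, fun k => h.1.2 ?_⟩, h.2⟩, h.1.2⟩⟩
  have := add_dv_mem_box k d
  rwa [Nat.sub_add_cancel ht] at this

theorem Php_eq {σ : V → V} (hσ : IsExt σ) (s : Fin 3 → ℝ) (t : ℕ) :
    Php s σ t = -∑ x ∈ mon (box t) σ, sg x := by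
  rw [← div_thmP hσ s, Php, sum_comm]
  refine sum_congr rfl fun d _ => ?_
  rw [sum_ite, sum_const_zero, zero_add, FQp]
  refine sum_congr ?_ fun _ _ => rfl
  ext x
  rw [mem_filter, Flux_face]

theorem abs_FQp_le {s : Fin 3 → ℝ} (h : n1 s ≤ 1) (σ : V → V) (d : Dir) (c : V) (l : ℕ) :
    |FQp s σ d c l| ≤ (l : ℝ) ^ 2 := by
  refine (abs_sum_le_sum_abs _ _).trans ?_
  refine (sum_le_card_nsmul _ _ 1 fun x _ => abs_flp_le h σ _ _).trans ?_
  simp [card_sq]

theorem local_FQp (s : Fin 3 → ℝ) (d : Dir) (c : V) (l : ℕ) :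
    Local (sq d.1 c l) fun σ => FQp s σ d c l := by
  intro σ σ' _ _ h
  exact sum_congr rfl fun x hx => by rw [flp, flp, h x hx]

theorem sq_corner_box {d : Dir} {t l : ℕ} {p : ℕ × ℕ} (hp : p ∈ sqs t l) :
    sq d.1 (corner d t l p) l ⊆ box t := by
  exact fun x hx => (mem_face.1 (sq_corner_subset hp hx)).1

theorem local_Psp (s : Fin 3 → ℝ) (lo hi l : ℕ) : Local (box hi) (Psp s lo hi l) := by
  intro σ σ' hσ hσ' h
  unfold Psp lsum
  refine sum_congr rfl fun t ht => sum_congr rfl fun d _ => sum_congr rfl fun p hp => ?_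
  have := local_FQp s d (corner d t l p) l σ σ' hσ hσ' fun x hx =>
    h x (box_mono (mem_Ioo.1 ht).2.le (sq_corner_box hp hx))
  exact congrArg (· ^ 2) this

theorem Psp_nonneg (s : Fin 3 → ℝ) (lo hi l : ℕ) (σ : V → V) : 0 ≤ Psp s lo hi l σ := by
  unfold Psp lsum
  exact sum_nonneg fun _ _ => sum_nonneg fun _ _ => sum_nonneg fun _ _ => sq_nonneg _

theorem sum_sq_tr (g : V → ℝ) (i : Fin 3) (c v : V) (l : ℕ) :
    ∑ x ∈ sq i (c + v) l, g x = ∑ x ∈ sq i c l, g (x + v) := by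
  refine (sum_equiv (Equiv.addRight v) (fun x => ?_) fun x _ => rfl).symm
  simp only [mem_sq, Equiv.coe_addRight, Pi.add_apply]
  refine and_congr (by omega) (forall₂_congr fun j _ => by omega)

theorem FQp_sh (s : Fin 3 → ℝ) (σ : V → V) {v : V} (hv : IsEven v) (d : Dir) (c : V) (l : ℕ) :
    FQp s (sh (-v) σ) d c l = FQp s σ d (c + v) l := by
  rw [FQp, FQp, sum_sq_tr]
  refine sum_congr rfl fun x _ => ?_
  have e : IsEven (x + v) ↔ IsEven x := by
    rw [isEven_add]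
    tauto
  have e1 : sh (-v) σ x = x + dv d ↔ σ (x + v) = x + v + dv d := by
    rw [sh, sub_neg_eq_add, add_neg_eq_iff_eq_add, add_right_comm]
  rw [flp, flp, sg, sg, pe, pe, if_congr e1 rfl rfl, if_congr e rfl rfl, if_congr e rfl rfl]

theorem FQp_rev {σ : V → V} (hσ : IsExt σ) (s : Fin 3 → ℝ) (d : Dir) (c : V) (l : ℕ) :
    FQp s σ (d.1, !d.2) (c + dv d) l = -FQp s σ d c l := by
  rw [FQp, FQp, sum_sq_tr, ← sum_neg_distrib]
  exact sum_congr rfl fun x _ => flp_anti hσ s x d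

/-- An odd translation reverses the flux. -/
theorem FQ_sh_e0 (σ : V → V) (d : Dir) (c : V) (l : ℕ) :
    FQ (sh e0 σ) d c l = -FQ σ d (c - e0) l := by
  conv_lhs => rw [← sub_add_cancel c e0]
  rw [FQ, FQ, sum_sq_tr, ← sum_neg_distrib]
  refine sum_congr rfl fun x _ => ?_
  have e : sg (x + e0) = -sg x := by rw [e0_eq, Flux_sg]
  have e1 : sh e0 σ (x + e0) = x + e0 + dv d ↔ σ x = x + dv d := by
    rw [sh, add_sub_cancel_right, add_right_comm, add_left_inj]
  rw [fl, fl, e, if_congr e1 rfl rfl]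
  ring

lemma NFluxP_line (c : ℤ) (l : ℕ) : ∑ a ∈ Finset.Ico c (c + l), (if Even a then (1 : ℝ) else -1) =
    ((if Even c then 1 else -1) - if Even (c + l) then 1 else -1) / 2 := by
  induction l with
  | zero => simp
  | succ l ih =>
    have e : Finset.Ico c (c + ((l + 1 : ℕ) : ℤ)) = insert (c + l) (Finset.Ico c (c + l)) := by
      ext a
      simp only [mem_Ico, mem_insert]
      omega
    rw [e, sum_insert (by simp), ih, Nat.cast_succ, ← add_assoc]
    simp only [Int.even_add_one]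
    split_ifs <;> ring

lemma NFluxP_sum_sg (i : Fin 3) (c : V) (l : ℕ) : |∑ x ∈ sq i c l, sg x| ≤ 1 := by
  have e : ∀ x : V, sg x = ∏ j, (if Even (x j) then (1 : ℝ) else -1) := fun x => by
    simp only [sg, IsEven, Fin.sum_univ_three, Fin.prod_univ_three, Int.even_add]
    by_cases h0 : Even (x 0) <;> by_cases h1 : Even (x 1) <;> by_cases h2 : Even (x 2) <;>
      simp [h0, h1, h2]
  rw [sum_congr rfl fun x _ => e x, sq,
    ← prod_univ_sum (f := fun _ a => if Even a then (1 : ℝ) else -1), abs_prod]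
  refine prod_le_one (fun _ _ => abs_nonneg _) fun j _ => ?_
  split_ifs
  · rw [sum_singleton]
    split_ifs <;> simp
  · rw [NFluxP_line]
    split_ifs <;> norm_num

theorem FQp_sub_FQ {s : Fin 3 → ℝ} (h : n1 s ≤ 1) (σ : V → V) (d : Dir) (c : V) (l : ℕ) :
    |FQp s σ d c l - (FQ σ d c l - sd s d * (l : ℝ) ^ 2 / 2)| ≤ 1 := by
  have e : FQp s σ d c l - (FQ σ d c l - sd s d * (l : ℝ) ^ 2 / 2) =
      -(∑ x ∈ sq d.1 c l, sg x) * ((pS s d + pS s (d.1, !d.2)) / 2 - 1 / 6) := by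
    have e1 : sd s d * (l : ℝ) ^ 2 / 2 = ∑ _x ∈ sq d.1 c l, sd s d / 2 := by
      rw [sum_const, card_sq, nsmul_eq_mul]
      push_cast
      ring
    rw [e1, FQp, FQ, ← sum_sub_distrib, ← sum_sub_distrib, neg_mul, sum_mul, ← sum_neg_distrib]
    refine sum_congr rfl fun x _ => ?_
    rw [flp, fl, pe, sg, ← pS_sub]
    by_cases hx : IsEven x
    · simp only [if_pos hx]
      ring
    · simp only [if_neg hx]
      ring
  rw [e, abs_mul, abs_neg]
  refine mul_le_one₀ (NFluxP_sum_sg _ _ _) (abs_nonneg _) (abs_le.2 ⟨?_, ?_⟩)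
  · linarith only [h, pS_nonneg h d, pS_nonneg h (d.1, !d.2)]
  · linarith only [h, pS_le_one h d, pS_le_one h (d.1, !d.2)]

theorem FQp_crude (s : Fin 3 → ℝ) (σ : V → V) (d : Dir) (c : V) (l : ℕ) :
    |FQp s σ d c l - FQ σ d c l| ≤ n1 s * (l : ℝ) ^ 2 := by
  have k : ∀ d, |pS s d - 1 / 6| ≤ n1 s := fun d => by
    have h1 := NFluxP_max s d
    have h2 := le_max_right (sd s d) 0
    have h3 := n1_nonneg s
    rw [pS, abs_le]
    constructor <;> linarith only [h1, h2]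
  rw [FQp, FQ, ← sum_sub_distrib]
  refine (abs_sum_le_sum_abs _ _).trans ((sum_le_card_nsmul _ _ (n1 s) fun x _ => ?_).trans ?_)
  · rw [flp, fl, ← mul_sub, abs_mul, NFluxP_sg, one_mul, sub_sub_sub_cancel_left, abs_sub_comm, pe]
    split_ifs <;> exact k _
  · rw [card_sq, nsmul_eq_mul, mul_comm]
    push_cast
    exact le_rfl

lemma NFluxP_lat (i : Fin 3) (c : V) (l : ℕ) (d : Dir) (hd : d.1 ≠ i) :
    ((sq i c l).filter fun x => x + dv d ∉ sq i c l).card ≤ l := by
  obtain ⟨k, k1, k3⟩ : ∃ k : Fin 3, k ≠ i ∧ ∀ a, a = i ∨ a = d.1 ∨ a = k := by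
    revert hd
    generalize d.1 = j
    revert i j
    decide
  have e1 : ∀ x : V, (x + dv d) d.1 = x d.1 + if d.2 then 1 else -1 := fun x => by simp [dv]
  have e2 : ∀ (x : V) j, j ≠ d.1 → (x + dv d) j = x j := fun x j hj => by simp [dv, hj]
  have key : ∀ x ∈ (sq i c l).filter fun x => x + dv d ∉ sq i c l,
      x d.1 = if d.2 then c d.1 + l - 1 else c d.1 := fun x hx => by
    obtain ⟨h1, h2⟩ := mem_filter.1 hx
    rw [mem_sq] at h1 h2
    by_contra hc
    refine h2 ⟨by rw [e2 x i hd.symm, h1.1], fun j hj => ?_⟩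
    by_cases hj' : j = d.1
    · have := h1.2 _ hd
      rw [hj', e1]
      split_ifs at hc ⊢ <;> omega
    · rw [e2 x j hj']
      exact h1.2 j hj
  refine (card_le_card_of_injOn (t := Finset.Ico (c k) (c k + l)) (fun x => x k)
    (fun x hx => ?_) fun x hx y hy hxy => funext fun a => ?_).trans (by simp)
  · exact mem_coe.2 (mem_Ico.2 ((mem_sq.1 (mem_filter.1 hx).1).2 k k1))
  · rcases k3 a with rfl | rfl | rfl
    · rw [(mem_sq.1 (mem_filter.1 hx).1).1, (mem_sq.1 (mem_filter.1 hy).1).1]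
    · rw [key x hx, key y hy]
    · exact hxy

lemma NFluxP_top (d : Dir) (c : V) (l : ℕ) {x : V} (hx : x ∈ sq d.1 c l) :
    x + dv d ∉ sq d.1 c l := fun h => by
  have h1 := (mem_sq.1 hx).1
  have h2 := (mem_sq.1 h).1
  have e1 : (x + dv d) d.1 = x d.1 + if d.2 then 1 else -1 := by simp [dv]
  rw [e1] at h2
  split_ifs at h2 <;> omega

theorem FQp_step {s : Fin 3 → ℝ} (h : n1 s ≤ 1) {σ : V → V} (hσ : IsExt σ) (d : Dir) (c : V)
    (l : ℕ) (hm : ∀ x ∈ sq d.1 (c + dv d) l, σ x ≠ x) :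
    |FQp s σ d (c + dv d) l - FQp s σ d c l| ≤ 8 * l + 4 := by
  have h0 := div_thmP hσ s (sq d.1 (c + dv d) l)
  rw [mon, filter_eq_empty_iff.2 hm, sum_empty, neg_zero, sum_comm] at h0
  have hne : (d.1, !d.2) ∈ univ.erase d := mem_erase.2 ⟨fun e => by
    have := congrArg Prod.snd e
    simp at this, mem_univ _⟩
  rw [← add_sum_erase _ _ (mem_univ d), ← add_sum_erase _ _ hne,
    sum_congr rfl fun x hx => if_neg (NFluxP_top d _ l hx),
    sum_congr rfl fun x hx => if_neg (NFluxP_top (d.1, !d.2) _ l hx)] at h0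
  have h1 := FQp_rev hσ s d c l
  have h2 : |∑ d' ∈ (univ.erase d).erase (d.1, !d.2), ∑ x ∈ sq d.1 (c + dv d) l,
      (if x + dv d' ∈ sq d.1 (c + dv d) l then 0 else flp s σ x d')| ≤ 6 * l := by
    refine (abs_sum_le_sum_abs _ _).trans ((sum_le_card_nsmul _ _ (l : ℝ) fun d' hd' => ?_).trans ?_)
    · have hd : d'.1 ≠ d.1 := fun e => by
        obtain ⟨a, b⟩ := mem_erase.1 hd'
        have b' := (mem_erase.1 b).1
        by_cases k : d'.2 = d.2
        · exact b' (Prod.ext e k)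
        · exact a (Prod.ext e (Bool.eq_not.2 k))
      rw [sum_ite, sum_const_zero, zero_add]
      refine (abs_sum_le_sum_abs _ _).trans
        ((sum_le_card_nsmul _ _ 1 fun x _ => abs_flp_le h σ _ _).trans ?_)
      rw [nsmul_eq_mul, mul_one]
      exact_mod_cast NFluxP_lat d.1 (c + dv d) l d' hd
    · rw [nsmul_eq_mul]
      refine mul_le_mul_of_nonneg_right ?_ l.cast_nonneg
      have := card_le_univ ((univ.erase d).erase (d.1, !d.2))
      rw [Fintype.card_prod, Fintype.card_fin, Fintype.card_bool] at this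
      exact_mod_cast this
  simp only [FQp] at h1 ⊢
  have h3 : (0 : ℝ) ≤ l := l.cast_nonneg
  rw [abs_le] at h2 ⊢
  constructor <;> linarith only [h0, h1, h2, h2.1, h2.2]

lemma NFluxP_iter {s : Fin 3 → ℝ} (h : n1 s ≤ 1) {σ : V → V} (hσ : IsExt σ) (d : Dir) (c : V)
    (l n : ℕ) (hm : ∀ x : V, (∀ j, j ≠ d.1 → c j ≤ x j ∧ x j < c j + l) →
      c d.1 - n ≤ x d.1 → x d.1 ≤ c d.1 → σ x ≠ x) :
    |FQp s σ d (Function.update c d.1 (c d.1 - n)) l - FQp s σ d c l| ≤ n * (8 * l + 4) := by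
  induction n with
  | zero => simp
  | succ n ih =>
    have h1 := ih fun x a b c => hm x a (by omega) c
    have hm' : ∀ k : ℕ, k ≤ n + 1 → ∀ x ∈ sq d.1 (Function.update c d.1 (c d.1 - k)) l,
        σ x ≠ x := fun k hk x hx => by
      obtain ⟨a, b⟩ := mem_sq.1 hx
      rw [Function.update_self] at a
      refine hm x (fun j hj => ?_) (by omega) (by omega)
      have := b j hj
      rwa [Function.update_of_ne hj] at this
    have h2 : |FQp s σ d (Function.update c d.1 (c d.1 - (n + 1 : ℕ))) l -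
        FQp s σ d (Function.update c d.1 (c d.1 - n)) l| ≤ 8 * l + 4 := by
      by_cases hd : d.2 = true
      · have e : Function.update c d.1 (c d.1 - (n + 1 : ℕ)) + dv d =
            Function.update c d.1 (c d.1 - n) := funext fun j => by
          by_cases hj : j = d.1
          · subst hj
            simp [dv, hd]
            ring
          · simp [dv, hj]
        have := FQp_step h hσ d (Function.update c d.1 (c d.1 - (n + 1 : ℕ))) l (by
          rw [e]
          exact hm' n (by omega))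
        rwa [e, abs_sub_comm] at this
      · have e : Function.update c d.1 (c d.1 - n) + dv d =
            Function.update c d.1 (c d.1 - (n + 1 : ℕ)) := funext fun j => by
          by_cases hj : j = d.1
          · subst hj
            simp [dv, hd]
            ring
          · simp [dv, hj]
        have := FQp_step h hσ d (Function.update c d.1 (c d.1 - n)) l (by
          rw [e]
          exact hm' (n + 1) le_rfl)
        rwa [e] at this
    refine (abs_sub_le _ (FQp s σ d (Function.update c d.1 (c d.1 - n)) l) _).trans ?_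
    refine (add_le_add h2 h1).trans_eq ?_
    push_cast
    ring

theorem FQp_pj {s : Fin 3 → ℝ} (h : n1 s ≤ 1) {σ : V → V} (hσ : IsExt σ) (m : ℕ) (d : Dir) (c : V)
    (l : ℕ) (hm : ∀ x : V, (∀ j, j ≠ d.1 → c j ≤ x j ∧ x j < c j + l) →
      c d.1 - (2 * m + 2) ≤ x d.1 → x d.1 ≤ c d.1 → σ x ≠ x) :
    |FQp s σ d (pj m d c) l - FQp s σ d c l| ≤ (2 * m + 2) * (8 * l + 4) := by
  have h1 := Int.emod_nonneg (c d.1 - (m + 1)) (b := 2 * (m : ℤ) + 2) (by omega)
  have h2 := Int.emod_lt_of_pos (c d.1 - (m + 1)) (b := 2 * (m : ℤ) + 2) (by omega)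
  obtain ⟨n, hn⟩ := Int.eq_ofNat_of_zero_le h1
  rw [pj, hn]
  rw [hn] at h2
  refine (NFluxP_iter h hσ d c l n fun x a b c => hm x a (by omega) c).trans ?_
  have : (n : ℝ) ≤ 2 * m + 2 := by exact_mod_cast h2.le
  exact mul_le_mul_of_nonneg_right this (by positivity)

theorem gap_pj {m : ℕ} {d : Dir} {c x : V} {l : ℕ} (h : x ∈ sq d.1 (pj m d c) l) : Gap m x := by
  refine ⟨d.1, ?_⟩
  rw [(mem_sq.1 h).1, pj, Function.update_self, sub_right_comm]
  exact Int.dvd_self_sub_of_emod_eq rfl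

/-- The centred flux is an affine function of the edge occupations. -/
theorem FQp_affine (s : Fin 3 → ℝ) (d : Dir) (c : V) (l : ℕ) (Λ : Finset V)
    (h : ∀ x ∈ sq d.1 c l, x ∈ Λ ∧ x + dv d ∈ Λ) :
    ∃ (a : ℝ) (r : Edge → ℝ),
      (∀ e, r e ≠ 0 → ∃ x ∈ sq d.1 c l, src e = x + dv d ∨ tgt e = x + dv d) ∧
      ∀ ρ, IsExt ρ → FQp s ρ d c l = a + ∑ e ∈ edges Λ, if ρ (src e) = tgt e then r e else 0 := by
  obtain ⟨a, r, h1, h2⟩ := FQ_affine d c l Λ h
  refine ⟨a - ∑ x ∈ sq d.1 c l, sg x * (pe s x d - 1 / 6), r, h1, fun ρ hρ => ?_⟩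
  rw [sub_add_eq_add_sub, ← h2 ρ hρ, FQp, FQ, ← sum_sub_distrib]
  refine sum_congr rfl fun x _ => ?_
  rw [flp, fl]
  ring

theorem SQ_un2 (s : Fin 3 → ℝ) (ρ₁ ρ₂ : V → V) (d : Dir) (c : V) (l : ℕ) :
    SQ s (un2 ρ₁ ρ₂) d c l = FQp s ρ₁ d c l + FQp s ρ₂ d c l := by
  rw [SQ, FQp, FQp, ← sum_add_distrib]
  refine sum_congr rfl fun x _ => ?_
  rw [flp, flp, un2]
  by_cases h1 : ρ₁ x = x + dv d <;> by_cases h2 : ρ₂ x = x + dv d
  · simp only [h1, h2, if_true]
    ring
  · rw [if_neg (by simp [h2]), if_pos (by simp [h1]), if_pos h1, if_neg h2]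
    ring
  · rw [if_neg (by simp [h1]), if_pos (by simp [h2]), if_neg h1, if_pos h2]
    ring
  · rw [if_neg (by simp [h1]), if_neg (by simp [Ne.symm h1, Ne.symm h2]), if_neg h1, if_neg h2]
    ring

theorem Jd_eq (s : Fin 3 → ℝ) (ρ₁ ρ₂ : V → V) (x : V) (d : Dir) :
    Jd ρ₁ ρ₂ x d = flp s ρ₁ x d - flp s ρ₂ x d := by
  rw [Jd, flp, flp]
  ring

theorem abs_Jd_le (ρ₁ ρ₂ : V → V) (x : V) (d : Dir) : |Jd ρ₁ ρ₂ x d| ≤ 1 := by
  rw [Jd, abs_mul, NFluxP_sg, one_mul]
  split_ifs <;> norm_num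

theorem lsum_mono {lo hi l : ℕ} {f g : Dir → V → ℝ}
    (h : ∀ t ∈ Finset.Ioo lo hi, ∀ d, ∀ p ∈ sqs t l, f d (corner d t l p) ≤ g d (corner d t l p)) :
    lsum lo hi l f ≤ lsum lo hi l g := by
  exact sum_le_sum fun t ht => sum_le_sum fun d _ => sum_le_sum fun p hp => h t ht d p hp

theorem lsum_add (lo hi l : ℕ) (f g : Dir → V → ℝ) :
    lsum lo hi l (fun d c => f d c + g d c) = lsum lo hi l f + lsum lo hi l g := by
  simp only [lsum, sum_add_distrib]

theorem lsum_mul (lo hi l : ℕ) (a : ℝ) (f : Dir → V → ℝ) :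
    lsum lo hi l (fun d c => a * f d c) = a * lsum lo hi l f := by
  simp only [lsum, mul_sum]

/-- The number of squares is at most `24 hi ^ 3 / l ^ 2`. -/
theorem lsum_const (lo hi l : ℕ) {a : ℝ} (ha : 0 ≤ a) :
    lsum lo hi l (fun _ _ => a * (l : ℝ) ^ 2) ≤ 24 * a * (hi : ℝ) ^ 3 := by
  refine (sum_le_card_nsmul _ _ (24 * a * (hi : ℝ) ^ 2) fun t ht => ?_).trans ?_
  · have h1 : (2 * t + 1) / l * l ≤ 2 * hi :=
      (Nat.div_mul_le_self _ _).trans (by have := (mem_Ioo.1 ht).2; omega)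
    have h2 : (((2 * t + 1) / l : ℕ) : ℝ) * l ≤ 2 * hi := by exact_mod_cast h1
    have h3 := pow_le_pow_left₀ (by positivity) h2 2
    simp only [sum_const, sqs, card_product, card_range, card_univ, Fintype.card_prod,
      Fintype.card_fin, Fintype.card_bool, nsmul_eq_mul, Nat.cast_mul, Nat.cast_ofNat]
    linarith only [h3, ha, mul_le_mul_of_nonneg_left h3 ha]
  · have h1 : ((Finset.Ioo lo hi).card : ℝ) ≤ hi := by
      rw [Nat.card_Ioo]
      exact_mod_cast (by omega : hi - lo - 1 ≤ hi)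
    rw [nsmul_eq_mul]
    refine (mul_le_mul_of_nonneg_right h1 (by positivity)).trans_eq ?_
    ring

theorem card_grid (m J : ℕ) : (grid m J).card = (2 * J + 1) ^ 3 := by
  have hinj : Function.Injective fun j : V => fun i => (2 * (m : ℤ) + 2) * j i := by
    intro j j' h
    funext i
    exact mul_left_cancel₀ (by positivity) (congrFun h i)
  rw [grid, card_image_of_injective _ hinj]
  exact card_box J

theorem grid_even {m J : ℕ} {c : V} (h : c ∈ grid m J) : IsEven c := by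
  obtain ⟨j, -, rfl⟩ := mem_image.1 h
  simp only [IsEven, ← mul_sum]
  exact Even.mul_right ⟨(m : ℤ) + 1, by ring⟩ _

theorem grid_sub {m J : ℕ} {c : V} (h : c ∈ grid m J) :
    tr c (box m) ⊆ box ((2 * m + 2) * J + m) := by
  intro x hx
  obtain ⟨j, hj, rfl⟩ := mem_image.1 h
  refine mem_box.2 fun i => ?_
  have h1 := mem_box.1 (mem_tr.1 hx) i
  have h2 := (mem_box (t := J)).1 hj i
  simp only [Pi.sub_apply] at h1
  push_cast
  constructor <;> linarith only [h1, h2, h1.1, h1.2, h2.1, h2.2, mul_nonneg_of_nonpos_of_nonpos (Mathlib.Tactic.Linarith.sub_nonpos_of_le (Mathlib.Tactic.Linarith.natCast_nonneg ℤ m)) (Mathlib.Tactic.Linarith.sub_nonpos_of_le h2.left), mul_nonneg_of_nonpos_of_nonpos (Mathlib.Tactic.Linarith.sub_nonpos_of_le (Mathlib.Tactic.Linarith.natCast_nonneg ℤ m)) (Mathlib.Tactic.Linarith.sub_nonpos_of_le h2.right)]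

theorem grid_mem_box {m J : ℕ} {c : V} (h : c ∈ grid m J) : c ∈ box ((2 * m + 2) * J) := by
  obtain ⟨j, hj, rfl⟩ := mem_image.1 h
  refine mem_box.2 fun i => ?_
  have h2 := (mem_box (t := J)).1 hj i
  push_cast
  constructor <;> linarith only [h2, h2.1, h2.2, mul_nonneg_of_nonpos_of_nonpos (Mathlib.Tactic.Linarith.sub_nonpos_of_le (Mathlib.Tactic.Linarith.natCast_nonneg ℤ m)) (Mathlib.Tactic.Linarith.sub_nonpos_of_le h2.left), mul_nonneg_of_nonpos_of_nonpos (Mathlib.Tactic.Linarith.sub_nonpos_of_le (Mathlib.Tactic.Linarith.natCast_nonneg ℤ m)) (Mathlib.Tactic.Linarith.sub_nonpos_of_le h2.right)]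

theorem grid_disj {m J : ℕ} {c c' : V} (h : c ∈ grid m J) (h' : c' ∈ grid m J) (hne : c ≠ c') :
    Disjoint (tr c (box m)) (tr c' (box m)) := by
  obtain ⟨j, -, rfl⟩ := mem_image.1 h
  obtain ⟨j', -, rfl⟩ := mem_image.1 h'
  refine disjoint_left.2 fun x hx hx' => hne ?_
  funext i
  have h1 := mem_box.1 (mem_tr.1 hx) i
  have h2 := mem_box.1 (mem_tr.1 hx') i
  simp only [Pi.sub_apply] at h1 h2
  have : j i = j' i := by
    by_contra hn
    rcases lt_or_gt_of_ne hn with h | h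
    · have : j i + 1 ≤ j' i := h
      linarith only [h1, h2, h, h1.1, h1.2, h2.1, h2.2, mul_nonneg_of_nonpos_of_nonpos (Mathlib.Tactic.Linarith.sub_nonpos_of_le (Mathlib.Tactic.Linarith.natCast_nonneg ℤ m)) (Mathlib.Tactic.Linarith.sub_nonpos_of_le (Int.add_one_le_iff.mpr h))]
    · have : j' i + 1 ≤ j i := h
      linarith only [h1, h2, h, h1.1, h1.2, h2.1, h2.2, mul_nonneg_of_nonpos_of_nonpos (Mathlib.Tactic.Linarith.sub_nonpos_of_le (Mathlib.Tactic.Linarith.natCast_nonneg ℤ m)) (Mathlib.Tactic.Linarith.sub_nonpos_of_le (Int.add_one_le_iff.mpr h))]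
  simp [this]

theorem grid_not_gap {m J : ℕ} {c x : V} (h : c ∈ grid m J) (hx : x ∈ tr c (box m)) :
    ¬ Gap m x := by
  obtain ⟨j, -, rfl⟩ := mem_image.1 h
  rintro ⟨i, hi⟩
  have h1 := mem_box.1 (mem_tr.1 hx) i
  simp only [Pi.sub_apply] at h1
  have h2 := (dvd_mul_right (2 * (m : ℤ) + 2) (j i)).sub hi
  have h3 := Int.le_of_dvd (by omega) h2
  omega

theorem grid_nc {b L R : ℕ} (h : R + b ≤ L) {c : V} (hc : c ∈ grid b (nc b L R)) :
    tr c (box b) ⊆ box (L - R) := by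
  refine (grid_sub hc).trans (box_mono ?_)
  have := Nat.mul_div_le (L - R - b) (2 * b + 2)
  unfold nc
  omega

end Pool.Agent.Work.MP_5cb0a4_pr.Z
end

-- merged part: Pool.Agent.Work.MP_5cb0a4_pr.Z.Ergo
section
open MeasureTheory Finset MvPolynomial Filter Topology

namespace Pool.Agent.Work.MP_5cb0a4_pr.Z

section Squares

variable {H : Type} [NormedAddCommGroup H] {g : V → H} {i j : Fin 3} {c c' : V} {l : ℕ}

lemma Ergo_sq (g : V → H) (i : Fin 3) (c : V) (l : ℕ) : ∑ x ∈ sq i c l, g x =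
    ∑ a ∈ range l, ∑ b ∈ range l, g (c + Pi.single (i + 1) (a : ℤ) + Pi.single (i + 2) (b : ℤ)) := by
  rw [← sum_product']
  refine sum_nbij' (fun x => ((x (i + 1) - c (i + 1)).toNat, (x (i + 2) - c (i + 2)).toNat))
    (fun p => c + Pi.single (i + 1) (p.1 : ℤ) + Pi.single (i + 2) (p.2 : ℤ)) ?_ ?_ ?_ ?_ ?_
  rotate_right
  · intro x hx
    congr 1
    fin_cases i <;> simp [mem_sq, Fin.forall_fin_succ, funext_iff] at hx ⊢ <;> omega
  all_goals
    intro x hx
    fin_cases i <;> simp [mem_sq, Fin.forall_fin_succ, funext_iff] at hx ⊢ <;> omega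

lemma Ergo_tr (g : V → H) (i : Fin 3) (c v : V) (l : ℕ) :
    ∑ x ∈ sq i (c + v) l, g x = ∑ x ∈ sq i c l, g (x + v) := by
  simp only [Ergo_sq, add_right_comm _ v]

lemma Ergo_succ (hg : ∀ x, ‖g x‖ ≤ 1) (h : sq i c' l ⊆ sq i c (l + 1)) :
    ‖∑ x ∈ sq i c (l + 1), g x - ∑ x ∈ sq i c' l, g x‖ ≤ 2 * l + 1 := by
  rw [← sum_sdiff_eq_sub h]
  refine (norm_sum_le_of_le _ fun x _ => hg x).trans (le_of_eq ?_)
  rw [sum_const, nsmul_one, cast_card_sdiff h, card_sq, card_sq]
  push_cast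
  ring

lemma Ergo_sub : sq i c l ⊆ sq i c (l + 1) := fun x hx => by
  rw [mem_sq] at hx ⊢
  exact ⟨hx.1, fun j hj => by have := hx.2 j hj; omega⟩

lemma Ergo_plane (hg : ∀ x, ‖g x‖ ≤ 1) (hj : j ≠ i) (c : V) (l : ℕ) :
    ‖∑ x ∈ sq i (c + Pi.single j 1) l, g x - ∑ x ∈ sq i c l, g x‖ ≤ 4 * l + 2 := by
  have h1 := Ergo_succ hg (Ergo_sub (i := i) (c := c) (l := l))
  have h2 := Ergo_succ hg (i := i) (c' := c + Pi.single j 1) (c := c) (l := l) fun x hx => by
    rw [mem_sq] at hx ⊢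
    refine ⟨by simpa [hj.symm] using hx.1, fun k hk => ?_⟩
    have := hx.2 k hk
    simp only [Pi.add_apply, Pi.single_apply] at this
    split_ifs at this <;> omega
  rw [norm_sub_rev] at h2
  linarith only [h1, h2, norm_sub_le_norm_sub_add_norm_sub (∑ x ∈ sq i (c + Pi.single j 1) l, g x)
    (∑ x ∈ sq i c (l + 1), g x) (∑ x ∈ sq i c l, g x)]

end Squares

section Hilbert

variable {H : Type} [NormedAddCommGroup H] [InnerProductSpace ℝ H] [CompleteSpace H]

lemma Ergo_av (A : H →L[ℝ] H) (hA : ‖A‖ ≤ 1) {y : ℕ → H} {z : H} (hy : Tendsto y atTop (𝓝 z)) :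
    ∃ G, Tendsto (fun m => birkhoffAverage ℝ A id m (y m)) atTop (𝓝 G) := by
  refine ⟨_, (A.tendsto_birkhoffAverage_orthogonalProjection hA z).congr_dist
    (squeeze_zero (fun _ => dist_nonneg) (fun m => ?_) (tendsto_iff_dist_tendsto_zero.1 hy))⟩
  refine (dist_birkhoffAverage_birkhoffAverage_le ..).trans (div_le_of_le_mul₀ m.cast_nonneg
    dist_nonneg ((sum_le_card_nsmul _ _ (dist (y m) z) fun k _ => ?_).trans_eq (by simp [mul_comm])))
  simpa [dist_comm] using ((A.lipschitz.weaken (K' := 1) hA).iterate k).dist_le_mul z (y m)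

omit [CompleteSpace H] in
lemma Ergo_bs {A : H →L[ℝ] H} {j : Fin 3} {ψ : V → H}
    (h : ∀ x, A (ψ x) = ψ (x + Pi.single j 2)) (c : V) (m : ℕ) :
    birkhoffAverage ℝ A id m (ψ c + ψ (c + Pi.single j 1)) =
      (m : ℝ)⁻¹ • ∑ a ∈ range (2 * m), ψ (c + Pi.single j (a : ℤ)) := by
  have h1 : ∀ (k : ℕ) x, A^[k] (ψ x) = ψ (x + Pi.single j (2 * k : ℤ)) := fun k x => by
    induction k with
    | zero => simp
    | succ k ih =>
      rw [Function.iterate_succ_apply', ih, h, add_assoc, ← Pi.single_add]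
      congr 3
  rw [birkhoffAverage, birkhoffSum]
  congr 1
  induction m with
  | zero => simp
  | succ m ih =>
    rw [sum_range_succ, ih, mul_add, mul_one, sum_range_succ, sum_range_succ, id, iterate_map_add,
      h1, h1, add_assoc c, ← Pi.single_add, add_assoc]
    push_cast
    rw [add_comm 1]

lemma Ergo_even (j : Fin 3) : IsEven (Pi.single j 2) := by simp [IsEven]

lemma Ergo_hil {φ : V → H} {i : Fin 3} (U : ∀ v, IsEven v → H →L[ℝ] H)
    (h1 : ∀ v hv, ‖U v hv‖ ≤ 1) (h2 : ∀ v hv x, U v hv (φ x) = φ (x + v)) (h3 : ∀ x, ‖φ x‖ ≤ 1)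
    (h4 : ∀ c l, ‖∑ x ∈ sq i (c + Pi.single i 1) l, φ x - ∑ x ∈ sq i c l, φ x‖ ≤ 8 * l + 4)
    (h5 : ∀ G, (∀ v hv, U v hv G = G) → ∀ x, Inner.inner ℝ G (φ x + φ (x + e0)) = 0)
    {ε : ℝ} (hε : 0 < ε) : ∀ᶠ l : ℕ in atTop, ∀ c, ‖∑ x ∈ sq i c l, φ x‖ ≤ ε * l ^ 2 := by
  have hU : ∀ v hv c l, U v hv (∑ x ∈ sq i c l, φ x) = ∑ x ∈ sq i (c + v) l, φ x := by
    simp only [map_sum, h2, Ergo_tr, implies_true]
  have hlim : ∀ c, ∃ G, Tendsto (fun m : ℕ => ((m : ℝ) ^ 2)⁻¹ • ∑ x ∈ sq i c (2 * m), φ x)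
      atTop (𝓝 G) := fun c => by
    obtain ⟨G, hG⟩ := Ergo_av _ (h1 _ (Ergo_even (i + 1)))
      ((U _ (Ergo_even (i + 2))).tendsto_birkhoffAverage_orthogonalProjection (h1 _ _)
        ((φ c + φ (c + Pi.single (i + 1) 1)) + (φ (c + Pi.single (i + 2) 1) +
          φ (c + Pi.single (i + 2) 1 + Pi.single (i + 1) 1))))
    refine ⟨G, hG.congr fun m => ?_⟩
    have e := Ergo_bs (A := U _ (Ergo_even (i + 1))) (j := i + 1)
      (ψ := fun x => (m : ℝ)⁻¹ • ∑ b ∈ range (2 * m), φ (x + Pi.single (i + 2) (b : ℤ)))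
      (fun x => by simp only [map_smul, map_sum, h2, add_right_comm x]) c m
    have e' := Ergo_bs (A := U _ (Ergo_even (i + 2))) (j := i + 2)
      (ψ := fun x => φ x + φ (x + Pi.single (i + 1) 1))
      (fun x => by simp only [map_add, h2, add_right_comm x]) c m
    rw [← smul_sum, ← Ergo_sq, ← mul_smul, ← mul_inv, ← pow_two] at e
    rw [e', ← e]
    simp only [sum_add_distrib, smul_add, add_right_comm c]
  choose G hG using hlim
  have ht : Tendsto (fun m : ℕ => 20 / (m : ℝ)) atTop (𝓝 0) :=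
    tendsto_const_div_atTop_nhds_zero_nat 20
  have s1 : ∀ j c, G (c + Pi.single j 1) = G c := fun j c => by
    refine tendsto_nhds_unique ((hG _).congr_dist
      (squeeze_zero' (.of_forall fun _ => dist_nonneg) ?_ ht)) (hG c)
    filter_upwards [eventually_ge_atTop 1] with m hm
    have hm : (1 : ℝ) ≤ m := by exact_mod_cast hm
    have : ‖∑ x ∈ sq i (c + Pi.single j 1) (2 * m), φ x - ∑ x ∈ sq i c (2 * m), φ x‖ ≤ 20 * m := by
      rcases eq_or_ne j i with rfl | hj
      · exact (h4 c _).trans (by push_cast; linarith only [hm])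
      · exact (Ergo_plane h3 hj c _).trans (by push_cast; linarith only [hm])
    rw [dist_eq_norm, ← smul_sub, norm_smul, Real.norm_of_nonneg (by positivity)]
    exact (mul_le_mul_of_nonneg_left this (by positivity)).trans_eq (by field_simp)
  have s2 : ∀ j (n : ℤ) c, G (c + Pi.single j n) = G c := fun j n c => by
    induction n using Int.induction_on with
    | zero => simp
    | succ n ih => rw [Pi.single_add, ← add_assoc, s1, ih]
    | pred n ih => rw [← s1 j, add_assoc, ← Pi.single_add, sub_add_cancel, ih]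
  have s3 : ∀ v c, G (c + v) = G c := fun v c => by
    rw [← univ_sum_single v, Fin.sum_univ_three, ← add_assoc, ← add_assoc, s2, s2, s2]
  have s4 : ∀ c, G c = 0 := fun c => by
    have hi : ∀ v hv, U v hv (G c) = G c := fun v hv => by
      refine tendsto_nhds_unique ((((U v hv).continuous.tendsto _).comp (hG c)).congr fun m => ?_)
        (s3 v c ▸ hG (c + v))
      simp only [Function.comp, map_smul, hU]
    have := tendsto_nhds_unique ((tendsto_const_nhds (x := G c)).inner (𝕜 := ℝ)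
      ((hG c).add (hG (c + e0)))) (tendsto_const_nhds.congr fun m => (by
        rw [← smul_add, Ergo_tr, ← sum_add_distrib, inner_smul_right, inner_sum,
          sum_eq_zero fun x _ => h5 _ hi x, mul_zero] : (0 : ℝ) = _))
    rw [s3, inner_add_right, add_self_eq_zero] at this
    exact inner_self_eq_zero.1 this
  have s5 : ∀ c, ∀ᶠ l : ℕ in atTop, ‖∑ x ∈ sq i c l, φ x‖ ≤ ε * l ^ 2 := fun c => by
    have := (hG c).norm
    rw [s4, norm_zero] at this
    filter_upwards [(Nat.tendsto_div_const_atTop two_ne_zero).eventually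
      ((this.eventually_le_const hε).and (eventually_ge_atTop 1)),
      ht.eventually_le_const hε] with l ⟨a1, a2⟩ a3
    have a2 : (1 : ℝ) ≤ (l / 2 : ℕ) := by exact_mod_cast a2
    rw [norm_smul, Real.norm_of_nonneg (by positivity), inv_mul_le_iff₀ (by positivity)] at a1
    obtain ⟨m, rfl | rfl⟩ := l.even_or_odd'
    · rw [show 2 * m / 2 = m by omega] at a1
      push_cast
      linarith only [a1, hε, mul_nonneg hε.le (sq_nonneg (m : ℝ)), sq_nonneg ↑m]
    · rw [show (2 * m + 1) / 2 = m by omega] at a1 a2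
      have a4 := Ergo_succ h3 (Ergo_sub (i := i) (c := c) (l := 2 * m))
      have a5 := norm_sub_norm_le (∑ x ∈ sq i c (2 * m + 1), φ x) (∑ x ∈ sq i c (2 * m), φ x)
      rw [div_le_iff₀ (by positivity)] at a3
      push_cast at a3 a4 ⊢
      nlinarith only [a2, a3, a1, a5, a4, mul_nonneg hε.le (sq_nonneg (m : ℝ)), mul_le_mul_of_nonneg_right a3 (m.cast_nonneg (α := ℝ))]
  filter_upwards [s5 0, s5 e0] with l a1 a2 c
  have key : ∀ c', IsEven (c - c') → ‖∑ x ∈ sq i c l, φ x‖ ≤ ‖∑ x ∈ sq i c' l, φ x‖ :=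
    fun c' h => by
      rw [← add_sub_cancel c' c, ← hU _ h]
      exact ((U _ h).le_of_opNorm_le (h1 _ h) _).trans_eq (one_mul _)
  by_cases hc : IsEven c
  · exact (key 0 (by rwa [sub_zero])).trans a1
  · refine (key e0 ?_).trans a2
    rwa [e0_eq, sub_eq_add_neg, ← dv_not, isEven_add_dv]

end Hilbert

lemma Ergo_fl (σ : V → V) (x y : V) : ‖fl σ x y‖ ≤ 1 := (abs_fl_le σ x y).trans (by norm_num)

lemma Ergo_dv (j : Fin 3) : dv (j, true) = Pi.single j 1 := by simp [dv]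

lemma Ergo_anti {σ : V → V} (hσ : IsExt σ) (j : Fin 3) (x : V) :
    fl σ (x + dv (j, true)) (x + dv (j, true) + dv (j, false)) = -fl σ x (x + dv (j, true)) := by
  rw [← fl_anti hσ, show dv (j, false) = -dv (j, true) from dv_not (j, true), add_neg_cancel_right]

lemma Ergo_normal (τ : Dimer) (i : Fin 3) (c : V) (l : ℕ) :
    |FQ τ.1 (i, true) (c + Pi.single i 1) l - FQ τ.1 (i, true) c l| ≤ 8 * l + 4 := by
  have hσ := isExt_dimer τ
  let P : Fin 3 → ℝ := fun j => ∑ x ∈ sq i (c + Pi.single i 1) l, fl τ.1 x (x + dv (j, true)) -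
    ∑ x ∈ sq i (c + Pi.single i 1 - Pi.single j 1) l, fl τ.1 x (x + dv (j, true))
  have h0 : ∑ j, P j = 0 := by
    calc _ = ∑ x ∈ sq i (c + Pi.single i 1) l, ∑ d : Dir, fl τ.1 x (x + dv d) := by
          rw [sum_comm, Fintype.sum_prod_type]
          refine sum_congr rfl fun j _ => ?_
          rw [Fintype.sum_bool]
          refine (sub_eq_add_neg _ _).trans (congrArg _ ?_)
          rw [← sub_add_cancel (c + Pi.single i 1) (Pi.single j 1), Ergo_tr, add_sub_cancel_right,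
            ← Ergo_dv, ← sum_neg_distrib]
          exact sum_congr rfl fun x _ => (Ergo_anti hσ j x).symm
      _ = 0 := sum_eq_zero fun x _ => by
          rw [fl_div hσ, if_neg fun h => ?_]
          have := nbr_parity (τ.2 x).1
          rw [h] at this
          tauto
  have h1 : ∀ j ∈ univ.erase i, ‖P j‖ ≤ 4 * l + 2 := fun j hj => by
    have := Ergo_plane (fun x => Ergo_fl τ.1 x (x + dv (j, true))) (ne_of_mem_erase hj)
      (c + Pi.single i 1 - Pi.single j 1) l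
    rwa [sub_add_cancel] at this
  have h2 := norm_sum_le_of_le _ h1
  rw [← add_sum_erase _ _ (mem_univ i), add_eq_zero_iff_neg_eq] at h0
  rw [← h0, norm_neg, sum_const, card_erase_of_mem (mem_univ i)] at h2
  simp only [P, add_sub_cancel_right, card_univ, Fintype.card_fin, nsmul_eq_mul] at h2
  exact le_trans h2 (by norm_num; linarith only [])

lemma Ergo_sh {v : V} (hv : IsEven v) (τ : Dimer) (x d : V) :
    fl (shift (-v) τ).1 x (x + d) = fl τ.1 (x + v) (x + v + d) := by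
  simp only [fl, sg, isEven_add, hv, iff_true, shift, sub_neg_eq_add, add_neg_eq_iff_eq_add,
    add_right_comm x d]

lemma Ergo_mem (ν : Measure Dimer) [IsFiniteMeasure ν] (x y : V) :
    MemLp (fun τ : Dimer => fl τ.1 x y) 2 ν :=
  .of_bound (Local.measurable (Λ := {x}) (g := fun σ => fl σ x y) fun _ _ _ _ h => by
    simp only [fl, h x (mem_singleton_self x)]).aestronglyMeasurable 1
    (.of_forall fun _ => Ergo_fl ..)

lemma Ergo_mean {ν : Measure Dimer} (h : EG0 ν) (i : Fin 3) (x : V) :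
    ∫ τ, fl τ.1 x (x + dv (i, true)) ∂ν = sg x * ∫ τ, fl τ.1 0 (0 + dv (i, true)) ∂ν := by
  have := h.eg.prob
  have h1 : ∀ v, IsEven v → ∀ d, ∫ τ, fl τ.1 v (v + d) ∂ν = ∫ τ, fl τ.1 0 (0 + d) ∂ν :=
    fun v hv d => by
      have hm := h.eg.invariant _ (isEven_neg.2 hv)
      have := integral_map hm.measurable.aemeasurable (hm.map_eq.symm ▸ (Ergo_mem ν 0 (0 + d)).1)
      simp only [hm.map_eq, Ergo_sh hv, zero_add v] at this
      exact this.symm
  have h2 : ∫ τ, fl τ.1 0 (0 + dv (i, false)) ∂ν = ∫ τ, fl τ.1 0 (0 + dv (i, true)) ∂ν := by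
    rw [eq_comm, ← sub_eq_zero, ← integral_sub ((Ergo_mem _ _ _).integrable one_le_two)
      ((Ergo_mem _ _ _).integrable one_le_two)]
    refine Eq.trans (integral_congr_ae (.of_forall fun τ => ?_)) (congrFun h.zero i)
    obtain ⟨⟨j, b⟩, hd⟩ := nbr_iff.1 (τ.2 0).1
    simp only [fl, hd, add_right_inj, dv_injective.eq_iff]
    rcases eq_or_ne j i with rfl | hj <;> cases b <;> simp [sg, IsEven, dv, *, Pi.single_eq_of_ne']
    norm_num
  by_cases hx : IsEven x
  · rw [h1 x hx, sg, if_pos hx, one_mul]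
  · rw [sg, if_neg hx, ← h2, ← h1 _ ((isEven_add_dv (d := (i, true))).2 hx), neg_one_mul,
      ← integral_neg]
    simp only [Ergo_anti (isExt_dimer _), neg_neg]

lemma Ergo_true {ν : Measure Dimer} (h : EG0 ν) {η : ℝ} (hη : 0 < η) (i : Fin 3) :
    ∀ᶠ l : ℕ in atTop, ∀ c, ∫ τ, FQ τ.1 (i, true) c l ^ 2 ∂ν ≤ η * (l : ℝ) ^ 4 := by
  have := h.eg.prob
  let φ : V → Lp ℝ 2 ν := fun x => (Ergo_mem ν x (x + dv (i, true))).toLp _
  have hφ : ∀ x, φ x =ᵐ[ν] fun τ => fl τ.1 x (x + dv (i, true)) := fun x => MemLp.coeFn_toLp _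
  have hF : ∀ c l, (∑ x ∈ sq i c l, φ x : Lp ℝ 2 ν) =ᵐ[ν] fun τ => FQ τ.1 (i, true) c l :=
    fun c l => by
      filter_upwards [Lp.coeFn_fun_finsetSum (sq i c l) φ, ae_all_iff.2 hφ] with τ a b
      rw [a]
      exact sum_congr rfl fun x _ => b x
  have hb : ∀ (f : Lp ℝ 2 ν) (C : ℝ), 0 ≤ C → (∀ᵐ τ ∂ν, ‖f τ‖ ≤ C) → ‖f‖ ≤ C := fun f C hC hf => by
    simpa [measureUnivNNReal] using Lp.norm_le_of_ae_bound hC hf
  refine (Ergo_hil (φ := φ) (i := i) (fun v hv => (Lp.compMeasurePreservingₗᵢ ℝ (shift (-v))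
    (h.eg.invariant _ (isEven_neg.2 hv))).toContinuousLinearMap)
    (fun _ _ => LinearIsometry.norm_toContinuousLinearMap_le _) (fun v hv x => ?_) (fun x => ?_)
    (fun c l => ?_) (fun G hG x => ?_) (Real.sqrt_pos.2 hη)).mono fun l hl c => ?_
  · exact (Lp.toLp_compMeasurePreserving (Ergo_mem ..) _).trans
      (MemLp.toLp_congr _ _ (.of_forall fun τ => Ergo_sh hv τ x _))
  · exact hb _ _ one_pos.le ((hφ x).mono fun τ e => e ▸ Ergo_fl ..)
  · refine hb _ _ (by positivity) ?_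
    filter_upwards [Lp.coeFn_sub (∑ x ∈ sq i (c + Pi.single i 1) l, φ x) (∑ x ∈ sq i c l, φ x),
      hF (c + Pi.single i 1) l, hF c l] with τ a1 a2 a3
    rw [a1, Pi.sub_apply, a2, a3]
    exact Ergo_normal τ i c l
  · obtain ⟨κ, hκ⟩ : ∃ κ, G =ᵐ[ν] Function.const _ κ := by
      refine exists_eventuallyEq_const_of_forall_separating MeasurableSet fun S hS => ?_
      have hm := (Lp.stronglyMeasurable G).measurable hS
      refine (h.eg.ergodic _ hm fun v hv => ?_).symm.imp (mem_ae_iff_prob_eq_one hm).2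
        measure_eq_zero_iff_ae_notMem.1
      have := Lp.coeFn_compMeasurePreserving G (h.eg.invariant _ (isEven_neg.2 (isEven_neg.2 hv)))
      rw [show Lp.compMeasurePreserving _ _ G = G from hG _ (isEven_neg.2 hv), neg_neg] at this
      exact this.symm.preimage S
    have e : ∀ x, Inner.inner ℝ G (φ x) = sg x * (∫ τ, fl τ.1 0 (0 + dv (i, true)) ∂ν) * κ := fun x => by
      rw [← Ergo_mean h, L2.inner_def, ← integral_mul_const]
      refine integral_congr_ae ?_
      filter_upwards [hκ, hφ x] with τ a b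
      simp [a, b]
    rw [inner_add_right, e, e, e0_eq]
    by_cases hx : IsEven x <;> simp [sg, isEven_add_dv, hx]
  · calc _ = ‖∑ x ∈ sq i c l, φ x‖ ^ 2 := by
          rw [← real_inner_self_eq_norm_sq, L2.inner_def]
          exact integral_congr_ae ((hF c l).mono fun τ e => by simp only [e]; simp [pow_two])
      _ ≤ (√η * l ^ 2) ^ 2 := pow_le_pow_left₀ (norm_nonneg _) (hl c) 2
      _ = _ := by rw [mul_pow, Real.sq_sqrt hη.le]; ring

/-- Mesoscopic fluxes are small when the mean current vanishes. -/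
theorem ergo_flux {ν : Measure Dimer} (h : EG0 ν) {η : ℝ} (hη : 0 < η) :
    ∃ l₀ : ℕ, ∀ l ≥ l₀, ∀ (d : Dir) (c : V), ∫ τ, FQ τ.1 d c l ^ 2 ∂ν ≤ η * (l : ℝ) ^ 4 := by
  refine eventually_atTop.1 ((eventually_all.2 (Ergo_true h hη)).mono fun l hl ⟨i, b⟩ c => ?_)
  cases b
  · refine le_of_eq_of_le (integral_congr_ae (.of_forall fun τ => ?_)) (hl i (c - dv (i, true)))
    simp only [FQ]
    rw [← sub_add_cancel c (dv (i, true)), Ergo_tr, add_sub_cancel_right,
      sum_congr rfl fun x _ => Ergo_anti (isExt_dimer τ) i x, sum_neg_distrib, neg_sq]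
  · exact hl i c

theorem psi_mean {ν : Measure Dimer} (h : EG0 ν) {η : ℝ} (hη : 0 < η) :
    ∃ l₀ : ℕ, ∀ l ≥ l₀, 1 ≤ l → ∀ b w : ℕ, 1 ≤ b →
      ∫ τ, Psi b w l τ.1 ∂ν ≤ η * (b : ℝ) ^ 3 * (l : ℝ) ^ 2 := by
  have := h.eg.prob
  obtain ⟨l₀, hl⟩ := ergo_flux h (η := η / 24) (by positivity)
  refine ⟨l₀, fun l h0 _ b w _ => ?_⟩
  have hi : ∀ d c, Integrable (fun τ : Dimer => FQ τ.1 d c l ^ 2) ν := fun d c =>
    Local.integrable (g := fun σ => FQ σ d c l ^ 2)
      (fun σ σ' a a' e => congrArg (· ^ 2) (local_FQ d c l σ σ' a a' e)) ν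
  unfold Psi
  rw [integral_finsetSum _ fun t _ => integrable_finsetSum _ fun d _ =>
    integrable_finsetSum _ fun p _ => hi _ _]
  refine (sum_le_card_nsmul _ _ (η * b ^ 2 * l ^ 2) fun t ht => ?_).trans ?_
  · rw [integral_finsetSum _ fun d _ => integrable_finsetSum _ fun p _ => hi _ _]
    refine (sum_le_card_nsmul _ _ (η / 24 * (2 * b) ^ 2 * l ^ 2) fun d _ => ?_).trans_eq
      (by simp; ring)
    rw [integral_finsetSum _ fun p _ => hi _ _]
    refine (sum_le_card_nsmul _ _ _ fun p _ => hl l h0 d _).trans ?_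
    have h1 : (((2 * t + 1) / l : ℕ) : ℝ) * l ≤ 2 * b := by
      exact_mod_cast (Nat.div_mul_le_self _ _).trans (by have := (mem_Ioo.1 ht).2; omega)
    rw [sqs, card_product, card_range, nsmul_eq_mul, Nat.cast_mul]
    calc _ = η / 24 * ((((2 * t + 1) / l : ℕ) : ℝ) * l) ^ 2 * l ^ 2 := by ring
      _ ≤ _ := by gcongr
  · have h1 : ((Ioo (b - w) b).card : ℝ) ≤ b := by
      exact_mod_cast (by rw [Nat.card_Ioo]; omega)
    rw [nsmul_eq_mul]
    calc _ ≤ b * (η * b ^ 2 * l ^ 2) := by gcongr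
      _ = _ := by ring

end Pool.Agent.Work.MP_5cb0a4_pr.Z
end
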