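import Pool.Agent.Work.MP_5cb0a4_pr.Z.Ergo

open MeasureTheory Finset MvPolynomial Filter Topology

namespace Pool.Agent.Work.MP_5cb0a4_pr.Z

theorem Hall_one {x z : V} (h : Nbr x z) (c : ℝ) :
    ∑ d : Dir, (if z = x + dv d then c else 0) = c := by
  obtain ⟨d0, rfl⟩ := nbr_iff.1 h
  rw [Finset.sum_eq_single d0]
  · simp
  · exact fun d _ hd => if_neg fun e => hd (dv_injective (add_left_cancel e)).symm
  · simp

theorem Hall_back (x : V) (d : Dir) : x + dv d + dv (d.1, !d.2) = x := by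
  rw [dv_not, add_neg_cancel_right]

theorem Hall_anti (S : Finset V) (G : V → V → ℝ)
    (h : ∀ x d, G (x + dv d) x = -G x (x + dv d)) :
    ∑ x ∈ S, ∑ d : Dir, (if x + dv d ∈ S then G x (x + dv d) else 0) = 0 := by
  rw [← sum_product' (f := fun x d => if x + dv d ∈ S then G x (x + dv d) else 0), ← sum_filter]
  refine sum_involution (fun q _ => (q.1 + dv q.2, (q.2.1, !q.2.2))) (fun q _ => ?_)
    (fun q _ _ e => ?_) (fun q hq => ?_) fun q _ => ?_
  · simp only [Hall_back, h, add_neg_cancel]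
  · exact dv_ne_zero q.2 (add_eq_left.1 (congrArg Prod.fst e))
  · simp only [mem_filter, mem_product, mem_univ, and_true, Hall_back] at hq ⊢
    exact hq.symm
  · simp only [Hall_back, Bool.not_not]

theorem Hall_nbr {s : ℕ} {x y : V} (h : Nbr x y) (hx : x ∈ box s) : y ∈ box (s + 1) := by
  obtain ⟨d, rfl⟩ := nbr_iff.1 h
  exact add_dv_mem_box hx d

theorem Hall_ne {x y : V} (h : Nbr x y) : y ≠ x := by
  rintro rfl
  simp [Nbr] at h

theorem Hall_Out (σ : V → V) (S : Finset V) {t : ℕ} (ht : 1 ≤ t) :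
    Out σ S t = ∑ x ∈ S, ∑ d : Dir,
      if x ∈ box t ∧ x + dv d ∉ box t then fl σ x (x + dv d) else 0 := by
  rw [Out, inter_comm, ← sum_ite_mem]
  refine sum_congr rfl fun x _ => ?_
  by_cases h1 : x ∈ box t
  · by_cases h2 : x ∈ box (t - 1)
    · have h3 : ∀ d, x + dv d ∈ box t := fun d => by
        have := add_dv_mem_box h2 d
        rwa [Nat.sub_add_cancel ht] at this
      simp [mem_lev, h2, h3]
    · simp [mem_lev, h1, h2]
  · simp [mem_lev, h1]

theorem Hall_beta (S : Finset V) (u : ℕ) :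
    (beta S u : ℝ) = ∑ x ∈ S, ∑ d : Dir,
      if x ∈ lev u ∧ x + dv d ∈ lev u ∧ x + dv d ∉ S then 1 else 0 := by
  rw [← sum_product' (f := fun x d =>
    if x ∈ lev u ∧ x + dv d ∈ lev u ∧ x + dv d ∉ S then (1 : ℝ) else 0), sum_boole, beta]
  congr 2
  ext q
  simp only [mem_filter, mem_product, mem_univ, and_true]
  tauto

/-- The interpolating flow on the shell. -/
noncomputable def Hall_H (σ τ : V → V) (t t' : ℕ) (x y : V) : ℝ :=
  sg x / 6 + (if x ∈ box t ∧ y ∈ box t then 0 else fl σ x y) +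
    if x ∈ box t' ∧ y ∈ box t' then fl τ x y else 0

/-- The uncovered part of the shell. -/
noncomputable def Hall_R (a b : ℕ) (σ τ : V → V) : Finset V :=
  (box b \ box a).filter fun x => σ x ∈ box b ∧ τ x ∉ box a

theorem Hall_sg (x : V) (d : Dir) : sg (x + dv d) = -sg x := by
  unfold sg
  by_cases h : IsEven x <;> simp [isEven_add_dv, h]

theorem Hall_H_anti {σ τ : V → V} (hσ : IsExt σ) (hτ : IsExt τ) (t t' : ℕ) (x : V) (d : Dir) :
    Hall_H σ τ t t' (x + dv d) x = -Hall_H σ τ t t' x (x + dv d) := by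
  simp only [Hall_H, Hall_sg, fl_anti hσ, fl_anti hτ, and_comm (a := x + dv d ∈ _)]
  split_ifs <;> ring

theorem Hall_pt {a b t t' : ℕ} (h1 : a < t') (h2 : t' ≤ t) (h3 : t ≤ b) (h4 : a + 2 ≤ b)
    {σ τ : V → V} (hσ : IsExt σ) (hτ : IsExt τ) {x : V} (hb : x ∈ box b) (ha : x ∉ box a)
    (h5 : σ x ≠ x) (h6 : τ x ≠ x) :
    (if x ∈ Hall_R a b σ τ then sg x else 0) +
      (∑ d : Dir, if x ∈ box t ∧ x + dv d ∉ box t then fl σ x (x + dv d) else 0) -
      (∑ d : Dir, if x ∈ box t' ∧ x + dv d ∉ box t' then fl τ x (x + dv d) else 0) =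
      ∑ d : Dir, if x + dv d ∈ box b \ box a then Hall_H σ τ t t' x (x + dv d) else 0 := by
  have n1 : Nbr x (σ x) := (hσ x).1.resolve_left h5
  have n2 : Nbr x (τ x) := (hτ x).1.resolve_left h6
  have d1 := fl_div hσ x
  have d2 := fl_div hτ x
  rw [if_neg h5] at d1
  rw [if_neg h6] at d2
  have e1 : (if x ∈ Hall_R a b σ τ then sg x else 0) =
      sg x - (if σ x ∈ box b then 0 else sg x) - if τ x ∈ box a then sg x else 0 := by
    have : τ x ∈ box a → σ x ∈ box b := fun h =>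
      box_mono h4 (Hall_nbr n1 (Hall_nbr (nbr_symm n2) h))
    simp only [Hall_R, mem_filter, Finset.mem_sdiff, hb, ha, not_false_eq_true, true_and]
    by_cases p : σ x ∈ box b <;> by_cases q : τ x ∈ box a <;> simp_all
  have e2 : ∀ d : Dir, (if x + dv d ∈ box b \ box a then Hall_H σ τ t t' x (x + dv d) else 0) =
      sg x / 6 - (if σ x = x + dv d then (if σ x ∈ box b then 0 else sg x) else 0) -
        (if τ x = x + dv d then (if τ x ∈ box a then sg x else 0) else 0) +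
        (if x ∈ box t then 0 else 1) * fl σ x (x + dv d) +
        (if x ∈ box t' then 1 else 0) * fl τ x (x + dv d) +
        (if x ∈ box t ∧ x + dv d ∉ box t then fl σ x (x + dv d) else 0) -
        if x ∈ box t' ∧ x + dv d ∉ box t' then fl τ x (x + dv d) else 0 := by
    intro d
    have n3 : Nbr (x + dv d) x := nbr_symm (nbr_iff.2 ⟨d, rfl⟩)
    generalize x + dv d = y at n3
    by_cases ya : y ∈ box a
    · have x1 : x ∈ box t' := box_mono h1 (Hall_nbr n3 ya)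
      have x2 : x ∈ box t := box_mono h2 x1
      have y1 : y ∈ box t' := box_mono h1.le ya
      have y2 : y ∈ box t := box_mono h2 y1
      have y3 : y ∈ box b := box_mono h3 y2
      by_cases p : σ x = y <;> by_cases q : τ x = y <;> simp [fl, *] <;> ring
    by_cases yb : y ∈ box b
    · have e3 : (if σ x = y then (if σ x ∈ box b then 0 else sg x) else 0) = 0 := by
        split_ifs with p q
        exacts [rfl, absurd (p ▸ yb) q, rfl]
      have e4 : (if τ x = y then (if τ x ∈ box a then sg x else 0) else 0) = 0 := by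
        split_ifs with p q
        exacts [absurd (p ▸ q) ya, rfl, rfl]
      rw [e3, e4, if_pos (Finset.mem_sdiff.2 ⟨yb, ya⟩), Hall_H]
      by_cases x1 : x ∈ box t <;> by_cases x2 : x ∈ box t' <;> by_cases y1 : y ∈ box t <;>
        by_cases y2 : y ∈ box t' <;> simp only [x1, x2, y1, y2, and_self, and_true, and_false,
          false_and, not_true_eq_false, not_false_eq_true, if_true, if_false] <;> ring
    · have y2 : y ∉ box t := fun h => yb (box_mono h3 h)
      have y1 : y ∉ box t' := fun h => y2 (box_mono h2 h)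
      by_cases x1 : x ∈ box t <;> by_cases x2 : x ∈ box t' <;> by_cases p : σ x = y <;>
        by_cases q : τ x = y <;> simp [fl, *] <;> ring
  simp only [e2, sum_add_distrib, sum_sub_distrib, ← mul_sum, d1, d2, Hall_one n1, Hall_one n2, e1]
  simp
  ring

theorem Hall_id {a b t t' : ℕ} (h1 : a < t') (h2 : t' ≤ t) (h3 : t ≤ b) (h4 : a + 2 ≤ b)
    {σ τ : V → V} (hσ : IsExt σ) (hτ : IsExt τ) (h5 : ∀ x ∈ box b, x ∉ box a → σ x ≠ x)
    (h6 : ∀ x, τ x ≠ x) {S : Finset V} (hS : S ⊆ box b \ box a) :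
    ∑ x ∈ S ∩ Hall_R a b σ τ, sg x + Out σ S t - Out τ S t' =
      ∑ x ∈ S, ∑ d : Dir, if x + dv d ∈ box b \ box a ∧ x + dv d ∉ S then
        Hall_H σ τ t t' x (x + dv d) else 0 := by
  refine Eq.trans ?_ (add_eq_left.2 (Hall_anti S _ (Hall_H_anti hσ hτ t t')))
  rw [Hall_Out σ S (by omega), Hall_Out τ S (by omega), ← sum_ite_mem, ← sum_add_distrib,
    ← sum_sub_distrib, ← sum_add_distrib]
  refine sum_congr rfl fun x hx => ?_
  have hx' := Finset.mem_sdiff.1 (hS hx)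
  rw [Hall_pt h1 h2 h3 h4 hσ hτ hx'.1 hx'.2 (h5 x hx'.1 hx'.2) (h6 x), ← sum_add_distrib]
  refine sum_congr rfl fun d _ => ?_
  by_cases p : x + dv d ∈ S
  · simp [p, hS p]
  · simp [p]

theorem Hall_lev {u u' : ℕ} {x : V} (h : x ∈ lev u) (h' : x ∈ lev u') : u = u' := by
  rw [mem_lev] at h h'
  by_contra hne
  rcases lt_or_gt_of_ne hne with p | p
  · exact h'.2 (box_mono (by omega) h.1)
  · exact h.2 (box_mono (by omega) h'.1)

theorem Hall_bound {a b t t' : ℕ} (h1 : a < t') (h2 : t' ≤ t) (h3 : t ≤ b) (σ τ : V → V)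
    {S : Finset V} (hodd : ∀ x ∈ S, ∀ d, x + dv d ∈ box b \ box a → x + dv d ∉ S → ¬ IsEven x)
    {U : Finset ℕ} (hU : ∀ u ∈ U, t' < u ∧ u ≤ t) :
    (∑ x ∈ S, ∑ d : Dir, if x + dv d ∈ box b \ box a ∧ x + dv d ∉ S then
        Hall_H σ τ t t' x (x + dv d) else 0) ≤ -(1 / 6) * ∑ u ∈ U, (beta S u : ℝ) := by
  simp only [Hall_beta]
  rw [sum_comm (s := U), mul_sum]
  refine sum_le_sum fun x hx => ?_
  rw [sum_comm (s := U), mul_sum]
  refine sum_le_sum fun d _ => ?_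
  by_cases h : ∃ u ∈ U, x ∈ lev u ∧ x + dv d ∈ lev u ∧ x + dv d ∉ S
  · obtain ⟨u, hu, p1, p2, p3⟩ := h
    obtain ⟨q1, q2⟩ := hU u hu
    have r1 := mem_lev.1 p1
    have r2 := mem_lev.1 p2
    have r3 : x + dv d ∈ box b \ box a :=
      Finset.mem_sdiff.2 ⟨box_mono (by omega) r2.1, fun h => r2.2 (box_mono (by omega) h)⟩
    rw [sum_eq_single u (fun u' _ hne => if_neg fun h => hne (Hall_lev h.1 p1))
      (fun h => absurd hu h), if_pos ⟨r3, p3⟩, if_pos ⟨p1, p2, p3⟩, Hall_H,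
      if_pos ⟨box_mono q2 r1.1, box_mono q2 r2.1⟩,
      if_neg fun h => r1.2 (box_mono (by omega) h.1), sg, if_neg (hodd x hx d r3 p3)]
    norm_num
  · rw [sum_eq_zero fun u hu => if_neg fun h' => h ⟨u, hu, h'⟩, mul_zero]
    split_ifs with p
    · have q := hodd x hx d p.1 p.2
      have q1 := fl_odd_le σ q (x + dv d)
      have q2 := fl_odd_le τ q (x + dv d)
      rw [Hall_H, sg, if_neg q]
      split_ifs with r1 r2 r2
      · linarith
      · linarith
      · exact absurd ⟨box_mono h2 r2.1, box_mono h2 r2.2⟩ r1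
      · linarith
    · exact le_rfl

theorem Hall_sum (W : Finset V) : ∑ x ∈ W, sg x =
    ((W.filter IsEven).card : ℝ) - (W.filter fun x => ¬ IsEven x).card := by
  simp only [sg, sum_ite, sum_const, nsmul_eq_mul]
  ring

/-- The neighbours of a finite set. -/
noncomputable def Hall_nb (A : Finset V) : Finset V :=
  A.biUnion fun x => univ.image fun d : Dir => x + dv d

theorem Hall_mem_nb {A : Finset V} {y : V} : y ∈ Hall_nb A ↔ ∃ x ∈ A, ∃ d, x + dv d = y := by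
  simp only [Hall_nb, mem_biUnion, mem_image, mem_univ, true_and]

theorem Hall_match (W : Finset V)
    (hH : ∀ A ⊆ W.filter IsEven, A.card ≤ (Hall_nb A ∩ W).card)
    (hc : (W.filter fun x => ¬ IsEven x).card ≤ (W.filter IsEven).card) :
    ∃ m : V → V, ∀ x ∈ W, m x ∈ W ∧ Nbr x (m x) ∧ m (m x) = x := by
  classical
  obtain ⟨f, hf, hf'⟩ := (all_card_le_biUnion_card_iff_exists_injective
    (fun x : W.filter IsEven => Hall_nb {x.1} ∩ W)).1 fun s => by
      have h1 := hH (s.image Subtype.val) fun x hx => by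
        obtain ⟨y, -, rfl⟩ := mem_image.1 hx
        exact y.2
      rw [card_image_of_injective _ Subtype.val_injective] at h1
      refine h1.trans (card_le_card fun y hy => ?_)
      obtain ⟨h2, h3⟩ := mem_inter.1 hy
      obtain ⟨x, hx, d, rfl⟩ := Hall_mem_nb.1 h2
      obtain ⟨z, hz, rfl⟩ := mem_image.1 hx
      exact mem_biUnion.2 ⟨z, hz, mem_inter.2 ⟨Hall_mem_nb.2 ⟨_, mem_singleton_self _, d, rfl⟩, h3⟩⟩
  have h1 : ∀ x, f x ∈ W ∧ Nbr x.1 (f x) ∧ ¬ IsEven (f x) := fun x => by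
    obtain ⟨h2, h3⟩ := mem_inter.1 (hf' x)
    obtain ⟨z, hz, d, e⟩ := Hall_mem_nb.1 h2
    rw [mem_singleton.1 hz] at e
    have h4 : Nbr x.1 (f x) := nbr_iff.2 ⟨d, e.symm⟩
    exact ⟨h3, h4, fun h => (nbr_parity h4).1 h (mem_filter.1 x.2).2⟩
  have h2 : univ.image f = W.filter fun x => ¬ IsEven x := by
    refine eq_of_subset_of_card_le (fun y hy => ?_) ?_
    · obtain ⟨x, -, rfl⟩ := mem_image.1 hy
      exact mem_filter.2 ⟨(h1 x).1, (h1 x).2.2⟩
    · rw [card_image_of_injective _ hf, card_univ, Fintype.card_coe]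
      exact hc
  let m : V → V := fun x => if h : x ∈ W.filter IsEven then f ⟨x, h⟩
    else Function.extend f Subtype.val id x
  have h3 : ∀ x : W.filter IsEven, m x.1 = f x := fun x => dif_pos x.2
  have h4 : ∀ x, m (f x) = x.1 := fun x =>
    (dif_neg fun h => (h1 x).2.2 (mem_filter.1 h).2).trans (hf.extend_apply _ _ x)
  refine ⟨m, fun x hx => ?_⟩
  by_cases h : IsEven x
  · have e := h3 ⟨x, mem_filter.2 ⟨hx, h⟩⟩
    rw [show m x = _ from e, h4]
    exact ⟨(h1 _).1, (h1 ⟨x, _⟩).2.1, rfl⟩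
  · obtain ⟨z, -, rfl⟩ := mem_image.1 (h2 ▸ mem_filter.2 ⟨hx, h⟩ : x ∈ univ.image f)
    rw [h4, h3]
    exact ⟨(mem_filter.1 z.2).1, nbr_symm (h1 z).2.1, rfl⟩

theorem Hall_glue {a b : ℕ} (h4 : a + 2 ≤ b) {σ : V → V} (hσ : IsExt σ) (τ : Dimer) {m : V → V}
    (hm : ∀ x ∈ Hall_R a b σ τ.1, m x ∈ Hall_R a b σ τ.1 ∧ Nbr x (m x) ∧ m (m x) = x) :
    ∃ ρ ∈ perf (box b) σ, ∀ x ∈ box a, ρ x = τ.1 x := by
  let ρ : V → V := fun x => if x ∈ box a ∨ τ.1 x ∈ box a then τ.1 x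
    else if x ∉ box b ∨ σ x ∉ box b then σ x else m x
  have c1 : ∀ x, x ∈ box a ∨ τ.1 x ∈ box a → x ∈ box b ∧ σ x ∈ box b := fun x hx => by
    have h1 : x ∈ box (a + 1) :=
      hx.elim (fun h => box_mono a.le_succ h) fun h => Hall_nbr (nbr_symm (τ.2 x).1) h
    have h2 : x ∈ box b := box_mono (by omega) h1
    exact ⟨h2, (hσ x).1.elim (fun h => h.symm ▸ h2) fun h => box_mono h4 (Hall_nbr h h1)⟩
  have r1 : ∀ x, x ∈ box a ∨ τ.1 x ∈ box a → ρ x = τ.1 x := fun x hx => if_pos hx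
  have r2 : ∀ x, x ∉ box b ∨ σ x ∉ box b → ρ x = σ x := fun x hx =>
    (if_neg fun h => hx.elim (fun p => p (c1 x h).1) fun p => p (c1 x h).2).trans (if_pos hx)
  have r3 : ∀ x ∈ Hall_R a b σ τ.1, ρ x = m x := fun x hx => by
    obtain ⟨p1, p2, p3⟩ := mem_filter.1 hx
    obtain ⟨p4, p5⟩ := Finset.mem_sdiff.1 p1
    exact (if_neg (not_or.2 ⟨p5, p3⟩)).trans (if_neg (not_or.2 ⟨not_not.2 p4, not_not.2 p2⟩))
  have tri : ∀ x, (x ∈ box a ∨ τ.1 x ∈ box a) ∨ (x ∉ box b ∨ σ x ∉ box b) ∨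
      x ∈ Hall_R a b σ τ.1 := fun x => by
    simp only [Hall_R, mem_filter, Finset.mem_sdiff]
    exact (show ∀ p q r s : Prop, (p ∨ q) ∨ (¬ r ∨ ¬ s) ∨ (r ∧ ¬ p) ∧ s ∧ ¬ q by tauto) _ _ _ _
  refine ⟨ρ, mem_perf.2 ⟨⟨fun x => ?_, fun x hx => r2 x (Or.inl hx)⟩, fun x hx => ?_⟩,
    fun x hx => r1 x (Or.inl hx)⟩
  · rcases tri x with h | h | h
    · rw [r1 x h, r1 _ (by rw [(τ.2 x).2]; exact h.symm)]
      exact ⟨Or.inr (τ.2 x).1, (τ.2 x).2⟩
    · rw [r2 x h, r2 _ (by rw [(hσ x).2]; exact h.symm)]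
      exact hσ x
    · rw [r3 x h, r3 _ (hm x h).1]
      exact ⟨Or.inr (hm x h).2.1, (hm x h).2.2⟩
  · rcases tri x with h | h | h
    · rw [r1 x h]
      exact Hall_ne (τ.2 x).1
    · rw [r2 x h]
      exact fun e => h.elim (fun p => p hx) fun p => p (e.symm ▸ hx)
    · rw [r3 x h]
      exact Hall_ne (hm x h).2.1

/-- Hall's theorem on the shell: it suffices to find, for every even-closed `S`, two levels where
the fluxes are dominated by the tangential boundary edges in between. -/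
theorem hall_patch {a T b : ℕ} (ha : 1 ≤ a) (haT : a < T) (hTb : T < b) {σ : V → V}
    (hσ : IsExt σ) (τ' : Dimer) (hmon : ∀ x ∈ box b, x ∉ box a → σ x ≠ x) (hPhi : Phi σ a = 0)
    (hS : ∀ S ⊆ box b \ box a, ∃ t t', T < t ∧ t ≤ b ∧ a < t' ∧ t' ≤ T ∧
      6 * |Out σ S t| ≤ ∑ u ∈ Finset.Ioo T t, (beta S u : ℝ) ∧
      6 * |Out τ'.1 S t'| ≤ ∑ u ∈ Finset.Ioc t' T, (beta S u : ℝ)) :
    ∃ ρ ∈ perf (box b) σ, ∀ x ∈ box a, ρ x = τ'.1 x := by
  have h4 : a + 2 ≤ b := by omega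
  have h6 : ∀ x, τ'.1 x ≠ x := fun x => Hall_ne (τ'.2 x).1
  have hR : Hall_R a b σ τ'.1 ⊆ box b \ box a := filter_subset _ _
  obtain ⟨m, hm⟩ := Hall_match (Hall_R a b σ τ'.1) (fun A hA => by
    have hA1 : ∀ x ∈ A, x ∈ Hall_R a b σ τ'.1 ∧ IsEven x := fun x hx => mem_filter.1 (hA hx)
    have hA2 : ∀ y ∈ Hall_nb A, ¬ IsEven y := fun y hy => by
      obtain ⟨x, hx, d, rfl⟩ := Hall_mem_nb.1 hy
      exact fun h => isEven_add_dv.1 h (hA1 x hx).2
    have hsub : A ∪ Hall_nb A ∩ (box b \ box a) ⊆ box b \ box a :=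
      union_subset (fun x hx => hR (hA1 x hx).1) inter_subset_right
    obtain ⟨t, t', p1, p2, p3, p4, p5, p6⟩ := hS _ hsub
    have q1 := Hall_id p3 (p4.trans p1.le) p2 h4 hσ (isExt_dimer τ') hmon h6 hsub
    have q2 := Hall_bound p3 (p4.trans p1.le) p2 σ τ'.1 (S := A ∪ Hall_nb A ∩ (box b \ box a))
      (fun x hx d h1 h2 h3 => (mem_union.1 hx).elim
        (fun h => h2 (mem_union_right _ (mem_inter.2 ⟨Hall_mem_nb.2 ⟨x, h, d, rfl⟩, h1⟩)))
        fun h => hA2 x (mem_inter.1 h).1 h3) (U := Finset.Ioo T t ∪ Finset.Ioc t' T)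
      fun u hu => by
        simp only [mem_union, mem_Ioo, mem_Ioc] at hu
        omega
    rw [← q1, Hall_sum, sum_union (disjoint_left.2 fun u h1 h2 => by
      have := Finset.mem_Ioo.1 h1
      have := Finset.mem_Ioc.1 h2
      omega)] at q2
    have e1 : ((A ∪ Hall_nb A ∩ (box b \ box a)) ∩ Hall_R a b σ τ'.1).filter IsEven = A := by
      ext x
      simp only [mem_filter, mem_inter, mem_union]
      exact ⟨fun h => h.1.1.elim id fun p => absurd h.2 (hA2 x p.1),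
        fun h => ⟨⟨Or.inl h, (hA1 x h).1⟩, (hA1 x h).2⟩⟩
    have e2 : (((A ∪ Hall_nb A ∩ (box b \ box a)) ∩ Hall_R a b σ τ'.1).filter
        fun x => ¬ IsEven x) = Hall_nb A ∩ Hall_R a b σ τ'.1 := by
      ext x
      simp only [mem_filter, mem_inter, mem_union]
      exact ⟨fun h => ⟨h.1.1.elim (fun p => absurd (hA1 x p).2 h.2) fun p => p.1, h.1.2⟩,
        fun h => ⟨⟨Or.inr ⟨h.1, hR h.2⟩, h.2⟩, hA2 x h.1⟩⟩
    rw [e1, e2] at q2
    have q3 := neg_abs_le (Out σ (A ∪ Hall_nb A ∩ (box b \ box a)) t)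
    have q4 := le_abs_self (Out τ'.1 (A ∪ Hall_nb A ∩ (box b \ box a)) t')
    exact (Nat.cast_le (α := ℝ)).1 (by linarith)) (by
    obtain ⟨t, t', p1, p2, p3, p4, p5, p6⟩ := hS _ subset_rfl
    have q1 := Hall_id p3 (p4.trans p1.le) p2 h4 hσ (isExt_dimer τ') hmon h6 subset_rfl
    have hb : ∀ u, a < u → u ≤ b → (beta (box b \ box a) u : ℝ) = 0 := fun u h1 h2 => by
      rw [Hall_beta]
      refine sum_eq_zero fun x _ => sum_eq_zero fun d _ => if_neg fun h => h.2.2 ?_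
      have r := mem_lev.1 h.2.1
      exact Finset.mem_sdiff.2 ⟨box_mono h2 r.1, fun h => r.2 (box_mono (by omega) h)⟩
    rw [sum_eq_zero fun u hu => hb u (by have := mem_Ioo.1 hu; omega)
      (by have := mem_Ioo.1 hu; omega)] at p5
    rw [sum_eq_zero fun u hu => hb u (by have := mem_Ioc.1 hu; omega)
      (by have := mem_Ioc.1 hu; omega)] at p6
    rw [inter_eq_right.2 hR, Hall_sum,
      sum_eq_zero fun x _ => sum_eq_zero fun d _ => if_neg (and_not_self_iff _).1] at q1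
    have q3 := le_abs_self (Out σ (box b \ box a) t)
    have q4 := neg_abs_le (Out τ'.1 (box b \ box a) t')
    exact (Nat.cast_le (α := ℝ)).1 (by linarith))
  exact Hall_glue h4 hσ τ' hm

end Pool.Agent.Work.MP_5cb0a4_pr.Z
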