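import Pool.Agent.Work.MP_5cb0a4_pr.N.IsoP
import Pool.Agent.Work.MP_5cb0a4_pr.Z.Hall

open MeasureTheory Finset MvPolynomial Filter Topology

namespace Pool.Agent.Work.MP_5cb0a4_pr.Z

/-- The growth lemma along a sequence of levels. -/
lemma Patch_core {k l b w : ℕ} (hk : 1 ≤ k) (hl : 1 ≤ l) (hb : 1 ≤ b) (hw : b ≤ 2 * k * w)
    (hW : 6718464 * l * k ≤ w) (σ : V → V) (S : Finset V) (lv : ℕ → ℕ) (good : Finset ℕ)
    (h0 : ∀ u ∈ Finset.Icc 1 (2 * w), 1 ≤ lv u ∧ lv u ≤ b ∧ Phi σ (lv u) = 0)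
    (h2 : ∀ u ∈ good, u ∈ Finset.Ioc w (2 * w) ∧ ∑ d : Dir, ∑ p ∈ sqs (lv u) l,
      |FQ σ d (corner d (lv u) l p) l| ≤ 1 / (373248 * (k : ℝ) ^ 2) * (b : ℝ) ^ 2)
    (hg : 26121388032 * l ^ 4 * k ^ 2 + 1 < good.card) :
    ∃ u ∈ Finset.Icc 1 (2 * w), 6 * |Out σ S (lv u)| ≤ ∑ j ∈ Finset.Ico 1 u, (beta S (lv j) : ℝ) := by
  have hw1 : 1 ≤ w := le_trans (Nat.mul_pos (by omega) hk) hW
  have k1 : (1 : ℝ) ≤ k := by exact_mod_cast hk
  have l1 : (1 : ℝ) ≤ l := by exact_mod_cast hl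
  have b1 : (1 : ℝ) ≤ b := by exact_mod_cast hb
  have w1 : (1 : ℝ) ≤ w := by exact_mod_cast hw1
  have hw' : (b : ℝ) ≤ 2 * k * w := by exact_mod_cast hw
  have hW' : 6718464 * (l : ℝ) * k ≤ w := by exact_mod_cast hW
  have hb2 : (b : ℝ) ^ 2 ≤ (2 * k * w) ^ 2 := by gcongr
  refine seq_lemma (C₂ := 6 * (l : ℝ) ^ 2) (C₃ := 36 * (2 * b + 1) ^ 2)
    (D := 1 / (373248 * (k : ℝ) ^ 2) * (b : ℝ) ^ 2 + 12 * l * (2 * b + 1)) (by linarith only [l1, mul_nonneg_of_nonpos_of_nonpos (Mathlib.Tactic.Linarith.sub_nonpos_of_le (Mathlib.Tactic.Linarith.natCast_nonneg ℝ l)) (Mathlib.Tactic.Linarith.sub_nonpos_of_le l1)])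
    (by positivity) hw1 (fun u => beta S (lv u)) (fun u => |Out σ S (lv u)|) good
    (fun u hu => out_le_sq σ S (h0 u hu).1 (h0 u hu).2.2) (fun u hu => ⟨(h2 u hu).1, ?_⟩)
    (fun u hu => ?_) ?_ ?_
  · have h3 := mem_Ioc.1 (h2 u hu).1
    have h4 := h0 u (mem_Icc.2 ⟨by omega, h3.2⟩)
    have h5 : (lv u : ℝ) ≤ b := by exact_mod_cast h4.2.1
    have h6 : 12 * (l : ℝ) * (2 * lv u + 1) ≤ 12 * l * (2 * b + 1) := by gcongr
    linarith only [h6, h4, hl, h2, hu, out_le_lin σ S h4.1 hl, (h2 u hu).2]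
  · have h4 := h0 u hu
    have h5 : beta S (lv u) ≤ 36 * (2 * b + 1) ^ 2 :=
      (beta_le S h4.1).trans (by have := h4.2.1; gcongr)
    exact_mod_cast h5
  · have h3 : 1 / (373248 * (k : ℝ) ^ 2) * (b : ℝ) ^ 2 ≤ w ^ 2 / 93312 := by
      rw [one_div_mul_eq_div, div_le_div_iff₀ (by positivity) (by positivity)]
      linarith only [hb2]
    have h4 : (l : ℝ) * (2 * b + 1) ≤ l * (6 * k * w) := by
      gcongr
      linarith only [b1, hw']
    have h5 : 6718464 * (l : ℝ) * k * w ≤ w * w := by gcongr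
    linarith only [h3, h4, h5]
  · have h3 : (2 * (b : ℝ) + 1) ^ 2 ≤ (6 * k * w) ^ 2 := by
      gcongr
      linarith only [b1, hw']
    refine lt_of_le_of_lt ?_ (by exact_mod_cast hg : 26121388032 * (l : ℝ) ^ 4 * k ^ 2 + 1 < _)
    rw [add_le_add_iff_right, div_le_iff₀ (by positivity)]
    have h4 := mul_le_mul_of_nonneg_left h3 (show 0 ≤ (l : ℝ) ^ 4 by positivity)
    linarith only [h4]

/-- A level with a large sum of fluxes has a large sum of squares. -/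
lemma Patch_cs {l b t : ℕ} (hl : 1 ≤ l) (hb : 1 ≤ b) (ht : t ≤ b) (σ : V → V) {δ : ℝ} (hδ : 0 ≤ δ)
    (h : δ * (b : ℝ) ^ 2 ≤ ∑ d : Dir, ∑ p ∈ sqs t l, |FQ σ d (corner d t l p) l|) :
    δ ^ 2 * (b : ℝ) ^ 2 * (l : ℝ) ^ 2 / 54 ≤
      ∑ d : Dir, ∑ p ∈ sqs t l, FQ σ d (corner d t l p) l ^ 2 := by
  rw [← sum_product'] at h ⊢
  have h1 := (pow_le_pow_left₀ (by positivity) h 2).trans sq_sum_le_card_mul_sum_sq
  simp only [sq_abs] at h1
  have hQ : 0 ≤ ∑ x ∈ (univ : Finset Dir) ×ˢ sqs t l, FQ σ x.1 (corner x.1 t l x.2) l ^ 2 := by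
    positivity
  generalize ∑ x ∈ (univ : Finset Dir) ×ˢ sqs t l, FQ σ x.1 (corner x.1 t l x.2) l ^ 2 = Q at *
  have h2 : ((univ : Finset Dir) ×ˢ sqs t l).card * l ^ 2 ≤ 54 * b ^ 2 := by
    have h3 : (2 * t + 1) / l * l ≤ 3 * b := (Nat.div_mul_le_self _ _).trans (by omega)
    simp only [card_product, card_univ, Fintype.card_prod, Fintype.card_fin, Fintype.card_bool, sqs,
      card_range]
    linarith only [h3, Nat.mul_le_mul h3 h3]
  generalize ((univ : Finset Dir) ×ˢ sqs t l).card = N at h1 h2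
  have h3 : (N : ℝ) * l ^ 2 ≤ 54 * b ^ 2 := by exact_mod_cast h2
  have b1 : (0 : ℝ) < b := by exact_mod_cast hb
  rw [div_le_iff₀ (by norm_num)]
  refine le_of_mul_le_mul_right ?_ (show 0 < (b : ℝ) ^ 2 by positivity)
  linarith only [h1, h3, hQ, mul_le_mul_of_nonneg_right h1 (sq_nonneg (l : ℝ)), mul_le_mul_of_nonneg_left h3 hQ, sq_nonneg ↑l]

/-- The patching lemma. -/
theorem patch (k : ℕ) (hk : 8 ≤ k) : ∃ c : ℝ, 0 < c ∧ ∀ l : ℕ, 1 ≤ l → ∃ b₀ : ℕ, ∀ b ≥ b₀,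
    ∀ σ : V → V, IsExt σ → ∀ τ' : Dimer, (∀ d c, FQ τ'.1 d c l = 0) →
      (∀ x ∈ box b, x ∉ box (b - 4 * (b / k)) → σ x ≠ x) → Phi σ (b - 4 * (b / k)) = 0 →
      Psi b (b / k) l σ < c * (b : ℝ) ^ 3 * (l : ℝ) ^ 2 →
      ∃ ρ ∈ perf (box b) σ, ∀ x ∈ box (b - 4 * (b / k)), ρ x = τ'.1 x := by
  have k0 : (0 : ℝ) < k := by exact_mod_cast (by omega : 0 < k)
  obtain ⟨δ, hδ⟩ : ∃ δ : ℝ, δ = 1 / (373248 * (k : ℝ) ^ 2) := ⟨_, rfl⟩
  have δ0 : 0 < δ := by rw [hδ]; positivity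
  refine ⟨δ ^ 2 / (432 * k), by positivity, fun l hl =>
    ⟨(6718464 * l * k + 4 * (26121388032 * l ^ 4 * k ^ 2 + 2)) * k,
      fun b hb σ hσ τ' hτ hmon hPhi hPsi => ?_⟩⟩
  have hW := (Nat.le_div_iff_mul_le (by omega)).2 hb
  have h1 : k * (b / k) ≤ b := Nat.mul_div_le b k
  have h2 : b < k * (b / k + 1) := Nat.lt_mul_div_succ b (by omega)
  generalize b / k = w at *
  generalize hG : 26121388032 * l ^ 4 * k ^ 2 = G at hW
  have hw : b ≤ 2 * k * w := by nlinarith only [hk, hb, h2, hl, hG]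
  have h8 : 8 * w ≤ b := le_trans (Nat.mul_le_mul_right w hk) h1
  have hP : ∀ t, b - 4 * w ≤ t → t ≤ b → Phi σ t = 0 := fun t h3 h4 => by
    rw [← hPhi, Phi_eq hσ, Phi_eq hσ]
    congr 2
    ext x
    simp only [mem_mon]
    exact ⟨fun h => ⟨by_contra fun e => hmon x (box_mono h4 h.1) e h.2, h.2⟩,
      fun h => ⟨box_mono h3 h.1, h.2⟩⟩
  have hP' : ∀ t, Phi τ'.1 t = 0 := fun t => by
    rw [Phi_eq (isExt_dimer τ'), sum_eq_zero, neg_zero]
    intro x hx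
    have := (τ'.2 x).1
    rw [(mem_mon.1 hx).2] at this
    simp [Nbr] at this
  obtain ⟨T, hT⟩ : ∃ T, b = T + 2 * w := ⟨b - 2 * w, by omega⟩
  have hbad : 4 * ((Finset.Ioo w (2 * w)).filter fun u => ¬∑ d : Dir, ∑ p ∈ sqs (u + T) l,
      |FQ σ d (corner d (u + T) l p) l| ≤ δ * (b : ℝ) ^ 2).card ≤ w := by
    have l0 : (0 : ℝ) < l := by exact_mod_cast hl
    have b0 : (0 : ℝ) < b := by exact_mod_cast (by omega : 0 < b)
    have e : Psi b w l σ = ∑ u ∈ Finset.Ioo w (2 * w), ∑ d : Dir, ∑ p ∈ sqs (u + T) l,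
        FQ σ d (corner d (u + T) l p) l ^ 2 := by
      rw [Psi, ← Finset.Ico_add_one_left_eq_Ioo, ← Finset.Ico_add_one_left_eq_Ioo,
        Finset.sum_Ico_add' (fun t => ∑ d : Dir, ∑ p ∈ sqs t l, FQ σ d (corner d t l p) l ^ 2)]
      congr 2 <;> omega
    have h3 := (card_nsmul_le_sum _ _ _ fun u hu => Patch_cs hl (by omega)
      (show u + T ≤ b by have := mem_Ioo.1 (mem_filter.1 hu).1; omega) σ δ0.le
      (not_le.1 (mem_filter.1 hu).2).le).trans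
      ((sum_le_sum_of_subset_of_nonneg (filter_subset _ _) fun _ _ _ => by positivity).trans
        (e.ge.trans hPsi.le))
    generalize Finset.card _ = N at h3 ⊢
    have hw' : (b : ℝ) ≤ 2 * k * w := by exact_mod_cast hw
    have h4 : (4 * N : ℝ) ≤ w := by
      rw [nsmul_eq_mul] at h3
      field_simp at h3
      (refine le_of_not_gt fun h_nl => ?_; linarith only [h_nl, hw', h3, k0, mul_pos_of_neg_of_neg (Mathlib.Tactic.Linarith.sub_neg_of_lt k0) (Mathlib.Tactic.Linarith.sub_neg_of_lt h_nl)])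
    exact_mod_cast h4
  refine hall_patch (T := T) (by omega) (by omega) (by omega) hσ τ' hmon hPhi fun S _ => ?_
  obtain ⟨u, hu, h3⟩ := Patch_core (k := k) (by omega) hl (by omega) hw (by omega) σ S (· + T)
    ((Finset.Ioo w (2 * w)).filter fun u => ∑ d : Dir, ∑ p ∈ sqs (u + T) l,
      |FQ σ d (corner d (u + T) l p) l| ≤ δ * (b : ℝ) ^ 2)
    (fun u hu => by
      have := mem_Icc.1 hu
      exact ⟨by omega, by omega, hP _ (by omega) (by omega)⟩)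
    (fun u hu => ⟨Ioo_subset_Ioc_self (mem_filter.1 hu).1, hδ ▸ (mem_filter.1 hu).2⟩) (by
      have := card_filter_add_card_filter_not (s := Finset.Ioo w (2 * w)) fun u => ∑ d : Dir,
        ∑ p ∈ sqs (u + T) l, |FQ σ d (corner d (u + T) l p) l| ≤ δ * (b : ℝ) ^ 2
      rw [Nat.card_Ioo] at this
      omega)
  obtain ⟨u', hu', h4⟩ := Patch_core (k := k) (by omega) hl (by omega) hw (by omega) τ'.1 S
    (T + 1 - ·) (Finset.Ioc w (2 * w))
    (fun u hu => by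
      have := mem_Icc.1 hu
      exact ⟨by omega, by omega, hP' _⟩)
    (fun u hu => ⟨hu, by simp only [hτ, abs_zero, sum_const_zero]; positivity⟩)
    (by rw [Nat.card_Ioc]; omega)
  rw [mem_Icc] at hu hu'
  refine ⟨u + T, T + 1 - u', by omega, by omega, by omega, by omega, h3.trans_eq ?_, h4.trans_eq ?_⟩
  · rw [Finset.sum_Ico_add' (fun t => (beta S t : ℝ)), ← Finset.Ico_add_one_left_eq_Ioo, add_comm 1]
  · refine sum_bij' (fun j _ => T + 1 - j) (fun j _ => T + 1 - j) (fun j hj => ?_) (fun j hj => ?_)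
      (fun j hj => ?_) (fun j hj => ?_) fun _ _ => rfl <;>
    simp only [mem_Ico, mem_Ioc] at hj ⊢ <;> omega

end Pool.Agent.Work.MP_5cb0a4_pr.Z
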