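import Pool.Agent.Work.MP_5cb0a4_pr.Z.Paths
import Pool.Agent.Work.MP_5cb0a4_pr.Z.Harm

-- merged part: Pool.Agent.Work.MP_5cb0a4_pr.Z.State2
section
open MeasureTheory Finset MvPolynomial Filter Topology

namespace Pool.Agent.Work.MP_5cb0a4_pr.Z

/-- Reversal of directions. -/
def State2_flip : Dir ≃ Dir where
  toFun d := (d.1, !d.2)
  invFun d := (d.1, !d.2)
  left_inv d := by simp
  right_inv d := by simp

lemma State2_sum_neg (ψ : V → ℝ) : ∑ d : Dir, ψ (-dv d) = ∑ d : Dir, ψ (dv d) := by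
  rw [← State2_flip.sum_comp (fun d => ψ (dv d))]
  refine sum_congr rfl fun d _ => ?_
  show _ = ψ (dv (d.1, !d.2))
  rw [dv_not]

lemma State2_pk_neg (n : ℕ) (x : V) : pk n (-x) = pk n x := by
  induction n generalizing x with
  | zero => simp [pk]
  | succ n ih =>
    simp only [pk]
    congr 1
    rw [← State2_sum_neg (fun v => pk n (-x + v))]
    refine sum_congr rfl fun d _ => ?_
    rw [← ih (x + dv d), neg_add]

lemma State2_dv_perm (s : Equiv.Perm (Fin 3)) (d : Dir) : (dv (s d.1, d.2)) ∘ s = dv d := by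
  funext j
  simp [dv, Pi.single_apply]

lemma State2_pk_perm (s : Equiv.Perm (Fin 3)) (n : ℕ) (x : V) : pk n (x ∘ s) = pk n x := by
  induction n generalizing x with
  | zero =>
    have : x ∘ s = 0 ↔ x = 0 := by
      constructor
      · intro h
        funext j
        have := congrFun h (s.symm j)
        simpa using this
      · rintro rfl; rfl
    simp [pk, this]
  | succ n ih =>
    simp only [pk]
    congr 1
    rw [← (Equiv.prodCongr s (Equiv.refl Bool)).sum_comp (fun d => pk n (x + dv d))]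
    refine sum_congr rfl fun d _ => ?_
    show _ = pk n (x + dv (s d.1, d.2))
    rw [← ih (x + dv (s d.1, d.2)), ← State2_dv_perm s d]
    rfl

/-- Energy of `f` on the edges of direction `d` at the even points of a box. -/
noncomputable def State2_w (f : V → ℝ) (m : ℕ) (d : Dir) : ℝ :=
  ∑ a ∈ (box m).filter IsEven, (f (a + dv d) - f a) ^ 2

lemma State2_neg_mem_box {m : ℕ} {a : V} (h : a ∈ box m) : -a ∈ box m :=
  mem_box.2 fun i => by
    have := mem_box.1 h i
    simp only [Pi.neg_apply]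
    omega

lemma State2_w_neg {f : V → ℝ} (hf : ∀ x, f (-x) = f x) (m : ℕ) (d : Dir) :
    State2_w f m (d.1, !d.2) = State2_w f m d := by
  unfold State2_w
  refine sum_nbij' (fun a => -a) (fun a => -a) ?_ ?_ ?_ ?_ ?_
  · intro a ha
    simp only [mem_filter] at ha ⊢
    exact ⟨State2_neg_mem_box ha.1, isEven_neg.2 ha.2⟩
  · intro a ha
    simp only [mem_filter] at ha ⊢
    exact ⟨State2_neg_mem_box ha.1, isEven_neg.2 ha.2⟩
  · intro a _; simp
  · intro a _; simp
  · intro a _
    rw [dv_not, hf a, ← hf (-a + dv d), neg_add, neg_neg]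

lemma State2_perm_mem {m : ℕ} (s : Equiv.Perm (Fin 3)) {a : V}
    (h : a ∈ (box m).filter IsEven) : a ∘ s ∈ (box m).filter IsEven := by
  simp only [mem_filter] at h ⊢
  refine ⟨mem_box.2 fun i => mem_box.1 h.1 (s i), ?_⟩
  have := h.2
  unfold IsEven at this ⊢
  rwa [← Equiv.sum_comp s a] at this

lemma State2_w_perm {f : V → ℝ} (s : Equiv.Perm (Fin 3)) (hf : ∀ x, f (x ∘ s) = f x) (m : ℕ)
    (d : Dir) : State2_w f m (s d.1, d.2) = State2_w f m d := by
  unfold State2_w
  refine sum_nbij' (fun a => a ∘ s) (fun a => a ∘ s.symm) ?_ ?_ ?_ ?_ ?_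
  · intro a ha; exact State2_perm_mem s ha
  · intro a ha; exact State2_perm_mem s.symm ha
  · intro a _; funext j; simp
  · intro a _; funext j; simp
  · intro a _
    rw [hf a, ← hf (a + dv (s d.1, d.2)), ← State2_dv_perm s d]
    rfl

lemma State2_w_eq {f : V → ℝ} (h1 : ∀ x, f (-x) = f x)
    (h2 : ∀ (s : Equiv.Perm (Fin 3)) x, f (x ∘ s) = f x) (m : ℕ) (d : Dir) :
    State2_w f m d = State2_w f m (0, true) := by
  obtain ⟨i, b⟩ := d
  have e1 : State2_w f m (i, b) = State2_w f m (0, b) := by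
    have := State2_w_perm (Equiv.swap 0 i) (h2 _) m (0, b)
    simpa using this
  rw [e1]
  cases b
  · exact State2_w_neg h1 m (0, true)
  · rfl

/-- The lattice Laplacian with the positive sign. -/
noncomputable def State2_L (f : V → ℝ) (v : V) : ℝ := 6 * f v - ∑ d : Dir, f (v + dv d)

lemma State2_L_eq (f : V → ℝ) (v : V) :
    State2_L f v = ∑ d : Dir, (f v - f (v + dv d)) := by
  rw [sum_sub_distrib, State2_L]
  simp

lemma State2_div {A : Finset V} (hA : ∀ a ∈ A, IsEven a) {f : V → ℝ}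
    (hf : ∀ a, IsEven a → a ∉ A → ∀ d, f (a + dv d) = f a) (v : V) :
    ∑ a ∈ A, ∑ d : Dir, (f a - f (a + dv d)) *
      ((if a = v then 1 else 0) - (if a + dv d = v then 1 else 0)) = State2_L f v := by
  by_cases hv : IsEven v
  · have h1 : ∀ a ∈ A, ∑ d : Dir, (f a - f (a + dv d)) *
        ((if a = v then 1 else 0) - (if a + dv d = v then (1 : ℝ) else 0)) =
        if a = v then State2_L f a else 0 := by
      intro a ha
      have : ∀ d, a + dv d ≠ v := fun d h => (isEven_add_dv.1 (h ▸ hv)) (hA a ha)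
      by_cases hav : a = v
      · simp [hav, State2_L_eq, dv_ne_zero]
      · simp [this, hav]
    rw [sum_congr rfl h1, sum_ite_eq']
    split_ifs with h
    · rfl
    · rw [State2_L_eq]
      simp [hf v hv h]
  · rw [sum_comm]
    have h2 : State2_L f v = ∑ d : Dir, (f v - f (v + -dv d)) := by
      rw [State2_L_eq, State2_sum_neg (fun u => f v - f (v + u))]
    rw [h2]
    refine sum_congr rfl fun d _ => ?_
    have h1 : ∀ a ∈ A, (f a - f (a + dv d)) *
        ((if a = v then 1 else 0) - (if a + dv d = v then (1 : ℝ) else 0)) =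
        if a = v + -dv d then f v - f (v + -dv d) else 0 := by
      intro a ha
      have hav : a ≠ v := fun h => hv (h ▸ hA a ha)
      by_cases h : a + dv d = v
      · have h' : a = v + -dv d := by rw [← h]; abel
        rw [if_neg hav, if_pos h, if_pos h', h, ← h']
        ring
      · have h' : a ≠ v + -dv d := fun h' => h (by rw [h']; abel)
        rw [if_neg hav, if_neg h, if_neg h']
        ring
    rw [sum_congr rfl h1, sum_ite_eq']
    split_ifs with h
    · rfl
    · have he : IsEven (v + -dv d) := by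
        rw [← dv_not]; exact isEven_add_dv.2 hv
      have := hf _ he h d
      rw [show v + -dv d + dv d = v by abel] at this
      rw [this]; ring

/-- The edge at `a` in direction `d`. -/
def State2_ed (p : V × Dir) : Edge :=
  if p.2.2 = true then (p.1, p.2.1) else (p.1 + dv p.2, p.2.1)

lemma State2_ed_ends (a : V) (d : Dir) :
    (src (State2_ed (a, d)) = a ∧ tgt (State2_ed (a, d)) = a + dv d) ∨
      (src (State2_ed (a, d)) = a + dv d ∧ tgt (State2_ed (a, d)) = a) := by
  obtain ⟨i, b⟩ := d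
  cases b
  · right
    refine ⟨by simp [State2_ed, src], ?_⟩
    rw [tgt_eq]
    have := dv_not (i, false)
    simp only [Bool.not_false] at this
    simp [State2_ed, src, this]
  · left
    refine ⟨by simp [State2_ed, src], ?_⟩
    rw [tgt_eq]
    simp [State2_ed, src]

lemma State2_ed_sym {φ : V → V → ℝ} (hφ : ∀ x y, φ x y = φ y x) (a : V) (d : Dir) :
    φ (src (State2_ed (a, d))) (tgt (State2_ed (a, d))) = φ a (a + dv d) := by
  rcases State2_ed_ends a d with ⟨h1, h2⟩ | ⟨h1, h2⟩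
  · rw [h1, h2]
  · rw [h1, h2, hφ]

lemma State2_ed_inj {a a' : V} {d d' : Dir} (ha : IsEven a) (ha' : IsEven a')
    (h : State2_ed (a, d) = State2_ed (a', d')) : (a, d) = (a', d') := by
  have hs := congrArg src h
  have ht := congrArg tgt h
  rcases State2_ed_ends a d with ⟨h1, h2⟩ | ⟨h1, h2⟩ <;>
    rcases State2_ed_ends a' d' with ⟨h3, h4⟩ | ⟨h3, h4⟩ <;>
    rw [h1, h3] at hs <;> rw [h2, h4] at ht
  · subst hs
    rw [dv_injective (add_left_cancel ht)]
  · exact absurd ha' (isEven_add_dv.1 (hs ▸ ha))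
  · exact absurd ha' (isEven_add_dv.1 (ht ▸ ha))
  · subst ht
    rw [dv_injective (add_left_cancel hs)]

lemma State2_sum_ed {A : Finset V} (hA : ∀ a ∈ A, IsEven a) {φ : V → V → ℝ}
    (hφ : ∀ x y, φ x y = φ y x) :
    ∑ e ∈ (A ×ˢ (univ : Finset Dir)).image State2_ed, φ (src e) (tgt e) =
      ∑ a ∈ A, ∑ d : Dir, φ a (a + dv d) := by
  rw [sum_image, sum_product]
  · exact sum_congr rfl fun a _ => sum_congr rfl fun d _ => State2_ed_sym hφ a d
  · rintro ⟨a, d⟩ h1 ⟨a', d'⟩ h2 h
    simp only [coe_product, Set.mem_prod, mem_coe] at h1 h2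
    exact State2_ed_inj (hA a h1.1) (hA a' h2.1) h

lemma State2_second {G : Finset V → ℝ} (h : IsState G) {A : Finset V} (hA : ∀ a ∈ A, IsEven a)
    {f : V → ℝ} (hf : ∀ a, IsEven a → a ∉ A → ∀ d, f (a + dv d) = f a) {B : Finset V}
    (hB : ∀ v ∉ B, State2_L f v = 0) :
    (∑ x ∈ B.filter IsEven, ∑ y ∈ B.filter (fun v => ¬ IsEven v),
        State2_L f x * State2_L f y * G {x, y}) +
      ∑ a ∈ A, ∑ d : Dir, (f (a + dv d) - f a) ^ 2 * G {a, a + dv d} ≤
      (∑ a ∈ A, ∑ d : Dir, (f (a + dv d) - f a) ^ 2) / 2 := by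
  set D := (A ×ˢ (univ : Finset Dir)).image State2_ed with hD
  have key := h.second D (fun e => f (src e) - f (tgt e))
  have hdv : ∀ v, dvg D (fun e => f (src e) - f (tgt e)) v = State2_L f v := by
    intro v
    rw [← State2_div hA hf v, dvg, sum_filter, sum_filter, ← sum_sub_distrib]
    rw [← State2_sum_ed hA (φ := fun x y => (f x - f y) *
      ((if x = v then 1 else 0) - (if y = v then 1 else 0))) (fun x y => by ring)]
    refine sum_congr rfl fun e _ => ?_
    split_ifs <;> ring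
  have hv : ∀ v ∉ verts D, State2_L f v = 0 := by
    intro v hv
    rw [← hdv v, dvg]
    simp only [verts, mem_union, mem_image, not_or, not_exists, not_and] at hv
    rw [filter_eq_empty_iff.2 hv.1, filter_eq_empty_iff.2 hv.2]
    simp
  have e1 := State2_sum_ed hA (φ := fun x y => (f x - f y) ^ 2 * G {x, y})
    (fun x y => by rw [pair_comm x y]; ring)
  have e2 := State2_sum_ed hA (φ := fun x y => (f x - f y) ^ 2) (fun x y => by ring)
  simp only [hdv] at key
  rw [← hD] at e1 e2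
  rw [e1, e2] at key
  have e3 : (∑ x ∈ B.filter IsEven, ∑ y ∈ B.filter (fun v => ¬ IsEven v),
        State2_L f x * State2_L f y * G {x, y}) =
      ∑ x ∈ (verts D).filter IsEven, ∑ y ∈ (verts D).filter (fun v => ¬ IsEven v),
        State2_L f x * State2_L f y * G {x, y} := by
    refine sum_congr_of_eq_on_inter ?_ ?_ ?_
    · intro x hx hx'
      have : State2_L f x = 0 := hv x fun hh => hx' (mem_filter.2 ⟨hh, (mem_filter.1 hx).2⟩)
      simp [this]
    · intro x hx hx'
      have : State2_L f x = 0 := hB x fun hh => hx' (mem_filter.2 ⟨hh, (mem_filter.1 hx).2⟩)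
      simp [this]
    · intro x _ _
      refine sum_congr_of_eq_on_inter ?_ ?_ fun _ _ _ => rfl
      · intro y hy hy'
        have : State2_L f y = 0 := hv y fun hh => hy' (mem_filter.2 ⟨hh, (mem_filter.1 hy).2⟩)
        simp [this]
      · intro y hy hy'
        have : State2_L f y = 0 := hB y fun hh => hy' (mem_filter.2 ⟨hh, (mem_filter.1 hy).2⟩)
        simp [this]
  rw [e3]
  have e4 : ∀ a d, (f (a + dv d) - f a) ^ 2 = (f a - f (a + dv d)) ^ 2 := fun a d => by ring
  simp only [e4]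
  exact key

lemma State2_energy {A : Finset V} (hA : ∀ a ∈ A, IsEven a)
    {f : V → ℝ} (hf : ∀ a, IsEven a → a ∉ A → ∀ d, f (a + dv d) = f a) {B : Finset V}
    (hB : ∀ v ∉ B, f v = 0) :
    ∑ a ∈ A, ∑ d : Dir, (f (a + dv d) - f a) ^ 2 = ∑ v ∈ B, f v * State2_L f v := by
  have h0 : ∀ u, ∑ v ∈ B, f v * (if u = v then 1 else 0) = f u := by
    intro u
    simp only [mul_ite, mul_one, mul_zero, sum_ite_eq]
    split_ifs with h
    · rfl
    · exact (hB u h).symm
  simp only [← State2_div hA hf, mul_sum]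
  symm
  rw [sum_comm]
  refine sum_congr rfl fun a _ => ?_
  rw [sum_comm]
  refine sum_congr rfl fun d _ => ?_
  have : ∀ v ∈ B, f v * ((f a - f (a + dv d)) *
      ((if a = v then 1 else 0) - (if a + dv d = v then 1 else 0))) =
      (f a - f (a + dv d)) * (f v * (if a = v then 1 else 0) -
        f v * (if a + dv d = v then 1 else 0)) := fun v _ => by ring
  rw [sum_congr rfl this, ← mul_sum, sum_sub_distrib, h0, h0]
  ring

lemma State2_sum_tr (v : V) (Λ : Finset V) (h : V → ℝ) :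
    ∑ x ∈ tr v Λ, h x = ∑ a ∈ Λ, h (a + v) :=
  sum_image fun _ _ _ _ hh => add_right_cancel hh

lemma State2_filter_tr (v : V) (Λ : Finset V) (p : V → Prop) [DecidablePred p]
    (hp : ∀ x, p (x + v) ↔ p x) : (tr v Λ).filter p = tr v (Λ.filter p) := by
  ext x
  simp only [mem_filter, mem_tr]
  have := hp (x - v)
  rw [sub_add_cancel] at this
  rw [this]

lemma State2_second_shift {G : Finset V → ℝ} (h : IsState G) {A : Finset V}
    (hA : ∀ a ∈ A, IsEven a)
    {f : V → ℝ} (hf : ∀ a, IsEven a → a ∉ A → ∀ d, f (a + dv d) = f a) {B : Finset V}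
    (hB : ∀ v ∉ B, State2_L f v = 0) {x : V} (hx : IsEven x) :
    (∑ a ∈ B.filter IsEven, ∑ c ∈ B.filter (fun v => ¬ IsEven v),
        State2_L f a * State2_L f c * G {x + a, x + c}) +
      ∑ a ∈ A, ∑ d : Dir, (f (a + dv d) - f a) ^ 2 * G {x + a, x + a + dv d} ≤
      (∑ a ∈ A, ∑ d : Dir, (f (a + dv d) - f a) ^ 2) / 2 := by
  have hev : ∀ u, IsEven (u + x) ↔ IsEven u := fun u => by rw [isEven_add]; tauto
  have hev' : ∀ u, IsEven (u - x) ↔ IsEven u := fun u => by rw [← hev, sub_add_cancel]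
  have hL : ∀ v, State2_L (fun u => f (u - x)) v = State2_L f (v - x) := by
    intro v
    simp only [State2_L]
    congr 1
    exact sum_congr rfl fun d _ => by rw [add_sub_right_comm]
  have key := State2_second h (A := tr x A) (f := fun u => f (u - x)) (B := tr x B)
    (fun a ha => (hev' a).1 (hA _ (mem_tr.1 ha)))
    (fun a ha ha' d => by
      have := hf (a - x) ((hev' a).2 ha) (fun hh => ha' (mem_tr.2 hh)) d
      rw [add_sub_right_comm]; exact this)
    (fun v hv => by rw [hL]; exact hB _ fun hh => hv (mem_tr.2 hh))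
  rw [State2_filter_tr x B IsEven hev,
    State2_filter_tr x B (fun v => ¬ IsEven v) (fun u => by rw [hev])] at key
  simp only [State2_sum_tr, hL, add_sub_cancel_right] at key
  have e1 : ∀ a d, a + x + dv d - x = a + dv d := fun a d => by abel
  simp only [e1] at key
  simp only [add_comm _ x] at key
  exact key

/-- Even points of a box. -/
noncomputable def State2_Q (n : ℕ) : Finset V := (box n).filter IsEven

/-- Size of a shell. -/
noncomputable def State2_E (n m : ℕ) : ℕ := (box (n + m) \ box n).card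

lemma State2_fol {ψ : V → ℝ} (h0 : ∀ x, 0 ≤ ψ x) (h1 : ∀ x, ψ x ≤ 1) (n m : ℕ) {a : V}
    (ha : IsEven a) (hb : a ∈ box m) :
    ∑ x ∈ State2_Q n, ψ (x + a) ≤ ∑ x ∈ State2_Q n, ψ x + State2_E n m := by
  rw [← State2_sum_tr]
  have hsub : tr a (State2_Q n) ⊆ State2_Q n ∪ (box (n + m) \ box n) := by
    intro y hy
    have hy' := mem_filter.1 (mem_tr.1 hy)
    have he : IsEven y := by
      have := isEven_add (x := y - a) (y := a)
      rw [sub_add_cancel] at this
      exact this.2 (by tauto)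
    by_cases hn : y ∈ box n
    · exact mem_union_left _ (mem_filter.2 ⟨hn, he⟩)
    · refine mem_union_right _ (mem_sdiff.2 ⟨mem_box.2 fun i => ?_, hn⟩)
      have h2 := mem_box.1 hy'.1 i
      have h3 := mem_box.1 hb i
      simp only [Pi.sub_apply] at h2
      push_cast
      omega
  have hdis : Disjoint (State2_Q n) (box (n + m) \ box n) :=
    disjoint_left.2 fun y hy hy' => (mem_sdiff.1 hy').2 (mem_filter.1 hy).1
  calc ∑ y ∈ tr a (State2_Q n), ψ y ≤ ∑ y ∈ State2_Q n ∪ (box (n + m) \ box n), ψ y :=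
        sum_le_sum_of_subset_of_nonneg hsub fun y _ _ => h0 y
    _ = ∑ y ∈ State2_Q n, ψ y + ∑ y ∈ box (n + m) \ box n, ψ y := sum_union hdis
    _ ≤ _ := by
        have : ∑ y ∈ box (n + m) \ box n, ψ y ≤ ∑ _y ∈ box (n + m) \ box n, (1 : ℝ) :=
          sum_le_sum fun y _ => h1 y
        simp only [sum_const, nsmul_eq_mul, mul_one] at this
        unfold State2_E
        linarith

lemma State2_fol' {ψ : V → ℝ} (h0 : ∀ x, 0 ≤ ψ x) (h1 : ∀ x, ψ x ≤ 1) (n m : ℕ) {a : V}
    (ha : IsEven a) (hb : a ∈ box m) :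
    ∑ x ∈ State2_Q n, ψ x - State2_E n m ≤ ∑ x ∈ State2_Q n, ψ (x + a) := by
  have := State2_fol (ψ := fun x => ψ (x + a)) (fun x => h0 _) (fun x => h1 _) n m
    (isEven_neg.2 ha) (State2_neg_mem_box hb)
  simp only [neg_add_cancel_right] at this
  linarith only [this]

lemma State2_card_Q (n : ℕ) : (2 * n + 1) ^ 3 ≤ 2 * (State2_Q (n + 1)).card := by
  rw [← card_box]
  have hsub : box n ⊆ State2_Q (n + 1) ∪ tr (-dv (0, true)) (State2_Q (n + 1)) := by
    intro x hx
    by_cases he : IsEven x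
    · exact mem_union_left _ (mem_filter.2 ⟨box_mono (Nat.le_succ n) hx, he⟩)
    · refine mem_union_right _ (mem_tr.2 ?_)
      rw [sub_neg_eq_add]
      exact mem_filter.2 ⟨add_dv_mem_box hx _, isEven_add_dv.2 he⟩
  have := (card_le_card hsub).trans (card_union_le _ _)
  rw [card_tr] at this
  omega

lemma State2_size (m n₀ : ℕ) : ∃ n : ℕ, n₀ ≤ (State2_Q n).card ∧
    2000 * State2_E n m ≤ (State2_Q n).card := by
  obtain ⟨k, hk⟩ : ∃ k, k = 30000 * (m + 1) + n₀ := ⟨_, rfl⟩
  refine ⟨k + 1, ?_, ?_⟩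
  · have h1 := State2_card_Q k
    have h2 : 2 * k + 1 ≤ (2 * k + 1) ^ 3 := Nat.le_self_pow (by norm_num) _
    omega
  · have h1 := State2_card_Q k
    have h2 : State2_E (k + 1) m + (2 * (k + 1) + 1) ^ 3 = (2 * (k + 1 + m) + 1) ^ 3 := by
      rw [State2_E, ← card_box, ← card_box]
      exact card_sdiff_add_card_eq_card (box_mono (by omega))
    obtain ⟨u, hu⟩ : ∃ u, u = 2 * k + 1 := ⟨_, rfl⟩
    obtain ⟨K, hK⟩ : ∃ K, K = 2 * m + 2 := ⟨_, rfl⟩
    have h3 : 2 * (k + 1 + m) + 1 = u + K := by omega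
    have h4 : u ^ 3 ≤ (2 * (k + 1) + 1) ^ 3 := Nat.pow_le_pow_left (by omega) 3
    rw [h3] at h2
    rw [← hu] at h1
    have h5 : 30000 * K ≤ u := by omega
    have h6 : K ≤ u := by omega
    have h7 : (u + K) ^ 3 ≤ u ^ 3 + 7 * (K * u ^ 2) := by
      have a1 : K * (K * u) ≤ K * (u * u) := Nat.mul_le_mul_left _ (Nat.mul_le_mul_right _ h6)
      have a2 : K * (K * K) ≤ K * (u * u) := Nat.mul_le_mul_left _ (Nat.mul_le_mul h6 h6)
      linarith only [a1, a2]
    have h8 : 30000 * (K * u ^ 2) ≤ u ^ 3 := by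
      have := Nat.mul_le_mul_right (u ^ 2) h5
      linarith only [this]
    omega

lemma State2_p0 {B : Finset V} (hB : (0 : V) ∈ B) (ψ : V → ℝ) :
    ∑ v ∈ B, pk 0 v * ψ v = ψ 0 := by
  simp [pk, hB]

lemma State2_dv_mem (m : ℕ) (d : Dir) : dv d ∈ box (m + 1) := by
  have : (0 : V) ∈ box m := mem_box.2 fun i => by simp
  simpa using add_dv_mem_box this d

lemma State2_p1 (m : ℕ) (ψ : V → ℝ) :
    ∑ v ∈ box (m + 1), pk 1 v * ψ v = (∑ d : Dir, ψ (dv d)) / 6 := by
  have h1 : ∀ v, pk 1 v * ψ v = (∑ d : Dir, if v = -dv d then ψ v else 0) / 6 := by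
    intro v
    simp only [pk, add_eq_zero_iff_eq_neg]
    rw [div_mul_eq_mul_div, sum_mul]
    simp
  simp only [h1]
  rw [← sum_div, sum_comm, ← State2_sum_neg]
  congr 1
  refine sum_congr rfl fun d _ => ?_
  rw [sum_ite_eq', if_pos (State2_neg_mem_box (State2_dv_mem m d))]

lemma State2_conv (m : ℕ) (g : V → ℝ) :
    ∑ a ∈ box (m + 1), pk m a * ((∑ d : Dir, g (dv d - a)) / 6) =
      ∑ z ∈ box (m + 1), pk (m + 1) z * g z := by
  have h1 : ∀ d : Dir, ∑ a ∈ box (m + 1), pk m a * g (dv d - a) =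
      ∑ z ∈ box (m + 1), pk m (z + -dv d) * g z := by
    intro d
    refine sum_bij_ne_zero (fun a _ _ => dv d - a) ?_ ?_ ?_ ?_
    · intro a _ ha
      have : a ∈ box m := by
        by_contra hn
        exact ha (by rw [pk_eq_zero hn, zero_mul])
      have := add_dv_mem_box (State2_neg_mem_box this) d
      rwa [neg_add_eq_sub] at this
    · intro a _ _ a' _ _ h
      exact sub_right_injective h
    · intro z _ hz
      have h2 : z + -dv d ∈ box m := by
        by_contra hn
        exact hz (by rw [pk_eq_zero hn, zero_mul])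
      have h3 : dv d - z = -(z + -dv d) := by abel
      refine ⟨dv d - z, ?_, ?_, by abel⟩
      · rw [h3]; exact box_mono (Nat.le_succ m) (State2_neg_mem_box h2)
      · rw [sub_sub_cancel, h3, State2_pk_neg]; exact hz
    · intro a _ _
      rw [show dv d - a + -dv d = -a by abel, State2_pk_neg]
  have h2 : ∀ a, pk m a * ((∑ d : Dir, g (dv d - a)) / 6) =
      (∑ d : Dir, pk m a * g (dv d - a)) / 6 := fun a => by rw [← mul_sum]; ring
  simp only [h2]
  rw [← sum_div, sum_comm]
  simp only [h1]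
  rw [sum_comm, sum_div]
  refine sum_congr rfl fun z _ => ?_
  rw [← sum_mul, State2_sum_neg (fun u => pk m (z + u))]
  simp only [pk]
  ring

/-- The test function. -/
noncomputable def State2_f (N : ℕ) (x : V) : ℝ :=
  ∑ j ∈ range (2 * N), (pk (j + 1) x + 3 / 5 * pk j x)

lemma State2_f_nonneg (N : ℕ) (x : V) : 0 ≤ State2_f N x :=
  sum_nonneg fun j _ => by
    have := pk_nonneg (j + 1) x
    have := pk_nonneg j x
    positivity

lemma State2_f_zero {N : ℕ} {x : V} (h : x ∉ box (2 * N)) : State2_f N x = 0 := by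
  refine sum_eq_zero fun j hj => ?_
  have hj' := mem_range.1 hj
  rw [pk_eq_zero fun hh => h (box_mono (by omega) hh),
    pk_eq_zero fun hh => h (box_mono (by omega) hh)]
  simp

lemma State2_f_nb (N : ℕ) (x : V) : ∑ d : Dir, State2_f N (x + dv d) =
    6 * ∑ j ∈ range (2 * N), (pk (j + 2) x + 3 / 5 * pk (j + 1) x) := by
  unfold State2_f
  rw [sum_comm, mul_sum]
  refine sum_congr rfl fun j _ => ?_
  rw [sum_add_distrib, ← mul_sum]
  have e1 : pk (j + 2) x = (∑ d : Dir, pk (j + 1) (x + dv d)) / 6 := rfl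
  have e2 : pk (j + 1) x = (∑ d : Dir, pk j (x + dv d)) / 6 := rfl
  rw [e1, e2]
  ring

lemma State2_L_f (N : ℕ) (x : V) : State2_L (State2_f N) x =
    6 * (pk 1 x - pk (2 * N + 1) x) + 18 / 5 * (pk 0 x - pk (2 * N) x) := by
  rw [State2_L, State2_f_nb, State2_f, ← mul_sub, ← sum_sub_distrib]
  have t1 := sum_range_sub' (fun j => pk (j + 1) x + 3 / 5 * pk j x) (2 * N)
  simp only [zero_add] at t1
  rw [t1]
  ring

lemma State2_f_out {N : ℕ} {a : V} (ha : a ∉ box (2 * N + 1)) (d : Dir) :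
    State2_f N (a + dv d) = State2_f N a := by
  rw [State2_f_zero (x := a) fun hh => ha (box_mono (Nat.le_succ _) hh), State2_f_zero]
  intro hh
  have := add_dv_mem_box hh (d.1, !d.2)
  rw [dv_not, add_neg_cancel_right] at this
  exact ha this

lemma State2_L_out {N : ℕ} {v : V} (hv : v ∉ box (2 * N + 1)) : State2_L (State2_f N) v = 0 := by
  rw [State2_L_eq]
  simp [State2_f_out hv]

lemma State2_energy_le (N : ℕ) :
    ∑ a ∈ (box (2 * N + 1)).filter IsEven, ∑ d : Dir,
      (State2_f N (a + dv d) - State2_f N a) ^ 2 ≤ 1326 / 125 := by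
  rw [State2_energy (B := box (2 * N + 1)) (fun a ha => (mem_filter.1 ha).2)
    (fun a ha ha' d => State2_f_out (fun hh => ha' (mem_filter.2 ⟨hh, ha⟩)) d)
    (fun v hv => State2_f_zero fun hh => hv (box_mono (Nat.le_succ _) hh))]
  have h1 : ∑ v ∈ box (2 * N + 1), State2_f N v * State2_L (State2_f N) v ≤
      ∑ v ∈ box (2 * N + 1), (6 * (pk 1 v * State2_f N v) + 18 / 5 * (pk 0 v * State2_f N v)) := by
    refine sum_le_sum fun v _ => ?_
    rw [State2_L_f]
    have a1 := mul_nonneg (State2_f_nonneg N v) (pk_nonneg (2 * N + 1) v)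
    have a2 := mul_nonneg (State2_f_nonneg N v) (pk_nonneg (2 * N) v)
    linarith only [a1, a2]
  refine h1.trans ?_
  have h0 : (0 : V) ∈ box (2 * N + 1) := mem_box.2 fun i => by simp; omega
  rw [sum_add_distrib, ← mul_sum, ← mul_sum, State2_p1, State2_p0 h0]
  have h2 := State2_f_nb N 0
  simp only [zero_add] at h2
  rw [h2, State2_f, sum_add_distrib, sum_add_distrib, ← mul_sum, ← mul_sum]
  have w0 := watson (2 * N)
  have w1 := watson (2 * N + 1)
  have w2 := watson (2 * N + 2)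
  rw [sum_range_succ'] at w1
  rw [sum_range_succ', sum_range_succ'] at w2
  have q0 : pk 0 0 = 1 := by simp [pk]
  have q1 := pk_nonneg (0 + 1) 0
  rw [q0] at w1 w2
  have e : ∀ j, j + 1 + 1 = j + 2 := fun j => rfl
  simp only [e] at w2
  linarith only [w0, w1, q1, w2]

lemma State2_first {G : Finset V → ℝ} (h : IsState G) (N : ℕ) (x : V) :
    108 / 5 * (1 / 6 - ∑ z ∈ box (2 * N + 1), pk (2 * N + 1) z * G {x, x + z} -
      ∑ a ∈ box (2 * N + 1), pk (2 * N) a * ((∑ d : Dir, G {x + a, x + dv d}) / 6)) ≤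
    ∑ a ∈ (box (2 * N + 1)).filter IsEven, ∑ c ∈ (box (2 * N + 1)).filter (fun v => ¬ IsEven v),
      State2_L (State2_f N) a * State2_L (State2_f N) c * G {x + a, x + c} := by
  have ev : ∀ (k : ℕ) (v : V), IsEven v → pk (2 * k + 1) v = 0 := by
    intro k v hv
    by_contra hn
    have := (pk_parity hn).1 hv
    exact (Nat.not_even_iff_odd.2 ⟨k, rfl⟩) this
  have od : ∀ (k : ℕ) (v : V), ¬ IsEven v → pk (2 * k) v = 0 := by
    intro k v hv
    by_contra hn
    exact hv ((pk_parity hn).2 ⟨k, by ring⟩)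
  have e1 : ∑ a ∈ (box (2 * N + 1)).filter IsEven,
      ∑ c ∈ (box (2 * N + 1)).filter (fun v => ¬ IsEven v),
      State2_L (State2_f N) a * State2_L (State2_f N) c * G {x + a, x + c} =
      ∑ a ∈ box (2 * N + 1), ∑ c ∈ box (2 * N + 1),
        108 / 5 * ((pk 0 a - pk (2 * N) a) * (pk 1 c - pk (2 * N + 1) c) * G {x + a, x + c}) := by
    rw [sum_filter]
    refine sum_congr rfl fun a _ => ?_
    split_ifs with ha
    · rw [sum_filter]
      refine sum_congr rfl fun c _ => ?_
      split_ifs with hc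
      · rw [ev 0 c hc, ev N c hc]; ring
      · rw [State2_L_f, State2_L_f, ev 0 a ha, ev N a ha, od 0 c hc, od N c hc]; ring
    · rw [od 0 a ha, od N a ha]
      simp
  rw [e1]
  have h0 : (0 : V) ∈ box (2 * N + 1) := mem_box.2 fun i => by simp; omega
  have e2 : ∑ a ∈ box (2 * N + 1), ∑ c ∈ box (2 * N + 1),
      108 / 5 * (pk 0 a * (pk 1 c * G {x + a, x + c}) -
        pk 0 a * (pk (2 * N + 1) c * G {x + a, x + c}) -
        pk (2 * N) a * (pk 1 c * G {x + a, x + c})) =
      108 / 5 * (1 / 6 - ∑ z ∈ box (2 * N + 1), pk (2 * N + 1) z * G {x, x + z} -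
      ∑ a ∈ box (2 * N + 1), pk (2 * N) a * ((∑ d : Dir, G {x + a, x + dv d}) / 6)) := by
    simp only [← mul_sum, sum_sub_distrib]
    simp only [State2_p1 (2 * N) (fun c => G {x + _, x + c})]
    rw [State2_p0 h0 (fun a => (∑ d : Dir, G {x + a, x + dv d}) / 6),
      State2_p0 h0 (fun a => ∑ c ∈ box (2 * N + 1), pk (2 * N + 1) c * G {x + a, x + c})]
    simp only [add_zero, h.sum x]
  rw [← e2]
  refine sum_le_sum fun a _ => sum_le_sum fun c _ => ?_
  have := mul_nonneg (mul_nonneg (pk_nonneg (2 * N) a) (pk_nonneg (2 * N + 1) c))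
    (h.nonneg {x + a, x + c})
  linarith only [this]

/-- Long range order along the random walk. -/
theorem ir : ∃ c₀ : ℝ, 0 < c₀ ∧ ∀ G, IsState G → ∀ N n₀ : ℕ, ∃ Q : Finset V,
    (∀ x ∈ Q, IsEven x) ∧ n₀ ≤ Q.card ∧
      c₀ * Q.card ≤ ∑ x ∈ Q, ∑ z ∈ box (2 * N + 1), pk (2 * N + 1) z * G {x, x + z} := by
  refine ⟨1 / 1000, by norm_num, fun G h N n₀ => ?_⟩
  obtain ⟨n, hn1, hn2⟩ := State2_size (2 * N + 1) n₀
  have hQ : ∀ x ∈ State2_Q n, IsEven x := fun x hx => (mem_filter.1 hx).2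
  refine ⟨State2_Q n, hQ, hn1, ?_⟩
  have hE : 2000 * (State2_E n (2 * N + 1) : ℝ) ≤ (State2_Q n).card := by exact_mod_cast hn2
  have hE0 : (0 : ℝ) ≤ State2_E n (2 * N + 1) := Nat.cast_nonneg _
  set E : ℝ := (State2_E n (2 * N + 1) : ℝ) with hEdef
  set L := ∑ x ∈ State2_Q n, ∑ z ∈ box (2 * N + 1), pk (2 * N + 1) z * G {x, x + z} with hL
  set g : V → ℝ := fun z => ∑ x ∈ State2_Q n, G {x, x + z} with hg
  set w := State2_w (State2_f N) (2 * N + 1) (0, true) with hw
  have hwd : ∀ d, State2_w (State2_f N) (2 * N + 1) d = w := fun d =>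
    State2_w_eq (fun x => by simp only [State2_f, State2_pk_neg])
      (fun s x => by simp only [State2_f, State2_pk_perm]) _ d
  have hen : ∑ a ∈ (box (2 * N + 1)).filter IsEven, ∑ d : Dir,
      (State2_f N (a + dv d) - State2_f N a) ^ 2 = 6 * w := by
    rw [sum_comm]
    have : ∀ d : Dir, ∑ a ∈ (box (2 * N + 1)).filter IsEven,
      (State2_f N (a + dv d) - State2_f N a) ^ 2 = w := hwd
    simp only [this]
    simp
  have hw1 : 6 * w ≤ 1326 / 125 := hen ▸ State2_energy_le N
  have hw0 : 0 ≤ w := sum_nonneg fun _ _ => sq_nonneg _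
  have hpt : ∀ x ∈ State2_Q n,
      108 / 5 * (1 / 6 - ∑ z ∈ box (2 * N + 1), pk (2 * N + 1) z * G {x, x + z} -
        ∑ a ∈ box (2 * N + 1), pk (2 * N) a * ((∑ d : Dir, G {x + a, x + dv d}) / 6)) +
      ∑ a ∈ (box (2 * N + 1)).filter IsEven, ∑ d : Dir,
        (State2_f N (a + dv d) - State2_f N a) ^ 2 * G {x + a, x + a + dv d} ≤ 3 * w := by
    intro x hx
    have k1 := State2_first h N x
    have k2 := State2_second_shift h (A := (box (2 * N + 1)).filter IsEven) (f := State2_f N)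
      (B := box (2 * N + 1)) (fun a ha => (mem_filter.1 ha).2)
      (fun a ha ha' d => State2_f_out (fun hh => ha' (mem_filter.2 ⟨hh, ha⟩)) d)
      (fun v hv => State2_L_out hv) (hQ x hx)
    rw [hen] at k2
    linarith only [k1, k2]
  have hsum := sum_le_sum hpt
  rw [sum_add_distrib, ← mul_sum, sum_sub_distrib, sum_sub_distrib, ← hL] at hsum
  simp only [sum_const, nsmul_eq_mul] at hsum
  have hLg : ∑ z ∈ box (2 * N + 1), pk (2 * N + 1) z * g z = L := by
    rw [hL, sum_comm]
    exact sum_congr rfl fun z _ => mul_sum _ _ _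
  have t1 : ∑ x ∈ State2_Q n, ∑ a ∈ box (2 * N + 1),
      pk (2 * N) a * ((∑ d : Dir, G {x + a, x + dv d}) / 6) ≤ L + E := by
    rw [sum_comm, ← hLg, ← State2_conv]
    have s1 : ∑ a ∈ box (2 * N + 1), pk (2 * N) a = 1 := by
      rw [← sum_pk (2 * N)]
      exact (sum_subset (box_mono (Nat.le_succ _)) fun a _ ha => pk_eq_zero ha).symm
    have s2 : E = ∑ a ∈ box (2 * N + 1), pk (2 * N) a * E := by rw [← sum_mul, s1, one_mul]
    rw [s2, ← sum_add_distrib]
    refine sum_le_sum fun a ha => ?_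
    rw [← mul_sum, ← mul_add]
    by_cases hp : pk (2 * N) a = 0
    · simp [hp]
    refine mul_le_mul_of_nonneg_left ?_ (pk_nonneg _ _)
    have hae : IsEven a := (pk_parity hp).2 ⟨N, by ring⟩
    rw [← sum_div, sum_comm]
    have s3 : ∀ d : Dir, ∑ x ∈ State2_Q n, G {x + a, x + dv d} ≤ g (dv d - a) + E := by
      intro d
      have := State2_fol (ψ := fun x => G {x, x + (dv d - a)}) (fun x => h.nonneg _)
        (fun x => h.le_one _) n (2 * N + 1) hae ha
      have e : ∀ x, x + a + (dv d - a) = x + dv d := fun x => by abel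
      simp only [e] at this
      exact this
    have s4 := sum_le_sum fun d (_ : d ∈ (univ : Finset Dir)) => s3 d
    rw [sum_add_distrib] at s4
    simp only [sum_const, card_univ, Fintype.card_prod, Fintype.card_fin, Fintype.card_bool,
      nsmul_eq_mul] at s4
    push_cast at s4
    linarith only [s4]
  have t2 : w * (State2_Q n).card - 6 * w * E ≤ ∑ x ∈ State2_Q n,
      ∑ a ∈ (box (2 * N + 1)).filter IsEven, ∑ d : Dir,
        (State2_f N (a + dv d) - State2_f N a) ^ 2 * G {x + a, x + a + dv d} := by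
    have s1 : ∑ d : Dir, g (dv d) = (State2_Q n).card := by
      rw [sum_comm]
      simp [h.sum]
    have s2 : w * (State2_Q n).card - 6 * w * E = ∑ a ∈ (box (2 * N + 1)).filter IsEven,
        ∑ d : Dir, (State2_f N (a + dv d) - State2_f N a) ^ 2 * (g (dv d) - E) := by
      rw [sum_comm]
      have : ∀ d : Dir, ∑ a ∈ (box (2 * N + 1)).filter IsEven,
          (State2_f N (a + dv d) - State2_f N a) ^ 2 * (g (dv d) - E) = w * (g (dv d) - E) := by
        intro d
        rw [← sum_mul, ← hwd d]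
        rfl
      simp only [this]
      rw [← mul_sum, sum_sub_distrib, s1]
      simp
      ring
    rw [s2, sum_comm (s := State2_Q n)]
    refine sum_le_sum fun a ha => ?_
    rw [sum_comm]
    refine sum_le_sum fun d _ => ?_
    rw [← mul_sum]
    refine mul_le_mul_of_nonneg_left ?_ (sq_nonneg _)
    exact State2_fol' (ψ := fun x => G {x, x + dv d}) (fun x => h.nonneg _)
      (fun x => h.le_one _) n (2 * N + 1) (mem_filter.1 ha).2 (mem_filter.1 ha).1
  have hq : (0 : ℝ) ≤ (State2_Q n).card := Nat.cast_nonneg _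
  have b1 := mul_le_mul_of_nonneg_right hw1 hq
  have b2 := mul_le_mul_of_nonneg_right hw1 hE0
  linarith only [hE, hsum, t1, t2, b1, b2]

end Pool.Agent.Work.MP_5cb0a4_pr.Z
end

-- merged part: Pool.Agent.Work.MP_5cb0a4_pr.Z.State3
section
open MeasureTheory Finset MvPolynomial Filter Topology

namespace Pool.Agent.Work.MP_5cb0a4_pr.Z

theorem State3_near {ε δ : ℝ} (hε : 0 < ε) (hδ : 0 ≤ δ) {K n : ℕ} (hn : ¬ Even n)
    (hs : ∀ z, pk n z ≤ δ) {G : Finset V → ℝ} (hG : IsState G) {x : V} {m : ℝ}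
    (hm : 0 ≤ m)
    (hK : ((((box n).filter fun z => ¬ IsEven z).image fun z => x + z).filter fun y =>
      ε < |(if y ∈ ({x} : Finset V) then 0 else G (insert y {x})) - m|).card ≤ K) :
    ∑ z ∈ box n, pk n z * G {x, x + z} ≤ m + ε + K * δ := by
  set F := ((box n).filter fun z => ¬ IsEven z).filter fun z => ε < |G {x, x + z} - m| with hF
  have hc : F.card ≤ K := by
    refine le_trans ?_ hK
    refine card_le_card_of_injOn (fun z => x + z) (fun z hz => ?_) fun z _ z' _ h => by simpa using h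
    obtain ⟨h1, h2⟩ := mem_filter.1 (mem_coe.1 hz)
    have h3 : x + z ∉ ({x} : Finset V) := by
      intro h
      have h4 : z = 0 := by simpa using h
      exact (mem_filter.1 h1).2 (by simp [h4, IsEven])
    refine mem_coe.2 (mem_filter.2 ⟨mem_image_of_mem _ h1, ?_⟩)
    rw [if_neg h3, pair_comm]
    exact h2
  have h1 : ∀ z ∈ box n, pk n z * G {x, x + z} ≤ pk n z * (m + ε) + if z ∈ F then δ else 0 := by
    intro z hz
    have hp := pk_nonneg n z
    by_cases h0 : pk n z = 0
    · rw [h0, zero_mul, zero_mul, zero_add]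
      split_ifs
      exacts [hδ, le_rfl]
    have ho : ¬ IsEven z := fun h => hn ((pk_parity h0).1 h)
    split_ifs with h
    · have h2 := mul_le_mul_of_nonneg_left (hG.le_one {x, x + z}) hp
      have h3 := mul_nonneg hp (add_nonneg hm hε.le)
      have := hs z
      linarith only [h2, h3, this]
    · have h2 : |G {x, x + z} - m| ≤ ε :=
        not_lt.1 fun h' => h (mem_filter.2 ⟨mem_filter.2 ⟨hz, ho⟩, h'⟩)
      rw [add_zero]
      exact mul_le_mul_of_nonneg_left (by linarith only [h2, (abs_le.1 h2).2]) hp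
  refine (sum_le_sum h1).trans ?_
  rw [sum_add_distrib, ← sum_mul, sum_pk, one_mul, sum_ite_mem, sum_const, nsmul_eq_mul]
  have h2 : (((box n ∩ F).card : ℕ) : ℝ) ≤ K := by
    exact_mod_cast (card_le_card inter_subset_right).trans hc
  have := mul_le_mul_of_nonneg_right h2 hδ
  linarith only [this]

theorem two_point : ∃ c : ℝ, 0 < c ∧ ∃ K : ℕ, ∀ G, IsState G → ∀ U W : Finset V,
    (∀ x ∈ U, IsEven x) → (∀ y ∈ W, ¬ IsEven y) → K ≤ U.card → K ≤ W.card →
      c * U.card * W.card ≤ ∑ x ∈ U, ∑ y ∈ W, G {x, y} := by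
  obtain ⟨c₀, hc₀, hir⟩ := ir
  have hε : 0 < c₀ / 4 := by positivity
  obtain ⟨K₁, hK₁, hfar⟩ := few_far hε
  obtain ⟨K₂, hK₂, havg⟩ := avg_close hε
  have hK₁' : (0 : ℝ) < K₁ := by exact_mod_cast hK₁
  have hδ : 0 < c₀ / 4 / (2 * K₁) := by positivity
  obtain ⟨N, hN⟩ := pk_small hδ
  refine ⟨c₀ / 4, hε, K₁ + K₂, fun G hG U W hU hW hUc hWc => ?_⟩
  obtain ⟨Q, hQ, hQc, hs⟩ := hir G hG N K₂
  have hU0 : (0 : ℝ) < U.card := by exact_mod_cast (by omega : 0 < U.card)
  have hW0 : (0 : ℝ) < W.card := by exact_mod_cast (by omega : 0 < W.card)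
  have hQ0 : (0 : ℝ) < Q.card := by exact_mod_cast (by omega : 0 < Q.card)
  have h1 : ∀ x ∈ Q, ∑ z ∈ box (2 * N + 1), pk (2 * N + 1) z * G {x, x + z} ≤
      (∑ y ∈ W, G {x, y}) / W.card + c₀ / 2 := by
    intro x hx
    have h2 := hfar True _ (hG.energy {x} True) W
      (((box (2 * N + 1)).filter fun z => ¬ IsEven z).image fun z => x + z)
      (fun y hy => iff_true_intro (hW y hy))
      (fun y hy => by
        obtain ⟨z, hz, rfl⟩ := mem_image.1 hy
        have := (mem_filter.1 hz).2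
        have := hQ x hx
        rw [isEven_add]
        tauto) (by omega)
    have h3 : ∑ y ∈ W, (if y ∈ ({x} : Finset V) then 0 else G (insert y {x})) =
        ∑ y ∈ W, G {x, y} := sum_congr rfl fun y hy => by
      have h4 : y ∉ ({x} : Finset V) := fun h => hW y hy (by rw [mem_singleton.1 h]; exact hQ x hx)
      rw [if_neg h4, pair_comm]
    rw [h3] at h2
    have h4 := State3_near hε hδ.le (n := 2 * N + 1) (by simp)
      (hN _ (by omega)) hG
      (div_nonneg (sum_nonneg fun _ _ => hG.nonneg _) hW0.le) h2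
    have h5 : ((2 * K₁ : ℕ) : ℝ) * (c₀ / 4 / (2 * K₁)) = c₀ / 4 := by
      push_cast
      field_simp
    rw [h5] at h4
    linarith only [h4]
  have h2 := hs.trans (sum_le_sum h1)
  rw [sum_add_distrib, sum_const, nsmul_eq_mul, ← sum_div, sum_comm] at h2
  have h3 : ∀ y ∈ W, (∑ x ∈ Q, G {x, y}) / Q.card ≤ (∑ x ∈ U, G {x, y}) / U.card + c₀ / 4 := by
    intro y hy
    have h4 := havg False _ (hG.energy {y} False) Q U
      (fun x hx => iff_false_intro (not_not.2 (hQ x hx)))
      (fun x hx => iff_false_intro (not_not.2 (hU x hx))) hQc (by omega)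
    have h5 : ∀ A : Finset V, (∀ x ∈ A, IsEven x) →
        ∑ x ∈ A, (if x ∈ ({y} : Finset V) then 0 else G (insert x {y})) = ∑ x ∈ A, G {x, y} :=
      fun A hA => sum_congr rfl fun x hx => by
        have h6 : x ∉ ({y} : Finset V) := fun h =>
          hW y hy (by rw [← mem_singleton.1 h]; exact hA x hx)
        rw [if_neg h6]
    rw [h5 Q hQ, h5 U hU] at h4
    linarith only [h4, (abs_le.1 h4).2]
  have h4 := sum_le_sum h3
  rw [sum_add_distrib, sum_const, nsmul_eq_mul, ← sum_div, ← sum_div] at h4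
  have h5 : c₀ / 2 * W.card ≤ (∑ y ∈ W, ∑ x ∈ Q, G {x, y}) / Q.card := by
    have h6 : c₀ / 2 * Q.card ≤ (∑ y ∈ W, ∑ x ∈ Q, G {x, y}) / W.card := by linarith only [h2]
    rw [le_div_iff₀ hW0] at h6
    rw [le_div_iff₀ hQ0]
    linarith only [h6]
  have h6 : c₀ / 4 * W.card ≤ (∑ y ∈ W, ∑ x ∈ U, G {x, y}) / U.card := by linarith only [h4, h5]
  rw [le_div_iff₀ hU0] at h6
  rw [sum_comm]
  linarith only [h6]

theorem State3_dc (U : Finset V) (j : ℕ) (F : V → Finset V → ℝ) (hF : ∀ x A, 0 ≤ F x A) :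
    ∑ A ∈ powersetCard (j + 1) U, ∑ x ∈ A, F x (A.erase x) ≤
      ∑ x ∈ U, ∑ A ∈ powersetCard j U, F x A := by
  rw [sum_comm' (t' := U) (s' := fun x => (powersetCard (j + 1) U).filter fun A => x ∈ A)
    (fun A x => ⟨fun h => ⟨mem_filter.2 h, (mem_powersetCard.1 h.1).1 h.2⟩,
      fun h => mem_filter.1 h.1⟩)]
  refine sum_le_sum fun x _ => ?_
  rw [← sum_image (s := (powersetCard (j + 1) U).filter fun A => x ∈ A) (g := fun A => A.erase x)
    (f := F x) fun A hA B hB h => by
      rw [← insert_erase (mem_filter.1 (mem_coe.1 hA)).2, ← insert_erase (mem_filter.1 (mem_coe.1 hB)).2]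
      exact congrArg (insert x) h]
  refine sum_le_sum_of_subset_of_nonneg (fun B hB => ?_) fun A _ _ => hF x A
  obtain ⟨A, hA, rfl⟩ := mem_image.1 hB
  obtain ⟨h1, h2⟩ := mem_filter.1 hA
  obtain ⟨h3, h4⟩ := mem_powersetCard.1 h1
  exact mem_powersetCard.2 ⟨(erase_subset _ _).trans h3, by rw [card_erase_of_mem h2, h4]; rfl⟩

theorem State3_rec {G : Finset V → ℝ} (hG : IsState G) {U W : Finset V} (hU : ∀ x ∈ U, IsEven x)
    (hW : ∀ y ∈ W, ¬ IsEven y) (j : ℕ) :
    ((j : ℝ) + 1) * ∑ A ∈ powersetCard (j + 1) U, ∑ B ∈ powersetCard (j + 1) W, G (A ∪ B) ≤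
      U.card * W.card * ∑ A ∈ powersetCard j U, ∑ B ∈ powersetCard j W, G (A ∪ B) := by
  have h1 : ∀ A ∈ powersetCard (j + 1) U,
      ((j : ℝ) + 1) * ∑ B ∈ powersetCard (j + 1) W, G (A ∪ B) ≤
        ∑ x ∈ A, ∑ _y ∈ W, ∑ B ∈ powersetCard j W, G (A.erase x ∪ B) := by
    intro A hA
    obtain ⟨h2, h3⟩ := mem_powersetCard.1 hA
    have h4 : ((j : ℝ) + 1) * ∑ B ∈ powersetCard (j + 1) W, G (A ∪ B) =
        ∑ _x ∈ A, ∑ B ∈ powersetCard (j + 1) W, G (A ∪ B) := by
      rw [sum_const, h3, nsmul_eq_mul]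
      push_cast
      rfl
    rw [h4]
    refine sum_le_sum fun x hx => le_trans (sum_le_sum fun B hB => ?_)
      (State3_dc W j (fun _ B => G (A.erase x ∪ B)) fun _ _ => hG.nonneg _)
    have h5 := hG.switch (A.erase x) B x (fun v hv => hU v (h2 (mem_of_mem_erase hv)))
      (fun v hv => hW v ((mem_powersetCard.1 hB).1 hv)) (hU x (h2 hx)) (notMem_erase x A)
    rw [insert_erase hx] at h5
    refine h5.trans (sum_le_sum fun y _ => ?_)
    exact mul_le_of_le_one_left (hG.nonneg _) (hG.le_one _)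
  rw [mul_sum]
  refine (sum_le_sum h1).trans ((State3_dc U j
    (fun _ A => ∑ _y ∈ W, ∑ B ∈ powersetCard j W, G (A ∪ B))
    fun _ _ => sum_nonneg fun _ _ => sum_nonneg fun _ _ => hG.nonneg _).trans (le_of_eq ?_))
  simp only [sum_const, nsmul_eq_mul, ← mul_sum]
  ring

theorem State3_split {U W : Finset V} (hd : Disjoint U W) (f : Finset V → ℝ) :
    ∑ S ∈ (U ∪ W).powerset, f S = ∑ A ∈ U.powerset, ∑ B ∈ W.powerset, f (A ∪ B) := by
  rw [← sum_product']
  symm
  refine sum_nbij' (fun p => p.1 ∪ p.2) (fun S => (S ∩ U, S ∩ W)) ?_ ?_ ?_ ?_ fun _ _ => rfl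
  · intro p hp
    obtain ⟨h1, h2⟩ := mem_product.1 hp
    exact mem_powerset.2 (union_subset_union (mem_powerset.1 h1) (mem_powerset.1 h2))
  · intro S _
    exact mem_product.2 ⟨mem_powerset.2 inter_subset_right, mem_powerset.2 inter_subset_right⟩
  · rintro ⟨A, B⟩ hp
    obtain ⟨h1, h2⟩ := mem_product.1 hp
    have h3 := mem_powerset.1 h1
    have h4 := mem_powerset.1 h2
    dsimp only at h3 h4 ⊢
    rw [union_inter_distrib_right, union_inter_distrib_right, inter_eq_left.2 h3,
      inter_eq_left.2 h4, disjoint_iff_inter_eq_empty.1 (hd.symm.mono_left h4),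
      disjoint_iff_inter_eq_empty.1 (hd.mono_left h3), union_empty, empty_union]
  · intro S hS
    dsimp only
    rw [← inter_union_distrib_left, inter_eq_left.2 (mem_powerset.1 hS)]

theorem State3_odd {U : Finset V} (hU : ∀ x ∈ U, IsEven x) : ∀ y ∈ tr e0 U, ¬ IsEven y := by
  intro y hy
  obtain ⟨x, hx, rfl⟩ := mem_image.1 hy
  rw [e0_eq, isEven_add_dv, not_not]
  exact hU x hx

theorem State3_exp {G : Finset V → ℝ} (hG : IsState G) {U : Finset V} (hU : ∀ x ∈ U, IsEven x)
    (a : ℝ) :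
    |∑ j ∈ range (U.card + 1), (-a ^ 2) ^ j *
      ∑ A ∈ powersetCard j U, ∑ B ∈ powersetCard j (tr e0 U), G (A ∪ B)| ≤
      Real.exp (U.card * a ^ 2 / 2) := by
  have hW := State3_odd hU
  have hd : Disjoint U (tr e0 U) := disjoint_left.2 fun x h1 h2 => hW x h2 (hU x h1)
  have hi : Function.Injective fun x : V => ((x, 0) : Edge) := fun x y h => congrArg Prod.fst h
  have h1 := hG.exp_bound ∅ (U.image fun x => ((x, 0) : Edge)) fun _ => a
  have hv : verts (U.image fun x => ((x, 0) : Edge)) = U ∪ tr e0 U := by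
    rw [verts, image_image, image_image]
    congr 1
    exact image_id
  have h2 : ∀ v ∈ U, dvg (U.image fun x => ((x, 0) : Edge)) (fun _ => a) v = a := by
    intro v hv
    have e1 : (U.image fun x => ((x, 0) : Edge)).filter (fun e => src e = v) = {(v, 0)} := by
      ext e
      simp only [mem_filter, mem_image, mem_singleton]
      constructor
      · rintro ⟨⟨x, -, rfl⟩, rfl⟩
        rfl
      · rintro rfl
        exact ⟨⟨v, hv, rfl⟩, rfl⟩
    have e2 : (U.image fun x => ((x, 0) : Edge)).filter (fun e => tgt e = v) = ∅ := by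
      refine filter_eq_empty_iff.2 fun e he h => ?_
      obtain ⟨x, hx, rfl⟩ := mem_image.1 he
      exact hW v (mem_image.2 ⟨x, hx, h⟩) (hU v hv)
    rw [dvg, e1, e2, sum_singleton, sum_empty, sub_zero]
  have h3 : ∀ v ∈ tr e0 U, dvg (U.image fun x => ((x, 0) : Edge)) (fun _ => a) v = -a := by
    intro v hv
    obtain ⟨w, hw, rfl⟩ := mem_image.1 hv
    have e1 : (U.image fun x => ((x, 0) : Edge)).filter (fun e => src e = w + e0) = ∅ := by
      refine filter_eq_empty_iff.2 fun e he h => ?_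
      obtain ⟨x, hx, rfl⟩ := mem_image.1 he
      exact hW _ hv (h ▸ hU x hx)
    have e2 : (U.image fun x => ((x, 0) : Edge)).filter (fun e => tgt e = w + e0) = {(w, 0)} := by
      ext e
      simp only [mem_filter, mem_image, mem_singleton]
      constructor
      · rintro ⟨⟨x, -, rfl⟩, h⟩
        have h4 : x + e0 = w + e0 := h
        rw [add_right_cancel h4]
      · rintro rfl
        exact ⟨⟨w, hw, rfl⟩, rfl⟩
    rw [dvg, e1, e2, sum_singleton, sum_empty, zero_sub]
  rw [hv, sdiff_empty, State3_split hd, sum_const, card_image_of_injective _ hi, nsmul_eq_mul,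
    sum_powerset] at h1
  convert h1 using 2
  refine sum_congr rfl fun j _ => ?_
  rw [mul_sum]
  refine sum_congr rfl fun A hA => ?_
  obtain ⟨h4, h5⟩ := mem_powersetCard.1 hA
  rw [mul_sum, powersetCard_eq_filter, sum_filter]
  refine sum_congr rfl fun B hB => ?_
  have h6 := mem_powerset.1 hB
  rw [empty_union, prod_union ((hd.mono_left h4).mono_right h6),
    prod_congr rfl fun v hv => h2 v (h4 hv), prod_congr rfl fun v hv => h3 v (h6 hv),
    prod_const, prod_const, h5]
  split_ifs with h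
  · rw [h, ← mul_pow]
    congr 2
    ring
  · by_cases h0 : G (A ∪ B) = 0
    · rw [h0, mul_zero]
    have h7 := hG.neutral _ h0
    rw [filter_union, filter_union, filter_true_of_mem fun v hv => hU v (h4 hv),
      filter_false_of_mem fun v hv => hW v (h6 hv),
      filter_false_of_mem fun v hv => not_not.2 (hU v (h4 hv)),
      filter_true_of_mem fun v hv => hW v (h6 hv), union_empty, empty_union, h5] at h7
    exact absurd h7.symm h

theorem State3_step (e : ℕ → ℝ) (m k : ℕ) (τ c : ℝ) (hτ : 1 ≤ τ) (h0 : e 0 ≤ 1)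
    (hn : ∀ j, 0 ≤ e j) (hs : ∀ j : ℕ, ((j : ℝ) + 1) * e (j + 1) ≤ e j)
    (hb : |∑ j ∈ range (k + 2 + m), (-τ) ^ j * e j| ≤ 2) (hc : c ≤ e (k + 1))
    (hT : (k : ℝ) + 4 ≤ τ * c) : 1 ≤ e (k + 2) * (τ ^ (k + 2) * Real.exp τ) := by
  have hτ0 : 0 ≤ τ := by linarith only [hτ]
  have h1 : ∀ j, e j ≤ 1 := by
    intro j
    induction j with
    | zero => exact h0
    | succ j ih =>
      have := hs j
      have := mul_nonneg (Nat.cast_nonneg (α := ℝ) j) (hn (j + 1))
      linarith
  have h2 : ∀ i : ℕ, (i.factorial : ℝ) * e (k + 2 + i) ≤ e (k + 2) := by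
    intro i
    induction i with
    | zero => simp
    | succ i ih =>
      have h3 := hs (k + 2 + i)
      have h4 : ((i : ℝ) + 1) * e (k + 2 + i + 1) ≤ e (k + 2 + i) := by
        refine le_trans (mul_le_mul_of_nonneg_right ?_ (hn _)) h3
        push_cast
        have := Nat.cast_nonneg (α := ℝ) k
        linarith only []
      have h5 := mul_le_mul_of_nonneg_left h4 (Nat.cast_nonneg (α := ℝ) i.factorial)
      rw [Nat.factorial_succ, ← add_assoc]
      push_cast
      linarith only [ih, h5]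
  have ha : ∀ j, |(-τ) ^ j * e j| = τ ^ j * e j := fun j => by
    rw [abs_mul, abs_pow, abs_neg, abs_of_nonneg hτ0, abs_of_nonneg (hn j)]
  have h3 : |∑ j ∈ range (k + 1), (-τ) ^ j * e j| ≤ (k + 1) * τ ^ k := by
    refine (abs_sum_le_sum_abs _ _).trans ((sum_le_card_nsmul _ _ (τ ^ k) fun j hj => ?_).trans ?_)
    · rw [ha]
      exact (mul_le_of_le_one_right (pow_nonneg hτ0 _) (h1 j)).trans
        (pow_le_pow_right₀ hτ (Nat.lt_succ_iff.1 (mem_range.1 hj)))
    · rw [card_range, nsmul_eq_mul]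
      push_cast
      exact le_rfl
  have h4 : |∑ i ∈ range m, (-τ) ^ (k + 2 + i) * e (k + 2 + i)| ≤
      e (k + 2) * (τ ^ (k + 2) * Real.exp τ) := by
    refine (abs_sum_le_sum_abs _ _).trans (le_trans (sum_le_sum (g := fun i =>
      e (k + 2) * (τ ^ (k + 2) * (τ ^ i / i.factorial))) fun i _ => ?_) ?_)
    · have hf : (0 : ℝ) < i.factorial := by exact_mod_cast i.factorial_pos
      have h5 : e (k + 2 + i) ≤ e (k + 2) / i.factorial := by
        rw [le_div_iff₀ hf, mul_comm]
        exact h2 i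
      rw [ha, pow_add]
      refine (mul_le_mul_of_nonneg_left h5 (by positivity)).trans (le_of_eq ?_)
      ring
    · rw [← mul_sum, ← mul_sum]
      exact mul_le_mul_of_nonneg_left (mul_le_mul_of_nonneg_left
        (Real.sum_le_exp_of_nonneg hτ0 m) (by positivity)) (hn _)
  rw [sum_range_add, show k + 2 = k + 1 + 1 from rfl, sum_range_succ] at hb
  rw [show k + 2 = k + 1 + 1 from rfl] at h4 ⊢
  have h5 := ha (k + 1)
  have h6 : (1 : ℝ) ≤ τ ^ k := one_le_pow₀ hτ
  have h7 : τ ^ k * ((k : ℝ) + 4) ≤ τ ^ (k + 1) * e (k + 1) := by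
    rw [pow_succ, mul_assoc]
    exact mul_le_mul_of_nonneg_left (hT.trans (mul_le_mul_of_nonneg_left hc hτ0)) (by positivity)
  have h8 := abs_le.1 hb
  have h9 := abs_le.1 h3
  have h10 := abs_le.1 h4
  rcases abs_cases ((-τ) ^ (k + 1) * e (k + 1)) with h | h <;> linarith only [h5, h6, h7, h8, h9, h10, h, h.1]

theorem State3_succ (k : ℕ) : ∃ c : ℝ, 0 < c ∧ ∃ n₀ : ℕ, ∀ G, IsState G → ∀ U : Finset V,
    (∀ x ∈ U, IsEven x) → n₀ ≤ U.card →
      c * (U.card : ℝ) ^ (2 * (k + 1)) ≤
        ∑ A ∈ powersetCard (k + 1) U, ∑ B ∈ powersetCard (k + 1) (tr e0 U), G (A ∪ B) := by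
  induction k with
  | zero =>
    obtain ⟨c, hc, K, h⟩ := two_point
    refine ⟨c, hc, K, fun G hG U hU hK => ?_⟩
    have h1 := h G hG U (tr e0 U) hU (State3_odd hU) hK (by rwa [card_tr])
    rw [card_tr] at h1
    simp only [zero_add, powersetCard_one, sum_map, Function.Embedding.coeFn_mk]
    refine le_trans (le_of_eq (by ring)) (h1.trans (le_of_eq ?_))
    simp only [← insert_eq]
  | succ k ih =>
    obtain ⟨c, hc, n₀, h⟩ := ih
    obtain ⟨T, hT⟩ := exists_nat_ge (((k : ℝ) + 4) / c + 1)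
    have hk : 0 ≤ ((k : ℝ) + 4) / c := by positivity
    have hT1 : (1 : ℝ) ≤ T := by linarith only [hT, hk]
    have hT2 : (k : ℝ) + 4 ≤ (T : ℝ) ^ 2 * c := by
      have h1 : ((k : ℝ) + 4) / c ≤ (T : ℝ) ^ 2 := by linarith only [hT, hk, mul_nonneg_of_nonpos_of_nonpos (Mathlib.Tactic.Linarith.sub_nonpos_of_le (Mathlib.Tactic.Linarith.natCast_nonneg ℝ T)) (Mathlib.Tactic.Linarith.sub_nonpos_of_le hT), mul_nonneg_of_nonpos_of_nonpos (Mathlib.Tactic.Linarith.sub_nonpos_of_le (Mathlib.Tactic.Linarith.natCast_nonneg ℝ T)) (Mathlib.Tactic.Linarith.sub_nonpos_of_le hk)]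
      rwa [div_le_iff₀ hc] at h1
    refine ⟨1 / (((T : ℝ) ^ 2) ^ (k + 2) * Real.exp ((T : ℝ) ^ 2)), by positivity,
      n₀ + T ^ 2 + k + 1, fun G hG U hU hK => ?_⟩
    obtain ⟨m, hm⟩ : ∃ m, U.card + 1 = k + 2 + m := ⟨U.card - (k + 1), by omega⟩
    have hn : (0 : ℝ) < U.card := by exact_mod_cast (by omega : 0 < U.card)
    have hn2 : (T : ℝ) ^ 2 ≤ U.card := by exact_mod_cast (by omega : T ^ 2 ≤ U.card)
    have key := State3_step (fun j => (∑ A ∈ powersetCard j U,
        ∑ B ∈ powersetCard j (tr e0 U), G (A ∪ B)) / (U.card : ℝ) ^ (2 * j)) m k ((T : ℝ) ^ 2) c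
      (one_le_pow₀ hT1) (by simp [hG.one])
      (fun j => div_nonneg (sum_nonneg fun _ _ => sum_nonneg fun _ _ => hG.nonneg _) (by positivity))
      (fun j => by
        have h1 := State3_rec hG hU (State3_odd hU) j
        rw [card_tr] at h1
        rw [← mul_div_assoc, div_le_div_iff₀ (by positivity) (by positivity)]
        refine (mul_le_mul_of_nonneg_right h1 (by positivity)).trans (le_of_eq ?_)
        ring)
      (by
        have h1 := State3_exp hG hU (T / U.card)
        rw [hm] at h1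
        have h2 : Real.exp (U.card * ((T : ℝ) / U.card) ^ 2 / 2) ≤ 2 := by
          have h3 : U.card * ((T : ℝ) / U.card) ^ 2 / 2 ≤ 1 / 2 := by
            have h4 : U.card * ((T : ℝ) / U.card) ^ 2 = (T : ℝ) ^ 2 / U.card := by
              field_simp
            rw [h4]
            have := (div_le_one hn).2 hn2
            linarith only [this]
          refine (Real.exp_le_exp.2 h3).trans ?_
          have h5 : Real.exp (1 / 2) * Real.exp (1 / 2) = Real.exp 1 := by
            rw [← Real.exp_add]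
            norm_num
          (refine le_of_not_gt fun h_nl => ?_; linarith only [h_nl, h5, Real.exp_one_lt_d9, Real.exp_pos (1 / 2), mul_pos_of_neg_of_neg (Mathlib.Tactic.Linarith.sub_neg_of_lt h_nl) (Mathlib.Tactic.Linarith.sub_neg_of_lt h_nl)])
        refine le_trans (le_of_eq ?_) (h1.trans h2)
        congr 1
        refine sum_congr rfl fun j _ => ?_
        rw [div_pow, ← neg_div, div_pow, ← pow_mul]
        ring)
      (by
        rw [le_div_iff₀ (by positivity)]
        exact h G hG U hU (by omega))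
      hT2
    rw [div_mul_eq_mul_div, le_div_iff₀ (by positivity)] at key
    rw [div_mul_eq_mul_div, div_le_iff₀ (by positivity)]
    exact key

theorem kpoint (k : ℕ) : ∃ c : ℝ, 0 < c ∧ ∃ n₀ : ℕ, ∀ G, IsState G → ∀ U : Finset V,
    (∀ x ∈ U, IsEven x) → n₀ ≤ U.card →
      c * (U.card : ℝ) ^ (2 * k) ≤
        ∑ A ∈ powersetCard k U, ∑ B ∈ powersetCard k (tr e0 U), G (A ∪ B) := by
  cases k with
  | zero => exact ⟨1, one_pos, 0, fun G hG U _ _ => by simp [hG.one]⟩
  | succ k => exact State3_succ k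

end Pool.Agent.Work.MP_5cb0a4_pr.Z
end
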