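import Pool.Agent.Work.MP_5cb0a4_pr.Defs

/-!
Definitions for the proof that at mean current zero the union of two dimer samples has infinitely
many infinite paths.
-/

open MeasureTheory Finset MvPolynomial

namespace Pool.Agent.Work.MP_5cb0a4_pr.Z

noncomputable section

/-- The six lattice directions. -/
abbrev Dir : Type := Fin 3 × Bool

/-- The unit vector of a direction. -/
def dv (d : Dir) : V := Pi.single d.1 (if d.2 then 1 else -1)

/-- The first unit vector. -/
def e0 : V := Pi.single 0 1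

/-- The edge `(x, i)` joins `x` to `x + e_i`. -/
abbrev Edge : Type := V × Fin 3

def src (e : Edge) : V := e.1

def tgt (e : Edge) : V := e.1 + Pi.single e.2 1

instance : DecidablePred IsEven := fun x => inferInstanceAs (Decidable (Even (∑ i, x i)))

/-- Sign of a vertex. -/
def sg (x : V) : ℝ := if IsEven x then 1 else -1

/-- Edges with both ends in `Λ`. -/
def edges (Λ : Finset V) : Finset Edge := (Λ ×ˢ univ).filter fun e => tgt e ∈ Λ

/-- End points of a set of edges. -/
def verts (D : Finset Edge) : Finset V := D.image src ∪ D.image tgt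

/-- The box `[-t,t]^3`. -/
def box (t : ℕ) : Finset V := Fintype.piFinset fun _ => Finset.Icc (-(t : ℤ)) t

/-- The level set of points of sup norm `t` (for `t ≥ 1`). -/
def lev (t : ℕ) : Finset V := box t \ box (t - 1)

/-- Translate of a finite set. -/
def tr (v : V) (Λ : Finset V) : Finset V := Λ.image (· + v)

/-- Monomer-dimer configurations: involutions whose moved points go to neighbours. -/
def IsExt (σ : V → V) : Prop := ∀ x, (σ x = x ∨ Nbr x (σ x)) ∧ σ (σ x) = x

lemma nbr_iff {x y : V} : Nbr x y ↔ ∃ d : Dir, y = x + dv d := by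
  unfold Nbr
  simp only [Fin.sum_univ_three]
  constructor
  · intro h
    have h0 := abs_nonneg (x 0 - y 0)
    have h1 := abs_nonneg (x 1 - y 1)
    have h2 := abs_nonneg (x 2 - y 2)
    have key : ∀ (i : Fin 3) (b : Bool), (∀ j, y j = x j + if j = i then (if b then 1 else -1) else 0) →
        ∃ d : Dir, y = x + dv d := by
      intro i b hb
      refine ⟨(i, b), funext fun j => ?_⟩
      rw [hb j]
      simp [dv, Pi.single_apply]
    have hc : ∀ a b c : ℤ, |a| + |b| + |c| = 1 → (a = -1 ∧ b = 0 ∧ c = 0) ∨ (a = 1 ∧ b = 0 ∧ c = 0) ∨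
        (a = 0 ∧ b = -1 ∧ c = 0) ∨ (a = 0 ∧ b = 1 ∧ c = 0) ∨ (a = 0 ∧ b = 0 ∧ c = -1) ∨
        (a = 0 ∧ b = 0 ∧ c = 1) := fun a b c e => by
      rcases abs_cases a with p | p <;> rcases abs_cases b with q | q <;>
        rcases abs_cases c with r | r <;> omega
    clear h0 h1 h2
    rcases hc _ _ _ h with q | q | q | q | q | q
    · exact key 0 true (fun j => by fin_cases j <;> simp <;> omega)
    · exact key 0 false (fun j => by fin_cases j <;> simp <;> omega)
    · exact key 1 true (fun j => by fin_cases j <;> simp <;> omega)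
    · exact key 1 false (fun j => by fin_cases j <;> simp <;> omega)
    · exact key 2 true (fun j => by fin_cases j <;> simp <;> omega)
    · exact key 2 false (fun j => by fin_cases j <;> simp <;> omega)
  · rintro ⟨⟨i, b⟩, rfl⟩
    fin_cases i <;> cases b <;> simp [dv]

lemma clsS_finite (Λ : Finset V) (σ : V → V) :
    {ρ : V → V | IsExt ρ ∧ ∀ x ∉ Λ, ρ x = σ x}.Finite := by
  classical
  let N : V → Finset V := fun x => insert x (univ.image fun d : Dir => x + dv d)
  let ext : (∀ x ∈ Λ, V) → V → V := fun f x => if h : x ∈ Λ then f x h else σ x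
  refine Set.Finite.subset ((Λ.pi N).image ext).finite_toSet ?_
  rintro ρ ⟨hρ, hσ⟩
  simp only [coe_image, Set.mem_image, mem_coe, mem_pi]
  refine ⟨fun x _ => ρ x, fun x _ => ?_, funext fun x => ?_⟩
  · rcases (hρ x).1 with h | h
    · simp [N, h]
    · obtain ⟨d, hd⟩ := nbr_iff.1 h
      simp only [N, mem_insert, mem_image, mem_univ, true_and]
      exact Or.inr ⟨d, hd.symm⟩
  · by_cases h : x ∈ Λ
    · simp [ext, h]
    · simp [ext, h, hσ x h]

/-- Monomer-dimer configurations that agree with `σ` off `Λ`. -/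
def cls (Λ : Finset V) (σ : V → V) : Finset (V → V) := (clsS_finite Λ σ).toFinset

lemma mem_cls {Λ : Finset V} {σ ρ : V → V} :
    ρ ∈ cls Λ σ ↔ IsExt ρ ∧ ∀ x ∉ Λ, ρ x = σ x := by
  simp [cls]

/-- Monomers of `ρ` in `Λ`. -/
def mon (Λ : Finset V) (ρ : V → V) : Finset V := Λ.filter fun x => ρ x = x

/-- Vertices of `Λ` not matched to the outside. -/
def free (Λ : Finset V) (σ : V → V) : Finset V := Λ.filter fun x => σ x ∈ Λ

/-- Keep only the dimers inside `Λ`. -/
def res (Λ : Finset V) (σ : V → V) : V → V := fun x => if x ∈ Λ ∧ σ x ∈ Λ then σ x else x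

/-- Fillings of `Λ` without monomers in `Λ`. -/
def perf (Λ : Finset V) (σ : V → V) : Finset (V → V) :=
  (cls Λ σ).filter fun ρ => mon Λ ρ = ∅

/-- Number of fillings with monomer set `X`. -/
def Zm (Λ : Finset V) (σ : V → V) (X : Finset V) : ℕ :=
  ((cls Λ σ).filter fun ρ => mon Λ ρ = X).card

/-- Number of perfect fillings; `zz U id` is the number of perfect matchings of `U`. -/
def zz (Λ : Finset V) (σ : V → V) : ℕ := (perf Λ σ).card

/-- Monomer correlation with boundary condition `σ`. -/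
def Mr (Λ : Finset V) (σ : V → V) (X : Finset V) : ℝ :=
  (Zm Λ σ X : ℝ) / zz Λ σ

/-- Uniform average over perfect fillings. -/
def gam (Λ : Finset V) (g : (V → V) → ℝ) (σ : V → V) : ℝ :=
  (∑ ρ ∈ perf Λ σ, g ρ) / zz Λ σ

/-- `g` depends only on the configuration in `Λ`. -/
def Local {α : Type} (Λ : Finset V) (g : (V → V) → α) : Prop :=
  ∀ σ σ', IsExt σ → IsExt σ' → (∀ x ∈ Λ, σ x = σ' x) → g σ = g σ'

/-- `g` depends only on the configuration outside `Λ`. -/
def Off {α : Type} (Λ : Finset V) (g : (V → V) → α) : Prop :=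
  ∀ σ σ', IsExt σ → IsExt σ' → (∀ x ∉ Λ, σ x = σ' x) → g σ = g σ'

/-- Two-configuration version of `Local`. -/
def Local2 {α : Type} (Λ : Finset V) (g : (V → V) → (V → V) → α) : Prop :=
  ∀ σ₁ σ₂ σ₁' σ₂', IsExt σ₁ → IsExt σ₂ → IsExt σ₁' → IsExt σ₂' → (∀ x ∈ Λ, σ₁ x = σ₁' x) →
    (∀ x ∈ Λ, σ₂ x = σ₂' x) → g σ₁ σ₂ = g σ₁' σ₂'

/-- Translation of a configuration. -/
def sh (v : V) (σ : V → V) : V → V := fun x => σ (x - v) + v

lemma shift_val (v : V) (τ : Dimer) : (shift v τ).1 = sh v τ.1 := rfl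

lemma isExt_dimer (τ : Dimer) : IsExt τ.1 := fun x => ⟨Or.inr (τ.2 x).1, (τ.2 x).2⟩

lemma isExt_id : IsExt id := fun _ => ⟨Or.inl rfl, rfl⟩

/-! ### Polynomials -/

/-- Exponent vector of the squarefree monomial of `U`. -/
def sqf {α : Type} (U : Finset α) : α →₀ ℕ := ∑ v ∈ U, Finsupp.single v 1

/-- Edge polynomial of a two by two matrix. -/
def mE {α R : Type} [CommRing R] (x y : α) (M : Bool → Bool → R) :
    MvPolynomial α R :=
  C (M false false) + C (M true false) * X x + C (M false true) * X y +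
    C (M true true) * X x * X y

/-- Edge polynomial with the dimer factor `1 + X x * X y` divided out (modulo squares). -/
def nE {α R : Type} [CommRing R] (x y : α) (M : Bool → Bool → R) :
    MvPolynomial α R :=
  C (M false false) + C (M true false) * X x + C (M false true) * X y +
    C (M true true - M false false) * X x * X y

/-- The identity matrix. -/
def idM {R : Type} [CommRing R] : Bool → Bool → R := fun i j => if i = j then 1 else 0

/-- Contractions of `ℂ²`, in bilinear form. -/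
def Contr (M : Bool → Bool → ℂ) : Prop :=
  ∀ u v : Bool → ℂ, ‖∑ i, ∑ j, u i * M i j * v j‖ ^ 2 ≤ (∑ i, ‖u i‖ ^ 2) * ∑ j, ‖v j‖ ^ 2

/-- Real contractions. -/
def ContrR (M : Bool → Bool → ℝ) : Prop := Contr fun i j => (M i j : ℂ)

/-- Coefficient of the monomer set `X` in a product of edge insertions. -/
def cX {R : Type} [CommRing R] (D : Finset Edge) (M : Edge → Bool → Bool → R)
    (X : Finset V) : R :=
  coeff (sqf X) (∏ e ∈ D, nE (src e) (tgt e) (M e))

/-- Value of a monomer function `G` on a product of edge insertions. -/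
def Ysum (D : Finset Edge) (M : Edge → Bool → Bool → ℝ) (G : Finset V → ℝ) : ℝ :=
  ∑ X ∈ (verts D).powerset, cX D M X * G X

/-- The cube `[0,n)^3`. -/
def cube (n : ℕ) : Finset V := Fintype.piFinset fun _ => Finset.Ico (0 : ℤ) n

/-- The interior `[1,n-1)^3` of the cube. -/
def inner (n : ℕ) : Finset V := Fintype.piFinset fun _ => Finset.Ico (1 : ℤ) (n - 1)

/-- Largest number of perfect matchings of the cube with some boundary vertices removed. -/
def zc (n : ℕ) : ℕ :=
  ((cube n).powerset.filter fun U => inner n ⊆ U).sup fun U => zz U id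

/-- The reference partition function for the box of radius `L`. -/
def Zs (L : ℕ) : ℝ := 2 ^ (3 * (2 * L + 2) ^ 2) * zc (2 * L + 2)

/-- Weight of a configuration for a product insertion. -/
def wt (Λ : Finset V) (D : Finset Edge) (M : Edge → Bool → Bool → ℂ)
    (t : Edge → ℂ) (ρ : V → V) : ℂ :=
  cX D M (mon Λ ρ) * ∏ e ∈ edges Λ, if ρ (src e) = tgt e then t e else 1

/-- Combinations of product insertions in `Λ`, with a bound for the total weight. -/
inductive Mix (Λ : Finset V) : ((V → V) → ℂ) → ℝ → Prop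
  | adm (D : Finset Edge) (M : Edge → Bool → Bool → ℂ) (t : Edge → ℂ) : D ⊆ edges Λ →
      (∀ e ∈ D, Contr (M e)) → (∀ e, ‖t e‖ ≤ 1) → (∀ e ∈ D, t e = 1) → Mix Λ (wt Λ D M t) 1
  | smul (a : ℂ) {w : (V → V) → ℂ} {β : ℝ} : Mix Λ w β → Mix Λ (fun ρ => a * w ρ) (‖a‖ * β)
  | add {w w' : (V → V) → ℂ} {β β' : ℝ} : Mix Λ w β → Mix Λ w' β' →
      Mix Λ (fun ρ => w ρ + w' ρ) (β + β')
  | mono {w w' : (V → V) → ℂ} {β β' : ℝ} : Mix Λ w β → (∀ ρ, IsExt ρ → w' ρ = w ρ) → β ≤ β' →
      Mix Λ w' β'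

/-! ### Fluxes -/

/-- The flow of a configuration along the oriented edge `x → y`. -/
def fl (σ : V → V) (x y : V) : ℝ := sg x * ((if σ x = y then 1 else 0) - 1 / 6)

/-- The `l × l` square orthogonal to `e_i` with corner `c`. -/
def sq (i : Fin 3) (c : V) (l : ℕ) : Finset V :=
  Fintype.piFinset fun j => if j = i then {c j} else Finset.Ico (c j) (c j + l)

/-- Flux through a square in direction `d`. -/
def FQ (σ : V → V) (d : Dir) (c : V) (l : ℕ) : ℝ :=
  ∑ x ∈ sq d.1 c l, fl σ x (x + dv d)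

/-- Corner of the square number `p` of the face `d` of the box of radius `t`. -/
def corner (d : Dir) (t l : ℕ) (p : ℕ × ℕ) : V := fun j =>
  if j = d.1 then (if d.2 then (t : ℤ) else -(t : ℤ))
  else if j = d.1 + 1 then -(t : ℤ) + l * p.1 else -(t : ℤ) + l * p.2

/-- Index set of the squares of a face. -/
def sqs (t l : ℕ) : Finset (ℕ × ℕ) := range ((2 * t + 1) / l) ×ˢ range ((2 * t + 1) / l)

/-- Total flux out of the box of radius `t`. -/
def Phi (σ : V → V) (t : ℕ) : ℝ :=
  ∑ d : Dir, FQ σ d (corner d t 0 (0, 0)) (2 * t + 1)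

/-- Sum of squared fluxes over the squares of the levels `b - w < t < b`. -/
def Psi (b w l : ℕ) (σ : V → V) : ℝ :=
  ∑ t ∈ Finset.Ioo (b - w) b, ∑ d : Dir, ∑ p ∈ sqs t l, FQ σ d (corner d t l p) l ^ 2

/-- Number of edges inside level `t` leaving `S`. -/
def beta (S : Finset V) (t : ℕ) : ℕ :=
  ((lev t ×ˢ (univ : Finset Dir)).filter fun q =>
    q.1 ∈ S ∧ q.1 + dv q.2 ∈ lev t ∧ q.1 + dv q.2 ∉ S).card

/-- Flux from the part of `S` in level `t` to level `t + 1`. -/
def Out (σ : V → V) (S : Finset V) (t : ℕ) : ℝ :=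
  ∑ x ∈ lev t ∩ S, ∑ d : Dir, if x + dv d ∈ box t then 0 else fl σ x (x + dv d)

/-! ### Random walk, states, connections -/

/-- Transition probabilities of simple random walk from the origin. -/
def pk : ℕ → V → ℝ
  | 0, x => if x = 0 then 1 else 0
  | n + 1, x => (∑ d : Dir, pk n (x + dv d)) / 6

/-- Limits of monomer correlations. -/
structure IsState (G : Finset V → ℝ) : Prop where
  one : G ∅ = 1
  nonneg : ∀ X, 0 ≤ G X
  neutral : ∀ X, G X ≠ 0 → (X.filter IsEven).card = (X.filter fun v => ¬ IsEven v).card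
  sum : ∀ x, ∑ d : Dir, G {x, x + dv d} = 1
  switch : ∀ (X Y : Finset V) (x : V), (∀ v ∈ X, IsEven v) → (∀ v ∈ Y, ¬ IsEven v) → IsEven x →
    x ∉ X → G (insert x X ∪ Y) ≤ ∑ y ∈ Y, G {x, y} * G (X ∪ Y.erase y)
  gd : ∀ (D : Finset Edge) (M : Edge → Bool → Bool → ℝ), (∀ e ∈ D, ContrR (M e)) →
    Ysum D M G ≤ 1

/-- Bounded Dirichlet energy of `φ` on the neighbours of the vertices of parity `b`. -/
def Energy (b : Prop) (φ : V → ℝ) : Prop :=
  ∀ Y : Finset V, (∀ y ∈ Y, IsEven y ↔ b) →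
    ∑ y ∈ Y, ∑ d : Dir, (φ (y + dv d) - (∑ d' : Dir, φ (y + dv d')) / 6) ^ 2 ≤ 3

open Classical in
/-- Value of `G` on a pair of tuples. -/
def Gam {k : ℕ} (G : Finset V → ℝ) (x y : Fin k → V) : ℝ :=
  if Function.Injective x ∧ Function.Injective y then G (univ.image x ∪ univ.image y) else 0

/-- Connection in the union of two configurations. -/
def Conn (σ₁ σ₂ : V → V) : V → V → Prop :=
  Relation.ReflTransGen fun u v => σ₁ u = v ∨ σ₂ u = v

/-- Connection inside the box of radius `R`. -/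
def RB (R : ℕ) (σ₁ σ₂ : V → V) : V → V → Prop :=
  Relation.ReflTransGen fun u v => u ∈ box R ∧ v ∈ box R ∧ (σ₁ u = v ∨ σ₂ u = v)

/-- The points `x i` are in distinct components inside the box, each reaching its boundary. -/
def Ev {k : ℕ} (x : Fin k → V) (R : ℕ) (σ₁ σ₂ : V → V) : Prop :=
  (∀ i j, i ≠ j → ¬ RB R σ₁ σ₂ (x i) (x j)) ∧ ∀ i, ∃ y ∈ lev R, RB R σ₁ σ₂ (x i) y

open Classical in
/-- The observable of the double transfer. -/
def fD {k : ℕ} (x y : Fin k → V) (R m : ℕ) (σ₁ σ₂ : V → V) : ℝ :=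
  Mr (box m) σ₁ (univ.image x ∪ univ.image y) *
      Mr (box m) σ₂ (univ.image (fun i => y i + e0) ∪ univ.image fun i => x i + e0) -
    if Ev x R σ₁ σ₂ then 1 else 0

/-- Admissible positions for the double transfer. -/
structure Pos {k : ℕ} (x y : Fin k → V) (R m : ℕ) : Prop where
  xinj : Function.Injective x
  yinj : Function.Injective y
  xeven : ∀ i, IsEven (x i)
  yodd : ∀ i, ¬ IsEven (y i)
  xin : ∀ i, x i ∈ box (R - 2)
  yout : ∀ i, y i ∉ box (R + 1)
  yin : ∀ i, y i ∈ box (m - 1)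
  hR : 2 ≤ R
  hm : R + 2 ≤ m

/-- Ergodic Gibbs measures of mean current zero. -/
structure EG0 (ν : Measure Dimer) : Prop where
  eg : IsErgodicGibbs ν
  zero : meanCurrent ν = 0

/-! ### Small facts -/

lemma mem_box {t : ℕ} {x : V} : x ∈ box t ↔ ∀ i, -(t : ℤ) ≤ x i ∧ x i ≤ t := by
  simp [box, Fintype.mem_piFinset]

lemma card_box (t : ℕ) : (box t).card = (2 * t + 1) ^ 3 := by
  rw [box, Fintype.card_piFinset]
  simp only [Int.card_Icc, prod_const, card_univ, Fintype.card_fin]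
  congr 1
  omega

lemma box_mono {s t : ℕ} (h : s ≤ t) : box s ⊆ box t := fun x hx =>
  mem_box.2 fun i => by have := mem_box.1 hx i; omega

lemma mem_lev {t : ℕ} {x : V} : x ∈ lev t ↔ x ∈ box t ∧ x ∉ box (t - 1) := by simp [lev]

lemma mem_cube {n : ℕ} {x : V} : x ∈ cube n ↔ ∀ i, 0 ≤ x i ∧ x i < n := by
  simp [cube, Fintype.mem_piFinset]

lemma mem_inner {n : ℕ} {x : V} : x ∈ inner n ↔ ∀ i, 1 ≤ x i ∧ x i < n - 1 := by
  simp [inner, Fintype.mem_piFinset]

lemma mem_sq {i : Fin 3} {c x : V} {l : ℕ} :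
    x ∈ sq i c l ↔ x i = c i ∧ ∀ j, j ≠ i → c j ≤ x j ∧ x j < c j + l := by
  simp only [sq, Fintype.mem_piFinset]
  constructor
  · intro h
    refine ⟨by simpa using h i, fun j hj => by simpa [hj] using h j⟩
  · rintro ⟨h1, h2⟩ j
    by_cases hj : j = i
    · subst hj; simpa using h1
    · simpa [hj] using h2 j hj

lemma mem_edges {Λ : Finset V} {e : Edge} : e ∈ edges Λ ↔ src e ∈ Λ ∧ tgt e ∈ Λ := by
  simp [edges, src]

lemma mem_tr {v x : V} {Λ : Finset V} : x ∈ tr v Λ ↔ x - v ∈ Λ := by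
  simp only [tr, mem_image]
  constructor
  · rintro ⟨y, hy, rfl⟩; simpa using hy
  · intro h; exact ⟨x - v, h, by simp⟩

lemma card_tr (v : V) (Λ : Finset V) : (tr v Λ).card = Λ.card :=
  card_image_of_injective _ (add_left_injective v)

lemma mem_mon {Λ : Finset V} {ρ : V → V} {x : V} : x ∈ mon Λ ρ ↔ x ∈ Λ ∧ ρ x = x := by
  simp [mon]

lemma mem_free {Λ : Finset V} {ρ : V → V} {x : V} : x ∈ free Λ ρ ↔ x ∈ Λ ∧ ρ x ∈ Λ := by
  simp [free]

lemma mem_perf {Λ : Finset V} {σ ρ : V → V} :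
    ρ ∈ perf Λ σ ↔ (IsExt ρ ∧ ∀ x ∉ Λ, ρ x = σ x) ∧ ∀ x ∈ Λ, ρ x ≠ x := by
  simp [perf, mem_cls, mon, filter_eq_empty_iff]

lemma zz_eq (Λ : Finset V) (σ : V → V) : zz Λ σ = Zm Λ σ ∅ := rfl

lemma isEven_add {x y : V} : IsEven (x + y) ↔ (IsEven x ↔ IsEven y) := by
  simp only [IsEven, Pi.add_apply, sum_add_distrib, Int.even_add]

lemma isEven_neg {x : V} : IsEven (-x) ↔ IsEven x := by
  simp only [IsEven, Pi.neg_apply, sum_neg_distrib, even_neg]

lemma not_isEven_dv (d : Dir) : ¬ IsEven (dv d) := by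
  obtain ⟨i, b⟩ := d
  fin_cases i <;> cases b <;> simp [IsEven, dv]

lemma isEven_add_dv {x : V} {d : Dir} : IsEven (x + dv d) ↔ ¬ IsEven x := by
  rw [isEven_add]; have := not_isEven_dv d; tauto

lemma e0_eq : e0 = dv (0, true) := by simp [e0, dv]

lemma tgt_eq (e : Edge) : tgt e = src e + dv (e.2, true) := by simp [tgt, src, dv]

lemma dv_not (d : Dir) : dv (d.1, !d.2) = -dv d := by
  obtain ⟨i, b⟩ := d
  cases b <;> simp [dv, Pi.single_neg]

lemma dv_injective : Function.Injective dv := by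
  rintro ⟨i, b⟩ ⟨j, c⟩ h
  have h1 := congrFun h i
  have h2 := congrFun h j
  fin_cases i <;> fin_cases j <;> cases b <;> cases c <;> simp_all [dv]

lemma dv_ne_zero (d : Dir) : dv d ≠ 0 := fun h => not_isEven_dv d (by simp [h, IsEven])

lemma nbr_symm {x y : V} (h : Nbr x y) : Nbr y x := by
  unfold Nbr at *
  rw [← h]
  exact sum_congr rfl fun i _ => abs_sub_comm _ _

lemma nbr_parity {x y : V} (h : Nbr x y) : IsEven y ↔ ¬ IsEven x := by
  obtain ⟨d, rfl⟩ := nbr_iff.1 h
  exact isEven_add_dv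

lemma add_dv_mem_box {t : ℕ} {x : V} (hx : x ∈ box t) (d : Dir) : x + dv d ∈ box (t + 1) := by
  refine mem_box.2 fun i => ?_
  have := mem_box.1 hx i
  simp only [Pi.add_apply, dv, Pi.single_apply]
  push_cast
  split_ifs <;> omega

lemma IsExt.inj {σ : V → V} (h : IsExt σ) : Function.Injective σ := fun x y hxy => by
  rw [← (h x).2, hxy, (h y).2]

lemma isExt_sh {σ : V → V} (h : IsExt σ) (v : V) : IsExt (sh v σ) := fun x => by
  refine ⟨?_, by simp [sh, (h (x - v)).2]⟩
  rcases (h (x - v)).1 with h1 | h1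
  · left; simp [sh, h1]
  · right
    obtain ⟨d, hd⟩ := nbr_iff.1 h1
    exact nbr_iff.2 ⟨d, by simp only [sh]; rw [hd]; abel⟩

lemma sh_sh (v w : V) (σ : V → V) : sh v (sh w σ) = sh (v + w) σ := by
  funext x
  simp only [sh, sub_sub]
  rw [add_assoc, add_comm w v]

lemma sh_zero (σ : V → V) : sh 0 σ = σ := by funext x; simp [sh]

lemma self_mem_cls {σ : V → V} (h : IsExt σ) (Λ : Finset V) : σ ∈ cls Λ σ :=
  mem_cls.2 ⟨h, fun _ _ => rfl⟩

lemma cls_eq {Λ : Finset V} {σ σ' : V → V} (h : ∀ x ∉ Λ, σ x = σ' x) : cls Λ σ = cls Λ σ' := by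
  ext ρ
  simp only [mem_cls]
  exact and_congr_right fun _ => forall₂_congr fun x hx => by rw [h x hx]

lemma zz_dimer_pos (Λ : Finset V) (τ : Dimer) : 0 < zz Λ τ.1 := by
  refine card_pos.2 ⟨τ.1, mem_perf.2 ⟨⟨isExt_dimer τ, fun _ _ => rfl⟩, fun x _ h => ?_⟩⟩
  have := (τ.2 x).1
  rw [h] at this
  simp [Nbr] at this

/-- A grid of disjoint translates of the box of radius `m` with even centres. -/
lemma exists_centers (m J : ℕ) : ∃ C : Finset V, C.card = (2 * J + 1) ^ 3 ∧
    (∀ c ∈ C, IsEven c) ∧ (∀ c ∈ C, tr c (box m) ⊆ box ((2 * m + 2) * J + m)) ∧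
    ∀ c ∈ C, ∀ c' ∈ C, c ≠ c' → Disjoint (tr c (box m)) (tr c' (box m)) := by
  have hinj : Function.Injective fun j : V => fun i => (2 * (m : ℤ) + 2) * j i := by
    intro j j' h
    funext i
    have := congrFun h i
    simp only at this
    exact mul_left_cancel₀ (by positivity) this
  refine ⟨(box J).image fun j => fun i => (2 * (m : ℤ) + 2) * j i, ?_, ?_, ?_, ?_⟩
  · rw [card_image_of_injective _ hinj, card_box]
  · intro c hc
    obtain ⟨j, -, rfl⟩ := mem_image.1 hc
    simp only [IsEven, ← mul_sum]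
    exact Even.mul_right ⟨(m : ℤ) + 1, by ring⟩ _
  · intro c hc x hx
    obtain ⟨j, hj, rfl⟩ := mem_image.1 hc
    refine mem_box.2 fun i => ?_
    have h1 := mem_box.1 (mem_tr.1 hx) i
    have h2 := mem_box.1 hj i
    simp only [Pi.sub_apply] at h1
    push_cast
    constructor <;> nlinarith [h1.1, h1.2, h2.1, h2.2]
  · intro c hc c' hc' hne
    obtain ⟨j, -, rfl⟩ := mem_image.1 hc
    obtain ⟨j', -, rfl⟩ := mem_image.1 hc'
    refine disjoint_left.2 fun x hx hx' => hne ?_
    funext i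
    have h1 := mem_box.1 (mem_tr.1 hx) i
    have h2 := mem_box.1 (mem_tr.1 hx') i
    simp only [Pi.sub_apply] at h1 h2
    have : j i = j' i := by
      by_contra hn
      rcases lt_or_gt_of_ne hn with h | h
      · have : j i + 1 ≤ j' i := h
        nlinarith [h1.1, h1.2, h2.1, h2.2]
      · have : j' i + 1 ≤ j i := h
        nlinarith [h1.1, h1.2, h2.1, h2.2]
    simp [this]

end

end Pool.Agent.Work.MP_5cb0a4_pr.Z
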